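import Mathlib
import Pool.Agent.Lib.MP_44a246_ntS.SE5c
import Pool.Agent.Lib.MP_44a246_ntS.SG1b

/-!
Forms of large degree are in the ideal generated by two relatively prime forms of arbitrary degrees
and a constant linear form; contraction by a power of the linear form is injective on the
functionals killed by the two forms.
-/

namespace Pool.Agent.Lib.MP_44a246_ntC

open Pool.Agent.Lib.MP_44a246_nt
open Pool.Agent.Lib.MP_44a246_ntL
open Pool.Agent.Lib.MP_44a246_ntS
open Pool.Agent.Lib.MP_e52354_nt
open WithZero Module MvPolynomial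

private theorem bezout_deg_aux {L : Type*} [Field L] {e e' m : ℕ} (he : 1 ≤ e)
    (hm : e + e' ≤ m + 1) {f g : Polynomial L} (hf : f.natDegree ≤ e) (hg : g.natDegree ≤ e')
    (hfg : IsCoprime f g) (hfe : f.coeff e ≠ 0) {G : Polynomial L} (hG : G.natDegree ≤ m)
    (he' : 1 ≤ e') :
    ∃ u v : Polynomial L, u.natDegree ≤ m - e ∧ v.natDegree ≤ m - e' ∧ G = u * f + v * g := by
  have hfd : f.natDegree = e := le_antisymm hf (Polynomial.le_natDegree_of_ne_zero hfe)
  have hf0 : f ≠ 0 := by
    rintro rfl
    simp at hfe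
  obtain ⟨a, b, hab⟩ := hfg
  have hv : ((G * b) % f).natDegree < e := by
    have := Polynomial.natDegree_mod_lt (G * b) (q := f) (by omega)
    omega
  have hdm : f * ((G * b) / f) + (G * b) % f = G * b := EuclideanDomain.div_add_mod (G * b) f
  have hGe : G = (G * a + (G * b) / f * g) * f + (G * b) % f * g := by
    calc G = G * (a * f + b * g) := by rw [hab, mul_one]
      _ = G * a * f + (G * b) * g := by ring
      _ = G * a * f + (f * ((G * b) / f) + (G * b) % f) * g := by rw [hdm]
      _ = _ := by ring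
  refine ⟨G * a + (G * b) / f * g, (G * b) % f, ?_, by omega, hGe⟩
  set u := G * a + (G * b) / f * g with hu
  set v := (G * b) % f with hv'
  by_cases hu0 : u = 0
  · rw [hu0]; simp
  have h1 : (u * f).natDegree = u.natDegree + e := by
    rw [Polynomial.natDegree_mul hu0 hf0, hfd]
  have h2 : u * f = G - v * g := by rw [eq_sub_iff_add_eq]; exact hGe.symm
  have h3 : (G - v * g).natDegree ≤ m := by
    refine (Polynomial.natDegree_sub_le _ _).trans (max_le hG ?_)
    refine Polynomial.natDegree_mul_le.trans ?_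
    omega
  rw [← h2, h1] at h3
  omega

/-- Bezout with degrees -/
theorem bezout_deg {L : Type*} [Field L] {e e' m : ℕ} (he : 1 ≤ e) (he' : 1 ≤ e')
    (hm : e + e' ≤ m + 1) {f g : Polynomial L} (hf : f.natDegree ≤ e) (hg : g.natDegree ≤ e')
    (hfg : IsCoprime f g) (hfe : f.coeff e ≠ 0 ∨ g.coeff e' ≠ 0) {G : Polynomial L}
    (hG : G.natDegree ≤ m) :
    ∃ u v : Polynomial L, u.natDegree ≤ m - e ∧ v.natDegree ≤ m - e' ∧ G = u * f + v * g := by
  rcases hfe with h | h
  · exact bezout_deg_aux he hm hf hg hfg h hG he'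
  · obtain ⟨u, v, hu, hv, hG'⟩ := bezout_deg_aux he' (by omega) hg hf hfg.symm h hG he
    exact ⟨v, u, hv, hu, by rw [hG', add_comm]⟩

/-- **Finiteness** of the common zeros in the projective plane. -/
theorem finite_zeros' {L : Type*} [Field L] [CharZero L] {f g : MvPolynomial (Fin 3) L}
    {e e' : ℕ} (he : 1 ≤ e) (he' : 1 ≤ e') (hf : f.IsHomogeneous e) (hg : g.IsHomogeneous e')
    (h : IsRelPrime f g) :
    ∃ Z : Finset (Fin 3 → AlgebraicClosure L), (∀ P ∈ Z, P ≠ 0) ∧
      ∀ P : Fin 3 → AlgebraicClosure L, P ≠ 0 → aeval P f = 0 → aeval P g = 0 →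
        ∃ c : AlgebraicClosure L, c ≠ 0 ∧ (fun i => c * P i) ∈ Z := by
  have h1 : (f ^ e').IsHomogeneous (e * e') := hf.pow e'
  have h2 : (g ^ e).IsHomogeneous (e * e') := by
    have := hg.pow e
    rwa [mul_comm] at this
  have h3 : IsRelPrime (f ^ e') (g ^ e) := h.pow
  obtain ⟨Z, hZ0, hZ⟩ := finite_zeros h1 h2 h3
  refine ⟨Z, hZ0, fun P hP h4 h5 => hZ P hP ?_ ?_⟩
  · rw [map_pow, h4, zero_pow (by omega)]
  · rw [map_pow, h5, zero_pow (by omega)]

/-- **The linear form.** -/
theorem exists_lin' {L : Type*} [Field L] [CharZero L] {e e' : ℕ} (he : 1 ≤ e) (he' : 1 ≤ e')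
    {f g : MvPolynomial (Fin 3) L} (hf : f.IsHomogeneous e) (hg : g.IsHomogeneous e')
    (h : IsRelPrime f g) {p : Fin 3 → L} (hp : p ≠ 0) :
    ∃ a b : ℕ, eval p (lin L a b) ≠ 0 ∧ ∀ m, e + e' ≤ m + 1 → ∀ G : MvPolynomial (Fin 3) L,
      G.IsHomogeneous m → ∃ u v w : MvPolynomial (Fin 3) L, u.IsHomogeneous (m - e) ∧
        v.IsHomogeneous (m - e') ∧ w.IsHomogeneous (m - 1) ∧ G = u * f + v * g + w * lin L a b := by
  classical
  have : Infinite L := CharZero.infinite L
  obtain ⟨Z, hZ0, hZ⟩ := finite_zeros' he he' hf hg h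
  have hinj : Function.Injective (algebraMap L (AlgebraicClosure L)) :=
    (algebraMap L (AlgebraicClosure L)).injective
  obtain ⟨a, b, hab⟩ := exists_avoid
    (insert (fun i => algebraMap L (AlgebraicClosure L) (p i)) Z) (by
      intro P hP
      rcases Finset.mem_insert.1 hP with rfl | hP
      · intro h0
        apply hp
        funext i
        have h1 := congrFun h0 i
        simp only [Pi.zero_apply] at h1 ⊢
        exact hinj (by rw [h1, map_zero])
      · exact hZ0 P hP)
  have hkey : ∀ P : Fin 3 → AlgebraicClosure L, P ≠ 0 → aeval P f = 0 → aeval P g = 0 →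
      P 0 + a * P 1 + b * P 2 ≠ 0 := by
    intro P hP h1 h2 h3
    obtain ⟨c, _, hcZ⟩ := hZ P hP h1 h2
    apply hab _ (Finset.mem_insert_of_mem hcZ)
    calc c * P 0 + a * (c * P 1) + b * (c * P 2) = c * (P 0 + a * P 1 + b * P 2) := by ring
      _ = 0 := by rw [h3, mul_zero]
  refine ⟨a, b, ?_, ?_⟩
  · intro h0
    apply hab _ (Finset.mem_insert_self _ _)
    have h1 : p 0 + a * p 1 + b * p 2 = 0 := by
      simpa [lin] using h0
    have h2 := congrArg (algebraMap L (AlgebraicClosure L)) h1
    simpa using h2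
  · -- restriction to the line
    have hline : ∀ (t : AlgebraicClosure L) (H : MvPolynomial (Fin 3) L),
        Polynomial.aeval t (toLine a b H) =
          aeval ![-((a : AlgebraicClosure L) * t) - (b : AlgebraicClosure L), t, 1] H := by
      intro t H
      unfold toLine
      rw [← AlgHom.comp_apply, comp_aeval]
      congr 2
      funext i
      fin_cases i <;> simp
    have hcop : IsCoprime (toLine a b f) (toLine a b g) := by
      rw [Polynomial.isCoprime_iff_aeval_ne_zero_of_isAlgClosed L (AlgebraicClosure L)]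
      intro t
      by_contra hcon
      push Not at hcon
      obtain ⟨h1, h2⟩ := hcon
      rw [hline] at h1 h2
      refine hkey _ ?_ h1 h2 ?_
      · intro h3
        have := congrFun h3 2
        simp at this
      · simp only [Matrix.cons_val_zero, Matrix.cons_val_one, Matrix.cons_val]
        ring
    have hcoe : (toLine a b f).coeff e ≠ 0 ∨ (toLine a b g).coeff e' ≠ 0 := by
      by_contra hcon
      push Not at hcon
      obtain ⟨h1, h2⟩ := hcon
      rw [(natDegree_toLine a b hf).2] at h1
      rw [(natDegree_toLine a b hg).2] at h2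
      have h3 : ∀ H : MvPolynomial (Fin 3) L, eval ![-(a : L), 1, 0] H = 0 →
          aeval (fun i => algebraMap L (AlgebraicClosure L) (![-(a : L), 1, 0] i)) H = 0 := by
        intro H hH
        have := MvPolynomial.aeval_algebraMap_apply (AlgebraicClosure L) ![-(a : L), 1, 0] H
        have h4 : (fun i => algebraMap L (AlgebraicClosure L) (![-(a : L), 1, 0] i)) =
          (algebraMap L (AlgebraicClosure L)) ∘ ![-(a : L), 1, 0] := rfl
        rw [h4, this, aeval_eq_eval, hH, map_zero]
      refine hkey _ ?_ (h3 f h1) (h3 g h2) ?_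
      · intro h5
        have := congrFun h5 1
        simp at this
      · simp
    intro m hm G hG
    obtain ⟨u, v, hu, hv, hGuv⟩ := bezout_deg he he' hm (natDegree_toLine a b hf).1
      (natDegree_toLine a b hg).1 hcop hcoe (natDegree_toLine a b hG).1
    obtain ⟨u', hu', rfl⟩ := exists_toLine a b hu
    obtain ⟨v', hv', rfl⟩ := exists_toLine a b hv
    have hme : m - e + e = m := Nat.sub_add_cancel (by omega)
    have hme' : m - e' + e' = m := Nat.sub_add_cancel (by omega)
    have h1 : (G - u' * f - v' * g).IsHomogeneous m := by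
      have h2 := hu'.mul hf
      have h3 := hv'.mul hg
      rw [hme] at h2
      rw [hme'] at h3
      exact (hG.sub h2).sub h3
    have h2 : toLine a b (G - u' * f - v' * g) = 0 := by
      have h3 : toLine a b (G - u' * f - v' * g) =
          toLine a b G - toLine a b (u' * f) - toLine a b (v' * g) := by
        unfold toLine
        rw [map_sub, map_sub]
      rw [h3, toLine_mul, toLine_mul, hGuv]
      ring
    obtain ⟨w, hw, hw2⟩ := dvd_of_toLine a b h1 h2
    refine ⟨u', v', w, hu', hv', hw, ?_⟩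
    rw [← hw2]
    ring

/-- a functional of degree `m` killed by `f, g, l` is zero -/
theorem eq_zero_of_kill' {L : Type*} [Field L] {e e' m : ℕ} (hem : e + e' ≤ m + 1) (he : 1 ≤ e)
    (he' : 1 ≤ e') {f g l : MvPolynomial (Fin 3) L} (hf : f.IsHomogeneous e)
    (hg : g.IsHomogeneous e') (hl : l.IsHomogeneous 1)
    (hall : ∀ G : MvPolynomial (Fin 3) L,
      G.IsHomogeneous m → ∃ u v w : MvPolynomial (Fin 3) L, u.IsHomogeneous (m - e) ∧
        v.IsHomogeneous (m - e') ∧ w.IsHomogeneous (m - 1) ∧ G = u * f + v * g + w * l)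
    {u : M3 m → L} (h1 : (ctr f (m - e) m).mulVec u = 0) (h2 : (ctr g (m - e') m).mulVec u = 0)
    (h3 : (ctr l (m - 1) m).mulVec u = 0) : u = 0 := by
  refine eq_zero_of_pr fun G hG => ?_
  obtain ⟨a, b, w, ha, hb, hw, rfl⟩ := hall G hG
  rw [pr_add, pr_add, pr_ctr (show m - e + e = m by omega) ha hf u,
    pr_ctr (show m - e' + e' = m by omega) hb hg u,
    pr_ctr (show m - 1 + 1 = m by omega) hw hl u, h1, h2, h3]
  simp [pr]

/-- **Injectivity** of the contraction by `l ^ j` on the functionals killed by `f, g` -/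
theorem eq_zero_of_pow' {L : Type*} [Field L] {e e' : ℕ} (he : 1 ≤ e) (he' : 1 ≤ e')
    {f g l : MvPolynomial (Fin 3) L} (hf : f.IsHomogeneous e) (hg : g.IsHomogeneous e')
    (hl : l.IsHomogeneous 1)
    (hall : ∀ m, e + e' ≤ m + 1 → ∀ G : MvPolynomial (Fin 3) L,
      G.IsHomogeneous m → ∃ u v w : MvPolynomial (Fin 3) L, u.IsHomogeneous (m - e) ∧
        v.IsHomogeneous (m - e') ∧ w.IsHomogeneous (m - 1) ∧ G = u * f + v * g + w * l)
    {r : ℕ} (hr : e + e' ≤ r + 1) (j : ℕ) {u : M3 (r + j) → L}
    (h1 : (ctr f (r + j - e) (r + j)).mulVec u = 0)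
    (h2 : (ctr g (r + j - e') (r + j)).mulVec u = 0)
    (h3 : (ctr (l ^ j) r (r + j)).mulVec u = 0) : u = 0 := by
  -- induction on `j`; the contractions commute
  induction j with
  | zero =>
    rw [pow_zero] at h3
    refine eq_zero_of_pr fun G hG => ?_
    have h4 := pr_ctr (show r + 0 = r + 0 from rfl) hG (isHomogeneous_one (Fin 3) L) u
    rw [h3, mul_one] at h4
    rw [h4]
    simp [pr]
  | succ j ih =>
    have hlj : (l ^ j).IsHomogeneous j := by
      have := hl.pow j
      rwa [one_mul] at this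
    have k0 : (ctr l (r + j) (r + (j + 1))).mulVec u = 0 := by
      apply ih
      · rw [ctr_mul (show (r + j) + 1 = r + (j + 1) by omega)
          (show r + j - e + e = r + j by omega) hl hf u, mul_comm f l,
          ← ctr_mul (show r + (j + 1) - e + e = r + (j + 1) by omega)
          (show r + j - e + 1 = r + (j + 1) - e by omega) hf hl u, h1, Matrix.mulVec_zero]
      · rw [ctr_mul (show (r + j) + 1 = r + (j + 1) by omega)
          (show r + j - e' + e' = r + j by omega) hl hg u, mul_comm g l,
          ← ctr_mul (show r + (j + 1) - e' + e' = r + (j + 1) by omega)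
          (show r + j - e' + 1 = r + (j + 1) - e' by omega) hg hl u, h2, Matrix.mulVec_zero]
      · rw [ctr_mul (show (r + j) + 1 = r + (j + 1) by omega) rfl hl hlj u, ← pow_succ, h3]
    exact eq_zero_of_kill' (e := e) (e' := e') (m := r + (j + 1)) (by omega) he he' hf hg hl
      (hall _ (by omega)) h1 h2 k0

end Pool.Agent.Lib.MP_44a246_ntC
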