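import Mathlib
import Pool.Agent.Lib.MP_44a246_ntS.SE1b

/-!
A combination of two relatively prime forms which is relatively prime to a given form.
-/

namespace Pool.Agent.Lib.MP_44a246_ntC

open Pool.Agent.Lib.MP_44a246_ntS
open MvPolynomial

/-- a combination of two relatively prime forms which is relatively prime to a given form -/
theorem exists_comb {L : Type*} [Field L] [Infinite L] {f g f₁ : MvPolynomial (Fin 3) L}
    (h : IsRelPrime f g) (hf₁ : f₁ ≠ 0) : ∃ c : L, IsRelPrime f₁ (f + C c * g) := by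
  classical
  set F := (UniqueFactorizationMonoid.factors f₁).toFinset with hF
  have hirr : ∀ π ∈ F, Irreducible π := fun π hπ =>
    UniqueFactorizationMonoid.irreducible_of_factor π (Multiset.mem_toFinset.1 hπ)
  have hsub : ∀ π ∈ F, {c : L | π ∣ f + C c * g}.Subsingleton := by
    intro π hπ c hc c' hc'
    by_contra hne
    have hπ' := hirr π hπ
    have h1 : π ∣ C (c - c') * g := by
      have h2 := dvd_sub hc hc'
      have h3 : f + C c * g - (f + C c' * g) = C (c - c') * g := by
        rw [C_sub]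
        ring
      rwa [h3] at h2
    have hu : IsUnit (C (c - c') : MvPolynomial (Fin 3) L) :=
      IsUnit.map C (isUnit_iff_ne_zero.2 (sub_ne_zero.2 hne))
    have h4 : π ∣ g := (hu.dvd_mul_left).1 h1
    have h5 : π ∣ f := by
      have h6 := dvd_sub hc (h4.mul_left (C c))
      rwa [add_sub_cancel_right] at h6
    exact hπ'.not_isUnit (h h5 h4)
  have hfin : (⋃ π ∈ F, {c : L | π ∣ f + C c * g}).Finite :=
    Set.Finite.biUnion F.finite_toSet fun π hπ => (hsub π hπ).finite
  obtain ⟨c, hc⟩ := hfin.infinite_compl.nonempty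
  refine ⟨c, fun d hd1 hd2 => ?_⟩
  by_contra hd
  have hd0 : d ≠ 0 := fun h0 => hf₁ (zero_dvd_iff.1 (h0 ▸ hd1))
  obtain ⟨p, hp, hpd⟩ := WfDvdMonoid.exists_irreducible_factor hd hd0
  obtain ⟨q, hq, hpq⟩ := UniqueFactorizationMonoid.exists_mem_factors_of_dvd hf₁ hp
    (hpd.trans hd1)
  apply hc
  exact Set.mem_biUnion (Multiset.mem_toFinset.2 hq) (hpq.symm.dvd.trans (hpd.trans hd2))

end Pool.Agent.Lib.MP_44a246_ntC
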