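import Mathlib
import Pool.Agent.Lib.MP_44a246_ntS.SG2b
import Pool.Agent.Lib.MP_44a246_ntS.SG2c
import Pool.Agent.Lib.MP_44a246_ntS.SE1b
import Pool.Agent.Lib.MP_44a246_ntS.SJ2b
import Pool.Agent.Lib.MP_44a246_ntS.SJ3b
import Pool.Agent.Lib.MP_44a246_ntC.C01
import Pool.Agent.Lib.MP_44a246_ntC.C02

/-!
The core lemma, with two degrees and with the dimension of the space.
-/

namespace Pool.Agent.Lib.MP_44a246_ntC

open Pool.Agent.Lib.MP_44a246_nt
open Pool.Agent.Lib.MP_44a246_ntL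
open Pool.Agent.Lib.MP_44a246_ntS
open Pool.Agent.Lib.MP_e52354_nt
open WithZero Module MvPolynomial

variable {κ L : Type*} [Field κ] [IsAlgClosed κ] [CharZero κ] [Field L] [Algebra κ L]

/-- the main inequality for the composite contraction -/
theorem ht_phi' (h : IsFF κ L) {p : Fin 3 → L} (hp : p ≠ 0) {r t d : ℕ} (hd : r + t = d)
    {B : MvPolynomial (Fin 3) L} (hB : B.IsHomogeneous t) (hBp : eval p B ≠ 0)
    {τ : Place κ L → ℤ} (hτ : (Function.support τ).Finite) (hτ0 : 0 ≤ ∑ᶠ w, τ w)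
    (hBτ : ∀ w : Place κ L, nrm w.1 B ≤ exp (τ w))
    {U K : Submodule L (M3 d → L)} (hU : xi d p ∈ U) (hKU : K ≤ U)
    (hK : ∀ u ∈ K, (ctr B r d).mulVec u = 0)
    (hker : ∀ u ∈ U, (ctr B r d).mulVec u = 0 → u ∈ K) :
    ht κ (K ⊔ Submodule.span L {xi d p}) ≤
      ht κ U + r * height κ p + (∑ᶠ w, τ w) * ((finrank L U : ℤ) - 1) := by
  have hTxi : (ctr B r d).mulVec (xi d p) = eval p B • xi r p := ctr_xi hd hB p
  have hxi0 : xi r p ≠ 0 := xi_ne_zero hp
  have hKU' : K ⊔ Submodule.span L {xi d p} ≤ U := by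
    refine sup_le hKU ?_
    rw [Submodule.span_singleton_le_iff_mem]
    exact hU
  have hA : (K ⊔ Submodule.span L {xi d p}).map (ctr B r d).mulVecLin ≤
      Submodule.span L {xi r p} := by
    rintro _ ⟨b, hb, rfl⟩
    obtain ⟨u, hu, y, hy, rfl⟩ := Submodule.mem_sup.mp hb
    obtain ⟨c, rfl⟩ := Submodule.mem_span_singleton.mp hy
    rw [Matrix.mulVecLin_apply, Matrix.mulVec_add, hK u hu, zero_add, Matrix.mulVec_smul, hTxi,
      smul_smul]
    exact Submodule.smul_mem _ _ (Submodule.mem_span_singleton_self _)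
  have hinj : ∀ b ∈ U, (ctr B r d).mulVec b ∈ Submodule.span L {xi r p} →
      b ∈ K ⊔ Submodule.span L {xi d p} := by
    intro u hu hu'
    obtain ⟨c, hc⟩ := Submodule.mem_span_singleton.mp hu'
    have hk : (ctr B r d).mulVec (u - (c / eval p B) • xi d p) = 0 := by
      rw [Matrix.mulVec_sub, Matrix.mulVec_smul, hTxi, smul_smul, div_mul_cancel₀ _ hBp, hc,
        sub_self]
    have hk' := hker _ (U.sub_mem hu (U.smul_mem _ hU)) hk
    refine Submodule.mem_sup.mpr ⟨_, hk', (c / eval p B) • xi d p,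
      Submodule.smul_mem _ _ (Submodule.mem_span_singleton_self _), sub_add_cancel _ _⟩
  have h1 := ht_map h (ctr B r d) hτ (fun w k m => (ctr_le_nrm w.1 B r d k m).trans (hBτ w))
    hKU' hA hinj
  rw [ht_single h hxi0, height_xi h r hp] at h1
  have h4 := ht_nonneg h (Submodule.span L {xi r p} ⊔ U.map (ctr B r d).mulVecLin)
  have h5 : 1 ≤ finrank L (K ⊔ Submodule.span L {xi d p} : Submodule L (M3 d → L)) := by
    rw [Nat.one_le_iff_ne_zero, Ne, Submodule.finrank_eq_zero]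
    intro h0
    have h6 : xi d p ∈ K ⊔ Submodule.span L {xi d p} :=
      Submodule.mem_sup_right (Submodule.mem_span_singleton_self _)
    rw [h0, Submodule.mem_bot] at h6
    exact xi_ne_zero hp h6
  have h6 := mul_le_mul_of_nonneg_left (show ((finrank L U : ℤ) -
    finrank L (K ⊔ Submodule.span L {xi d p} : Submodule L (M3 d → L))) ≤
      (finrank L U : ℤ) - 1 by omega) hτ0
  linarith

/-- the case where the greatest common divisor does not vanish at `p` -/
theorem core_aux' [CharZero L] (h : IsFF κ L) {p : Fin 3 → L} (hp : p ≠ 0) {a e e' s s' d : ℕ}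
    (hs : a + e = s) (hs' : a + e' = s') (hsd : s + s' ≤ d) {A f g : MvPolynomial (Fin 3) L}
    (hA : A.IsHomogeneous a) (hA0 : A ≠ 0)
    (hAp : eval p A ≠ 0) (hf : f.IsHomogeneous e) (hg : g.IsHomogeneous e')
    (hfg : IsRelPrime f g) (hfp : eval p f = 0) (hgp : eval p g = 0)
    {U : Submodule L (M3 d → L)} (hU : xi d p ∈ U)
    (hf' : ∀ u ∈ U, (ctr (A * f) (d - s) d).mulVec u = 0)
    (hg' : ∀ u ∈ U, (ctr (A * g) (d - s') d).mulVec u = 0) :
    ((d : ℤ) - s - s' + a + 1) * height κ p ≤ ht κ U + finrank L U * polyHeight κ A := by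
  have hc : ∀ q : MvPolynomial (Fin 3) L, q.IsHomogeneous 0 → eval p q = 0 → q = 0 := by
    intro q hq hqp
    have h1 := (MvPolynomial.totalDegree_eq_zero_iff_eq_C).mp
      (Nat.le_zero.mp hq.totalDegree_le)
    rw [h1, eval_C] at hqp
    rw [h1, hqp, C_0]
  -- `f, g` are both nonzero or one of them is a unit
  have hnu : ∀ q q' : MvPolynomial (Fin 3) L, IsRelPrime q q' → q = 0 → eval p q' = 0 → False := by
    intro q q' hqq hq hq'
    rw [hq] at hqq
    have h2 : IsUnit q' := hqq (dvd_zero _) dvd_rfl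
    have h3 := h2.map (eval p)
    rw [hq'] at h3
    exact not_isUnit_zero h3
  have he : 1 ≤ e := by
    rcases Nat.eq_zero_or_pos e with h0 | h0
    · exfalso
      subst h0
      exact hnu f g hfg (hc f hf hfp) hgp
    · exact h0
  have he' : 1 ≤ e' := by
    rcases Nat.eq_zero_or_pos e' with h0 | h0
    · exfalso
      subst h0
      exact hnu g f hfg.symm (hc g hg hgp) hfp
    · exact h0
  obtain ⟨a', b', hlp, hall⟩ := exists_lin' he he' hf hg hfg hp
  set l := lin L a' b' with hl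
  have hl1 : l.IsHomogeneous 1 := lin_hom L a' b'
  obtain ⟨r, hr⟩ : ∃ r, r + 1 = e + e' := ⟨e + e' - 1, by omega⟩
  obtain ⟨j, rfl⟩ : ∃ j, d = r + j + a := ⟨d - r - a, by omega⟩
  have hlj : (l ^ j).IsHomogeneous j := by
    have := hl1.pow j
    rwa [one_mul] at this
  have hds : r + j + a - s = r + j - e := by omega
  have hds' : r + j + a - s' = r + j - e' := by omega
  rw [hds] at hf'
  rw [hds'] at hg'
  have hB : (l ^ j * A).IsHomogeneous (j + a) := hlj.mul hA
  have hBp : eval p (l ^ j * A) ≠ 0 := by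
    rw [map_mul, map_pow]
    exact mul_ne_zero (pow_ne_zero _ hlp) hAp
  let K : Submodule L (M3 (r + j + a) → L) :=
    U ⊓ LinearMap.ker (Matrix.mulVecLin (ctr A (r + j) (r + j + a)))
  have hKmem : ∀ u, u ∈ K ↔ u ∈ U ∧ (ctr A (r + j) (r + j + a)).mulVec u = 0 := by
    intro u
    rw [Submodule.mem_inf, LinearMap.mem_ker, Matrix.mulVecLin_apply]
  have hcomp : ∀ u : M3 (r + j + a) → L, (ctr (l ^ j * A) r (r + j + a)).mulVec u =
      (ctr (l ^ j) r (r + j)).mulVec ((ctr A (r + j) (r + j + a)).mulVec u) := by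
    intro u
    rw [ctr_mul (rfl : r + j + a = r + j + a) (rfl : r + j = r + j) hA hlj]
  have h1 := ht_xi_sup h hp (rfl : r + j + a = r + j + a) hA hA0 hAp (K := K)
    (fun u hu => ((hKmem u).mp hu).2)
  have hτ : (Function.support fun w : Place κ L => log (nrm w.1 A)).Finite := nrm_support h hA0
  have hτ0 : 0 ≤ ∑ᶠ w : Place κ L, log (nrm w.1 A) := by
    rw [← polyHeight_eq]
    exact polyHeight_nonneg h hA0
  have h2 := ht_phi' h hp (show r + (j + a) = r + j + a by omega) hB hBp hτ hτ0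
    (fun w => by
      rw [exp_log (nrm_ne_zero w.1 hA0)]
      exact nrm_lin_pow_mul_le w.1 a' b' j A)
    (K := K) hU inf_le_left
    (fun u hu => by
      rw [hcomp, ((hKmem u).mp hu).2, Matrix.mulVec_zero])
    (fun u hu h0 => by
      rw [hKmem]
      refine ⟨hu, ?_⟩
      rw [hcomp] at h0
      refine eq_zero_of_pow' he he' hf hg hl1 hall (by omega) j ?_ ?_ h0
      · rw [ctr_mul (rfl : r + j + a = r + j + a) (show r + j - e + e = r + j by omega) hA hf,
          mul_comm f A]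
        exact hf' u hu
      · rw [ctr_mul (rfl : r + j + a = r + j + a) (show r + j - e' + e' = r + j by omega) hA hg,
          mul_comm g A]
        exact hg' u hu)
  have h3 := ht_nonneg h K
  rw [polyHeight_eq] at h1 ⊢
  have h6 : ((r + j + a : ℕ) : ℤ) - s - s' + a + 1 = j := by
    have e1 : (r : ℤ) + 1 = e + e' := by exact_mod_cast hr
    have e2 : (a : ℤ) + e = s := by exact_mod_cast hs
    have e3 : (a : ℤ) + e' = s' := by exact_mod_cast hs'
    push_cast
    linarith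
  rw [h6]
  push_cast at h1
  nlinarith [h1, h2, h3]

/-- **Core lemma.** -/
theorem core' [CharZero L] (h : IsFF κ L) {p : Fin 3 → L} (hp : p ≠ 0) {s s₁ d : ℕ}
    (hsd : s₁ + s ≤ d) {Q : Submodule L (M3 s → L)} (hQ : Q ≠ ⊤) (hξ : xi s p ∈ Q)
    {U : Submodule L (M3 d → L)} (hU : xi d p ∈ U)
    (hkill : ∀ G ∈ Ann Q, ∀ u ∈ U, (ctr G (d - s) d).mulVec u = 0)
    {G₁ : MvPolynomial (Fin 3) L} (hG₁ : G₁.IsHomogeneous s₁) (hG₁0 : G₁ ≠ 0)
    (hkill₁ : ∀ u ∈ U, (ctr G₁ (d - s₁) d).mulVec u = 0) :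
    ∃ (a e : ℕ) (A : MvPolynomial (Fin 3) L), a + e = s ∧ A ≠ 0 ∧ A.IsHomogeneous a ∧
      polyHeight κ A * ((Fintype.card (M3 s) : ℤ) - finrank L Q) ≤ ht κ Q ∧
      Fintype.card (M3 s) ≤ Fintype.card (M3 e) + finrank L Q ∧
      (eval p A = 0 ∨
        ((d : ℤ) - s₁ - s + 1) * height κ p ≤ ht κ U + finrank L U * polyHeight κ A) := by
  have hinf : Infinite L := inferInstance
  obtain ⟨a, e, A, f, g, hs, hA0, hA, hf, hg, hfQ, hgQ, hfg, hdvd⟩ :=
    exists_gcd (W := Ann Q) (fun P hP => hP.1) (Ann_ne_bot hQ)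
  obtain ⟨h1, h2⟩ := height_gcd h (e := e) (a := a) (s := s) (by omega) hA hA0 hdvd
  refine ⟨a, e, A, hs, hA0, hA, h1, h2, ?_⟩
  by_cases hAp : eval p A = 0
  · exact Or.inl hAp
  right
  -- the common divisor of `A` and `G₁`
  obtain ⟨a₁, g₁, D, hrel, hDa, hDg⟩ :=
    UniqueFactorizationMonoid.exists_reduced_factors A hA0 G₁
  have hD0 : D ≠ 0 := by
    rintro rfl
    rw [zero_mul] at hDa
    exact hA0 hDa.symm
  have ha₁0 : a₁ ≠ 0 := by
    rintro rfl
    rw [mul_zero] at hDa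
    exact hA0 hDa.symm
  have hg₁0 : g₁ ≠ 0 := by
    rintro rfl
    rw [mul_zero] at hDg
    exact hG₁0 hDg.symm
  obtain ⟨δ, e₂, hδ, hDh, ha₁h⟩ := hom_of_mul (hDa ▸ hA) (hDa ▸ hA0)
  obtain ⟨δ', e₁, hδ', hDh', hg₁h⟩ := hom_of_mul (hDg ▸ hG₁) (hDg ▸ hG₁0)
  have hδδ : δ' = δ := hDh'.inj_right hDh hD0
  subst hδδ
  obtain ⟨c, hc⟩ := exists_comb hfg hg₁0
  set g' := f + C c * g with hg'
  have hg'h : g'.IsHomogeneous e := by
    refine hf.add ?_
    have := (isHomogeneous_C (Fin 3) c).mul hg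
    rwa [zero_add] at this
  have hg'Q : A * g' ∈ Ann Q := by
    have h3 : A * g' = A * f + c • (A * g) := by
      rw [hg', smul_eq_C_mul]
      ring
    rw [h3]
    exact Submodule.add_mem _ hfQ (Submodule.smul_mem _ _ hgQ)
  have hrel' : IsRelPrime g₁ (a₁ * g') := (hrel.symm).mul_right hc
  have hag : (a₁ * g').IsHomogeneous (e₂ + e) := ha₁h.mul hg'h
  have hDp : eval p D ≠ 0 := by
    intro h0
    apply hAp
    rw [← hDa, map_mul, h0, zero_mul]
  have key : ∀ F : MvPolynomial (Fin 3) L, F ∈ Ann Q → eval p F = 0 := by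
    intro F hF
    have h3 := hF.2 _ hξ
    rwa [pr_xi hF.1] at h3
  have hg'p : eval p (a₁ * g') = 0 := by
    have h3 := key _ hg'Q
    rw [← hDa, mul_assoc, map_mul] at h3
    exact (mul_eq_zero.mp h3).resolve_left hDp
  have hG₁p : eval p G₁ = 0 := by
    have h3 := hkill₁ _ hU
    rw [ctr_xi (show d - s₁ + s₁ = d by omega) hG₁ p] at h3
    exact (smul_eq_zero.mp h3).resolve_right (xi_ne_zero hp)
  have hg₁p : eval p g₁ = 0 := by
    rw [← hDg, map_mul] at hG₁p
    exact (mul_eq_zero.mp hG₁p).resolve_left hDp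
  have hDA : polyHeight κ D ≤ polyHeight κ A := by
    rw [← gh_deh hDh, ← gh_deh hA]
    refine gh_le_of_dvd h ⟨deh a₁, ?_⟩ (deh_ne_zero hA hA0)
    rw [← hDa]
    unfold deh
    exact map_mul _ _ _
  have hmain := core_aux' h hp (a := δ') (e := e₁) (e' := e₂ + e) (s := s₁) (s' := s) (d := d)
    hδ' (by omega) hsd hDh hD0 hDp hg₁h hag hrel' hg₁p hg'p hU
    (fun u hu => by rw [hDg]; exact hkill₁ u hu)
    (fun u hu => by rw [← mul_assoc, hDa]; exact hkill _ hg'Q u hu)
  have hH : 0 ≤ height κ p := h.height_nonneg hp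
  have h4 : (finrank L U : ℤ) * polyHeight κ D ≤ finrank L U * polyHeight κ A :=
    mul_le_mul_of_nonneg_left hDA (Nat.cast_nonneg _)
  have h5 : (0 : ℤ) ≤ δ' * height κ p := mul_nonneg (Nat.cast_nonneg _) hH
  linarith

end Pool.Agent.Lib.MP_44a246_ntC
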