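import Mathlib
import Pool.Agent.Lib.MP_44a246_ntS.SI2
import Pool.Agent.Lib.MP_44a246_ntG.G6
import Pool.Agent.Lib.MP_44a246_ntC.C03

/-!
Step A in one block, with better constants.
-/

namespace Pool.Agent.Lib.MP_44a246_ntC

open Pool.Agent.Lib.MP_44a246_ntG
open Pool.Agent.Lib.MP_44a246_nt
open Pool.Agent.Lib.MP_44a246_ntL
open Pool.Agent.Lib.MP_44a246_ntS
open Pool.Agent.Lib.MP_44a246_ntX
open Pool.Agent.Lib.MP_e52354_nt
open WithZero Module

private theorem cA_P2 (t w : ℝ) (ht : 0 ≤ t) (hw : 0 ≤ w) :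
    0 ≤ 3312*w^2 - 4968*t*w + 3816*t^2 - 4824*w + 7272*t + 3456 := by
  linarith [sq_nonneg (w - 3/4*t - 3/4), sq_nonneg t, mul_nonneg ht hw]

private theorem cA_P1 (t w : ℝ) (ht : 0 ≤ t) (hw : 0 ≤ w) :
    0 ≤ 6624*w^3 - 3864*t*w^2 - 3408*t^2*w + 6576*t^3 - 2748*w^2 - 5616*t*w + 21324*t^2
      - 2172*w + 21948*t + 7200 := by
  have e : 6624*w^3 - 3864*t*w^2 - 3408*t^2*w + 6576*t^3 - 2748*w^2 - 5616*t*w + 21324*t^2
      - 2172*w + 21948*t + 7200 = 6090 * w + 2328 * w^2 + 486 * t + 10632 * (t * w) +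
      2808 * (t * w^2) + 3120 * (t^2 * w) + 14157/2 * (w - t - 1)^2 + 6576 * (t * (w - t - 1)^2) +
      6624 * (w * (w - t - 1)^2) + 2187/2 * (w - t - 1/3)^2 := by ring
  rw [e]
  positivity

private theorem cA_P0 (t w : ℝ) (ht : 0 ≤ t) (hw : 0 ≤ w) :
    0 ≤ 3312*w^4 + 1104*t*w^3 - 4441*t^2*w^2 + 550*t^3*w + 2783*t^4 + 2076*w^3 - 6563*t*w^2
      + 4885*t^2*w + 13020*t^3 - 2040*w^2 + 7273*t*w + 21433*t^2 + 2940*w + 14940*t + 3744 := by
  have e : 3312*w^4 + 1104*t*w^3 - 4441*t^2*w^2 + 550*t^3*w + 2783*t^4 + 2076*w^3 - 6563*t*w^2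
      + 4885*t^2*w + 13020*t^3 - 2040*w^2 + 7273*t*w + 21433*t^2 + 2940*w + 14940*t + 3744 =
      77771/549 + 901328/549 * w + 4474370/549 * w^2 + 784367/61 * (t * w^2) +
      939871/549 * (t * w^3) + 196021/61 * (w^2 * (w - 1/2*t - 1)^2) +
      153212/183 * (t * w * (w - 3/4*t - 1)^2) + 75998/183 * (t * (w - 3/2*t)^2) +
      193463/732 * (t^2 * (w - 3/2*t)^2) + 916679/549 * (t * w * (w - 3/2*t)^2) +
      1977685/549 * (w - 3/2*t - 1)^2 + 756335/183 * (t * (w - 3/2*t - 1)^2) +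
      518678/61 * (w * (w - 3/2*t - 1)^2) + 226627/244 * (t^2 * (w - 3/2*t - 1)^2) +
      6011/61 * (w^2 + 1/2*t*w - t^2)^2 := by ring
  rw [e]
  positivity

/-- step A: the numerical inequality for the height of the greatest common divisor -/
theorem cA_num {a b u : ℝ} (ha : 1 ≤ a) (hab : a ≤ b) (hbu : b ≤ u) :
    42 * a * u * (12 * u * (23 * b + 1) + 24 - 12 * a * (24 * u - a + 3)) ≤
      b * (23 * b + 1) * ((12 * u - a + 1) * (12 * u - a + 2)) := by
  have ht : 0 ≤ a - 1 := by linarith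
  have hw : 0 ≤ b - a := by linarith
  have hv : 0 ≤ u - b := by linarith
  have h2 := mul_nonneg (sq_nonneg (u - b)) (cA_P2 _ _ ht hw)
  have h1 := mul_nonneg hv (cA_P1 _ _ ht hw)
  have h0 := cA_P0 _ _ ht hw
  linarith [h2, h1, h0]

/-- step A: the degree of the greatest common divisor -/
theorem cA_deg {a e q b u : ℕ} (hb : 1 ≤ b) (hbu : b ≤ u) (hs : a + e = 12 * u)
    (hq : 24 * ((q : ℝ) - 1) ≤ 12 * u * (23 * b + 1)) (hN : N3 (12 * u) ≤ N3 e + q) :
    a ≤ b := by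
  have hb' : (1 : ℝ) ≤ b := by exact_mod_cast hb
  have hbu' : (b : ℝ) ≤ u := by exact_mod_cast hbu
  have h6 : 2 * (N3 (12 * u) : ℝ) = (12 * u + 1) * (12 * u + 2) := by
    exact_mod_cast two_N3 (12 * u)
  have h7 : 2 * (N3 e : ℝ) = (e + 1) * (e + 2) := by exact_mod_cast two_N3 e
  have hN' : (N3 (12 * u) : ℝ) ≤ N3 e + q := by exact_mod_cast hN
  have hs' : (a : ℝ) + e = 12 * u := by exact_mod_cast hs
  by_contra hcon
  have ha : (b : ℝ) + 1 ≤ a := by
    have : b + 1 ≤ a := by omega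
    exact_mod_cast this
  have he : (e : ℝ) = 12 * u - a := by linarith
  have haS : (a : ℝ) ≤ 12 * u := by
    have : (0 : ℝ) ≤ e := Nat.cast_nonneg e
    linarith
  rw [he] at h7
  -- `a (24 u - a + 3) ≤ 2 q`
  have h8 : (a : ℝ) * (24 * u - a + 3) ≤ 2 * q := by linarith
  have h9 : ((b : ℝ) + 1) * (24 * u - b + 2) ≤ a * (24 * u - a + 3) := by
    have : (a - ((b : ℝ) + 1)) * (24 * u - a - b + 2) = a * (24 * u - a + 3) -
        ((b : ℝ) + 1) * (24 * u - b + 2) := by ring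
    have h10 : 0 ≤ (a - ((b : ℝ) + 1)) * (24 * u - a - b + 2) :=
      mul_nonneg (by linarith) (by linarith)
    linarith
  have h11 : 2 * (q : ℝ) ≤ 2 + u * (23 * b + 1) := by linarith
  linarith [mul_nonneg (by linarith : (0 : ℝ) ≤ b) (by linarith : (0 : ℝ) ≤ u - b)]

/-- `24 (12 u (23 b + 1))` against the number of monomials -/
private theorem cA_top {b u N f : ℝ} (hb : 1 ≤ b) (hbu : b ≤ u)
    (hN : 2 * N = (12 * u + 1) * (12 * u + 2)) (hq : 24 * (f - 1) ≤ 12 * u * (23 * b + 1)) :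
    f < N := by
  have h1 := mul_nonneg (by linarith : (0 : ℝ) ≤ u) (by linarith : (0 : ℝ) ≤ u - b)
  have h2 := sq_nonneg u
  linarith

private theorem cA_top2 {b N : ℝ} (hb : 1 ≤ b) (hN : 2 * N = (2 * b + 1) * (2 * b + 2)) :
    2 * b * (23 * b + 1) < 24 * (N - 1) := by
  have h2 := sq_nonneg b
  linarith

private theorem cA_neg {b u N : ℝ} (hb : 1 ≤ b) (hbu : b ≤ u)
    (hN : 2 * N = (12 * u + 1) * (12 * u + 2)) :
    (23 * b + 1) * (12 * u) - 24 * (N - 1) < 0 := by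
  have h1 := mul_nonneg (by linarith : (0 : ℝ) ≤ u) (by linarith : (0 : ℝ) ≤ u - b)
  have h2 := sq_nonneg u
  linarith

private theorem cA_mu {b H : ℝ} (hb : 1 ≤ b) (hH : 0 < H) :
    24 * H * (20 * b) < 21 * H * (23 * b + 1) := by
  have h1 := mul_nonneg hH.le (by linarith : (0 : ℝ) ≤ b)
  linarith

private theorem cA_h {β H y f c : ℝ} (hy : 0 ≤ β * y)
    (h : β * y + 24 * H * (f - 1) ≤ β * (c * H)) : H * (24 * (f - 1)) ≤ H * (c * β) := by
  linarith

private theorem cA_h5 {β H α y f N u : ℝ} (h : β * (α * (N - f)) ≤ β * y)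
    (h' : β * y + 24 * H * (f - 1) ≤ β * (12 * u * H)) :
    (β * α - 24 * H) * (N - f) ≤ H * (β * (12 * u) - 24 * (N - 1)) := by
  linarith

private theorem cA_h13 {β H α a u N M : ℝ}
    (h14 : (β * α - 24 * H) * M ≤ H * (β * (12 * u) - 24 * (N - 1)))
    (h15 : 24 * N - 24 * M = 12 * a * (24 * u - a + 3)) :
    β * α * M ≤ H * (12 * u * β + 24 - 12 * a * (24 * u - a + 3)) := by
  rw [← h15]
  linarith

variable {κ L : Type*} [Field κ] [IsAlgClosed κ] [CharZero κ] [Field L] [CharZero L]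
  [Algebra κ L]

/-- **Step A in one block**: either there is a plane curve of small degree and height, or the
height of `V` is large. -/
theorem stepA_block (h : IsFF κ L) {n d : ℕ} (X : DatG κ (L := L) n d) {b u : ℕ}
    {V : Submodule L (M3 d → L)} (hxi : xi d X.p ∈ V) (hb1 : 1 ≤ b) (hbu : b ≤ u)
    (hSd : 2 * b + 12 * u ≤ d) (hH : 0 < height κ X.x) :
    (∃ (a : ℕ) (A : MvPolynomial (Fin 3) L), a ≤ b ∧ A ≠ 0 ∧ A.IsHomogeneous a ∧
        MvPolynomial.eval X.p A = 0 ∧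
        21 * (a * (u * polyHeight κ A)) ≤ b * height κ X.x) ∨
      20 * (b : ℤ) * (((d : ℤ) - 12 * u - 2 * b + 1) * height κ X.x) ≤
        20 * b * ht κ V + 21 * height κ X.x * finrank L V := by
  have hp := X.p_ne_zero
  have hHr : (0 : ℝ) < (height κ X.x : ℝ) := by exact_mod_cast hH
  have hbr : (1 : ℝ) ≤ (b : ℝ) := by exact_mod_cast hb1
  have hbur : (b : ℝ) ≤ (u : ℝ) := by exact_mod_cast hbu
  set H : ℝ := (height κ X.x : ℝ) with hHdef
  set β : ℝ := 23 * b + 1 with hβ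
  have hβ0 : 0 < β := by rw [hβ]; linarith
  obtain ⟨W, hWU, hW, hWb⟩ := exists_hasSl h (21 * H / (20 * b)) hxi
  obtain ⟨Qd, hQd⟩ := exists_isSl h (24 * H / β) (xi d X.p)
  obtain ⟨Q, hQ⟩ := exists_isSl h (24 * H / β) (xi (12 * u) X.p)
  obtain ⟨Q₁, hQ₁⟩ := exists_isSl h (24 * H / β) (xi (2 * b) X.p)
  have hμ : 24 * H / β < 21 * H / (20 * b) := by
    rw [div_lt_div_iff₀ hβ0 (by linarith)]
    exact cA_mu hbr hHr
  have hμ0 : 0 < 24 * H / β := div_pos (by linarith) hβ0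
  have hWQ : W ≤ Qd := hW.le_isSl h hμ hQd
  have hb := hQ.bound h (xi_ne_zero hp)
  rw [height_xi h (12 * u) hp, X.height_p] at hb
  have hb₁ := hQ₁.bound h (xi_ne_zero hp)
  rw [height_xi h (2 * b) hp, X.height_p] at hb₁
  push_cast at hb hb₁
  have hQ0 : (0 : ℝ) ≤ (ht κ Q : ℝ) := by exact_mod_cast ht_nonneg h Q
  have hQ0₁ : (0 : ℝ) ≤ (ht κ Q₁ : ℝ) := by exact_mod_cast ht_nonneg h Q₁
  have hmulβ : ∀ z : ℝ, β * (24 * H / β * z) = 24 * H * z := by
    intro z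
    field_simp
  have hbB : β * (ht κ Q : ℝ) + 24 * H * ((finrank L Q : ℝ) - 1) ≤ β * (12 * u * H) := by
    have := mul_le_mul_of_nonneg_left hb hβ0.le
    rw [mul_add, hmulβ] at this
    exact this
  have hbB₁ : β * (ht κ Q₁ : ℝ) + 24 * H * ((finrank L Q₁ : ℝ) - 1) ≤ β * (2 * b * H) := by
    have := mul_le_mul_of_nonneg_left hb₁ hβ0.le
    rw [mul_add, hmulβ] at this
    exact this
  have hq : 24 * ((finrank L Q : ℝ) - 1) ≤ 12 * u * β := by
    have h1 : H * (24 * ((finrank L Q : ℝ) - 1)) ≤ H * (12 * u * β) :=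
      cA_h (mul_nonneg hβ0.le hQ0) hbB
    exact le_of_mul_le_mul_left h1 hHr
  have hq₁ : 24 * ((finrank L Q₁ : ℝ) - 1) ≤ 2 * b * β := by
    have h1 : H * (24 * ((finrank L Q₁ : ℝ) - 1)) ≤ H * (2 * b * β) :=
      cA_h (mul_nonneg hβ0.le hQ0₁) hbB₁
    exact le_of_mul_le_mul_left h1 hHr
  have hcard : Fintype.card (M3 (12 * u)) = N3 (12 * u) := card_M3 (12 * u)
  have hcard₁ : Fintype.card (M3 (2 * b)) = N3 (2 * b) := card_M3 (2 * b)
  have hN3 : 2 * (N3 (12 * u) : ℝ) = (12 * u + 1) * (12 * u + 2) := by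
    exact_mod_cast two_N3 (12 * u)
  have hN3₁ : 2 * (N3 (2 * b) : ℝ) = (2 * b + 1) * (2 * b + 2) := by
    exact_mod_cast two_N3 (2 * b)
  have hQtop : Q ≠ ⊤ := by
    intro h1
    have h2 : finrank L Q = N3 (12 * u) := by
      rw [h1, finrank_top, Module.finrank_fintype_fun_eq_card, hcard]
    rw [h2] at hq
    exact lt_irrefl _ (cA_top hbr hbur hN3 hq)
  have hQtop₁ : Q₁ ≠ ⊤ := by
    intro h1
    have h2 : finrank L Q₁ = N3 (2 * b) := by
      rw [h1, finrank_top, Module.finrank_fintype_fun_eq_card, hcard₁]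
    rw [h2] at hq₁
    exact absurd hq₁ (not_le.2 (cA_top2 hbr hN3₁))
  -- the form of degree `2 b`
  obtain ⟨G₁, hG₁, hG₁0⟩ := Submodule.exists_mem_ne_zero_of_ne_bot (Ann_ne_bot hQtop₁)
  obtain ⟨a, e, A, hs, hA0, hA, h1, h2, h3⟩ := core' h hp (s₁ := 2 * b) (s := 12 * u)
    hSd hQtop hQ.mem hW.mem
    (fun G hG u' hu => IsSl.ctr_eq_zero h (show 12 * u + (d - 12 * u) = d by omega) hQd hQ
      hG.1 hG.2 (hWQ hu)) hG₁.1 hG₁0
    (fun u' hu => IsSl.ctr_eq_zero h (show 2 * b + (d - 2 * b) = d by omega) hQd hQ₁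
      hG₁.1 hG₁.2 (hWQ hu))
  rw [hcard] at h1 h2
  have hcard' : Fintype.card (M3 e) = N3 e := card_M3 e
  rw [hcard'] at h2
  have ha := cA_deg hb1 hbu hs hq h2
  have hα : 0 ≤ polyHeight κ A := polyHeight_nonneg h hA0
  have hαr : (0 : ℝ) ≤ (polyHeight κ A : ℝ) := by exact_mod_cast hα
  set α : ℝ := (polyHeight κ A : ℝ) with hαdef
  have h1r : α * ((N3 (12 * u) : ℝ) - finrank L Q) ≤ ht κ Q := by
    rw [hαdef]
    exact_mod_cast h1
  have h2r : (N3 (12 * u) : ℝ) ≤ N3 e + finrank L Q := by exact_mod_cast h2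
  have hx0 : (0 : ℝ) < (N3 (12 * u) : ℝ) - finrank L Q := sub_pos.2 (cA_top hbr hbur hN3 hq)
  -- `(β α - 24 H) x ≤ H (β S - 24 (N3 S - 1)) < 0`
  have h5 : (β * α - 24 * H) * ((N3 (12 * u) : ℝ) - finrank L Q) ≤
      H * (β * (12 * u) - 24 * ((N3 (12 * u) : ℝ) - 1)) :=
    cA_h5 (mul_le_mul_of_nonneg_left h1r hβ0.le) hbB
  have h6 : β * (12 * u) - 24 * ((N3 (12 * u) : ℝ) - 1) < 0 := cA_neg hbr hbur hN3
  have h7 : β * α - 24 * H < 0 := by
    by_contra hcon
    have h8 := mul_nonneg (not_lt.1 hcon) hx0.le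
    have h9 := mul_neg_of_pos_of_neg hHr h6
    linarith
  have h8 : α < 24 * H / β := by
    rw [lt_div_iff₀ hβ0]
    linarith
  have hs' : (a : ℝ) + e = 12 * u := by exact_mod_cast hs
  have hae : (a : ℝ) ≤ b := by exact_mod_cast ha
  have ha0 : (0 : ℝ) ≤ a := Nat.cast_nonneg a
  have he0 : (0 : ℝ) ≤ e := Nat.cast_nonneg e
  rcases h3 with h3 | h3
  · left
    refine ⟨a, A, ha, hA0, hA, h3, ?_⟩
    have hgoal : 21 * ((a : ℝ) * (u * α)) ≤ b * H := by
      rcases Nat.eq_zero_or_pos a with h10 | h10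
      · rw [h10]
        push_cast
        have := mul_nonneg (by linarith : (0 : ℝ) ≤ b) hHr.le
        linarith
      have ha1 : (1 : ℝ) ≤ a := by exact_mod_cast h10
      have hnum := cA_num ha1 hae hbur
      have hN3e : 2 * (N3 e : ℝ) = (12 * u - a + 1) * (12 * u - a + 2) := by
        have h11 : 2 * (N3 e : ℝ) = (e + 1) * (e + 2) := by exact_mod_cast two_N3 e
        rw [h11, show (e : ℝ) = 12 * u - a by linarith]
      have hN3e0 : (0 : ℝ) < N3 e := by
        have h11 : (0 : ℝ) < (12 * u - a + 1) * (12 * u - a + 2) :=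
          mul_pos (by linarith) (by linarith)
        linarith
      -- `(β α - 24 H) N3 e ≤ (β α - 24 H) x`
      have h12 : (β * α - 24 * H) * (N3 e : ℝ) ≤
          (β * α - 24 * H) * ((N3 (12 * u) : ℝ) - finrank L Q) :=
        mul_le_mul_of_nonpos_left (by linarith) h7.le
      have h13 : β * α * (N3 e : ℝ) ≤
          H * (12 * u * β + 24 - 12 * a * (24 * u - a + 3)) := by
        have h14 : (β * α - 24 * H) * (N3 e : ℝ) ≤
            H * (β * (12 * u) - 24 * ((N3 (12 * u) : ℝ) - 1)) := h12.trans h5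
        have h15 : 24 * (N3 (12 * u) : ℝ) - 24 * (N3 e : ℝ) = 12 * a * (24 * u - a + 3) := by
          linear_combination 12 * hN3 - 12 * hN3e
        exact cA_h13 h14 h15
      have h16 : (0 : ℝ) ≤ 42 * a * u := by
        have : 0 ≤ (a : ℝ) * u := mul_nonneg ha0 (by linarith)
        linarith
      have h17 := mul_le_mul_of_nonneg_left h13 h16
      have h18 := mul_le_mul_of_nonneg_left hnum hHr.le
      rw [← hβ] at h18
      have h19 : (2 * (β * (N3 e : ℝ))) * (21 * ((a : ℝ) * (u * α))) ≤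
          (2 * (β * (N3 e : ℝ))) * (b * H) := by
        have e1 : (2 * (β * (N3 e : ℝ))) * (21 * ((a : ℝ) * (u * α))) =
            42 * a * u * (β * α * (N3 e : ℝ)) := by ring
        have e2 : (2 * (β * (N3 e : ℝ))) * (b * H) =
            H * (b * β * ((12 * u - a + 1) * (12 * u - a + 2))) := by
          rw [← hN3e]
          ring
        rw [e1, e2]
        refine h17.trans (le_of_eq_of_le ?_ h18)
        ring
      exact le_of_mul_le_mul_left h19 (mul_pos two_pos (mul_pos hβ0 hN3e0))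
    rw [hHdef, hαdef] at hgoal
    exact_mod_cast hgoal
  · right
    rw [X.height_p] at h3
    have h3r : ((d : ℝ) - (2 * b) - (12 * u) + 1) * H ≤ (ht κ W : ℝ) + finrank L W * α := by
      rw [hHdef, hαdef]
      have := h3
      push_cast at this
      exact_mod_cast this
    have hw0 : (0 : ℝ) ≤ finrank L W := Nat.cast_nonneg _
    have h9 : (finrank L W : ℝ) * α ≤ 21 * H / (20 * b) * finrank L W := by
      rw [mul_comm]
      exact mul_le_mul_of_nonneg_right (h8.trans hμ).le hw0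
    have h10 : ((d : ℝ) - (2 * b) - (12 * u) + 1) * H ≤
        (ht κ V : ℝ) + 21 * H / (20 * b) * finrank L V := by linarith
    have h11 := mul_le_mul_of_nonneg_left h10 (show (0 : ℝ) ≤ 20 * b by linarith)
    have h12 : (20 * (b : ℝ)) * ((ht κ V : ℝ) + 21 * H / (20 * b) * finrank L V) =
        20 * b * (ht κ V : ℝ) + 21 * H * finrank L V := by
      have : (b : ℝ) ≠ 0 := by linarith
      field_simp
    rw [h12] at h11
    have h13 : 20 * (b : ℝ) * (((d : ℝ) - 12 * u - 2 * b + 1) * H) ≤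
        20 * b * (ht κ V : ℝ) + 21 * H * finrank L V := by
      refine le_of_eq_of_le ?_ h11
      ring
    rw [hHdef] at h13
    exact_mod_cast h13

end Pool.Agent.Lib.MP_44a246_ntC
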