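import Mathlib
import Pool.Agent.Lib.MP_44a246_ntG.G5
import Pool.Agent.Lib.MP_44a246_ntG.G9
import Pool.Agent.Lib.MP_44a246_ntD.D01

/-!
The height of the space of the rows: two times the height of the curve for every row.
-/

namespace Pool.Agent.Lib.MP_44a246_ntC

open Pool.Agent.Lib.MP_44a246_nt
open Pool.Agent.Lib.MP_44a246_ntL
open Pool.Agent.Lib.MP_44a246_ntS
open Pool.Agent.Lib.MP_44a246_ntX
open Pool.Agent.Lib.MP_44a246_ntG
open Pool.Agent.Lib.MP_44a246_ntD
open Pool.Agent.Lib.MP_44a246_ntZ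
open Pool.Agent.Lib.MP_e52354_nt
open WithZero Module Polynomial

private theorem exp_sum {ι : Type*} (s : Finset ι) (f : ι → ℤ) :
    (exp (∑ i ∈ s, f i) : ℤᵐ⁰) = ∏ i ∈ s, exp (f i) := by
  classical
  induction s using Finset.induction_on with
  | empty => rw [Finset.sum_empty, Finset.prod_empty, exp_zero]
  | insert j s hj ih => rw [Finset.sum_insert hj, Finset.prod_insert hj, exp_add, ih]

private theorem exp_le_one' {a : ℤ} (h : a ≤ 0) : (exp a : ℤᵐ⁰) ≤ 1 := by
  rw [← exp_zero, exp_le_exp]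
  exact h

section

variable {κ L : Type*} [Field κ] [Field L] [Algebra κ L] {n d : ℕ} (X : DatG κ (L := L) n d)

/-- the row of a power -/
theorem row_pow (u : L) (k : ℕ) (K : M3 d) :
    X.row (u ^ k) K = k * u ^ (k - 1) * X.row u K := by
  induction k with
  | zero =>
    have h1 := congrFun (X.row_natCast 1) K
    rw [Nat.cast_one] at h1
    rw [pow_zero, h1]
    simp
  | succ k ih =>
    rw [pow_succ, X.row_mul]
    simp only [Pi.add_apply, Pi.smul_apply, smul_eq_mul]
    rw [ih]
    rcases Nat.eq_zero_or_pos k with rfl | hk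
    · simp
    · have h2 : u ^ k = u * u ^ (k - 1) := by
        rw [← pow_succ', Nat.sub_add_cancel hk]
      rw [Nat.add_sub_cancel, h2]
      push_cast
      ring

/-- the local bound for the minors of the rows of elements which become small after
multiplication by powers of `u` -/
theorem pl_rows_wt (w : Place κ L) {e : ℕ} (c : Fin e → L) {u : L} (hu : u ≠ 0)
    (hu1 : w.1 u ≤ 1) (k : Fin e → ℕ) (γ : Fin e → ℤᵐ⁰) (h1 : ∀ i, 1 ≤ γ i)
    (h2 : ∀ i, w.1 (u ^ k i * c i) ≤ γ i) :
    w.1 u ^ (∑ i, k i + 1) * pl w.1 (fun i => X.row (c i)) ≤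
      (∏ i, γ i ^ 2) * exp ((e * X.δ w + X.ρ w : ℕ) : ℤ) := by
  classical
  have hvu : w.1 u ≠ 0 := (Valuation.ne_zero_iff _).2 hu
  have hpow : w.1 u ^ (∑ i, k i + 1) ≠ 0 := pow_ne_zero _ hvu
  -- enough: every minor
  have key : ∀ K : Fin e → M3 d, w.1 u ^ (∑ i, k i + 1) *
      w.1 (Matrix.of fun i j => X.row (c i) (K j)).det ≤
        (∏ i, γ i ^ 2) * exp ((e * X.δ w + X.ρ w : ℕ) : ℤ) := by
    intro K
    set c' : Fin e → L := fun i => u ^ k i * c i with hc'
    -- the relation between the rows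
    have hrel : ∀ i j, u ^ k i * X.row (c i) (K j) =
        X.row (c' i) (K j) - (k i * c' i) / u * X.row u (K j) := by
      intro i j
      have h3 : X.row (c' i) (K j) = u ^ k i * X.row (c i) (K j) +
          c i * X.row (u ^ k i) (K j) := by
        rw [hc']
        simp only
        rw [X.row_mul]
        simp only [Pi.add_apply, Pi.smul_apply, smul_eq_mul]
      rw [h3, row_pow X u (k i) (K j)]
      rcases Nat.eq_zero_or_pos (k i) with h0 | h0
      · rw [h0]
        simp
      · have h4 : u ^ k i = u * u ^ (k i - 1) := by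
          rw [← pow_succ', Nat.sub_add_cancel h0]
        rw [hc']
        simp only
        rw [h4]
        field_simp
        ring
    set q : Fin e → L := fun i => k i * c' i with hq
    set y : Fin (e + 1) → L := Fin.cons u c' with hy
    set M : Matrix (Fin (e + 1)) (Fin (e + 1)) L := Matrix.of (Fin.cons
      (Fin.cons u (fun j => X.row u (K j)))
      (fun i => (Fin.cons (q i) (fun j => X.row (c' i) (K j)) : Fin (e + 1) → L))) with hM
    have hdet : M.det = u * (Matrix.of fun i j => X.row (c' i) (K j) - q i / u *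
        X.row u (K j)).det :=
      det_border hu q (fun j => X.row u (K j)) (fun i j => X.row (c' i) (K j))
    have hMs : ∀ i j, M i (Fin.succ j) = X.row (y i) (K j) := by
      intro i j
      refine Fin.cases ?_ (fun i => ?_) i
      · simp [hM, hy]
      · simp [hM, hy]
    set Γ : Fin (e + 1) → ℤᵐ⁰ := Fin.cons 1 γ with hΓ
    have hΓ1 : ∀ i, 1 ≤ Γ i := by
      intro i
      refine Fin.cases ?_ (fun i => ?_) i
      · simp [hΓ]
      · simpa [hΓ] using h1 i
    have hyΓ : ∀ i, w.1 (y i) ≤ Γ i := by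
      intro i
      refine Fin.cases ?_ (fun i => ?_) i
      · simpa [hΓ, hy] using hu1
      · have h3 : y i.succ = c' i := by simp [hy]
        have h4 : Γ i.succ = γ i := by simp [hΓ]
        rw [h3, h4]
        exact h2 i
    have hM0 : ∀ i, w.1 (M i 0) ≤ Γ i := by
      intro i
      refine Fin.cases ?_ (fun i => ?_) i
      · simpa [hM, hΓ] using hu1
      · have h3 : M i.succ 0 = k i * c' i := by simp [hM, hq]
        have h4 : Γ i.succ = γ i := by simp [hΓ]
        rw [h3, h4, map_mul]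
        calc w.1 (k i : L) * w.1 (c' i) ≤ 1 * γ i :=
              mul_le_mul' (natCast_mem w.1.integer _) (h2 i)
          _ = γ i := one_mul _
    have hprod : ∏ i, Γ i ^ 2 = ∏ i, γ i ^ 2 := by
      rw [Fin.prod_univ_succ]
      simp [hΓ]
    have hbound : w.1 M.det ≤ (∏ i, γ i ^ 2) * exp ((e * X.δ w + X.ρ w : ℕ) : ℤ) := by
      rw [Matrix.det_succ_column_zero]
      refine Valuation.map_sum_le w.1 fun i _ => ?_
      rw [map_mul, map_mul, map_pow, Valuation.map_neg, map_one, one_pow, one_mul]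
      have h3 : M.submatrix i.succAbove Fin.succ =
          Matrix.of fun i' j => X.row (y (i.succAbove i')) (K j) := by
        ext i' j
        rw [Matrix.submatrix_apply, hMs, Matrix.of_apply]
      have h4 := X.pl_rows_gen w (fun i' => y (i.succAbove i')) (fun i' => Γ (i.succAbove i'))
        (fun i' => hΓ1 _) (fun i' => hyΓ _)
      have h5 : w.1 (M.submatrix i.succAbove Fin.succ).det ≤
          (∏ i', Γ (i.succAbove i') ^ 2) * exp ((e * X.δ w + X.ρ w : ℕ) : ℤ) := by
        rw [h3]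
        exact (le_vmax w.1 (fun K : Fin e → M3 d =>
          (Matrix.of fun i' j => X.row (y (i.succAbove i')) (K j)).det) K).trans h4
      have h6 : w.1 (M i 0) ≤ Γ i ^ 2 := by
        refine (hM0 i).trans ?_
        rw [sq]
        exact le_mul_of_one_le_left zero_le (hΓ1 i)
      calc w.1 (M i 0) * w.1 (M.submatrix i.succAbove Fin.succ).det ≤
          Γ i ^ 2 * ((∏ i', Γ (i.succAbove i') ^ 2) * exp ((e * X.δ w + X.ρ w : ℕ) : ℤ)) :=
            mul_le_mul' h6 h5
        _ = (∏ i, γ i ^ 2) * exp ((e * X.δ w + X.ρ w : ℕ) : ℤ) := by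
          rw [← mul_assoc, ← hprod, ← Fin.prod_univ_succAbove (fun i => Γ i ^ 2) i]
    have hfinal : u ^ (∑ i, k i + 1) * (Matrix.of fun i j => X.row (c i) (K j)).det =
        M.det := by
      rw [hdet]
      have h3 : (Matrix.of fun i j => X.row (c' i) (K j) - q i / u * X.row u (K j)) =
          Matrix.of fun i j => u ^ k i * (Matrix.of fun i j => X.row (c i) (K j)) i j := by
        ext i j
        rw [Matrix.of_apply, Matrix.of_apply, Matrix.of_apply, hrel]
      rw [h3, Matrix.det_mul_column, Finset.prod_pow_eq_pow_sum, pow_succ]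
      ring
    rw [← map_pow, ← map_mul, hfinal]
    exact hbound
  unfold pl
  have h3 : vmax w.1 (fun K : Fin e → M3 d => (Matrix.of fun i j => X.row (c i) (K j)).det) ≤
      (w.1 u ^ (∑ i, k i + 1))⁻¹ *
        ((∏ i, γ i ^ 2) * exp ((e * X.δ w + X.ρ w : ℕ) : ℤ)) := by
    refine vmax_le w.1 fun K => ?_
    have h4 := key K
    calc w.1 (Matrix.of fun i j => X.row (c i) (K j)).det =
        (w.1 u ^ (∑ i, k i + 1))⁻¹ * (w.1 u ^ (∑ i, k i + 1) *
          w.1 (Matrix.of fun i j => X.row (c i) (K j)).det) := by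
          rw [← mul_assoc, inv_mul_cancel₀ hpow, one_mul]
      _ ≤ _ := mul_le_mul_right h4 _
  calc w.1 u ^ (∑ i, k i + 1) *
      vmax w.1 (fun K : Fin e → M3 d => (Matrix.of fun i j => X.row (c i) (K j)).det) ≤
      w.1 u ^ (∑ i, k i + 1) * ((w.1 u ^ (∑ i, k i + 1))⁻¹ *
        ((∏ i, γ i ^ 2) * exp ((e * X.δ w + X.ρ w : ℕ) : ℤ))) := mul_le_mul_right h3 _
    _ = _ := by rw [← mul_assoc, mul_inv_cancel₀ hpow, one_mul]

end

section

variable {κ L : Type*} [Field κ] [IsAlgClosed κ] [CharZero κ] [Field L] [Algebra κ L] {n d : ℕ}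
  (X : DatG κ (L := L) n d)

/-- **The height of a space spanned by rows**, with weights. -/
theorem ht_span_row_wt (h : IsFF κ L) {γ : Type*} [Fintype γ] (c : Option γ → L) (k : γ → ℕ)
    (hk : ∀ t, k t ≤ 2) {u : Place κ L → L} {a g g' : Place κ L → ℤ}
    (ha : (Function.support a).Finite) (hg : (Function.support g).Finite)
    (hg' : (Function.support g').Finite) (ha0 : ∀ w, 0 ≤ a w)
    (hg0 : ∀ w, 0 ≤ g w) (hg0' : ∀ w, 0 ≤ g' w) (hu : ∀ w, w.1 (u w) = exp (- a w))
    (h1 : ∀ t w, w.1 (u w ^ k t * c (some t)) ≤ exp (g w))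
    (h2 : ∀ w, w.1 (c none) ≤ exp (g' w)) {V : Submodule L (M3 d → L)}
    (hV : V = Submodule.span L (Set.range fun t => X.row (c t))) :
    ht κ V ≤ finrank L V * (2 * ∑ᶠ w, a w + 2 * ∑ᶠ w, g w + X.Δ) + ∑ᶠ w, a w +
      2 * ∑ᶠ w, g' w + X.R := by
  classical
  obtain ⟨τ, σ', hσ', hsp, hli⟩ := exists_linearIndependent' L (fun t => X.row (c t))
  have : Finite τ := Finite.of_injective σ' hσ'
  have : Fintype τ := Fintype.ofFinite τ
  set e := Fintype.card τ with he
  set σ : Fin e → Option γ := fun i => σ' ((Fintype.equivFin τ).symm i) with hσ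
  have hσi : Function.Injective σ := hσ'.comp (Fintype.equivFin τ).symm.injective
  set b : Fin e → M3 d → L := fun i => X.row (c (σ i)) with hb
  have hai : LinearIndependent L b := hli.comp _ (Fintype.equivFin τ).symm.injective
  have has : Submodule.span L (Set.range b) = V := by
    have h1 : Set.range b = Set.range ((fun t => X.row (c t)) ∘ σ') := by
      ext y
      constructor
      · rintro ⟨i, rfl⟩
        exact ⟨_, rfl⟩
      · rintro ⟨t, rfl⟩
        refine ⟨Fintype.equivFin τ t, ?_⟩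
        simp [hb, hσ]
    rw [h1, hsp, hV]
  have hev : finrank L V = e := by
    have h1 := finrank_span_eq_card hai
    rw [has, Fintype.card_fin] at h1
    exact h1
  -- the weights and the local bounds
  let k' : Option γ → ℕ := fun t => t.elim 0 k
  have hk' : ∀ t, k' t ≤ 2 := by
    intro t
    cases t with
    | none => exact Nat.zero_le _
    | some t => exact hk t
  have hksum : ∑ i, k' (σ i) ≤ 2 * e := by
    refine (Finset.sum_le_sum fun i _ => hk' (σ i)).trans ?_
    rw [Finset.sum_const, Finset.card_univ, Fintype.card_fin, smul_eq_mul, mul_comm]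
  let G : Place κ L → Option γ → ℤ := fun w t => t.elim (g' w) fun _ => g w
  have hG0 : ∀ w t, 0 ≤ G w t := by
    intro w t
    cases t with
    | none => exact hg0' w
    | some t => exact hg0 w
  have hGc : ∀ w t, w.1 (u w ^ k' t * c t) ≤ exp (G w t) := by
    intro w t
    cases t with
    | none =>
      simp only [k', Option.elim_none, pow_zero, one_mul, G]
      exact h2 w
    | some t => exact h1 t w
  have hGsum : ∀ w, ∑ i, 2 * G w (σ i) ≤ e * (2 * g w) + 2 * g' w := by
    intro w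
    have h3 : ∀ i, 2 * G w (σ i) ≤ 2 * g w + if σ i = none then 2 * g' w else 0 := by
      intro i
      rcases hi : σ i with _ | t
      · simp only [G, Option.elim_none, if_true]
        have := hg0 w
        linarith
      · simp only [G, Option.elim_some, reduceCtorEq, if_false, add_zero]
        exact le_rfl
    refine (Finset.sum_le_sum fun i _ => h3 i).trans ?_
    rw [Finset.sum_add_distrib, Finset.sum_const, Finset.card_univ, Fintype.card_fin, nsmul_eq_mul]
    have h4 : ∑ i : Fin e, (if σ i = none then 2 * g' w else 0) ≤ 2 * g' w := by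
      rw [← Finset.sum_filter, Finset.sum_const, nsmul_eq_mul]
      have h5 : (Finset.univ.filter fun i : Fin e => σ i = none).card ≤ 1 := by
        rw [Finset.card_le_one]
        intro i hi j hj
        rw [Finset.mem_filter] at hi hj
        exact hσi (hi.2.trans hj.2.symm)
      have h6 : (((Finset.univ.filter fun i : Fin e => σ i = none).card : ℕ) : ℤ) ≤ 1 := by
        exact_mod_cast h5
      have h7 := mul_le_mul_of_nonneg_right h6 (show 0 ≤ 2 * g' w by have := hg0' w; linarith)
      linarith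
    linarith
  have hloc : ∀ w : Place κ L, log (pl w.1 b) ≤
      ((2 * e + 1 : ℤ) * a w + ((e : ℤ) * (2 * g w) + 2 * g' w)) +
        ((e : ℤ) * (X.δ w : ℤ) + (X.ρ w : ℤ)) := by
    intro w
    have hu0 : u w ≠ 0 := by
      intro h0
      have h3 := hu w
      rw [h0, map_zero] at h3
      exact exp_ne_zero h3.symm
    have hu1 : w.1 (u w) ≤ 1 := by
      rw [hu w]
      exact exp_le_one' (by have := ha0 w; linarith)
    have h3 := pl_rows_wt X w (fun i => c (σ i)) hu0 hu1 (fun i => k' (σ i))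
      (fun i => exp (G w (σ i))) (fun i => by
      rw [← exp_zero, exp_le_exp]
      exact hG0 w _) (fun i => hGc w _)
    have n1 : pl w.1 b ≠ 0 := pl_ne_zero w.1 hai
    have h4 : ∏ i, (exp (G w (σ i)) : ℤᵐ⁰) ^ 2 = exp (∑ i, 2 * G w (σ i)) := by
      rw [exp_sum]
      refine Finset.prod_congr rfl fun i _ => ?_
      rw [← exp_nsmul, nsmul_eq_mul]
      rfl
    rw [h4, ← exp_add, hu w, ← exp_nsmul] at h3
    have h5 : log (pl w.1 b) ≤ (∑ i, k' (σ i) + 1 : ℕ) * a w +
        (∑ i, 2 * G w (σ i) + ((e * X.δ w + X.ρ w : ℕ) : ℤ)) := by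
      rw [log_le_iff_le_exp n1, exp_add]
      have h6 : (exp (((∑ i, k' (σ i) + 1 : ℕ) : ℤ) * a w) : ℤᵐ⁰) *
          exp ((∑ i, k' (σ i) + 1) • (- a w)) = 1 := by
        rw [← exp_add, nsmul_eq_mul, mul_neg, add_neg_cancel, exp_zero]
      calc pl w.1 b = exp (((∑ i, k' (σ i) + 1 : ℕ) : ℤ) * a w) *
            (exp ((∑ i, k' (σ i) + 1) • (- a w)) * pl w.1 b) := by
            rw [← mul_assoc, h6, one_mul]
        _ ≤ _ := mul_le_mul_right h3 _
    refine h5.trans ?_
    have h6 := hGsum w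
    have h7 : ((∑ i, k' (σ i) + 1 : ℕ) : ℤ) ≤ 2 * e + 1 := by
      have : ∑ i, k' (σ i) + 1 ≤ 2 * e + 1 := by omega
      exact_mod_cast this
    have h8 := mul_le_mul_of_nonneg_right h7 (ha0 w)
    push_cast at h8 ⊢
    linarith
  have s1 := pl_support h hai
  have s0 : (Function.support fun w : Place κ L => (2 * e + 1 : ℤ) * a w).Finite := by
    refine ha.subset fun w hw h1 => hw ?_
    simp only at h1 ⊢
    rw [h1, mul_zero]
  have s2 : (Function.support fun w : Place κ L => (e : ℤ) * (2 * g w)).Finite := by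
    refine hg.subset fun w hw h1 => hw ?_
    simp only at h1 ⊢
    rw [h1, mul_zero, mul_zero]
  have s3 : (Function.support fun w : Place κ L => 2 * g' w).Finite := by
    refine hg'.subset fun w hw h1 => hw ?_
    simp only at h1 ⊢
    rw [h1, mul_zero]
  have s4 : (Function.support fun w : Place κ L => (e : ℤ) * (X.δ w : ℤ)).Finite := by
    refine X.hδ.subset fun w hw h1 => hw ?_
    simp only at h1 ⊢
    rw [h1, Nat.cast_zero, mul_zero]
  have s5 : (Function.support fun w : Place κ L => (X.ρ w : ℤ)).Finite := by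
    refine X.hρ.subset fun w hw h1 => hw ?_
    simp only at h1 ⊢
    rw [h1, Nat.cast_zero]
  have s23 := (s2.union s3).subset (Function.support_add _ _)
  have s023 := (s0.union s23).subset (Function.support_add _ _)
  have s45 := (s4.union s5).subset (Function.support_add _ _)
  have hmain := finsum_mono s1 ((s023.union s45).subset (Function.support_add _ _)) hloc
  rw [finsum_add_distrib s023 s45, finsum_add_distrib s0 s23, finsum_add_distrib s2 s3,
    finsum_add_distrib s4 s5] at hmain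
  have e1 : ∑ᶠ w : Place κ L, log (pl w.1 b) = ht κ V := by
    rw [← ht_span h hai, has]
  have e0 : ∑ᶠ w : Place κ L, (2 * e + 1 : ℤ) * a w = (2 * e + 1) * ∑ᶠ w, a w :=
    (mul_finsum _ _).symm
  have e2 : ∑ᶠ w : Place κ L, (e : ℤ) * (2 * g w) = e * (2 * ∑ᶠ w, g w) := by
    rw [← mul_finsum, ← mul_finsum]
  have e3 : ∑ᶠ w : Place κ L, 2 * g' w = 2 * ∑ᶠ w, g' w := (mul_finsum _ _).symm
  have e4 : ∑ᶠ w : Place κ L, (e : ℤ) * (X.δ w : ℤ) = (e : ℤ) * X.Δ := (mul_finsum _ _).symm
  have e5 : ∑ᶠ w : Place κ L, (X.ρ w : ℤ) = X.R := rfl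
  rw [e1, e0, e2, e3, e4, e5] at hmain
  rw [hev]
  linarith

variable {b : ℕ} {A : L[X][X]} (hA : CrvG X b A)

include hA in
/-- local scaling: an element of the field which makes all coefficients integral -/
theorem exists_scale (w : Place κ L) : ∃ u : L, w.1 u = exp (- log (gg w.1 A)) ∧
    ∀ i j, w.1 (u * (A.coeff i).coeff j) ≤ 1 := by
  have hA0 : A ≠ 0 := hA.irr.ne_zero
  have hgA : gg w.1 A ≠ 0 := (gg_eq_zero w.1).not.2 hA0
  -- the maximum is attained
  obtain ⟨i, j, hij⟩ : ∃ i j, w.1 ((A.coeff i).coeff j) = gg w.1 A := by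
    by_contra hcon
    push Not at hcon
    have hlt : ∀ i j, w.1 ((A.coeff i).coeff j) ≤ exp (log (gg w.1 A) - 1) := by
      intro i j
      have h1 := lt_of_le_of_ne (le_gg w.1 A i j) (hcon i j)
      by_cases h0 : w.1 ((A.coeff i).coeff j) = 0
      · rw [h0]
        exact zero_le
      · have h2 : log (w.1 ((A.coeff i).coeff j)) < log (gg w.1 A) := (log_lt_log h0 hgA).2 h1
        rw [← log_le_iff_le_exp h0]
        omega
    have h1 := gg_le w.1 hlt
    have h2 : (exp (log (gg w.1 A)) : ℤᵐ⁰) ≤ exp (log (gg w.1 A) - 1) := by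
      rwa [exp_log hgA]
    rw [exp_le_exp] at h2
    omega
  have hc0 : (A.coeff i).coeff j ≠ 0 := by
    intro h0
    rw [h0, map_zero] at hij
    exact hgA hij.symm
  refine ⟨((A.coeff i).coeff j)⁻¹, ?_, fun i' j' => ?_⟩
  · rw [map_inv₀, hij, exp_neg, exp_log hgA]
  · rw [map_mul, map_inv₀, hij]
    calc (gg w.1 A)⁻¹ * w.1 ((A.coeff i').coeff j') ≤ (gg w.1 A)⁻¹ * gg w.1 A :=
          mul_le_mul_right (le_gg w.1 A i' j') _
      _ = 1 := inv_mul_cancel₀ hgA

include hA in
/-- the coefficients of the parametrisation after scaling -/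
theorem scale_B (w : Place κ L) {u : L} (hu : w.1 u ≤ 1)
    (hA1 : ∀ i j, w.1 (u * (A.coeff i).coeff j) ≤ 1) (l : Fin (n + 1)) (i j : ℕ) :
    w.1 (u ^ 2 * ((X.B A l).coeff i).coeff j) ≤ exp (X.δ w : ℤ) := by
  have h1 : ((X.B A l).coeff i).coeff j = - X.E l ((A.coeff i).coeff j) := by
    unfold DatG.B
    rw [coeff_neg, coeff_neg, cd_coeff]
  set c := (A.coeff i).coeff j with hc
  have h2 : u ^ 2 * ((X.B A l).coeff i).coeff j = (u * c) * X.E l u - u * X.E l (u * c) := by
    rw [h1, Derivation.leibniz, smul_eq_mul, smul_eq_mul]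
    ring
  rw [h2]
  refine (Valuation.map_sub _ _ _).trans (max_le ?_ ?_)
  · rw [map_mul]
    calc w.1 (u * c) * w.1 (X.E l u) ≤ 1 * exp (X.δ w : ℤ) :=
          mul_le_mul' (hA1 i j) (X.hE l w u hu)
      _ = _ := one_mul _
  · rw [map_mul]
    calc w.1 u * w.1 (X.E l (u * c)) ≤ 1 * exp (X.δ w : ℤ) :=
          mul_le_mul' hu (X.hE l w _ (hA1 i j))
      _ = _ := one_mul _

/-- the weights -/
def wt {J : Finset (Fin (n + 1))} {γ : Type*} : (Option ↥J × Fin (b + 1) × Fin (b + 1)) ⊕ γ → ℕ :=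
  Sum.elim (fun t => t.1.elim 1 fun _ => 2) fun _ => 0

theorem wt_le {J : Finset (Fin (n + 1))} {γ : Type*}
    (t : (Option ↥J × Fin (b + 1) × Fin (b + 1)) ⊕ γ) : wt (b := b) t ≤ 2 := by
  rcases t with ⟨_ | k, i, j⟩ | t
  · simp [wt]
  · simp [wt]
  · simp [wt]

include hA in
theorem wt_bound (w : Place κ L) {J : Finset (Fin (n + 1))} {γ : Type*} {β : γ → L}
    (hβ : ∀ t, ∀ w : Place κ L, w.1 (β t) ≤ 1) {u : L} (hu : w.1 u ≤ 1)
    (hA1 : ∀ i j, w.1 (u * (A.coeff i).coeff j) ≤ 1)
    (t : (Option ↥J × Fin (b + 1) × Fin (b + 1)) ⊕ γ) :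
    w.1 (u ^ wt (b := b) t * Sum.elim (fun t : Option ↥J × Fin (b + 1) × Fin (b + 1) =>
      ((t.1.elim A (fun k => X.B A k.1)).coeff t.2.1).coeff t.2.2) β t) ≤ exp (X.δ w : ℤ) := by
  have he : (1 : ℤᵐ⁰) ≤ exp (X.δ w : ℤ) := by
    rw [← exp_zero, exp_le_exp]
    positivity
  rcases t with ⟨_ | k, i, j⟩ | t
  · simp only [wt, Sum.elim_inl, Option.elim_none, pow_one]
    exact (hA1 i j).trans he
  · simp only [wt, Sum.elim_inl, Option.elim_some]
    exact scale_B X hA w hu hA1 k.1 i j
  · simp only [wt, Sum.elim_inr, pow_zero, one_mul]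
    exact (hβ t w).trans he

include hA in
/-- **The height of the space of the rows in terms of its dimension.** -/
theorem ht_VJB_le' (h : IsFF κ L) {J : Finset (Fin (n + 1))} {γ : Type*} [Finite γ] {β : γ → L}
    (hβ : ∀ t, ∀ w : Place κ L, w.1 (β t) ≤ 1) {N : ℕ}
    (hN : finrank L (X.VJ J b A ⊔ RB X β : Submodule L (M3 d → L)) ≤ N) :
    ht κ (X.VJ J b A ⊔ RB X β) ≤
      N * (2 * gh κ A + 3 * X.Δ) + gh κ A + 2 * height κ X.x + X.R := by
  have := Fintype.ofFinite γ
  have hA0 : A ≠ 0 := hA.irr.ne_zero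
  have hα : 0 ≤ gh κ A := gh_nonneg h hA0
  have hΔ := X.Δ_nonneg
  have s0 := gg_support h hA0
  have s2 : (Function.support fun w : Place κ L => (X.δ w : ℤ)).Finite := by
    refine X.hδ.subset fun w hw h1 => hw ?_
    simp only at h1 ⊢
    rw [h1, Nat.cast_zero]
  have hlog : ∀ w : Place κ L, 0 ≤ log (gg w.1 A) := by
    intro w
    rw [le_log_iff_exp_le ((gg_eq_zero w.1).not.2 hA0), exp_zero]
    exact one_le_gg hA.one w
  have hlogx : ∀ w : Place κ L, 0 ≤ log (vmax w.1 X.x) := by
    intro w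
    have hv : vmax w.1 X.x ≠ 0 := by
      rw [Ne, vmax_eq_zero_iff]
      exact X.x_ne_zero
    rw [le_log_iff_exp_le hv, exp_zero]
    exact X.one_le_vmax w
  choose u hu1 hu2 using fun w => exists_scale X hA w
  have hule : ∀ w : Place κ L, w.1 (u w) ≤ 1 := by
    intro w
    rw [hu1 w]
    exact exp_le_one' (by have := hlog w; linarith)
  let ex : (Option ↥J × Fin (b + 1) × Fin (b + 1)) ⊕ γ → L := Sum.elim
    (fun t => ((t.1.elim A (fun k => X.B A k.1)).coeff t.2.1).coeff t.2.2) β
  have hV : X.VJ J b A ⊔ RB X β = Submodule.span L (Set.range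
      fun t : Option ((Option ↥J × Fin (b + 1) × Fin (b + 1)) ⊕ γ) =>
        X.row (t.elim X.y₁ ex)) := by
    rw [Submodule.span_range_eq_iSup, iSup_option, iSup_sum]
    unfold DatG.VJ RB
    rw [Finset.sup_univ_eq_iSup, Submodule.span_range_eq_iSup]
    have hsup : ∀ a b c : Submodule L (M3 d → L), (a ⊔ b) ⊔ c = b ⊔ (a ⊔ c) := by
      intro a b c
      rw [sup_comm a b, sup_assoc]
    exact hsup _ _ _
  have hmain := ht_span_row_wt X h (fun t : Option ((Option ↥J ×
      Fin (b + 1) × Fin (b + 1)) ⊕ γ) => t.elim X.y₁ ex) (wt (b := b)) wt_le (u := u)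
    (a := fun w => log (gg w.1 A)) (g := fun w => (X.δ w : ℤ)) (g' := fun w => log (vmax w.1 X.x))
    s0 s2 (h.vmax_support X.x_ne_zero) hlog (fun w => Int.natCast_nonneg _) hlogx hu1
    (fun t w => wt_bound X hA w hβ (hule w) (hu2 w) t) (fun w => ?_) hV
  · have e1 : ∑ᶠ w : Place κ L, log (gg w.1 A) = gh κ A := rfl
    have e2 : ∑ᶠ w : Place κ L, log (vmax w.1 X.x) = height κ X.x := rfl
    have e3 : ∑ᶠ w : Place κ L, (X.δ w : ℤ) = X.Δ := rfl
    rw [e1, e2, e3] at hmain
    have h1 : (finrank L (X.VJ J b A ⊔ RB X β : Submodule L (M3 d → L)) : ℤ) ≤ N := by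
      exact_mod_cast hN
    have h2 := mul_le_mul_of_nonneg_right h1 (show 0 ≤ 2 * gh κ A + 3 * X.Δ by linarith)
    have h3 : (finrank L (X.VJ J b A ⊔ RB X β : Submodule L (M3 d → L)) : ℤ) *
        (2 * gh κ A + 2 * X.Δ + X.Δ) =
        (finrank L (X.VJ J b A ⊔ RB X β : Submodule L (M3 d → L)) : ℤ) *
          (2 * gh κ A + 3 * X.Δ) := by ring
    rw [h3] at hmain
    linarith
  · have hv : vmax w.1 X.x ≠ 0 := by
      rw [Ne, vmax_eq_zero_iff]
      exact X.x_ne_zero
    simp only [Option.elim_none]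
    rw [exp_log hv, X.vmax_x w]
    exact le_max_right _ _

include hA in
/-- the height of the span of the rows of the coefficients and of the further elements -/
theorem ht_RCB_le' (h : IsFF κ L) (J : Finset (Fin (n + 1))) {γ : Type*} [Finite γ] {β : γ → L}
    (hβ : ∀ t, ∀ w : Place κ L, w.1 (β t) ≤ 1) :
    ht κ (RC X J b A ⊔ RB X β) ≤ finrank L (RC X J b A ⊔ RB X β : Submodule L (M3 d → L)) *
      (2 * gh κ A + 3 * X.Δ) + gh κ A + X.R := by
  have := Fintype.ofFinite γ
  have hA0 : A ≠ 0 := hA.irr.ne_zero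
  have s0 := gg_support h hA0
  have s2 : (Function.support fun w : Place κ L => (X.δ w : ℤ)).Finite := by
    refine X.hδ.subset fun w hw h1 => hw ?_
    simp only at h1 ⊢
    rw [h1, Nat.cast_zero]
  have s3 : (Function.support fun _ : Place κ L => (0 : ℤ)).Finite := by
    have : (Function.support fun _ : Place κ L => (0 : ℤ)) = ∅ := by
      ext w
      simp
    rw [this]
    exact Set.finite_empty
  have hlog : ∀ w : Place κ L, 0 ≤ log (gg w.1 A) := by
    intro w
    rw [le_log_iff_exp_le ((gg_eq_zero w.1).not.2 hA0), exp_zero]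
    exact one_le_gg hA.one w
  have hrow1 : X.row 1 = 0 := by
    have := X.row_natCast 1
    rwa [Nat.cast_one] at this
  choose u hu1 hu2 using fun w => exists_scale X hA w
  have hule : ∀ w : Place κ L, w.1 (u w) ≤ 1 := by
    intro w
    rw [hu1 w]
    exact exp_le_one' (by have := hlog w; linarith)
  let ex : (Option ↥J × Fin (b + 1) × Fin (b + 1)) ⊕ γ → L := Sum.elim
    (fun t => ((t.1.elim A (fun k => X.B A k.1)).coeff t.2.1).coeff t.2.2) β
  have hV : RC X J b A ⊔ RB X β = Submodule.span L (Set.range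
      fun t : Option ((Option ↥J × Fin (b + 1) × Fin (b + 1)) ⊕ γ) => X.row (t.elim 1 ex)) := by
    rw [Submodule.span_range_eq_iSup, iSup_option, iSup_sum]
    unfold RC RB
    rw [Finset.sup_univ_eq_iSup, Submodule.span_range_eq_iSup]
    simp only [Option.elim_none, Option.elim_some, hrow1, Submodule.span_zero_singleton,
      bot_sup_eq]
    rfl
  have hmain := ht_span_row_wt X h (fun t : Option ((Option ↥J ×
      Fin (b + 1) × Fin (b + 1)) ⊕ γ) => t.elim 1 ex) (wt (b := b)) wt_le (u := u)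
    (a := fun w => log (gg w.1 A)) (g := fun w => (X.δ w : ℤ)) (g' := fun _ => 0)
    s0 s2 s3 hlog (fun w => Int.natCast_nonneg _) (fun _ => le_rfl) hu1
    (fun t w => wt_bound X hA w hβ (hule w) (hu2 w) t) (fun w => ?_) hV
  · have e1 : ∑ᶠ w : Place κ L, log (gg w.1 A) = gh κ A := rfl
    have e3 : ∑ᶠ w : Place κ L, (X.δ w : ℤ) = X.Δ := rfl
    rw [e1, e3, finsum_zero, mul_zero, add_zero] at hmain
    refine hmain.trans (le_of_eq ?_)
    ring
  · simp only [Option.elim_none, map_one, exp_zero, le_refl]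

end

end Pool.Agent.Lib.MP_44a246_ntC
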