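import Mathlib
import Pool.Agent.Lib.MP_44a246_ntG.G13
import Pool.Agent.Lib.MP_44a246_ntG.G20
import Pool.Agent.Lib.MP_44a246_ntZ.Z07
import Pool.Agent.Lib.MP_44a246_ntC.C03

/-!
The plane curve through the point, as a form of small degree; the second plane curve.
-/

namespace Pool.Agent.Lib.MP_44a246_ntC

open Pool.Agent.Lib.MP_44a246_nt
open Pool.Agent.Lib.MP_44a246_ntL
open Pool.Agent.Lib.MP_44a246_ntS
open Pool.Agent.Lib.MP_44a246_ntX
open Pool.Agent.Lib.MP_44a246_ntG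
open Pool.Agent.Lib.MP_44a246_ntZ
open Pool.Agent.Lib.MP_e52354_nt
open WithZero Module Polynomial

variable {κ L : Type*} [Field κ] [IsAlgClosed κ] [CharZero κ] [Field L] [CharZero L]
  [Algebra κ L]

omit [CharZero L] in
/-- **The curve.** -/
theorem exists_curve_hom (h : IsFF κ L) {n d : ℕ} (X : DatG κ (L := L) n d) {a : ℕ}
    {P : MvPolynomial (Fin 3) L} (hP0 : P ≠ 0) (hPh : P.IsHomogeneous a)
    (hPe : MvPolynomial.eval X.p P = 0) (hsm : 2 * (a : ℤ) * polyHeight κ P < height κ X.x) :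
    ∃ (a' : ℕ) (A : L[X][X]) (P' : MvPolynomial (Fin 3) L), 1 ≤ a' ∧ a' ≤ a ∧ CrvG X a' A ∧
      A.leadingCoeff.Monic ∧ P'.IsHomogeneous a' ∧ Irreducible P' ∧ deh P' = A ∧
      gh κ A ≤ polyHeight κ P := by
  have ha1 : 1 ≤ a := by
    by_contra hcon
    have h0 : a = 0 := by omega
    subst h0
    have h1 := MvPolynomial.totalDegree_eq_zero_iff_eq_C.1 (Nat.le_zero.1 hPh.totalDegree_le)
    rw [h1, MvPolynomial.eval_C] at hPe
    rw [hPe, map_zero] at h1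
    exact hP0 h1
  have hdP0 := deh_ne_zero hPh hP0
  obtain ⟨A₀, c1, c2, c3, c4, c5, c6, c7, c8⟩ := exists_curve h hdP0 (deh_box hPh)
    (y₁ := X.y₁) (y := X.y) (by rw [deh_eval]; exact hPe) ha1 (by
      rw [gh_deh hPh, X.height_y₁]
      exact hsm)
  -- the scaled curve
  set c := A₀.leadingCoeff.leadingCoeff with hc
  have hc0 : c ≠ 0 := leadingCoeff_ne_zero.2 (leadingCoeff_ne_zero.2 c1.ne_zero)
  have hci : c⁻¹ ≠ 0 := inv_ne_zero hc0
  have hCi : (C c⁻¹ : L[X]) ≠ 0 := C_ne_zero.2 hci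
  have hu : IsUnit (C (C c⁻¹) : L[X][X]) := by
    rw [isUnit_C, isUnit_C, isUnit_iff_ne_zero]
    exact hci
  set A := C (C c⁻¹) * A₀ with hAdef
  have hlc : A.leadingCoeff = C c⁻¹ * A₀.leadingCoeff := by
    rw [hAdef, leadingCoeff_mul, leadingCoeff_C]
  have hmon : A.leadingCoeff.Monic := by
    rw [hlc]
    unfold Monic
    rw [leadingCoeff_mul, leadingCoeff_C, ← hc, inv_mul_cancel₀ hc0]
  have hirr : Irreducible A := by
    obtain ⟨u, hu⟩ := hu
    rw [hAdef, ← hu]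
    exact (irreducible_units_mul u).2 c1
  have hdeg : A.natDegree ≠ 0 := by
    rw [hAdef, natDegree_C_mul hCi]
    exact c4
  have hAP : A ∣ deh P := by
    rw [hAdef]
    exact (hu.mul_left_dvd).2 c2
  have hzero : A.evalEval X.y₁ X.y = 0 := by
    rw [hAdef, evalEval_mul, c5, mul_zero]
  have hder : (derivative A).evalEval X.y₁ X.y ≠ 0 := by
    rw [hAdef, derivative_C_mul, evalEval_mul]
    refine mul_ne_zero ?_ c6
    rw [evalEval_C, eval_C]
    exact hci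
  have hgh : gh κ A ≤ polyHeight κ P := by
    rw [hAdef, gh_smul h c1.ne_zero hci, ← gh_deh hPh]
    exact c7
  obtain ⟨a', P', -, hP'h, hP'A, hP'i⟩ := exists_form hirr (Box.of_dvd (deh_box hPh) hdP0 hAP)
  have hX : (deh P').natDegree ≠ 0 := by rw [hP'A]; exact hdeg
  have hdvd : P' ∣ P := dvd_of_deh_dvd hP'h hP'i hX hPh (by rw [hP'A]; exact hAP)
  have ha' : a' ≤ a := by
    obtain ⟨Q, hQ⟩ := hdvd
    obtain ⟨a₁, a₂, hs, h1, h2⟩ := hom_of_mul (hQ ▸ hPh) (hQ ▸ hP0)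
    have h3 : a₁ = a' := h1.inj_right hP'h hP'i.ne_zero
    omega
  have hbox : Box a' A := by
    rw [← hP'A]
    exact deh_box hP'h
  have ha'1 : 1 ≤ a' := by
    have h1 := hbox.1
    omega
  exact ⟨a', A, P', ha'1, ha', ⟨hirr, hbox, hdeg, hzero, hder, ⟨_, _, hmon⟩⟩, hmon, hP'h, hP'i,
    hP'A, hgh⟩

/-- **The second plane curve**, for an arbitrary space `V` which contains `xi d p` -/
theorem stepB_gen' (h : IsFF κ L) {n d : ℕ} (X : DatG κ (L := L) n d) {σ s₁ N : ℕ} {η : ℤ}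
    {V : Submodule L (M3 d → L)} (hξ : xi d X.p ∈ V) (hV : finrank L V ≤ N) (hht : ht κ V ≤ η)
    (hpos : 0 < height κ X.x) (hd1 : 1 ≤ d) (h21 : 21 * N < 2 * (d * (s₁ + 3)))
    (hsd : s₁ + σ ≤ d)
    (hη : 5 * η + d * height κ X.x < 5 * (((d : ℤ) - s₁ - σ + 1) * height κ X.x))
    (hη2 : 21 * N * η < 4 * d * height κ X.x * ((N3 σ : ℤ) - N)) (hs₁ : 1 ≤ s₁) :
    ∃ (a e : ℕ) (A' : MvPolynomial (Fin 3) L), a + e = σ ∧ A' ≠ 0 ∧ A'.IsHomogeneous a ∧
      MvPolynomial.eval X.p A' = 0 ∧ polyHeight κ A' * ((N3 σ : ℤ) - N) ≤ η ∧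
      4 * d * height κ X.x * ((N3 σ : ℤ) - N3 e - N) ≤ 21 * N * η := by
  set H := height κ X.x with hHdef
  have hηR : 5 * (η : ℝ) + d * (H : ℝ) < 5 * (((d : ℝ) - s₁ - σ + 1) * (H : ℝ)) := by
    exact_mod_cast hη
  have hη2R : 21 * (N : ℝ) * η < 4 * d * (H : ℝ) * ((N3 σ : ℝ) - N) := by exact_mod_cast hη2
  have hη0 : 0 ≤ η := (ht_nonneg h V).trans hht
  have hη0R : (0 : ℝ) ≤ (η : ℝ) := by exact_mod_cast hη0
  have hHR : (0 : ℝ) < (H : ℝ) := by exact_mod_cast hpos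
  have hN1 : 1 ≤ N := by
    by_contra hN0
    have h0 : finrank L V = 0 := by omega
    rw [Submodule.finrank_eq_zero] at h0
    rw [h0, Submodule.mem_bot] at hξ
    exact xi_ne_zero X.p_ne_zero hξ
  have hNR : (0 : ℝ) < (N : ℝ) := by exact_mod_cast hN1
  have hdR : (0 : ℝ) < (d : ℝ) := by exact_mod_cast hd1
  have hhtVR : (ht κ V : ℝ) ≤ η := by exact_mod_cast hht
  -- the slopes
  set μ : ℝ := 4 * d * H / (21 * N) with hμdef
  set τ : ℝ := d * H / (5 * N) with hτdef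
  have hμ0 : 0 < μ := by rw [hμdef]; positivity
  have hμτ : μ < τ := by
    rw [hμdef, hτdef, div_lt_div_iff₀ (by positivity) (by positivity)]
    have : 0 < (d : ℝ) * H * N := by positivity
    nlinarith
  have hτN : τ * N = d * H / 5 := by
    rw [hτdef]
    field_simp
  have hμN : 21 * N * μ = 4 * d * H := by
    rw [hμdef]
    field_simp
  -- the space with large slopes
  obtain ⟨W, hWV, hWsl, hWht⟩ := exists_hasSl h τ hξ
  have hW1 : (ht κ W : ℝ) + τ * finrank L W ≤ η + d * H / 5 := by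
    have h2 : τ * finrank L V ≤ τ * N :=
      mul_le_mul_of_nonneg_left (by exact_mod_cast hV) (hμ0.trans hμτ).le
    linarith
  obtain ⟨Qd, hQd⟩ := exists_isSl (κ := κ) h μ (xi d X.p)
  obtain ⟨Qs, hQs⟩ := exists_isSl (κ := κ) h μ (xi σ X.p)
  obtain ⟨Q₁, hQ₁⟩ := exists_isSl (κ := κ) h μ (xi s₁ X.p)
  have hWQ : W ≤ Qd := HasSl.le_isSl h hμτ hWsl hQd
  -- the form of degree `s₁`
  have hb₁ := hQ₁.bound h (xi_ne_zero X.p_ne_zero)
  rw [height_xi h s₁ X.p_ne_zero, X.height_p] at hb₁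
  push_cast at hb₁
  have hQ0₁ : (0 : ℝ) ≤ (ht κ Q₁ : ℝ) := by exact_mod_cast ht_nonneg h Q₁
  have hcard₁ : Fintype.card (M3 s₁) = N3 s₁ := card_M3 s₁
  have hN3₁ : 2 * (N3 s₁ : ℝ) = (s₁ + 1) * (s₁ + 2) := by exact_mod_cast two_N3 s₁
  have h21R : 21 * (N : ℝ) < 2 * (d * (s₁ + 3)) := by exact_mod_cast h21
  have hs₁R : (1 : ℝ) ≤ s₁ := by exact_mod_cast hs₁
  have hQtop₁ : Q₁ ≠ ⊤ := by
    intro h1
    have h2 : finrank L Q₁ = N3 s₁ := by
      rw [h1, finrank_top, Module.finrank_fintype_fun_eq_card, hcard₁]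
    rw [h2] at hb₁
    have h3 : μ * ((N3 s₁ : ℝ) - 1) ≤ s₁ * H := by linarith
    have h4 : (N3 s₁ : ℝ) - 1 = s₁ * (s₁ + 3) / 2 := by linarith
    rw [h4] at h3
    have h5 : 21 * N * (μ * (s₁ * (s₁ + 3) / 2)) ≤ 21 * N * (s₁ * H) :=
      mul_le_mul_of_nonneg_left h3 (by positivity)
    have h6 : 21 * N * (μ * (s₁ * (s₁ + 3) / 2)) = 4 * d * H * (s₁ * (s₁ + 3) / 2) := by
      rw [← hμN]
      ring
    rw [h6] at h5
    have h7 : 0 < (s₁ : ℝ) * H := by positivity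
    have h8 := mul_lt_mul_of_pos_right h21R h7
    nlinarith
  obtain ⟨G₁, hG₁, hG₁0⟩ := Submodule.exists_mem_ne_zero_of_ne_bot (Ann_ne_bot hQtop₁)
  -- the contraction by a power of the first variable
  have hsd' : σ + (d - σ) = d := by omega
  set c : Matrix (M3 σ) (M3 d) κ := ctr ((MvPolynomial.X 0) ^ (d - σ)) σ d with hcdef
  have hcmap : c.map (algebraMap κ L) =
      ctr ((MvPolynomial.X 0 : MvPolynomial (Fin 3) L) ^ (d - σ)) σ d := by
    rw [hcdef, ← ctr_map (algebraMap κ L), map_pow, MvPolynomial.map_X]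
  set V' := V.map (c.map (algebraMap κ L)).mulVecLin with hV'def
  have hxiV' : xi σ X.p ∈ V' := by
    refine ⟨xi d X.p, hξ, ?_⟩
    rw [Matrix.mulVecLin_apply, hcmap]
    have hhom : ((MvPolynomial.X 0 : MvPolynomial (Fin 3) L) ^ (d - σ)).IsHomogeneous (d - σ) := by
      have := (MvPolynomial.isHomogeneous_X L (0 : Fin 3)).pow (d - σ)
      rwa [one_mul] at this
    rw [ctr_xi hsd' hhom X.p, map_pow, MvPolynomial.eval_X]
    have hp0 : X.p 0 = 1 := rfl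
    rw [hp0, one_pow, one_smul]
  have hhtV' : ht κ V' ≤ ht κ V := ht_map_const_le h c V
  have hfrV' : finrank L V' ≤ N := (Submodule.finrank_map_le _ V).trans hV
  have hfrV'R : (finrank L V' : ℝ) ≤ N := by exact_mod_cast hfrV'
  -- the space `Q`
  set Q := Qs ⊔ V' with hQdef
  have hsup := hQs.sup h hxiV'
  rw [← hQdef] at hsup
  have hmq : finrank L V' ≤ finrank L Q := Submodule.finrank_mono le_sup_right
  have hmqR : (finrank L V' : ℝ) ≤ finrank L Q := by exact_mod_cast hmq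
  have hhtV'R : (ht κ V' : ℝ) ≤ η := by
    have : (ht κ V' : ℝ) ≤ ht κ V := by exact_mod_cast hhtV'
    linarith
  have hQ0 : (0 : ℝ) ≤ (ht κ Q : ℝ) := by exact_mod_cast ht_nonneg h Q
  have hcard : Fintype.card (M3 σ) = N3 σ := card_M3 σ
  have hη2' : η < μ * ((N3 σ : ℝ) - N) := by
    have h1 : 21 * (N : ℝ) * η < 21 * N * (μ * ((N3 σ : ℝ) - N)) := by
      calc 21 * (N : ℝ) * η < 4 * d * (H : ℝ) * ((N3 σ : ℝ) - N) := hη2R
        _ = 21 * N * (μ * ((N3 σ : ℝ) - N)) := by rw [← hμN]; ring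
    exact lt_of_mul_lt_mul_left h1 (by positivity)
  have hQtop : Q ≠ ⊤ := by
    intro htop
    have h1 : finrank L Q = N3 σ := by
      rw [htop, finrank_top, Module.finrank_fintype_fun_eq_card, hcard]
    rw [h1] at hsup
    have h2 : μ * ((N3 σ : ℝ) - N) ≤ μ * ((N3 σ : ℝ) - finrank L V') :=
      mul_le_mul_of_nonneg_left (by linarith) hμ0.le
    linarith
  obtain ⟨a, e, A', hae, hA'0, hA'hom, hA'1, hA'2, hA'3⟩ := core' h X.p_ne_zero (s₁ := s₁)
    (s := σ) (d := d) hsd hQtop (show xi σ X.p ∈ Q from (le_sup_right : V' ≤ Q) hxiV') hWsl.mem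
    (fun G hG u hu => IsSl.ctr_eq_zero h hsd' hQd hQs hG.1
      (fun v hv => hG.2 v ((le_sup_left : Qs ≤ Q) hv)) (hWQ hu)) hG₁.1 hG₁0
    (fun u hu => IsSl.ctr_eq_zero h (show s₁ + (d - s₁) = d by omega) hQd hQ₁ hG₁.1 hG₁.2
      (hWQ hu))
  have hα0 : 0 ≤ polyHeight κ A' := polyHeight_nonneg h hA'0
  have hα0R : (0 : ℝ) ≤ (polyHeight κ A' : ℝ) := by exact_mod_cast hα0
  rw [hcard] at hA'1 hA'2
  rw [show Fintype.card (M3 e) = N3 e from card_M3 e] at hA'2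
  have hA'1R : (polyHeight κ A' : ℝ) * ((N3 σ : ℝ) - finrank L Q) ≤ ht κ Q := by
    exact_mod_cast hA'1
  have hA'2R : (N3 σ : ℝ) ≤ N3 e + finrank L Q := by exact_mod_cast hA'2
  have hqσ : (finrank L Q : ℝ) ≤ N3 σ := by
    have h1 : finrank L Q ≤ N3 σ := by
      have h2 := Submodule.finrank_le Q
      rwa [Module.finrank_fintype_fun_eq_card, hcard] at h2
    exact_mod_cast h1
  -- the height is at most `μ`
  have hαμ : (polyHeight κ A' : ℝ) ≤ μ := by
    by_contra hcon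
    have h1 : μ * ((N3 σ : ℝ) - finrank L Q) ≤
        (polyHeight κ A' : ℝ) * ((N3 σ : ℝ) - finrank L Q) :=
      mul_le_mul_of_nonneg_right (not_le.1 hcon).le (by linarith)
    have h2 : μ * ((N3 σ : ℝ) - N) ≤ μ * ((N3 σ : ℝ) - finrank L V') :=
      mul_le_mul_of_nonneg_left (by linarith) hμ0.le
    nlinarith
  have hα1 : (polyHeight κ A' : ℝ) * ((N3 σ : ℝ) - N) ≤ η := by
    have h1 : (polyHeight κ A' : ℝ) * ((N3 σ : ℝ) - N) ≤
        (polyHeight κ A' : ℝ) * ((N3 σ : ℝ) - finrank L V') :=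
      mul_le_mul_of_nonneg_left (by linarith) hα0R
    have h2 : (polyHeight κ A' : ℝ) * ((finrank L Q : ℝ) - finrank L V') ≤
        μ * ((finrank L Q : ℝ) - finrank L V') :=
      mul_le_mul_of_nonneg_right hαμ (by linarith)
    nlinarith
  refine ⟨a, e, A', hae, hA'0, hA'hom, ?_, ?_, ?_⟩
  · rcases hA'3 with h1 | h1
    · exact h1
    · exfalso
      rw [X.height_p] at h1
      have h2 : ((d : ℝ) - s₁ - σ + 1) * H ≤ ht κ W + finrank L W * polyHeight κ A' := by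
        exact_mod_cast h1
      have h3 : (finrank L W : ℝ) * polyHeight κ A' ≤ τ * finrank L W := by
        rw [mul_comm]
        exact mul_le_mul_of_nonneg_right (hαμ.trans hμτ.le) (Nat.cast_nonneg _)
      linarith
  · exact_mod_cast hα1
  · have h1 : (finrank L Q : ℝ) - finrank L V' ≤ finrank L Q - finrank L V' := le_rfl
    have h2 : μ * ((N3 σ : ℝ) - N3 e - N) ≤ η := by
      have h3 : μ * ((N3 σ : ℝ) - N3 e - N) ≤ μ * ((finrank L Q : ℝ) - finrank L V') :=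
        mul_le_mul_of_nonneg_left (by linarith) hμ0.le
      linarith
    have h3 : 21 * N * (μ * ((N3 σ : ℝ) - N3 e - N)) ≤ 21 * N * η :=
      mul_le_mul_of_nonneg_left h2 (by positivity)
    have h4 : 4 * d * (H : ℝ) * ((N3 σ : ℝ) - N3 e - N) ≤ 21 * N * η := by
      calc 4 * d * (H : ℝ) * ((N3 σ : ℝ) - N3 e - N) =
          21 * N * (μ * ((N3 σ : ℝ) - N3 e - N)) := by rw [← hμN]; ring
        _ ≤ _ := h3
    exact_mod_cast h4

end Pool.Agent.Lib.MP_44a246_ntC
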