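import Mathlib
import Pool.Agent.Lib.MP_44a246_ntS.SI1

/-!
Numerical lemmas for the second step.
-/

namespace Pool.Agent.Lib.MP_44a246_ntC

open Pool.Agent.Lib.MP_44a246_ntS

/-- the bound for the dimension of the space of the rows -/
def NC (r a : ℕ) : ℕ := (2 * a + 1) * (a + 1) ^ 2 + 2 * a * r + 2 * a + 1

theorem NC_pos (r a : ℕ) : 1 ≤ NC r a := by
  unfold NC
  omega

theorem numC1 {a m r d : ℕ} (ha1 : 1 ≤ a) (hm : 1 ≤ m) (h10 : 10 * a ^ 2 ≤ d)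
    (h300 : 300 * a ≤ d) (hr : r ≤ m * d) : 4 * NC r a ≤ 9 * (a * m * d) := by
  have e1 : 2 * a * r ≤ 2 * (a * m * d) := by
    calc 2 * a * r ≤ 2 * a * (m * d) := Nat.mul_le_mul_left _ hr
      _ = 2 * (a * m * d) := by ring
  have e2 : a * d ≤ a * m * d := by
    calc a * d = a * 1 * d := by ring
      _ ≤ a * m * d := Nat.mul_le_mul_right _ (Nat.mul_le_mul_left _ hm)
  have e3 : 10 * (a * a ^ 2) ≤ a * d := by
    calc 10 * (a * a ^ 2) = a * (10 * a ^ 2) := by ring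
      _ ≤ a * d := Nat.mul_le_mul_left _ h10
  have e4 : 300 * a ^ 2 ≤ a * d := by
    calc 300 * a ^ 2 = a * (300 * a) := by ring
      _ ≤ a * d := Nat.mul_le_mul_left _ h300
  have e5 : a ≤ a ^ 2 := Nat.le_self_pow (by norm_num) a
  have e6 : NC r a = 2 * (a * a ^ 2) + 5 * a ^ 2 + 6 * a + 2 + 2 * a * r := by
    unfold NC
    ring
  rw [e6]
  generalize a * a ^ 2 = x at e3 e6 ⊢
  generalize a ^ 2 = y at e4 e5 ⊢
  generalize a * d = z at e2 e3 e4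
  generalize a * m * d = w at e1 e2 ⊢
  generalize 2 * a * r = v at e1 ⊢
  omega

theorem numC2 {u d N : ℕ} (h150 : 150 * u ≤ d) (hN : 4 * N ≤ 9 * (u * d)) :
    200 * N ≤ 3 * d ^ 2 := by
  have e1 : 150 * (u * d) ≤ d ^ 2 := by
    calc 150 * (u * d) = 150 * u * d := by ring
      _ ≤ d * d := Nat.mul_le_mul_right _ h150
      _ = d ^ 2 := (sq d).symm
  generalize u * d = x at hN e1
  generalize d ^ 2 = y at e1 ⊢
  omega

section

variable {D u n s H α η σ : ℝ}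

theorem numC3_eta (hD : 0 < D) (hn : 4 * n ≤ 9 * (u * D)) (hH : 0 < H) (hα0 : 0 ≤ α)
    (hα : 21 * (u * α) ≤ H) (hs : 100 * s ≤ D) (hη : η = s * H + 2 * n * α) :
    700 * η ≤ 157 * (D * H) := by
  have e1 : 28 * (n * α) ≤ 3 * (D * H) := by
    have h1 := mul_le_mul_of_nonneg_right hn hα0
    have h2 := mul_le_mul_of_nonneg_left hα hD.le
    nlinarith
  have e2 : 100 * (s * H) ≤ D * H := by
    have := mul_le_mul_of_nonneg_right hs hH.le
    linarith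
  rw [hη]
  linarith

theorem numC3_N3 {σ' : ℕ} {D : ℝ} (hD : 0 ≤ D) (hσ : 2 * D - 4 ≤ 5 * (σ' : ℝ)) :
    2 * D ^ 2 ≤ 25 * (N3 σ' : ℝ) := by
  have h1 : 2 * (N3 σ' : ℝ) = (σ' + 1) * (σ' + 2) := by exact_mod_cast two_N3 σ'
  have h2 : (2 * D + 1) / 5 ≤ (σ' : ℝ) + 1 := by linarith
  have h3 : (2 * D + 6) / 5 ≤ (σ' : ℝ) + 2 := by linarith
  have h4 : (2 * D + 1) / 5 * ((2 * D + 6) / 5) ≤ ((σ' : ℝ) + 1) * (σ' + 2) :=
    mul_le_mul h2 h3 (by positivity) (by positivity)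
  nlinarith

/-- the first conditions -/
theorem numC3_a (hu : 1 ≤ u) (h150 : 150 * u ≤ D)
    (hn : 4 * n ≤ 9 * (u * D)) : 21 * n < 2 * (D * (24 * u + 3)) := by
  have hD : 0 < D := by linarith
  nlinarith

theorem numC3_b (hu : 1 ≤ u) (h150 : 150 * u ≤ D) (hH : 0 < H)
    (hη : 700 * η ≤ 157 * (D * H)) (hσ : 5 * σ ≤ 2 * D) :
    5 * η + D * H < 5 * ((D - 24 * u - σ + 1) * H) := by
  have hD : 0 < D := by linarith
  have e1 : 150 * (u * H) ≤ D * H := by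
    have := mul_le_mul_of_nonneg_right h150 hH.le
    linarith
  have e2 : 5 * (σ * H) ≤ 2 * (D * H) := by
    have := mul_le_mul_of_nonneg_right hσ hH.le
    linarith
  have e3 : 0 < D * H := mul_pos hD hH
  nlinarith

theorem numC3_c {N' : ℝ} (hD : 0 < D) (hn0 : 0 ≤ n) (hn2 : 200 * n ≤ 3 * D ^ 2) (hH : 0 < H)
    (hη : 700 * η ≤ 157 * (D * H)) (hN' : 2 * D ^ 2 ≤ 25 * N') :
    21 * n * η < 4 * D * H * (N' - n) := by
  have e3 : 0 < D * H := mul_pos hD hH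
  have e1 : 21 * n * (700 * η) ≤ 21 * n * (157 * (D * H)) :=
    mul_le_mul_of_nonneg_left hη (by linarith)
  have e2 : D * H * (200 * n) ≤ D * H * (3 * D ^ 2) := mul_le_mul_of_nonneg_left hn2 e3.le
  have e4 : D * H * (2 * D ^ 2) ≤ D * H * (25 * N') := mul_le_mul_of_nonneg_left hN' e3.le
  have e5 : 0 < D * H * D ^ 2 := by positivity
  nlinarith

/-- the degree of the second curve -/
theorem numC3_d {a' e' : ℝ} {X Y : ℝ} (hu : 1 ≤ u) (h150 : 150 * u ≤ D)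
    (hn0 : 0 ≤ n) (hn : 4 * n ≤ 9 * (u * D)) (hH : 0 < H)
    (hη : 700 * η ≤ 157 * (D * H)) (hσ : 2 * D - 4 ≤ 5 * σ) (hae : a' + e' = σ) (he : 0 ≤ e')
    (hX : 2 * X = (σ + 1) * (σ + 2)) (hY : 2 * Y = (e' + 1) * (e' + 2))
    (h : 4 * D * H * (X - Y - n) ≤ 21 * n * η) : a' ≤ 16 * u := by
  have hD : 0 < D := by linarith
  have hDH : 0 < D * H := mul_pos hD hH
  by_contra hcon
  have hcon := not_le.1 hcon
  -- `X - Y ≤ 2.1775 n`
  have e1 : 21 * n * (700 * η) ≤ 21 * n * (157 * (D * H)) :=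
    mul_le_mul_of_nonneg_left hη (by linarith)
  have e2 : D * H * (2800 * (X - Y - n)) ≤ D * H * (3297 * n) := by nlinarith
  have e3 : 2800 * (X - Y - n) ≤ 3297 * n := le_of_mul_le_mul_left e2 hDH
  -- `2 (X - Y) = a' (2 σ - a' + 3)`
  have he' : e' = σ - a' := by linarith
  have e4 : 2 * (X - Y) = a' * (2 * σ - a' + 3) := by
    rw [mul_sub, hX, hY, he']
    ring
  have e5 : 0 ≤ (a' - 16 * u) * (2 * σ + 3 - a' - 16 * u) := by
    refine mul_nonneg (by linarith) ?_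
    linarith
  have e6 : 16 * u * (2 * σ + 3 - 16 * u) ≤ a' * (2 * σ - a' + 3) := by nlinarith
  have e7 : 0.69 * D ≤ 2 * σ + 3 - 16 * u := by linarith
  have e8 : 16 * u * (0.69 * D) ≤ 16 * u * (2 * σ + 3 - 16 * u) :=
    mul_le_mul_of_nonneg_left e7 (by linarith)
  have e9 : 0 < u * D := mul_pos (by linarith) hD
  nlinarith

/-- Bezout -/
theorem numC3_e {a a' α' : ℝ} {N' : ℝ} (h150 : 150 * u ≤ D) (hu : 1 ≤ u)
    (hn2 : 200 * n ≤ 3 * D ^ 2) (hH : 0 < H) (hα0 : 0 ≤ α)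
    (hα : 21 * (u * α) ≤ H)
    (hη : 700 * η ≤ 157 * (D * H)) (hN' : 2 * D ^ 2 ≤ 25 * N') (ha' : a' ≤ 16 * u) (hau : a ≤ u)
    (hα'0 : 0 ≤ α') (hα' : α' * (N' - n) ≤ η) : a' * α + a * α' < H := by
  have hD : 0 < D := by linarith
  have e1 : a' * α ≤ 16 * (u * α) := by
    have := mul_le_mul_of_nonneg_right ha' hα0
    linarith
  have e2 : 0.065 * D ^ 2 ≤ N' - n := by linarith
  have e3 : α' * (0.065 * D ^ 2) ≤ η := (mul_le_mul_of_nonneg_left e2 hα'0).trans hα'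
  have e4 : D * (0.065 * (D * α')) ≤ D * (0.225 * H) := by nlinarith
  have e5 : 0.065 * (D * α') ≤ 0.225 * H := le_of_mul_le_mul_left e4 hD
  have e6 : a * α' ≤ u * α' := mul_le_mul_of_nonneg_right hau hα'0
  have e7 : 150 * (u * α') ≤ D * α' := by
    have := mul_le_mul_of_nonneg_right h150 hα'0
    linarith
  linarith

/-- the height of the curve -/
theorem numC3_f {N' : ℝ} (hα0 : 0 ≤ α) (hn2 : 200 * n ≤ 3 * D ^ 2)
    (hη : η = s * H + 2 * n * α) (hN' : 2 * D ^ 2 ≤ 25 * N') (h : α * (N' - n) ≤ η) :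
    7 * (α * D ^ 2) ≤ 200 * (s * H) := by
  have e1 : α * (2 * D ^ 2) ≤ α * (25 * N') := mul_le_mul_of_nonneg_left hN' hα0
  have e2 : α * (200 * n) ≤ α * (3 * D ^ 2) := mul_le_mul_of_nonneg_left hn2 hα0
  rw [hη] at h
  nlinarith

end

end Pool.Agent.Lib.MP_44a246_ntC
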