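import Mathlib
import Pool.Agent.Lib.MP_44a246_ntD.D03
import Pool.Agent.Lib.MP_44a246_ntC.C05
import Pool.Agent.Lib.MP_44a246_ntC.C06
import Pool.Agent.Lib.MP_44a246_ntC.C07

/-!
The curve of small height through the point, in one block.
-/

namespace Pool.Agent.Lib.MP_44a246_ntC

open Pool.Agent.Lib.MP_44a246_nt
open Pool.Agent.Lib.MP_44a246_ntL
open Pool.Agent.Lib.MP_44a246_ntS
open Pool.Agent.Lib.MP_44a246_ntX
open Pool.Agent.Lib.MP_44a246_ntG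
open Pool.Agent.Lib.MP_44a246_ntD
open Pool.Agent.Lib.MP_44a246_ntZ
open Pool.Agent.Lib.MP_e52354_nt
open WithZero Module Polynomial

variable {κ L : Type*} [Field κ] [IsAlgClosed κ] [CharZero κ] [Field L] [Algebra κ L]

/-- the dimension of the space of the rows -/
theorem finrank_VJB_NC [CharZero L] (h : IsFF κ L) {n d a r r₀ : ℕ} (ha : 1 ≤ a)
    (X : DatG κ (L := L) n d) {A : L[X][X]} (hCA : CrvG X a A) (hmon : A.leadingCoeff.Monic)
    {γ : Type*} [Fintype γ] {β : γ → L} {J : Finset (Fin (n + 1))} (hJc : J.card ≤ r₀)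
    (hrr : r₀ + Fintype.card γ ≤ r)
    (hspan : 9 * (a : ℤ) * gh κ A + 3 * a * X.Δ < height κ X.x) :
    finrank L (X.VJ J a A ⊔ RB X β : Submodule L (M3 d → L)) ≤ NC r a := by
  have hVJ := finrank_VJ_span h X J hCA hmon hspan
  have h1 := Submodule.finrank_add_le_finrank_add_finrank (X.VJ J a A) (RB X β)
  have h2 : finrank L (RB X β) ≤ Fintype.card γ := finrank_range_le_card _
  have h4 : 2 * a * (J.card + Fintype.card γ) ≤ 2 * a * r :=
    Nat.mul_le_mul_left _ (by omega)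
  have h6 : 2 * a * (J.card + Fintype.card γ) =
      2 * a * J.card + 2 * a * Fintype.card γ := by ring
  have h7 : Fintype.card γ ≤ 2 * a * Fintype.card γ := Nat.le_mul_of_pos_left _ (by omega)
  unfold NC
  omega

/-- **The curve of small height in one block.** -/
theorem small_curve_block [CharZero L] (h : IsFF κ L) {n d b m r r₀ s : ℕ}
    (hm : 1 ≤ m) (h10 : 10 * b ^ 2 ≤ d) (h150 : 150 * (b * m) ≤ d)
    (hs3 : 3 ≤ s) (h100 : 100 * (b * s) ≤ d) (hrd : r ≤ m * d) (X : DatG κ (L := L) n d)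
    {γ : Type*} [Fintype γ] {β : γ → L} (hr₀ : finrank L X.Ux ≤ r₀) (hrr : r₀ + Fintype.card γ ≤ r)
    (hv0 : X.row X.v ∈ X.Ux ⊔ RB X β) {E : ℤ}
    (hA : ∃ (a : ℕ) (A : MvPolynomial (Fin 3) L), a ≤ b ∧ A ≠ 0 ∧ A.IsHomogeneous a ∧
        MvPolynomial.eval X.p A = 0 ∧ 21 * (a * (m * polyHeight κ A)) ≤ height κ X.x)
    (hv : ∀ {b : ℕ} {A : L[X][X]}, CrvG X b A → ∀ {J : Finset (Fin (n + 1))} {N : ℕ},
      finrank L (X.VJ J b A ⊔ RB X β : Submodule L (M3 d → L)) ≤ N →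
      ht κ (X.VJ J b A ⊔ RB X β) ≤
        N * (2 * gh κ A + 3 * X.Δ) + gh κ A + (s - 1) * height κ X.x + E)
    (hE : X.Δ ≤ E) (hbig : 27 * (d : ℤ) ^ 2 * E < height κ X.x) :
    ∃ (a : ℕ) (A : L[X][X]) (P : MvPolynomial (Fin 3) L), 1 ≤ a ∧ a ≤ b ∧ CrvG X a A ∧
      A.leadingCoeff.Monic ∧ P.IsHomogeneous a ∧ Irreducible P ∧ deh P = A ∧
      21 * (a * (m * gh κ A)) ≤ height κ X.x ∧
      7 * (gh κ A * (d : ℤ) ^ 2) ≤ 200 * ((s : ℤ) * height κ X.x) := by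
  have hΔ := X.Δ_nonneg
  have hE0 : 0 ≤ E := hΔ.trans hE
  obtain ⟨a₀, P₀, ha₀, hP0, hPh, hPe, hPb⟩ := hA
  have hpos : 0 < height κ X.x :=
    lt_of_le_of_lt (mul_nonneg (by positivity) hE0) hbig
  have hα₀ : 0 ≤ polyHeight κ P₀ := polyHeight_nonneg h hP0
  have hm' : (1 : ℤ) ≤ m := by exact_mod_cast hm
  have hsm : 2 * (a₀ : ℤ) * polyHeight κ P₀ < height κ X.x := by
    have h1 : (a₀ : ℤ) * polyHeight κ P₀ ≤ a₀ * (m * polyHeight κ P₀) := by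
      refine mul_le_mul_of_nonneg_left ?_ (Int.natCast_nonneg _)
      exact le_mul_of_one_le_left hα₀ hm'
    have h2 : 0 ≤ (a₀ : ℤ) * polyHeight κ P₀ := mul_nonneg (Int.natCast_nonneg _) hα₀
    rcases h2.eq_or_lt with h3 | h3
    · rw [mul_assoc, ← h3, mul_zero]
      exact hpos
    · linarith
  obtain ⟨a, A, P, ha1, haa, hCA, hmon, hPhom, hPirr, hPA, hgh⟩ :=
    exists_curve_hom h X hP0 hPh hPe hsm
  have hab : a ≤ b := haa.trans ha₀
  have hb1 : 1 ≤ b := ha1.trans hab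
  have hα0 : 0 ≤ gh κ A := gh_nonneg h hCA.irr.ne_zero
  have hα21 : 21 * (a * (m * gh κ A)) ≤ height κ X.x := by
    refine le_trans ?_ hPb
    have h1 : (a : ℤ) ≤ a₀ := by exact_mod_cast haa
    have h2 : (m : ℤ) * gh κ A ≤ m * polyHeight κ P₀ :=
      mul_le_mul_of_nonneg_left hgh (by linarith)
    have h3 : (a : ℤ) * (m * gh κ A) ≤ a₀ * (m * polyHeight κ P₀) :=
      mul_le_mul h1 h2 (mul_nonneg (by linarith) hα0) (Int.natCast_nonneg _)
    linarith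
  refine ⟨a, A, P, ha1, hab, hCA, hmon, hPhom, hPirr, hPA, hα21, ?_⟩
  -- the numbers
  have h10a : 10 * a ^ 2 ≤ d :=
    (Nat.mul_le_mul_left _ (Nat.pow_le_pow_left hab 2)).trans h10
  have h150a : 150 * (a * m) ≤ d :=
    (Nat.mul_le_mul_left _ (Nat.mul_le_mul_right _ hab)).trans h150
  have hbs3 : 3 * b ≤ b * s := by
    rw [mul_comm 3 b]
    exact Nat.mul_le_mul_left _ hs3
  have h300 : 300 * a ≤ d := by omega
  have hsb : s ≤ b * s := Nat.le_mul_of_pos_left _ hb1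
  have h100s : 100 * s ≤ d := by omega
  have hN1 := numC1 ha1 hm h10a h300 hrd
  have hN2 := numC2 h150a hN1
  have hNpos := NC_pos r a
  have hum : 1 ≤ a * m := Nat.mul_pos ha1 hm
  -- the space of the rows
  obtain ⟨J, hJc, hJ⟩ := exists_J X
  have hJr : J.card ≤ r₀ := by
    rw [hJc]
    exact hr₀
  have hd1 : (1 : ℤ) ≤ d := by
    have : 1 ≤ d := by omega
    exact_mod_cast this
  have had : (300 : ℤ) * a ≤ d := by exact_mod_cast h300
  have haαH : 21 * ((a : ℤ) * gh κ A) ≤ height κ X.x := by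
    refine le_trans ?_ hα21
    have : (a : ℤ) * gh κ A ≤ a * (m * gh κ A) :=
      mul_le_mul_of_nonneg_left (le_mul_of_one_le_left hα0 hm') (Int.natCast_nonneg _)
    linarith
  have ha1' : (1 : ℤ) ≤ a := by exact_mod_cast ha1
  have hαH : 21 * gh κ A ≤ height κ X.x := by
    have : gh κ A ≤ a * gh κ A := le_mul_of_one_le_left hα0 ha1'
    linarith
  have hspan : 9 * (a : ℤ) * gh κ A + 3 * a * X.Δ < height κ X.x := by
    have h1 : 3 * (a : ℤ) * X.Δ * 2 ≤ 27 * (d : ℤ) ^ 2 * E := by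
      have h2 : 3 * (a : ℤ) * 2 ≤ 27 * (d : ℤ) ^ 2 := by nlinarith
      calc 3 * (a : ℤ) * X.Δ * 2 = 3 * (a : ℤ) * 2 * X.Δ := by ring
        _ ≤ 27 * (d : ℤ) ^ 2 * E := mul_le_mul h2 hE hΔ (by positivity)
    nlinarith
  have hfin := finrank_VJB_NC h ha1 X hCA hmon (β := β) hJr hrr hspan
  have hNd : 200 * ((NC r a : ℕ) : ℤ) ≤ 3 * (d : ℤ) ^ 2 := by exact_mod_cast hN2
  have hN1' : (1 : ℤ) ≤ ((NC r a : ℕ) : ℤ) := by exact_mod_cast hNpos
  have hht : ht κ (X.VJ J a A ⊔ RB X β) ≤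
      (s : ℤ) * height κ X.x + 2 * ((NC r a : ℕ) : ℤ) * gh κ A := by
    have h1 := hv hCA hfin
    have h4 : ((NC r a : ℕ) : ℤ) * X.Δ ≤ ((NC r a : ℕ) : ℤ) * E :=
      mul_le_mul_of_nonneg_left hE (by positivity)
    have h5 : (3 * ((NC r a : ℕ) : ℤ) + 1) * E * 2 ≤ 27 * (d : ℤ) ^ 2 * E := by
      have h6 : (3 * ((NC r a : ℕ) : ℤ) + 1) * 2 ≤ 27 * (d : ℤ) ^ 2 := by nlinarith
      have := mul_le_mul_of_nonneg_right h6 hE0
      linarith
    nlinarith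
  -- the second curve
  set σ := 2 * d / 5 with hσ
  have hσ1 : 5 * σ ≤ 2 * d := by omega
  have hσ2 : 2 * d ≤ 5 * σ + 4 := by omega
  set η : ℤ := (s : ℤ) * height κ X.x + 2 * ((NC r a : ℕ) : ℤ) * gh κ A with hη
  -- real numbers
  have R_D : (0 : ℝ) < (d : ℝ) := by
    have : 0 < d := by omega
    exact_mod_cast this
  have R_u : (1 : ℝ) ≤ ((a * m : ℕ) : ℝ) := by exact_mod_cast hum
  have R_150 : 150 * ((a * m : ℕ) : ℝ) ≤ (d : ℝ) := by exact_mod_cast h150a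
  have R_n : 4 * ((NC r a : ℕ) : ℝ) ≤ 9 * (((a * m : ℕ) : ℝ) * (d : ℝ)) := by
    have := hN1
    exact_mod_cast this
  have R_n2 : 200 * ((NC r a : ℕ) : ℝ) ≤ 3 * (d : ℝ) ^ 2 := by exact_mod_cast hN2
  have R_n0 : (0 : ℝ) ≤ ((NC r a : ℕ) : ℝ) := Nat.cast_nonneg _
  have R_H : (0 : ℝ) < (height κ X.x : ℝ) := by exact_mod_cast hpos
  have R_α0 : (0 : ℝ) ≤ (gh κ A : ℝ) := by exact_mod_cast hα0
  have R_α : 21 * (((a * m : ℕ) : ℝ) * (gh κ A : ℝ)) ≤ (height κ X.x : ℝ) := by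
    have h1 : 21 * (((a * m : ℕ) : ℤ) * gh κ A) ≤ height κ X.x := by
      refine le_of_eq_of_le ?_ hα21
      push_cast
      ring
    exact_mod_cast h1
  have R_s : 100 * (s : ℝ) ≤ (d : ℝ) := by exact_mod_cast h100s
  have R_η : (η : ℝ) = (s : ℝ) * (height κ X.x : ℝ) + 2 * ((NC r a : ℕ) : ℝ) * (gh κ A : ℝ) := by
    rw [hη]
    push_cast
    ring
  have R_η' := numC3_eta R_D R_n R_H R_α0 R_α R_s R_η
  have R_σ1 : 5 * (σ : ℝ) ≤ 2 * (d : ℝ) := by exact_mod_cast hσ1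
  have R_σ2 : 2 * (d : ℝ) - 4 ≤ 5 * (σ : ℝ) := by
    have : 2 * (d : ℝ) ≤ 5 * (σ : ℝ) + 4 := by exact_mod_cast hσ2
    linarith
  have R_N3 := numC3_N3 R_D.le R_σ2
  have c1 : 21 * NC r a < 2 * (d * (24 * (a * m) + 3)) := by
    have := numC3_a R_u R_150 R_n
    exact_mod_cast this
  have c2 : 24 * (a * m) + σ ≤ d := by omega
  have c3 : 5 * η + d * height κ X.x <
      5 * (((d : ℤ) - ((24 * (a * m) : ℕ) : ℤ) - σ + 1) * height κ X.x) := by
    have h1 := numC3_b R_u R_150 R_H R_η' R_σ1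
    push_cast
    push_cast at h1
    exact_mod_cast h1
  have c4 : 21 * ((NC r a : ℕ) : ℤ) * η < 4 * d * height κ X.x * ((N3 σ : ℤ) - ((NC r a : ℕ) : ℤ)) := by
    have h1 := numC3_c R_D R_n0 R_n2 R_H R_η' R_N3
    exact_mod_cast h1
  obtain ⟨a', e', A', hae, hA'0, hA'h, hA'e, hA'1, hA'2⟩ :=
    stepB_gen' h X (xi_mem_VJB X hCA hJ hv0) hfin hht hpos (by omega) c1 c2 c3 c4 (by omega)
  have hα'0 : 0 ≤ polyHeight κ A' := polyHeight_nonneg h hA'0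
  -- real numbers again
  have R_a' : (a' : ℝ) ≤ 16 * ((a * m : ℕ) : ℝ) := by
    refine numC3_d (σ := (σ : ℝ)) (e' := (e' : ℝ)) (X := (N3 σ : ℝ)) (Y := (N3 e' : ℝ)) R_u R_150
      R_n0 R_n R_H R_η' R_σ2 (by exact_mod_cast hae) (Nat.cast_nonneg _)
      (by exact_mod_cast two_N3 σ) (by exact_mod_cast two_N3 e') ?_
    exact_mod_cast hA'2
  have R_α'1 : (polyHeight κ A' : ℝ) * ((N3 σ : ℝ) - ((NC r a : ℕ) : ℝ)) ≤ (η : ℝ) := by
    exact_mod_cast hA'1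
  have R_au : (a : ℝ) ≤ ((a * m : ℕ) : ℝ) := by
    have : a ≤ a * m := Nat.le_mul_of_pos_right _ hm
    exact_mod_cast this
  have hbez : (a' : ℤ) * gh κ A + a * polyHeight κ A' < height κ X.x := by
    have h1 := numC3_e R_150 R_u R_n2 R_H R_α0 R_α R_η' R_N3 R_a' R_au
      (by exact_mod_cast hα'0) R_α'1
    exact_mod_cast h1
  have hBe : (deh A').evalEval X.y₁ X.y = 0 := by
    rw [deh_eval]
    exact hA'e
  have hBd : ((deh A').natDegree : ℤ) ≤ a' := by exact_mod_cast (deh_box hA'h).1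
  have hAd : (A.natDegree : ℤ) ≤ a := by exact_mod_cast hCA.box.1
  have hdvd : A ∣ deh A' := by
    refine bez h hCA.irr hCA.deg hCA.zero hBe ?_
    rw [X.height_y₁, gh_deh hA'h]
    have h1 := mul_le_mul_of_nonneg_right hBd hα0
    have h2 := mul_le_mul_of_nonneg_right hAd hα'0
    linarith
  have hle : gh κ A ≤ polyHeight κ A' := by
    rw [← gh_deh hA'h]
    exact gh_le_of_dvd h hdvd (deh_ne_zero hA'h hA'0)
  have hNσ : (0 : ℤ) ≤ (N3 σ : ℤ) - ((NC r a : ℕ) : ℤ) := by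
    have h1 : (0 : ℝ) ≤ (N3 σ : ℝ) - ((NC r a : ℕ) : ℝ) := by nlinarith
    exact_mod_cast h1
  have hfinal : gh κ A * ((N3 σ : ℤ) - ((NC r a : ℕ) : ℤ)) ≤ η :=
    (mul_le_mul_of_nonneg_right hle hNσ).trans hA'1
  have hlast := numC3_f (D := (d : ℝ)) (n := ((NC r a : ℕ) : ℝ)) (s := (s : ℝ))
    (H := (height κ X.x : ℝ)) (α := (gh κ A : ℝ)) (η := (η : ℝ)) (N' := (N3 σ : ℝ)) R_α0 R_n2 R_η
    R_N3 (by exact_mod_cast hfinal)
  exact_mod_cast hlast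

end Pool.Agent.Lib.MP_44a246_ntC
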