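import Mathlib
import Pool.Agent.Lib.MP_44a246_ntZ.Z08
import Pool.Agent.Lib.MP_44a246_ntS.SI1
import Pool.Agent.Lib.MP_44a246_ntC.C03

/-!
The space of large slope contains all functionals supported on the curve, and the height of the
curve.
-/

namespace Pool.Agent.Lib.MP_44a246_ntC

open Pool.Agent.Lib.MP_44a246_nt
open Pool.Agent.Lib.MP_44a246_ntL
open Pool.Agent.Lib.MP_44a246_ntS
open Pool.Agent.Lib.MP_44a246_ntZ
open Pool.Agent.Lib.MP_e52354_nt
open WithZero Module MvPolynomial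

section

variable {κ L : Type*} [Field κ] [IsAlgClosed κ] [CharZero κ] [Field L] [Algebra κ L]

/-- if the space `Q` does not contain all functionals supported on the curve, then there is a form
which annihilates `Q ⊓ HA` and is not divisible by the equation of the curve -/
theorem exists_not_dvd {a d' d : ℕ} (hd : d' + a = d)
    {A : MvPolynomial (Fin 3) L} (hA : A.IsHomogeneous a)
    {Q : Submodule L (M3 d → L)} (hQ : ¬ HA A d' d ≤ Q) :
    ∃ f : MvPolynomial (Fin 3) L, f ∈ Ann (Q ⊓ HA A d' d) ∧ ¬ A ∣ f := by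
  obtain ⟨u₀, hu₀, hu₀Q⟩ : ∃ u, u ∈ HA A d' d ∧ u ∉ Q := by
    by_contra hcon
    push Not at hcon
    exact hQ hcon
  have hu1 : u₀ ∉ Q ⊓ HA A d' d := fun h1 => hu₀Q h1.1
  have h1 : ∃ f ∈ Ann (Q ⊓ HA A d' d), pr f u₀ ≠ 0 := by
    by_contra hcon
    push Not at hcon
    exact hu1 (mem_of_Ann hcon)
  obtain ⟨f, hf, hfu⟩ := h1
  exact ⟨f, hf, fun hdvd => hfu (((mem_Ann_HA hd hA hf.1).2 hdvd).2 u₀ hu₀)⟩

/-- **The space of large slope contains all functionals supported on the curve.** -/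
theorem HA_le_of_isSl' [CharZero L] (h : IsFF κ L) {p : Fin 3 → L} (hp : p ≠ 0)
    {a d' d : ℕ} (ha : 1 ≤ a) (hd : d' + a = d) (h10 : 10 * a ≤ d)
    {A : MvPolynomial (Fin 3) L} (hA : A.IsHomogeneous a) (hirr : Irreducible A)
    (hAp : eval p A = 0) (hpos : 0 < height κ p)
    (hα : 7 * ((d : ℤ) * polyHeight κ A) ≤ 2 * height κ p) {μ : ℝ} (hμ0 : 0 < μ)
    (hμ : 5 * a * μ ≤ height κ p) {Q : Submodule L (M3 d → L)} (hQ : IsSl κ μ (xi d p) Q) :
    HA A d' d ≤ Q := by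
  classical
  by_contra hne
  obtain ⟨f, hf, hAf⟩ := exists_not_dvd hd hA hne
  have hrel : IsRelPrime A f := by
    intro c hc1 hc2
    by_contra hcu
    obtain ⟨x, hx⟩ := hc1
    rcases hirr.isUnit_or_isUnit hx with h1 | h1
    · exact hcu h1
    · apply hAf
      rw [hx]
      exact (h1.mul_right_dvd).2 hc2
  have hA0 : A ≠ 0 := hirr.ne_zero
  have had : a ≤ d := by omega
  have hd1 : 1 ≤ d := by omega
  have hD : 3 * d - a + a = 3 * d := by omega
  obtain ⟨T, hT⟩ : ∃ T : M3 (2 * d) → Matrix (M3 d) (M3 (3 * d)) κ,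
      T = fun I => ctr (monomial I.1 (1 : κ)) d (3 * d) := ⟨_, rfl⟩
  obtain ⟨Z, hZ⟩ : ∃ Z, Z = HA A (3 * d - a) (3 * d) := ⟨_, rfl⟩
  obtain ⟨U, hU⟩ : ∃ U, U = Z ⊓ (Finset.univ : Finset (M3 (2 * d))).inf fun I =>
    Q.comap ((T I).map (algebraMap κ L)).mulVecLin := ⟨_, rfl⟩
  have hTm : ∀ I, (T I).map (algebraMap κ L) = ctr (monomial I.1 (1 : L)) d (3 * d) := by
    intro I
    rw [hT]
    show (ctr (monomial I.1 (1 : κ)) d (3 * d)).map (algebraMap κ L) = _
    rw [← ctr_map (algebraMap κ L), MvPolynomial.map_monomial, map_one]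
  have hhom : ∀ I : M3 (2 * d), (monomial I.1 (1 : L)).IsHomogeneous (2 * d) := fun I =>
    isHomogeneous_monomial (1 : L) (mem_expo.mp I.2)
  have hUmem : ∀ u, u ∈ U ↔ (ctr A (3 * d - a) (3 * d)).mulVec u = 0 ∧
      ∀ I : M3 (2 * d), (ctr (monomial I.1 (1 : L)) d (3 * d)).mulVec u ∈ Q := by
    intro u
    rw [hU, Submodule.mem_inf, hZ, mem_HA, Submodule.mem_finsetInf]
    refine and_congr_right fun _ => ⟨fun h1 I => ?_, fun h1 I _ => ?_⟩
    · have h2 := h1 I (Finset.mem_univ I)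
      rw [Submodule.mem_comap, Matrix.mulVecLin_apply, hTm] at h2
      exact h2
    · rw [Submodule.mem_comap, Matrix.mulVecLin_apply, hTm]
      exact h1 I
  have hkill : ∀ G ∈ Ann (Q ⊓ HA A d' d), ∀ u ∈ U, (ctr G (2 * d) (3 * d)).mulVec u = 0 := by
    intro G hG u hu
    rw [hUmem] at hu
    refine ctr_eq_zero_of_all (Q := Q ⊓ HA A d' d) (show d + 2 * d = 3 * d by omega)
      (fun I => Submodule.mem_inf.2 ⟨hu.2 I, ?_⟩) hG
    rw [mem_HA, ctr_mul (show d + 2 * d = 3 * d by omega) hd (hhom I) hA, mul_comm A,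
      ← ctr_mul hD (show d' + 2 * d = 3 * d - a by omega) hA (hhom I), hu.1, Matrix.mulVec_zero]
  have hxi : xi (3 * d) p ∈ U := by
    rw [hUmem]
    refine ⟨?_, fun I => ?_⟩
    · rw [ctr_xi hD hA p, hAp, zero_smul]
    · rw [ctr_xi (show d + 2 * d = 3 * d by omega) (hhom I) p]
      exact Q.smul_mem _ hQ.mem
  have hxid : xi d p ∈ Q ⊓ HA A d' d := by
    refine Submodule.mem_inf.2 ⟨hQ.mem, ?_⟩
    rw [mem_HA, ctr_xi hd hA p, hAp, zero_smul]
  have hev : eval p f = 0 := by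
    have h1 := hf.2 _ hxid
    rwa [pr_xi hf.1] at h1
  have h8 : 3 * d - d = 2 * d := by omega
  have hone : polyHeight κ (1 : MvPolynomial (Fin 3) L) = 0 := by
    rw [polyHeight_eq]
    have h1 : ∀ w : Place κ L, nrm w.1 (1 : MvPolynomial (Fin 3) L) = 1 := by
      intro w
      refine le_antisymm ?_ ?_
      · unfold nrm
        refine Finset.sup_le fun I _ => ?_
        rw [coeff_one]
        split_ifs
        · rw [map_one]
        · rw [map_zero]
          exact zero_le_one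
      · have h2 := le_nrm w.1 (1 : MvPolynomial (Fin 3) L) 0
        rwa [coeff_zero_one, map_one] at h2
    simp only [h1, log_one, finsum_zero]
  have hlow := core_aux' h hp (a := 0) (e := a) (e' := d) (s := a) (s' := d) (d := 3 * d)
    (by omega) (by omega) (by omega)
    (isHomogeneous_one (Fin 3) L) one_ne_zero (by rw [map_one]; exact one_ne_zero) hA hf.1 hrel
    hAp hev hxi
    (fun u hu => by rw [one_mul]; exact ((hUmem u).1 hu).1)
    (fun u hu => by rw [one_mul, h8]; exact hkill f hf u hu)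
  rw [hone, mul_zero, add_zero] at hlow
  -- the upper bound
  have hup := ht_inf_iInf_comap_le h hQ (Finset.univ : Finset (M3 (2 * d))) T Z
  rw [← hU] at hup
  have hZht : ht κ Z ≤ polyHeight κ A * Fintype.card (M3 (3 * d - a)) := by
    rw [hZ]
    exact ht_HA_le h hD hA hA0
  have hZfin : finrank L Z + Fintype.card (M3 (3 * d - a)) = Fintype.card (M3 (3 * d)) := by
    rw [hZ]
    exact finrank_HA hD hA hA0
  have hcard := card_sub_le ha hD
  have hα0 : 0 ≤ polyHeight κ A := polyHeight_nonneg h hA0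
  have hcle : 2 * (Fintype.card (M3 (3 * d - a)) : ℝ) ≤ 3 * d * (3 * d + 1) := by
    have h1 : 2 * (Fintype.card (M3 (3 * d - a)) : ℝ) =
        (((3 * d - a : ℕ) : ℝ) + 1) * (((3 * d - a : ℕ) : ℝ) + 2) := by
      have h2 : Fintype.card (M3 (3 * d - a)) = N3 (3 * d - a) := card_M3 _
      rw [h2]
      exact_mod_cast two_N3 (3 * d - a)
    rw [h1]
    have h3 : ((3 * d - a : ℕ) : ℝ) + 1 ≤ 3 * d := by
      have : 3 * d - a + 1 ≤ 3 * d := by omega
      exact_mod_cast this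
    have h4 : (0 : ℝ) ≤ ((3 * d - a : ℕ) : ℝ) := Nat.cast_nonneg _
    exact mul_le_mul h3 (by linarith) (by linarith) (by linarith)
  obtain ⟨hh, hhe⟩ : ∃ hh : ℝ, hh = (height κ p : ℝ) := ⟨_, rfl⟩
  obtain ⟨α, hαe⟩ : ∃ α : ℝ, α = (polyHeight κ A : ℝ) := ⟨_, rfl⟩
  have k1 : (2 * (d : ℝ) - a + 1) * hh ≤ (ht κ U : ℝ) := by
    have h2 : (((((3 * d : ℕ) : ℤ) - (a : ℤ) - (d : ℤ) + ((0 : ℕ) : ℤ) + 1) * height κ p : ℤ) : ℝ) ≤
        (ht κ U : ℝ) := by
      exact_mod_cast hlow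
    push_cast at h2
    rw [hhe]
    linarith
  have k2 : (ht κ Z : ℝ) ≤ α * (Fintype.card (M3 (3 * d - a)) : ℝ) := by
    rw [hαe]
    exact_mod_cast hZht
  have k3 : (finrank L Z : ℝ) + Fintype.card (M3 (3 * d - a)) = Fintype.card (M3 (3 * d)) := by
    exact_mod_cast hZfin
  have k4 : 0 ≤ (finrank L U : ℝ) := Nat.cast_nonneg _
  have k5 : 0 ≤ α := by rw [hαe]; exact_mod_cast hα0
  have k6 : 7 * ((d : ℝ) * α) ≤ 2 * hh := by
    rw [hαe, hhe]
    exact_mod_cast hα
  have k7 : 0 < hh := by rw [hhe]; exact_mod_cast hpos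
  have k8 : 5 * a * μ ≤ hh := by rw [hhe]; exact hμ
  have hd' : (1 : ℝ) ≤ d := by exact_mod_cast hd1
  have ha' : 10 * (a : ℝ) ≤ d := by exact_mod_cast h10
  have m1 : α * (2 * (Fintype.card (M3 (3 * d - a)) : ℝ)) ≤ α * (3 * d * (3 * d + 1)) :=
    mul_le_mul_of_nonneg_left hcle k5
  have m2 : 7 * (α * (3 * d * (3 * d + 1))) ≤ 6 * hh * (3 * d + 1) := by
    have : 7 * (α * (3 * d * (3 * d + 1))) = 3 * (7 * ((d : ℝ) * α)) * (3 * d + 1) := by ring
    rw [this]
    exact mul_le_mul_of_nonneg_right (by linarith) (by linarith)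
  have m3 : μ * ((finrank L Z : ℝ) - finrank L U) ≤ μ * (a * ((3 * d : ℕ) + 1)) := by
    refine mul_le_mul_of_nonneg_left ?_ hμ0.le
    linarith
  have m4 : μ * (a * (((3 * d : ℕ) : ℝ) + 1)) ≤ hh / 5 * (3 * d + 1) := by
    push_cast
    have : μ * (a * (3 * (d : ℝ) + 1)) = (5 * a * μ) / 5 * (3 * d + 1) := by ring
    rw [this]
    exact mul_le_mul_of_nonneg_right (by linarith) (by linarith)
  have m5 : (a : ℝ) * hh ≤ d / 10 * hh := mul_le_mul_of_nonneg_right (by linarith) k7.le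
  nlinarith

theorem finrank_HA_le_inf' [CharZero L] (h : IsFF κ L) {p : Fin 3 → L} (hp : p ≠ 0)
    {a d' d c : ℕ} (ha : 1 ≤ a) (hd : d' + a = d) (h10 : 10 * a ≤ d)
    {A : MvPolynomial (Fin 3) L} (hA : A.IsHomogeneous a) (hirr : Irreducible A)
    (hAp : eval p A = 0) (hpos : 0 < height κ p)
    (hα : 7 * ((d : ℤ) * polyHeight κ A) ≤ 2 * height κ p)
    {U : Submodule L (M3 d → L)} (hU : xi d p ∈ U) (hUh : ht κ U ≤ c * height κ p) :
    finrank L (HA A d' d) ≤ finrank L (HA A d' d ⊓ U : Submodule L (M3 d → L)) + 5 * a * c := by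
  have ha' : (0 : ℝ) < 5 * a := by
    have : (1 : ℝ) ≤ a := by exact_mod_cast ha
    linarith
  have hpos' : (0 : ℝ) < height κ p := by exact_mod_cast hpos
  set μ : ℝ := (height κ p : ℝ) / (5 * a) with hμ
  have hμ0 : 0 < μ := div_pos hpos' ha'
  have hμe : 5 * a * μ = height κ p := by
    rw [hμ]
    field_simp
  obtain ⟨Q, hQ⟩ := exists_isSl h μ (xi d p)
  have hle : HA A d' d ≤ Q :=
    HA_le_of_isSl' h hp ha hd h10 hA hirr hAp hpos hα hμ0 hμe.le hQ
  have h1 := hQ.sup h hU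
  have h2 : (0 : ℝ) ≤ ht κ (Q ⊔ U) := by exact_mod_cast ht_nonneg h (Q ⊔ U)
  have h3 : (ht κ U : ℝ) ≤ c * height κ p := by exact_mod_cast hUh
  have h4 : (finrank L (Q ⊔ U : Submodule L (M3 d → L)) : ℝ) - finrank L U ≤ 5 * a * c := by
    have h5 : μ * ((finrank L (Q ⊔ U : Submodule L (M3 d → L)) : ℝ) - finrank L U) ≤
        μ * (5 * a * c) := by
      have h6 : (c : ℝ) * height κ p = μ * (5 * a * c) := by
        rw [← hμe]
        ring
      linarith
    exact le_of_mul_le_mul_left h5 hμ0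
  have h7 : finrank L (Q ⊔ U : Submodule L (M3 d → L)) ≤ finrank L U + 5 * a * c := by
    have : (finrank L (Q ⊔ U : Submodule L (M3 d → L)) : ℝ) ≤ ((finrank L U + 5 * a * c : ℕ) : ℝ) := by
      push_cast
      linarith
    exact_mod_cast this
  have h8 : finrank L (HA A d' d ⊔ U : Submodule L (M3 d → L)) ≤
      finrank L (Q ⊔ U : Submodule L (M3 d → L)) :=
    Submodule.finrank_mono (sup_le_sup_right hle U)
  have h9 := Submodule.finrank_sup_add_finrank_inf_eq (HA A d' d) U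
  omega

/-- **The height of the curve.** If the vector of the monomials lies in `R ⊔ R'`, a space of height
at most `c` times the height of the point, and `R'` is of small dimension, the height of the curve
is bounded by the height of `R`. -/
theorem gh_mul_le' [CharZero L] (h : IsFF κ L) {y₁ y : L} {a c q w d : ℕ}
    {A : Polynomial (Polynomial L)} {P : MvPolynomial (Fin 3) L} (ha : 1 ≤ a) (h10 : 10 * a ≤ d)
    (hP : P.IsHomogeneous a) (hPirr : Irreducible P) (hPA : deh P = A)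
    (hirr : Irreducible A) (hdeg : A.natDegree ≠ 0) (hA : A.evalEval y₁ y = 0)
    (hpos : 0 < height κ ![1, y₁, y])
    (hα : 7 * ((d : ℤ) * gh κ A) ≤ 2 * height κ ![1, y₁, y]) {R R' : Submodule L (M3 d → L)}
    (hU : xi d ![1, y₁, y] ∈ R ⊔ R') (hq : finrank L R' ≤ q)
    (hUh : ht κ (R ⊔ R') ≤ c * height κ ![1, y₁, y]) (hw : 5 * a * c + q ≤ w)
    (hwd : w + a ≤ d) :
    gh κ A * ((Fintype.card (M3 (d - w)) : ℤ) - finrank L R) ≤ ht κ R := by
  have hp : (![1, y₁, y] : Fin 3 → L) ≠ 0 := by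
    intro h0
    have := congrFun h0 0
    simp at this
  have hgh : gh κ A = polyHeight κ P := by rw [← hPA, gh_deh hP]
  have hPe : MvPolynomial.eval ![1, y₁, y] P = 0 := by
    rw [← deh_eval, hPA]
    exact hA
  obtain ⟨d', hd'⟩ : ∃ d', d' + w + a = d := ⟨d - w - a, by omega⟩
  have h1 := finrank_HA_le_inf' h hp ha hd' h10 hP hPirr hPe hpos (by rw [← hgh]; exact hα) hU hUh
  have h2 := finrank_inf_sup_le (L := L) (HA P (d' + w) d) R R'
  have h3 := polyHeight_le_of_inf h hP hPirr (by rw [hPA]; exact hirr) (by rw [hPA]; exact hdeg)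
    hd' (R := R) (by omega)
  rw [hgh]
  have h4 : d' + a = d - w := by omega
  rw [h4] at h3
  exact h3

end

end Pool.Agent.Lib.MP_44a246_ntC
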