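import Mathlib
import Pool.Agent.Lib.MP_44a246_ntC.C08
import Pool.Agent.Lib.MP_44a246_ntC.C09

/-!
The height theorem in one block.
-/

namespace Pool.Agent.Lib.MP_44a246_ntC

open Pool.Agent.Lib.MP_44a246_nt
open Pool.Agent.Lib.MP_44a246_ntL
open Pool.Agent.Lib.MP_44a246_ntS
open Pool.Agent.Lib.MP_44a246_ntX
open Pool.Agent.Lib.MP_44a246_ntG
open Pool.Agent.Lib.MP_44a246_ntD
open Pool.Agent.Lib.MP_44a246_ntZ
open Pool.Agent.Lib.MP_e52354_nt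
open WithZero Module Polynomial

/-- `7 d α ≤ 2 H` -/
theorem numC4_a {D s H α : ℤ} (hD : 0 < D) (hs : 100 * s ≤ D) (hH : 0 < H)
    (hα : 7 * (α * D ^ 2) ≤ 200 * (s * H)) : 7 * (D * α) ≤ 2 * H := by
  have e1 : 200 * (s * H) ≤ 2 * (D * H) := by
    have := mul_le_mul_of_nonneg_right hs hH.le
    linarith
  have e2 : D * (7 * (D * α)) ≤ D * (2 * H) := by nlinarith
  exact le_of_mul_le_mul_left e2 hD

/-- the height of the space of the rows -/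
theorem numC4_b {D s H α u N Δ E : ℤ} (hD : 0 < D) (h150 : 150 * u ≤ D)
    (hN0 : 0 ≤ N) (hN : 4 * N ≤ 9 * (u * D)) (hN2 : 200 * N ≤ 3 * D ^ 2) (hs3 : 3 ≤ s)
    (hH : 0 < H) (hα0 : 0 ≤ α) (hαH : 21 * α ≤ H) (hα : 7 * (α * D ^ 2) ≤ 200 * (s * H))
    (hΔ : 0 ≤ Δ) (hE : Δ ≤ E) (hbig : 27 * D ^ 2 * E < H) :
    N * (2 * α + 3 * Δ) + α + (s - 1) * H + E ≤ 2 * s * H := by
  have hE0 : 0 ≤ E := hΔ.trans hE
  -- `D * (u α D) * 1050 ≤ D * 200 s H`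
  have e1 : 150 * (u * (α * D)) ≤ D * (α * D) := by
    have := mul_le_mul_of_nonneg_right h150 (mul_nonneg hα0 hD.le)
    linarith
  have e2 : 7 * (150 * (u * (α * D))) ≤ 200 * (s * H) := by nlinarith
  have e3 : 4 * N * α ≤ 9 * (u * (α * D)) := by
    have := mul_le_mul_of_nonneg_right hN hα0
    linarith
  have e4 : 7 * (N * α) ≤ 3 * (s * H) := by linarith
  have e5 : N * Δ ≤ N * E := mul_le_mul_of_nonneg_left hE hN0
  have e6 : 200 * (N * E) ≤ 3 * (D ^ 2 * E) := by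
    have := mul_le_mul_of_nonneg_right hN2 hE0
    linarith
  have e7 : E ≤ D ^ 2 * E := by
    have h1 : 1 ≤ D ^ 2 := by
      have : 0 < D ^ 2 := by positivity
      linarith
    exact le_mul_of_one_le_left hE0 h1
  have e8 : 27 * (D ^ 2 * E) < H := by linarith
  have e9 : 3 * H ≤ s * H := mul_le_mul_of_nonneg_right hs3 hH.le
  have e10 : N * (2 * α + 3 * Δ) + α + (s - 1) * H + E =
      2 * (N * α) + 3 * (N * Δ) + α + s * H - H + E := by ring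
  have e11 : 2 * s * H = 2 * (s * H) := by ring
  rw [e10, e11]
  linarith

/-- the final computation -/
theorem numC4_c {D N P ρ α Δ R w : ℤ} (hD : 300 ≤ D) (hN2 : 200 * N ≤ 3 * D ^ 2)
    (hα0 : 0 ≤ α) (hΔ : 0 ≤ Δ) (hR : 0 ≤ R) (hρ : ρ ≤ N)
    (hw : 10 * w ≤ D) (hP : 2 * P = (D - w) * (D - w + 1))
    (hle : α * (P - ρ) ≤ ρ * (2 * α + 3 * Δ) + α + R) :
    7 * (D ^ 2 * α) ≤ D ^ 2 * Δ + 20 * R := by
  have e1 : α * (P - N) ≤ α * (P - ρ) := mul_le_mul_of_nonneg_left (by linarith) hα0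
  have e2 : ρ * (2 * α + 3 * Δ) ≤ N * (2 * α + 3 * Δ) :=
    mul_le_mul_of_nonneg_right hρ (by linarith)
  -- `81 D ^ 2 + 90 D ≤ 200 P`
  have e3 : 81 * D ^ 2 + 90 * D ≤ 200 * P := by
    have h1 : 9 * D ≤ 10 * (D - w) := by linarith
    have h2 : 9 * D + 10 ≤ 10 * (D - w + 1) := by linarith
    have h3 : 9 * D * (9 * D + 10) ≤ 10 * (D - w) * (10 * (D - w + 1)) :=
      mul_le_mul h1 h2 (by linarith) (by linarith)
    have h4 : 10 * (D - w) * (10 * (D - w + 1)) = 100 * ((D - w) * (D - w + 1)) := by ring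
    rw [h4, ← hP] at h3
    linarith
  have e4 : 72 * D ^ 2 ≤ 200 * (P - 3 * N - 1) := by linarith
  have e5 : α * (P - 3 * N - 1) ≤ 3 * (N * Δ) + R := by nlinarith
  have e6 : α * (72 * D ^ 2) ≤ α * (200 * (P - 3 * N - 1)) := mul_le_mul_of_nonneg_left e4 hα0
  have e7 : 200 * (N * Δ) ≤ 3 * (D ^ 2 * Δ) := by
    have := mul_le_mul_of_nonneg_right hN2 hΔ
    linarith
  have e8 : 0 ≤ D ^ 2 * α := by positivity
  have e9 : 0 ≤ D ^ 2 * Δ := by positivity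
  nlinarith

/-- the hypotheses of step C, small degrees -/
theorem numC5 {D a b e s : ℤ} (ha1 : 1 ≤ a) (hab : a ≤ b) (he0 : 0 ≤ e) (hs3 : 3 ≤ s)
    (hD : 300 * b ≤ D) (he : 100 * (b * s * e) ≤ D ^ 2) {H α Δ Θ : ℤ} (hH : 0 < H) (hα0 : 0 ≤ α)
    (hΔ : 0 ≤ Δ) (hΘ : 0 ≤ Θ) (hα : 7 * (α * D ^ 2) ≤ 200 * (s * H))
    (hbig : 27 * D ^ 2 * (Δ + Θ) < H) :
    (e * a) * α + a * (Θ + e * (2 * α + Δ)) < H := by
  have hD0 : 300 ≤ D := by linarith
  have hD2 : 0 < D ^ 2 := by positivity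
  have hse : 0 ≤ s * e := mul_nonneg (by linarith) he0
  have e1 : 100 * (a * (s * e)) ≤ D ^ 2 := by
    have h1 : a * (s * e) ≤ b * (s * e) := mul_le_mul_of_nonneg_right hab hse
    have h2 : b * (s * e) = b * s * e := by ring
    linarith
  have hae : 0 ≤ a * e := mul_nonneg (by linarith) he0
  -- `7 a e α D ^ 2 ≤ 200 a e s H ≤ 2 D ^ 2 H`
  have e2 : D ^ 2 * (7 * (a * e * α)) ≤ D ^ 2 * (2 * H) := by
    have h1 := mul_le_mul_of_nonneg_left hα hae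
    have h2 := mul_le_mul_of_nonneg_right e1 hH.le
    nlinarith
  have e3 : 7 * (a * e * α) ≤ 2 * H := le_of_mul_le_mul_left e2 hD2
  have e4 : 300 * (a * e) ≤ D ^ 2 := by
    have h1 : 3 * (a * e) ≤ a * (s * e) := by
      have := mul_le_mul_of_nonneg_right hs3 hae
      nlinarith
    linarith
  have e5 : 300 * (a * e * Δ) ≤ D ^ 2 * Δ := by
    have := mul_le_mul_of_nonneg_right e4 hΔ
    linarith
  have e6 : a * Θ ≤ D ^ 2 * Θ := mul_le_mul_of_nonneg_right (by nlinarith) hΘ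
  have e7 : 0 ≤ D ^ 2 * Θ := by positivity
  have e8 : 0 ≤ D ^ 2 * Δ := by positivity
  have e9 : e * a * α + a * (Θ + e * (2 * α + Δ)) =
      3 * (a * e * α) + a * Θ + a * e * Δ := by ring
  rw [e9]
  nlinarith

/-- the hypotheses of step C, bounded degrees -/
theorem numC6 {D a b e M : ℤ} (ha1 : 1 ≤ a) (hab : a ≤ b) (he0 : 0 ≤ e) (heM : e ≤ M)
    (hD : 300 * b ≤ D) {H α Δ Θ R : ℤ}
    (hΔ : 0 ≤ Δ) (hΘ : 0 ≤ Θ) (hR : 0 ≤ R) (hα0 : 0 ≤ α)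
    (hα : 7 * (D ^ 2 * α) ≤ D ^ 2 * Δ + 20 * R)
    (hbig : D ^ 2 * ((27 * D ^ 2 + 2 * b * M) * (Δ + Θ)) + 9 * b * M * R < D ^ 2 * H) :
    (e * a) * α + a * (Θ + e * (2 * α + Δ)) < H := by
  have hD0 : 300 ≤ D := by linarith
  have hb1 : 1 ≤ b := by linarith
  have hD2 : 0 < D ^ 2 := by positivity
  have hM : 0 ≤ M := he0.trans heM
  have hae : a * e ≤ b * M := mul_le_mul hab heM he0 (by linarith)
  have hae0 : 0 ≤ a * e := mul_nonneg (by linarith) he0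
  have e9 : e * a * α + a * (Θ + e * (2 * α + Δ)) =
      3 * (a * e * α) + a * Θ + a * e * Δ := by ring
  rw [e9]
  refine lt_of_mul_lt_mul_left (a := D ^ 2) ?_ hD2.le
  have e1 : 3 * (D ^ 2 * (a * e * α)) * 7 ≤ 3 * (b * M * (D ^ 2 * Δ + 20 * R)) := by
    have h1 : a * e * (7 * (D ^ 2 * α)) ≤ b * M * (D ^ 2 * Δ + 20 * R) :=
      mul_le_mul hae hα (by positivity) (mul_nonneg (by linarith) hM)
    linarith
  have e2 : a * Θ ≤ 27 * D ^ 2 * Θ := mul_le_mul_of_nonneg_right (by nlinarith) hΘ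
  have e3 : a * e * Δ ≤ b * M * Δ := mul_le_mul_of_nonneg_right hae hΔ
  have e4 : D ^ 2 * (a * Θ) ≤ D ^ 2 * (27 * D ^ 2 * Θ) := mul_le_mul_of_nonneg_left e2 hD2.le
  have e5 : D ^ 2 * (a * e * Δ) ≤ D ^ 2 * (b * M * Δ) := mul_le_mul_of_nonneg_left e3 hD2.le
  have e6 : 0 ≤ D ^ 2 * (27 * D ^ 2 * Δ) := by positivity
  have hbM : 0 ≤ b * M := mul_nonneg (by linarith) hM
  have e7 : 0 ≤ b * M * (D ^ 2 * Δ) := mul_nonneg hbM (by positivity)
  have e8 : 0 ≤ b * M * R := mul_nonneg hbM hR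
  have e10 : 0 ≤ b * M * (D ^ 2 * Θ) := mul_nonneg hbM (by positivity)
  nlinarith

variable {κ L : Type*} [Field κ] [IsAlgClosed κ] [CharZero κ] [Field L] [Algebra κ L]

/-- **The height of the curve is bounded by the poles of the derivations.** -/
theorem gh_le_block [CharZero L] (h : IsFF κ L) {n d a m r r₀ s : ℕ} (ha1 : 1 ≤ a)
    (hm : 1 ≤ m) (h10 : 10 * a ^ 2 ≤ d) (h150 : 150 * (a * m) ≤ d)
    (hs3 : 3 ≤ s) (h100 : 100 * (a * s) ≤ d) (hrd : r ≤ m * d) (X : DatG κ (L := L) n d)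
    {A : L[X][X]} {P : MvPolynomial (Fin 3) L} (hCA : CrvG X a A)
    (hmon : A.leadingCoeff.Monic) (hP : P.IsHomogeneous a) (hPirr : Irreducible P)
    (hPA : deh P = A) {γ : Type*} [Fintype γ] {β : γ → L}
    (hβ : ∀ t, ∀ w : Place κ L, w.1 (β t) ≤ 1)
    (hr₀ : finrank L X.Ux ≤ r₀) (hrr : r₀ + Fintype.card γ ≤ r)
    (hv0 : X.row X.v ∈ X.Ux ⊔ RB X β) {E : ℤ}
    (hv : ∀ {J : Finset (Fin (n + 1))} {N : ℕ},
      finrank L (X.VJ J a A ⊔ RB X β : Submodule L (M3 d → L)) ≤ N →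
      ht κ (X.VJ J a A ⊔ RB X β) ≤
        N * (2 * gh κ A + 3 * X.Δ) + gh κ A + (s - 1) * height κ X.x + E)
    (hE : X.Δ ≤ E) (hbig : 27 * (d : ℤ) ^ 2 * E < height κ X.x)
    (hα21 : 21 * (a * (m * gh κ A)) ≤ height κ X.x)
    (hα : 7 * (gh κ A * (d : ℤ) ^ 2) ≤ 200 * ((s : ℤ) * height κ X.x)) :
    7 * ((d : ℤ) ^ 2 * gh κ A) ≤ (d : ℤ) ^ 2 * X.Δ + 20 * X.R := by
  have hΔ := X.Δ_nonneg
  have hR := X.R_nonneg
  have hE0 : 0 ≤ E := hΔ.trans hE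
  have hpos : 0 < height κ X.x :=
    lt_of_le_of_lt (mul_nonneg (by positivity) hE0) hbig
  have hα0 : 0 ≤ gh κ A := gh_nonneg h hCA.irr.ne_zero
  have has3 : 3 * a ≤ a * s := by
    rw [mul_comm 3 a]
    exact Nat.mul_le_mul_left _ hs3
  have h300 : 300 * a ≤ d := by omega
  have hsa : s ≤ a * s := Nat.le_mul_of_pos_left _ ha1
  have h100s : 100 * s ≤ d := by omega
  have hN1 := numC1 ha1 hm h10 h300 hrd
  have hN2 := numC2 h150 hN1
  have hm' : (1 : ℤ) ≤ m := by exact_mod_cast hm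
  have ha1' : (1 : ℤ) ≤ a := by exact_mod_cast ha1
  have had : (300 : ℤ) * a ≤ d := by exact_mod_cast h300
  have hd300 : (300 : ℤ) ≤ d := by linarith
  have haαH : 21 * ((a : ℤ) * gh κ A) ≤ height κ X.x := by
    refine le_trans ?_ hα21
    have : (a : ℤ) * gh κ A ≤ a * (m * gh κ A) :=
      mul_le_mul_of_nonneg_left (le_mul_of_one_le_left hα0 hm') (Int.natCast_nonneg _)
    linarith
  have hαH : 21 * gh κ A ≤ height κ X.x := by
    have : gh κ A ≤ a * gh κ A := le_mul_of_one_le_left hα0 ha1'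
    linarith
  have hNd : 200 * ((NC r a : ℕ) : ℤ) ≤ 3 * (d : ℤ) ^ 2 := by exact_mod_cast hN2
  have hN0 : (0 : ℤ) ≤ ((NC r a : ℕ) : ℤ) := Int.natCast_nonneg _
  have m1 : 7 * ((d : ℤ) * gh κ A) ≤ 2 * height κ X.x :=
    numC4_a (by linarith) (by exact_mod_cast h100s) hpos hα
  have m2 : ((NC r a : ℕ) : ℤ) * (2 * gh κ A + 3 * X.Δ) + gh κ A + (s - 1) * height κ X.x + E ≤
      2 * s * height κ X.x :=
    numC4_b (u := ((a * m : ℕ) : ℤ)) (D := d) (by linarith) (by exact_mod_cast h150) hN0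
      (by exact_mod_cast hN1) hNd (by exact_mod_cast hs3) hpos hα0 hαH hα hΔ hE hbig
  obtain ⟨J, hJc, hJ⟩ := exists_J X
  have hJr : J.card ≤ r₀ := by
    rw [hJc]
    exact hr₀
  have hspan : 9 * (a : ℤ) * gh κ A + 3 * a * X.Δ < height κ X.x := by
    have h1 : 3 * (a : ℤ) * X.Δ * 2 ≤ 27 * (d : ℤ) ^ 2 * E := by
      have h2 : 3 * (a : ℤ) * 2 ≤ 27 * (d : ℤ) ^ 2 := by nlinarith
      calc 3 * (a : ℤ) * X.Δ * 2 = 3 * (a : ℤ) * 2 * X.Δ := by ring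
        _ ≤ 27 * (d : ℤ) ^ 2 * E := mul_le_mul h2 hE hΔ (by positivity)
    nlinarith
  have hfin := finrank_VJB_NC h ha1 X hCA hmon (β := β) hJr hrr hspan
  have hRC : finrank L (RC X J a A ⊔ RB X β : Submodule L (M3 d → L)) ≤ NC r a :=
    (Submodule.finrank_mono (by rw [VJ_eq]; exact sup_le_sup_right le_sup_left _)).trans hfin
  -- the small space
  set R' : Submodule L (M3 d → L) := Submodule.span L {X.row X.y₁} with hR'
  have hsup : (RC X J a A ⊔ RB X β) ⊔ R' = X.VJ J a A ⊔ RB X β := by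
    rw [hR', VJ_eq, sup_assoc, sup_comm (RB X β), ← sup_assoc]
  have hq1 : finrank L R' ≤ 1 := by
    have h3 := finrank_span_le_card (R := L) ({X.row X.y₁} : Set (M3 d → L))
    simpa using h3
  have hht : ht κ ((RC X J a A ⊔ RB X β) ⊔ R') ≤ (2 * s : ℕ) * height κ X.x := by
    rw [hsup]
    have h1 := hv hfin
    push_cast
    linarith
  have hhp : height κ ![1, X.y₁, X.y] = height κ X.x := X.height_p
  have key := gh_mul_le' (a := a) (c := 2 * s) (q := 1) (w := 10 * (a * s) + 1) (d := d) h ha1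
    (by omega) hP hPirr hPA hCA.irr hCA.deg hCA.zero (by rw [hhp]; exact hpos)
    (by rw [hhp]; exact m1)
    (by rw [hsup]; exact xi_mem_VJB X hCA hJ hv0) hq1 (by rw [hhp]; exact hht)
    (by
      have : 5 * a * (2 * s) = 10 * (a * s) := by ring
      omega) (by omega)
  have hle := key.trans (ht_RCB_le' X hCA h J hβ)
  have hRC' : (finrank L (RC X J a A ⊔ RB X β : Submodule L (M3 d → L)) : ℤ) ≤
      ((NC r a : ℕ) : ℤ) := by exact_mod_cast hRC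
  refine numC4_c (w := ((10 * (a * s) : ℕ) : ℤ)) hd300 hNd hα0 hΔ hR hRC' ?_ ?_ hle
  · have : 10 * (10 * (a * s)) ≤ d := by omega
    exact_mod_cast this
  · have h1 : Fintype.card (M3 (d - (10 * (a * s) + 1))) = N3 (d - (10 * (a * s) + 1)) := card_M3 _
    rw [h1]
    have h2 := two_N3 (d - (10 * (a * s) + 1))
    have h3 : ((d - (10 * (a * s) + 1) : ℕ) : ℤ) = (d : ℤ) - ((10 * (a * s) : ℕ) : ℤ) - 1 := by
      rw [Nat.cast_sub (by omega)]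
      push_cast
      ring
    have h4 : 2 * ((N3 (d - (10 * (a * s) + 1)) : ℕ) : ℤ) =
        (((d - (10 * (a * s) + 1) : ℕ) : ℤ) + 1) * (((d - (10 * (a * s) + 1) : ℕ) : ℤ) + 2) := by
      exact_mod_cast h2
    rw [h4, h3]
    ring

theorem CertV_mono {L : Type*} [Field L] {n : ℕ} {ι : Type*} {e : ι → ℕ}
    {a : ι → (Fin (n + 1) →₀ ℕ) → L} {b b' : ℕ} (hb : b ≤ b') {x : Fin (n + 1) → L}
    (h : CertV e a b x) : CertV e a b' x := by
  obtain ⟨A, B, ξ₀, ξ₁, ξ₂, c, y₁, y, h1, h2, h3⟩ := h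
  exact ⟨A, B, ξ₀, ξ₁, ξ₂, c, y₁, y, ⟨h1.1.trans hb, fun i => (h1.2 i).trans hb⟩,
    fun j => ⟨(h2 j).1.trans hb, fun i => ((h2 j).2 i).trans hb⟩, h3⟩

/-- **The height theorem in one block.** -/
theorem height_block [CharZero L] (h : IsFF κ L) {n r r₀ d b m q M : ℕ}
    (hm : 1 ≤ m) (h10 : 10 * b ^ 2 ≤ d) (h150 : 150 * (b * m) ≤ d)
    (hq : 100 * (b * (q + 3)) ≤ d) (hrd : r ≤ m * d) (X : DatG κ (L := L) n d)
    {γ : Type*} [Fintype γ] {β : γ → L} (hβ : ∀ t, ∀ w : Place κ L, w.1 (β t) ≤ 1)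
    (hv : X.row X.v ∈ X.Ux ⊔ RB X β) (hr₀ : finrank L X.Ux ≤ r₀) (hrr : r₀ + Fintype.card γ ≤ r)
    (hR : X.R ≤ q * height κ X.x)
    (hA : ∃ (a : ℕ) (A : MvPolynomial (Fin 3) L), a ≤ b ∧ A ≠ 0 ∧ A.IsHomogeneous a ∧
        MvPolynomial.eval X.p A = 0 ∧ 21 * (a * (m * polyHeight κ A)) ≤ height κ X.x)
    {τ : Place κ L → ℕ} (hτ : (Function.support τ).Finite)
    {ι : Type*} {e : ι → ℕ} {a : ι → (Fin (n + 1) →₀ ℕ) → L}
    (he : ∀ i, 100 * (b * (q + 3) * e i) ≤ d ^ 2 ∨ e i ≤ M)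
    (ha : ∀ i, ∀ I ∈ expo (Fin (n + 1)) (e i), ∀ w : Place κ L, w.1 (a i I) ≤ exp (τ w : ℤ))
    (hz : ∀ i, Fval (e i) (a i) X.x = 0)
    (hbig : (d : ℤ) ^ 2 * ((27 * d ^ 2 + 2 * b * M) * (X.Δ + ∑ᶠ w, (τ w : ℤ))) +
      9 * b * M * X.R < (d : ℤ) ^ 2 * height κ X.x) (hd1 : 1 ≤ d) :
    CertV e a b X.x := by
  have hΔ := X.Δ_nonneg
  have hR0 := X.R_nonneg
  have hΘ : 0 ≤ ∑ᶠ w, (τ w : ℤ) := finsum_nonneg fun w => Int.natCast_nonneg _
  generalize hΘe : ∑ᶠ w, (τ w : ℤ) = Θ at hΘ hbig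
  have hd1' : (1 : ℤ) ≤ d := by exact_mod_cast hd1
  have hd2' : (0 : ℤ) < (d : ℤ) ^ 2 := by positivity
  have hM0 : (0 : ℤ) ≤ 2 * b * M := by positivity
  have hM1 : (0 : ℤ) ≤ 9 * b * M * X.R := mul_nonneg (by positivity) hR0
  have hbig'' : (27 * (d : ℤ) ^ 2 + 2 * b * M) * (X.Δ + Θ) < height κ X.x := by
    refine lt_of_mul_lt_mul_left ?_ hd2'.le
    linarith
  have hpos : 0 < height κ X.x :=
    lt_of_le_of_lt (mul_nonneg (by positivity) (add_nonneg hΔ hΘ)) hbig''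
  have hbig3 : 27 * (d : ℤ) ^ 2 * (X.Δ + Θ) < height κ X.x := by
    have h2 : 0 ≤ (2 * b * M : ℤ) * (X.Δ + Θ) := mul_nonneg hM0 (add_nonneg hΔ hΘ)
    linarith
  have hbig' : 27 * (d : ℤ) ^ 2 * X.Δ < height κ X.x := by
    have h1 : 0 ≤ 27 * (d : ℤ) ^ 2 * Θ := mul_nonneg (by positivity) hΘ
    linarith
  have hvVJ : ∀ {b : ℕ} {A : L[X][X]}, CrvG X b A → ∀ {J : Finset (Fin (n + 1))} {N : ℕ},
      finrank L (X.VJ J b A ⊔ RB X β : Submodule L (M3 d → L)) ≤ N →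
      ht κ (X.VJ J b A ⊔ RB X β) ≤
        N * (2 * gh κ A + 3 * X.Δ) + gh κ A + (((q + 3 : ℕ) : ℤ) - 1) * height κ X.x + X.Δ := by
    intro b A hA J N hVN
    have h1 := ht_VJB_le' X hA h hβ hVN
    push_cast
    linarith
  obtain ⟨a₁, A, P, ha1, hab, hCA, hmon, hP, hPirr, hPA, hα21, hα⟩ :=
    small_curve_block h hm h10 h150 (show 3 ≤ q + 3 by omega) hq hrd X hr₀ hrr hv (E := X.Δ) hA
      hvVJ le_rfl hbig'
  have hb1 : 1 ≤ b := ha1.trans hab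
  have hα0 : 0 ≤ gh κ A := gh_nonneg h hCA.irr.ne_zero
  have h10a : 10 * a₁ ^ 2 ≤ d :=
    (Nat.mul_le_mul_left _ (Nat.pow_le_pow_left hab 2)).trans h10
  have h150a : 150 * (a₁ * m) ≤ d :=
    (Nat.mul_le_mul_left _ (Nat.mul_le_mul_right _ hab)).trans h150
  have h100a : 100 * (a₁ * (q + 3)) ≤ d :=
    (Nat.mul_le_mul_left _ (Nat.mul_le_mul_right _ hab)).trans hq
  have hαΔ := gh_le_block h ha1 hm h10a h150a (show 3 ≤ q + 3 by omega) h100a hrd X hCA hmon hP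
    hPirr hPA hβ hr₀ hrr hv (E := X.Δ) (fun {J N} hJN => hvVJ hCA hJN) le_rfl hbig' hα21 hα
  have hbs3 : 3 * b ≤ b * (q + 3) := by
    rw [mul_comm 3 b]
    exact Nat.mul_le_mul_left _ (by omega)
  have h300 : (300 : ℤ) * b ≤ d := by
    have : 300 * b ≤ d := by omega
    exact_mod_cast this
  have ha1' : (1 : ℤ) ≤ a₁ := by exact_mod_cast ha1
  have hab' : (a₁ : ℤ) ≤ b := by exact_mod_cast hab
  have hs3' : (3 : ℤ) ≤ ((q + 3 : ℕ) : ℤ) := by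
    push_cast
    linarith [Int.natCast_nonneg q]
  refine CertV_mono hab (stepC X hCA h hτ ha hz (fun i => ?_) ?_)
  · rw [hΘe]
    rcases he i with hei | hei
    · exact numC5 ha1' hab' (Int.natCast_nonneg (e i)) hs3' h300 (by exact_mod_cast hei) hpos hα0
        hΔ hΘ hα hbig3
    · exact numC6 ha1' hab' (Int.natCast_nonneg (e i)) (by exact_mod_cast hei) h300 hΔ hΘ hR0 hα0
        hαΔ hbig
  · have h1 := numC5 (e := 1) (Θ := 0) ha1' hab' (by norm_num) hs3' h300 (by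
      rw [mul_one]
      have h2 : 100 * (b * (q + 3)) ≤ d ^ 2 := by
        calc 100 * (b * (q + 3)) ≤ d := hq
          _ = d * 1 := (mul_one d).symm
          _ ≤ d * d := Nat.mul_le_mul_left _ hd1
          _ = d ^ 2 := (sq d).symm
      exact_mod_cast h2) hpos hα0 hΔ le_rfl hα (by rw [add_zero]; exact hbig')
    linarith

end Pool.Agent.Lib.MP_44a246_ntC
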