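import Mathlib
import Pool.Agent.Lib.MP_44a246_ntK.K08
import Pool.Agent.Lib.MP_44a246_ntC.C04
import Pool.Agent.Lib.MP_44a246_ntC.C10

/-!
The height theorem for several forms.
-/

namespace Pool.Agent.Lib.MP_44a246_ntC

open Pool.Agent.Lib.MP_44a246_ntK
open Pool.Agent.Lib.MP_44a246_nt
open Pool.Agent.Lib.MP_44a246_ntL
open Pool.Agent.Lib.MP_44a246_ntS
open Pool.Agent.Lib.MP_44a246_ntX
open Pool.Agent.Lib.MP_44a246_ntG
open Pool.Agent.Lib.MP_44a246_ntD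
open Pool.Agent.Lib.MP_e52354_nt
open WithZero Module

/-- the numerical contradiction: not all blocks can have a large height -/
theorem numC7 {p : ℕ} {d m : Fin p → ℕ} {r b q : ℕ} (hb : 1 ≤ b)
    (hN : 21 * r + 20 * b * (r + 2 + q + 12 * b * ∑ j, m j + 2 * b * p) ≤
      20 * b * (∑ j, d j + p))
    {H Δ R h₀ : ℤ} {hj : Fin p → ℤ} {rj : Fin p → ℕ} {ρ : ℕ} (hH : 0 < H)
    (h1 : ∀ j, 20 * (b : ℤ) * (((d j : ℤ) - 12 * ((b * m j : ℕ) : ℤ) - 2 * b + 1) * H) ≤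
      20 * b * hj j + 21 * H * rj j)
    (h2 : ∑ j, hj j ≤ h₀) (h3 : ∑ j, rj j ≤ ρ) (h4 : ρ ≤ r)
    (h5 : h₀ ≤ (r + 1) * H + r * Δ + R) (h6 : R ≤ q * H) : H ≤ r * Δ := by
  have hb' : (1 : ℤ) ≤ b := by exact_mod_cast hb
  have e1 := Finset.sum_le_sum fun j (_ : j ∈ Finset.univ) => h1 j
  rw [Finset.sum_add_distrib, ← Finset.mul_sum, ← Finset.mul_sum, ← Finset.mul_sum] at e1
  have e2 : ∑ j, (((d j : ℤ) - 12 * ((b * m j : ℕ) : ℤ) - 2 * b + 1) * H) =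
      ((∑ j, (d j : ℤ)) - 12 * (b * ∑ j, (m j : ℤ)) - 2 * b * p + p) * H := by
    rw [← Finset.sum_mul, Finset.sum_add_distrib, Finset.sum_sub_distrib, Finset.sum_sub_distrib]
    congr 1
    rw [Finset.sum_const, Finset.sum_const, Finset.card_univ, Fintype.card_fin, Finset.mul_sum,
      Finset.mul_sum]
    have e3 : ∀ j : Fin p, 12 * ((b * m j : ℕ) : ℤ) = 12 * ((b : ℤ) * (m j : ℤ)) := by
      intro j
      push_cast
      ring
    rw [Finset.sum_congr rfl fun j _ => e3 j]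
    simp only [nsmul_eq_mul, mul_one]
    ring
  rw [e2] at e1
  have e3 : (∑ j, (rj j : ℤ)) ≤ r := by exact_mod_cast h3.trans h4
  have e4 : 21 * (r : ℤ) + 20 * b * (r + 2 + q + 12 * b * ∑ j, (m j : ℤ) + 2 * b * p) ≤
      20 * b * (∑ j, (d j : ℤ) + p) := by exact_mod_cast hN
  have e5 := mul_le_mul_of_nonneg_right e4 hH.le
  have e6 : 20 * (b : ℤ) * ∑ j, hj j ≤ 20 * b * ((r + 1) * H + r * Δ + R) :=
    mul_le_mul_of_nonneg_left (h2.trans h5) (by linarith)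
  have e7 : 21 * H * ∑ j, (rj j : ℤ) ≤ 21 * H * r := mul_le_mul_of_nonneg_left e3 (by linarith)
  have e8 : (b : ℤ) * R ≤ b * (q * H) := mul_le_mul_of_nonneg_left h6 (by linarith)
  have e9 : (b : ℤ) * H ≤ b * (r * Δ) := by nlinarith
  exact le_of_mul_le_mul_left e9 (by linarith)

/-- **The height theorem for several forms.** -/
theorem height_joint {κ L : Type*} [Field κ] [IsAlgClosed κ] [CharZero κ] [Field L] [CharZero L]
    [Algebra κ L] (h : IsFF κ L) {n p r r₀ b q M D d₀ : ℕ} {d m : Fin p → ℕ} (hb : 1 ≤ b)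
    (hm : ∀ j, 1 ≤ m j) (h10 : ∀ j, 10 * b ^ 2 ≤ d j) (hr : ∀ j, r ≤ m j * d j)
    (h150 : ∀ j, 150 * (b * m j) ≤ d j) (hq : ∀ j, 100 * (b * (q + 3)) ≤ d j)
    (hN : 21 * r + 20 * b * (r + 2 + q + 12 * b * ∑ j, m j + 2 * b * p) ≤
      20 * b * (∑ j, d j + p))
    (hd₀ : ∀ j, d₀ ≤ d j) (hd₀1 : 1 ≤ d₀) (hD : ∀ j, d j ≤ D) (X : DatC κ (L := L) n d)
    {γ : Type*} [Fintype γ] {β : γ → L} (hβ : ∀ t, ∀ w : Place κ L, w.1 (β t) ≤ 1)
    (hv : ∀ j, grow X.jF (X.v j) ∈ gspan X.jF (Sum.elim X.x β))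
    (hr₀ : finrank L (gspan X.jF X.x) ≤ r₀) (hrr : r₀ + Fintype.card γ ≤ r)
    (hR : X.R ≤ q * height κ X.x)
    {τ : Place κ L → ℕ} (hτ : (Function.support τ).Finite)
    {ι : Type*} {e : ι → ℕ} {a : ι → (Fin (n + 1) →₀ ℕ) → L}
    (he : ∀ i, 100 * (b * (q + 3) * e i) ≤ d₀ ^ 2 ∨ e i ≤ M)
    (ha : ∀ i, ∀ I ∈ expo (Fin (n + 1)) (e i), ∀ w : Place κ L, w.1 (a i I) ≤ exp (τ w : ℤ))
    (hz : ∀ i, Fval (e i) (a i) X.x = 0) :
    (d₀ : ℤ) ^ 2 * height κ X.x ≤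
        (d₀ : ℤ) ^ 2 * ((27 * D ^ 2 + 2 * b * M) * (X.Δ + ∑ᶠ w, (τ w : ℤ))) +
          9 * b * M * X.R ∨
      CertV e a b X.x := by
  have hΔ := X.Δ_nonneg
  have hR0 := X.R_nonneg
  have hΘ : 0 ≤ ∑ᶠ w, (τ w : ℤ) := finsum_nonneg fun w => Int.natCast_nonneg _
  rcases le_or_gt ((d₀ : ℤ) ^ 2 * height κ X.x)
    ((d₀ : ℤ) ^ 2 * ((27 * D ^ 2 + 2 * b * M) * (X.Δ + ∑ᶠ w, (τ w : ℤ))) + 9 * b * M * X.R)
    with hle | hbig
  · exact Or.inl hle
  right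
  by_contra hcert
  have hd₀' : (1 : ℤ) ≤ d₀ := by exact_mod_cast hd₀1
  have hd₀2 : (0 : ℤ) < (d₀ : ℤ) ^ 2 := by positivity
  have hM1 : (0 : ℤ) ≤ 9 * b * M * X.R := mul_nonneg (by positivity) hR0
  set Y := (27 * (D : ℤ) ^ 2 + 2 * b * M) * (X.Δ + ∑ᶠ w, (τ w : ℤ)) with hY
  have hY1 : Y < height κ X.x := by
    refine lt_of_mul_lt_mul_left ?_ hd₀2.le
    linarith
  have hY0 : 0 ≤ Y := mul_nonneg (by positivity) (add_nonneg hΔ hΘ)
  have hpos : 0 < height κ X.x := lt_of_le_of_lt hY0 hY1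
  -- the bound in every block
  have hblk : ∀ j, (d j : ℤ) ^ 2 * ((27 * d j ^ 2 + 2 * b * M) *
      (X.Δ + ∑ᶠ w, (τ w : ℤ))) + 9 * b * M * X.R < (d j : ℤ) ^ 2 * height κ X.x := by
    intro j
    have e1 : (d₀ : ℤ) ≤ d j := by exact_mod_cast hd₀ j
    have e2 : (d j : ℤ) ≤ D := by exact_mod_cast hD j
    have e3 : (d₀ : ℤ) ^ 2 ≤ (d j : ℤ) ^ 2 := pow_le_pow_left₀ (by linarith) e1 2
    have e4 : (d j : ℤ) ^ 2 ≤ (D : ℤ) ^ 2 := pow_le_pow_left₀ (by linarith) e2 2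
    have e5 : (27 * (d j : ℤ) ^ 2 + 2 * b * M) * (X.Δ + ∑ᶠ w, (τ w : ℤ)) ≤ Y :=
      mul_le_mul_of_nonneg_right (by linarith) (add_nonneg hΔ hΘ)
    have e6 : (d j : ℤ) ^ 2 * ((27 * d j ^ 2 + 2 * b * M) * (X.Δ + ∑ᶠ w, (τ w : ℤ))) ≤
        (d j : ℤ) ^ 2 * Y := mul_le_mul_of_nonneg_left e5 (by positivity)
    have e7 : (d₀ : ℤ) ^ 2 * (height κ X.x - Y) ≤ (d j : ℤ) ^ 2 * (height κ X.x - Y) :=
      mul_le_mul_of_nonneg_right e3 (by linarith)
    linarith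
  -- no block has a curve
  have hnoc : ∀ j, 20 * (b : ℤ) * (((d j : ℤ) - 12 * ((b * m j : ℕ) : ℤ) - 2 * b + 1) *
      height κ X.x) ≤ 20 * b * ht κ (piece κ (gspan X.jF (Sum.elim X.x β)) j) +
        21 * height κ X.x * finrank L (piece κ (gspan X.jF (Sum.elim X.x β)) j) := by
    intro j
    have hbu : b ≤ b * m j := Nat.le_mul_of_pos_right _ (hm j)
    have hxi : xi (d j) (X.blk j).p ∈ piece κ (gspan X.jF (Sum.elim X.x β)) j :=
      X.xi_mem_piece (X.xiB_mem (fun l => grow_mem_gspan X.jF (Sum.elim X.x β) (Sum.inl l)) (hv j))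
    have h1 := stepA_block h (X.blk j) (b := b) (u := b * m j) hxi hb hbu
      (by have := h150 j; omega) hpos
    rcases h1 with ⟨a₁, A₁, g1, g2, g3, g4, g5⟩ | h1
    · exfalso
      apply hcert
      have g6 : 21 * (a₁ * (m j * polyHeight κ A₁)) ≤ height κ (X.blk j).x := by
        have hb' : (0 : ℤ) < b := by exact_mod_cast hb
        refine le_of_mul_le_mul_left (le_of_eq_of_le ?_ g5) hb'
        push_cast
        ring
      refine height_block h (r := r) (r₀ := r₀) (q := q) (M := M) (hm j) (h10 j) (h150 j) (hq j)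
        (hr j) (X.blk j) hβ (X.row_mem_blk (hv j)) ((X.finrank_blk_Ux j).trans hr₀) hrr hR
        ⟨a₁, A₁, g1, g2, g3, g4, g6⟩ hτ (fun i => ?_) ha hz (hblk j)
        (by have := h10 j; have h2 : 1 ≤ b ^ 2 := Nat.one_le_pow _ _ hb; omega)
      rcases he i with h2 | h2
      · left
        exact h2.trans (Nat.pow_le_pow_left (hd₀ j) 2)
      · exact Or.inr h2
    · exact h1
  have hfin := X.finrank_gspan_sum (β := β) hr₀ hrr
  obtain ⟨p1, p2⟩ := ht_piece h (gspan X.jF (Sum.elim X.x β))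
  have hhtU : ht κ (gspan X.jF (Sum.elim X.x β)) ≤
      (r + 1) * height κ X.x + r * X.Δ + X.R := by
    have hx1 : ∀ w : Place κ L, 1 ≤ vmax w.1 X.x := by
      intro w
      have h1 : w.1 (∑ j, (X.ξ₀ j : L) * X.x j) ≤ vmax w.1 X.x := by
        refine w.1.map_sum_le fun j _ => ?_
        rw [map_mul]
        calc w.1 (X.ξ₀ j : L) * w.1 (X.x j) ≤ 1 * vmax w.1 X.x :=
              mul_le_mul' (natCast_mem w.1.integer _) (le_vmax w.1 X.x j)
          _ = vmax w.1 X.x := one_mul _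
      rwa [X.h0, map_one] at h1
    have hx0 : X.x ≠ 0 := by
      intro h1
      have h2 := X.h0
      rw [h1] at h2
      simp at h2
    refine ht_gspan h X.jF_minor X.hδ X.hρ hx1 hx0 ?_ hfin
    rintro (j | t) w
    · exact le_vmax w.1 X.x j
    · exact (hβ t w).trans (hx1 w)
  have hfinal := numC7 hb hN hpos hnoc p1 p2 hfin hhtU hR
  -- the contradiction
  obtain ⟨j⟩ : Nonempty (Fin p) := by
    by_contra hp
    rw [not_nonempty_iff] at hp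
    have hp0 : p = 0 := by
      rcases Nat.eq_zero_or_pos p with h0 | h0
      · exact h0
      · exact (hp.false ⟨0, h0⟩).elim
    subst hp0
    rw [Finset.univ_eq_empty, Finset.sum_empty, Finset.sum_empty] at hN
    have : 0 < 20 * b * (r + 2 + q + 12 * b * 0 + 2 * b * 0) := by positivity
    omega
  have e1 : (r : ℤ) ≤ (d j : ℤ) ^ 2 := by
    have h1 : m j ≤ d j := by
      have h2 := h150 j
      have h3 : m j ≤ b * m j := Nat.le_mul_of_pos_left _ hb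
      omega
    have h2 : r ≤ d j ^ 2 := by
      calc r ≤ m j * d j := hr j
        _ ≤ d j * d j := Nat.mul_le_mul_right _ h1
        _ = d j ^ 2 := (sq _).symm
    exact_mod_cast h2
  have e2 : (d j : ℤ) ^ 2 ≤ (D : ℤ) ^ 2 :=
    pow_le_pow_left₀ (by positivity) (by exact_mod_cast hD j) 2
  have e3 : (r : ℤ) * X.Δ ≤ Y := by
    have h1 : (r : ℤ) * X.Δ ≤ (27 * (D : ℤ) ^ 2 + 2 * b * M) * X.Δ := by
      refine mul_le_mul_of_nonneg_right ?_ hΔ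
      have h2 : (0 : ℤ) ≤ 2 * b * M := by positivity
      have h3 : (0 : ℤ) ≤ (D : ℤ) ^ 2 := by positivity
      linarith
    have h2 : 0 ≤ (27 * (D : ℤ) ^ 2 + 2 * b * M) * ∑ᶠ w, (τ w : ℤ) :=
      mul_nonneg (by positivity) hΘ
    rw [hY, mul_add]
    linarith
  linarith

end Pool.Agent.Lib.MP_44a246_ntC
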