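import Mathlib
import Pool.Agent.Lib.MP_44a246_ntC.C11
import Pool.Agent.Lib.MP_e52354_ntF.G5
import Pool.Agent.Lib.MP_44a246_ntR.R01

/-!
Spaces of functionals which contain a space of combinations of the vectors of the monomials.
-/

namespace Pool.Agent.Lib.MP_44a246_ntC

open Pool.Agent.Lib.MP_44a246_ntK
open Pool.Agent.Lib.MP_44a246_ntF
open Pool.Agent.Lib.MP_e52354_ntF
open Pool.Agent.Lib.MP_44a246_nt
open Pool.Agent.Lib.MP_44a246_ntL
open Pool.Agent.Lib.MP_44a246_ntS
open Pool.Agent.Lib.MP_44a246_ntX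
open Pool.Agent.Lib.MP_44a246_ntG
open Pool.Agent.Lib.MP_44a246_ntD
open Pool.Agent.Lib.MP_e52354_nt
open WithZero Module

section

variable {L : Type*} [Field L] {p : ℕ} {ι : Fin p → Type*} [∀ j, Fintype (ι j)]

/-- a vector of a block -/
def embB (ξ : ∀ j, ι j → L) (j : Fin p) : (Σ j, ι j) → L :=
  fun s => if s.1 = j then ξ s.1 s.2 else 0

omit [∀ j, Fintype (ι j)] in
theorem embB_self (ξ : ∀ j, ι j → L) (j : Fin p) (i : ι j) : embB ξ j ⟨j, i⟩ = ξ j i := by
  unfold embB
  rw [if_pos rfl]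

omit [∀ j, Fintype (ι j)] in
theorem embB_ne (ξ : ∀ j, ι j → L) {i j : Fin p} (h : i ≠ j) (s : ι i) :
    embB ξ j ⟨i, s⟩ = 0 := by
  unfold embB
  rw [if_neg h]

omit [∀ j, Fintype (ι j)] in
/-- the blocks of a combination of the vectors -/
theorem sum_embB (ξ : ∀ j, ι j → L) (c : Fin p → L) (j : Fin p) (i : ι j) :
    (∑ t, c t • embB ξ t) ⟨j, i⟩ = c j * ξ j i := by
  rw [Finset.sum_apply, Finset.sum_eq_single j]
  · rw [Pi.smul_apply, smul_eq_mul, embB_self]
  · intro t _ ht
    rw [Pi.smul_apply, smul_eq_mul, embB_ne ξ (Ne.symm ht), mul_zero]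
  · intro h
    exact absurd (Finset.mem_univ j) h

end

/-- **The blocks which contain the vectors.** -/
theorem exists_blocks {κ L : Type*} [Field κ] [IsAlgClosed κ] [CharZero κ] [Field L]
    [Algebra κ L] (h : IsFF κ L) {p : ℕ} {ι : Fin p → Type*} [∀ j, Fintype (ι j)]
    {U : Submodule L ((Σ j, ι j) → L)} {ξ : ∀ j, ι j → L} {ρ : ℕ}
    (hQ : ρ ≤ finrank L (U ⊓ Submodule.span L (Set.range (embB ξ)) :
      Submodule L ((Σ j, ι j) → L))) :
    ∃ A : Finset (Fin p), A.card = ρ ∧ ∀ j ∈ A, ξ j ∈ piece κ U j := by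
  classical
  set Q := U ⊓ Submodule.span L (Set.range (embB ξ)) with hQdef
  have hQU : Q ≤ U := inf_le_left
  have h1 := finrank_piece (κ := κ) h Q
  have h2 : ∀ j, piece κ Q j ≤ Submodule.span L {ξ j} := by
    rintro j _ ⟨u, hu, rfl⟩
    rw [Matrix.mulVecLin_apply, prj_mulVec]
    have h3 : u ∈ Submodule.span L (Set.range (embB ξ)) := (Submodule.mem_inf.1 hu.1).2
    rw [Submodule.mem_span_range_iff_exists_fun] at h3
    obtain ⟨c, hc⟩ := h3
    rw [Submodule.mem_span_singleton]
    refine ⟨c j, ?_⟩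
    funext i
    rw [← hc, sum_embB]
    rfl
  have h3 : ∀ j, finrank L (piece κ Q j) ≤ 1 := fun j =>
    (Submodule.finrank_mono (h2 j)).trans (by
      have h4 := finrank_span_le_card (R := L) ({ξ j} : Set (ι j → L))
      simpa using h4)
  have h4 : finrank L Q ≤ (Finset.univ.filter fun j : Fin p => ξ j ∈ piece κ U j).card := by
    rw [← h1, Finset.card_filter]
    refine Finset.sum_le_sum fun j _ => ?_
    split_ifs with h5
    · exact h3 j
    · have h6 : piece κ Q j = ⊥ := by
        by_contra h7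
        obtain ⟨u, hu, hu0⟩ := (Submodule.ne_bot_iff _).1 h7
        obtain ⟨c, hc⟩ := Submodule.mem_span_singleton.1 (h2 j hu)
        have hc0 : c ≠ 0 := by
          rintro rfl
          rw [zero_smul] at hc
          exact hu0 hc.symm
        apply h5
        have h8 : ξ j = c⁻¹ • u := by
          rw [← hc, smul_smul, inv_mul_cancel₀ hc0, one_smul]
        rw [h8]
        exact piece_mono hQU j ((piece κ Q j).smul_mem _ hu)
      rw [h6, finrank_bot]
  obtain ⟨A, hA1, hA2⟩ := Finset.exists_subset_card_eq (hQ.trans h4)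
  exact ⟨A, hA2, fun j hj => (Finset.mem_filter.1 (hA1 hj)).2⟩

section

variable {κ L : Type*} [Field κ] [Field L] [Algebra κ L] {n p : ℕ} {d : Fin p → ℕ}
  (X : DatC κ (L := L) n d)

theorem xB_eq_embB (j : Fin p) : xB d j X.x = embB (fun j => xm (d j) X.x) j := rfl

theorem combF_xB (j : Fin p) : combF X (xB d j X.x) = embB (fun j => xi (d j) X.pt) j := by
  classical
  funext s
  obtain ⟨i, K⟩ := s
  show ∑ I : EX (n + 1) (d i), algebraMap κ L (((X.blk i).Kf K).coeff I.1) *
    xB d j X.x ⟨i, I⟩ = _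
  rcases eq_or_ne i j with rfl | hij
  · rw [embB_self]
    have h1 : xi (d i) X.pt K = xi (d i) (X.blk i).p K := by rw [X.blk_p]
    rw [h1, ← (X.blk i).Kf_eval' K]
    refine Eq.trans ?_ (Finset.sum_coe_sort (expo (Fin (n + 1)) (d i))
      (fun I => algebraMap κ L (((X.blk i).Kf K).coeff I) * mon X.x I))
    refine Finset.sum_congr rfl fun I _ => ?_
    rw [xB_eq_embB, embB_self]
    rfl
  · rw [embB_ne _ hij]
    refine Finset.sum_eq_zero fun I _ => ?_
    rw [xB_eq_embB, embB_ne _ hij, mul_zero]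

/-- the passage to the combinations is injective on the combinations of the vectors -/
theorem combF_inj (hp : X.pt ≠ 0) : ∀ u ∈ MP_44a246_ntR.xsp d X.x, combF X u = 0 → u = 0 := by
  intro u hu h0
  unfold MP_44a246_ntR.xsp at hu
  rw [Submodule.mem_span_range_iff_exists_fun] at hu
  obtain ⟨c, rfl⟩ := hu
  rw [map_sum] at h0
  have hc : ∀ j, c j = 0 := by
    intro j
    have h1 : xi (d j) X.pt ≠ 0 := xi_ne_zero hp
    obtain ⟨K, hK⟩ := Function.ne_iff.1 h1
    have h2 : (∑ t, c t • embB (fun j => xi (d j) X.pt) t) ⟨j, K⟩ = 0 := by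
      have h3 : ∑ t, combF X (c t • xB d t X.x) = ∑ t, c t • embB (fun j => xi (d j) X.pt) t :=
        Finset.sum_congr rfl fun t _ => by rw [map_smul, combF_xB]
      rw [← h3, h0]
      rfl
    rw [sum_embB] at h2
    exact (mul_eq_zero.1 h2).resolve_right hK
  refine Finset.sum_eq_zero fun j _ => ?_
  rw [hc j, zero_smul]

/-- the hypothesis about the space of the rows, for the combinations of the derivations -/
theorem finrank_Q {γ : Type*} {β : γ → L} (hp : X.pt ≠ 0) {ρ : ℕ}
    (hQ : ρ ≤ finrank L ((fU X ⊔ fB X β) ⊓ MP_44a246_ntR.xsp d X.x : Submodule L (ES (n + 1) d → L))) :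
    ρ ≤ finrank L (gspan X.jF (Sum.elim X.x β) ⊓
      Submodule.span L (Set.range (embB fun j => xi (d j) X.pt)) :
        Submodule L ((Σ j : Fin p, M3 (d j)) → L)) := by
  set Q := (fU X ⊔ fB X β) ⊓ MP_44a246_ntR.xsp d X.x with hQdef
  have h1 : finrank L (Q.map (combF X)) = finrank L Q := by
    have hinj : Function.Injective ((combF X).domRestrict Q) := by
      rw [← LinearMap.ker_eq_bot, LinearMap.ker_eq_bot']
      intro u hu
      apply Subtype.ext
      exact combF_inj X hp u.1 (Submodule.mem_inf.1 u.2).2 hu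
    have h2 : Q.map (combF X) = LinearMap.range ((combF X).domRestrict Q) := by
      rw [LinearMap.range_domRestrict]
    rw [h2]
    exact LinearMap.finrank_range_of_inj hinj
  rw [← h1] at hQ
  refine hQ.trans (Submodule.finrank_mono (le_inf ?_ ?_))
  · refine (Submodule.map_mono inf_le_left).trans ?_
    have h2 : (fU X).map (combF X) = gspan X.jF X.x := combF_span X X.x
    have h3 : (fB X β).map (combF X) = gspan X.jF β := combF_span X β
    rw [Submodule.map_sup, h2, h3, X.gspan_sum]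
  · refine (Submodule.map_mono inf_le_right).trans ?_
    unfold MP_44a246_ntR.xsp
    rw [Submodule.map_span_le]
    rintro _ ⟨j, rfl⟩
    rw [combF_xB]
    exact Submodule.subset_span ⟨j, rfl⟩

theorem finrank_gspan_le_fU : finrank L (gspan X.jF X.x) ≤ finrank L (fU X) := by
  have h2 : (fU X).map (combF X) = gspan X.jF X.x := combF_span X X.x
  rw [← h2]
  exact Submodule.finrank_map_le _ _

/-- the row of the value of the form of a block which contains the vector of the monomials -/
theorem row_v_mem {γ : Type*} {β : γ → L} {j : Fin p}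
    (h : xi (d j) X.pt ∈ piece κ (gspan X.jF (Sum.elim X.x β)) j) :
    (X.blk j).row (X.blk j).v ∈ (X.blk j).Ux ⊔ RB (X.blk j) β := by
  obtain ⟨u, hu, hu2⟩ := h
  rw [Matrix.mulVecLin_apply, prj_mulVec] at hu2
  have h1 : DatC.res L j u ∈ (gspan X.jF (Sum.elim X.x β)).map (DatC.res L j) := ⟨u, hu.1, rfl⟩
  rw [X.gspan_sum, Submodule.map_sup, X.map_gspan, X.map_gspan] at h1
  have h2 : DatC.res L j u = xi (d j) X.pt := hu2
  rw [h2] at h1
  have h3 : DatC.res L j (X.xiB j) = xi (d j) X.pt := by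
    funext K
    show X.xiB j ⟨j, K⟩ = _
    unfold DatC.xiB
    rw [if_pos rfl]
  have h4 := congrArg (DatC.res L j) (X.xiB_eq j)
  rw [h3, map_sub, map_sum, X.res_grow] at h4
  have h5 : (X.blk j).row (X.v j) = xi (d j) X.pt +
      ∑ l, DatC.res L j (grad (d j) (X.a j) X.x l • grow X.jF (X.x l)) := by
    rw [h4]
    abel
  rw [X.blk_v, h5]
  refine Submodule.add_mem _ h1 (Submodule.sum_mem _ fun l _ => ?_)
  rw [map_smul, X.res_grow]
  exact Submodule.smul_mem _ _ (Submodule.mem_sup_left (Submodule.subset_span ⟨l, rfl⟩))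

end

end Pool.Agent.Lib.MP_44a246_ntC
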