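import Mathlib
import Pool.Agent.Lib.MP_44a246_ntC.C05
import Pool.Agent.Lib.MP_44a246_ntG.G22
import Pool.Agent.Lib.MP_44a246_ntL.LSum

/-!
The local bound for the minors of rows and of logarithmic rows, with weights; the height of the
space spanned by such rows.
-/

namespace Pool.Agent.Lib.MP_44a246_ntC

open Pool.Agent.Lib.MP_44a246_nt
open Pool.Agent.Lib.MP_44a246_ntL
open Pool.Agent.Lib.MP_44a246_ntS
open Pool.Agent.Lib.MP_44a246_ntX
open Pool.Agent.Lib.MP_44a246_ntG
open Pool.Agent.Lib.MP_44a246_ntD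
open Pool.Agent.Lib.MP_44a246_ntZ
open Pool.Agent.Lib.MP_e52354_nt
open WithZero Module Polynomial

private theorem exp_sum {ι : Type*} (s : Finset ι) (f : ι → ℤ) :
    (exp (∑ i ∈ s, f i) : ℤᵐ⁰) = ∏ i ∈ s, exp (f i) := by
  classical
  induction s using Finset.induction_on with
  | empty => rw [Finset.sum_empty, Finset.prod_empty, exp_zero]
  | insert j s hj ih => rw [Finset.sum_insert hj, Finset.prod_insert hj, exp_add, ih]

private theorem exp_le_one' {a : ℤ} (h : a ≤ 0) : (exp a : ℤᵐ⁰) ≤ 1 := by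
  rw [← exp_zero, exp_le_exp]
  exact h

section

variable {κ L : Type*} [Field κ] [Field L] [Algebra κ L] {n d : ℕ} (X : DatG κ (L := L) n d)

/-- one border row -/
theorem det_row_border (w : Place κ L) {e : ℕ} (c q : Fin e → L) {u : L} (hu : u ≠ 0)
    (hu1 : w.1 u ≤ 1) (γ : Fin e → ℤᵐ⁰) (h1 : ∀ i, 1 ≤ γ i) (hc : ∀ i, w.1 (c i) ≤ γ i)
    (hq : ∀ i, w.1 (q i) ≤ γ i) (K : Fin e → M3 d) :
    w.1 u * w.1 (Matrix.of fun i j => X.row (c i) (K j) - q i / u * X.row u (K j)).det ≤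
      (∏ i, γ i ^ 2) * exp ((e * X.δ w + X.ρ w : ℕ) : ℤ) := by
  classical
  set y : Fin (e + 1) → L := Fin.cons u c with hy
  set M : Matrix (Fin (e + 1)) (Fin (e + 1)) L := Matrix.of (Fin.cons
    (Fin.cons u (fun j => X.row u (K j)))
    (fun i => (Fin.cons (q i) (fun j => X.row (c i) (K j)) : Fin (e + 1) → L))) with hM
  have hdet : M.det = u * (Matrix.of fun i j => X.row (c i) (K j) - q i / u *
      X.row u (K j)).det :=
    det_border hu q (fun j => X.row u (K j)) (fun i j => X.row (c i) (K j))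
  have hMs : ∀ i j, M i (Fin.succ j) = X.row (y i) (K j) := by
    intro i j
    refine Fin.cases ?_ (fun i => ?_) i
    · simp [hM, hy]
    · simp [hM, hy]
  set Γ : Fin (e + 1) → ℤᵐ⁰ := Fin.cons 1 γ with hΓ
  have hΓ1 : ∀ i, 1 ≤ Γ i := by
    intro i
    refine Fin.cases ?_ (fun i => ?_) i
    · simp [hΓ]
    · simpa [hΓ] using h1 i
  have hyΓ : ∀ i, w.1 (y i) ≤ Γ i := by
    intro i
    refine Fin.cases ?_ (fun i => ?_) i
    · simpa [hΓ, hy] using hu1
    · simpa [hΓ, hy] using hc i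
  have hM0 : ∀ i, w.1 (M i 0) ≤ Γ i := by
    intro i
    refine Fin.cases ?_ (fun i => ?_) i
    · simpa [hM, hΓ] using hu1
    · simpa [hM, hΓ] using hq i
  have hprod : ∏ i, Γ i ^ 2 = ∏ i, γ i ^ 2 := by
    rw [Fin.prod_univ_succ]
    simp [hΓ]
  rw [← map_mul, ← hdet, Matrix.det_succ_column_zero]
  refine Valuation.map_sum_le w.1 fun i _ => ?_
  rw [map_mul, map_mul, map_pow, Valuation.map_neg, map_one, one_pow, one_mul]
  have h3 : M.submatrix i.succAbove Fin.succ =
      Matrix.of fun i' j => X.row (y (i.succAbove i')) (K j) := by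
    ext i' j
    rw [Matrix.submatrix_apply, hMs, Matrix.of_apply]
  have h4 := X.pl_rows_gen w (fun i' => y (i.succAbove i')) (fun i' => Γ (i.succAbove i'))
    (fun i' => hΓ1 _) (fun i' => hyΓ _)
  have h5 : w.1 (M.submatrix i.succAbove Fin.succ).det ≤
      (∏ i', Γ (i.succAbove i') ^ 2) * exp ((e * X.δ w + X.ρ w : ℕ) : ℤ) := by
    rw [h3]
    exact (le_vmax w.1 (fun K : Fin e → M3 d =>
      (Matrix.of fun i' j => X.row (y (i.succAbove i')) (K j)).det) K).trans h4
  have h6 : w.1 (M i 0) ≤ Γ i ^ 2 := by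
    refine (hM0 i).trans ?_
    rw [sq]
    exact le_mul_of_one_le_left zero_le (hΓ1 i)
  calc w.1 (M i 0) * w.1 (M.submatrix i.succAbove Fin.succ).det ≤
      Γ i ^ 2 * ((∏ i', Γ (i.succAbove i') ^ 2) * exp ((e * X.δ w + X.ρ w : ℕ) : ℤ)) :=
        mul_le_mul' h6 h5
    _ = (∏ i, γ i ^ 2) * exp ((e * X.δ w + X.ρ w : ℕ) : ℤ) := by
      rw [← mul_assoc, ← hprod, ← Fin.prod_univ_succAbove (fun i => Γ i ^ 2) i]

/-- two border rows -/
theorem det_row_border2 (w : Place κ L) {e : ℕ} (c q t : Fin e → L) {u z : L} (hu : u ≠ 0)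
    (hu1 : w.1 u ≤ 1) (hz : z ≠ 0) (hz1 : w.1 z ≤ 1) (γ : Fin e → ℤᵐ⁰) (h1 : ∀ i, 1 ≤ γ i)
    (hc : ∀ i, w.1 (c i) ≤ γ i) (hq : ∀ i, w.1 (q i) ≤ γ i) (ht : ∀ i, w.1 (t i) ≤ γ i)
    (K : Fin e → M3 d) :
    w.1 z * (w.1 u * w.1 (Matrix.of fun i j => X.row (c i) (K j) - q i / u * X.row u (K j) -
      t i / z * X.row z (K j)).det) ≤
      (∏ i, γ i ^ 2) * exp ((e * X.δ w + X.ρ w : ℕ) : ℤ) := by
  classical
  set y : Fin (e + 1) → L := Fin.cons z c with hy
  set q' : Fin (e + 1) → L := Fin.cons 0 q with hq'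
  set M : Matrix (Fin (e + 1)) (Fin (e + 1)) L := Matrix.of (Fin.cons
    (Fin.cons z (fun j => X.row z (K j)))
    (fun i => (Fin.cons (t i) (fun j => X.row (c i) (K j) - q i / u * X.row u (K j)) :
      Fin (e + 1) → L))) with hM
  have hdet : M.det = z * (Matrix.of fun i j => X.row (c i) (K j) - q i / u * X.row u (K j) -
      t i / z * X.row z (K j)).det :=
    det_border hz t (fun j => X.row z (K j)) (fun i j => X.row (c i) (K j) - q i / u *
      X.row u (K j))
  have hMs : ∀ i j, M i (Fin.succ j) = X.row (y i) (K j) - q' i / u * X.row u (K j) := by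
    intro i j
    refine Fin.cases ?_ (fun i => ?_) i
    · simp [hM, hy, hq']
    · simp [hM, hy, hq']
  set Γ : Fin (e + 1) → ℤᵐ⁰ := Fin.cons 1 γ with hΓ
  have hΓ1 : ∀ i, 1 ≤ Γ i := by
    intro i
    refine Fin.cases ?_ (fun i => ?_) i
    · simp [hΓ]
    · simpa [hΓ] using h1 i
  have hyΓ : ∀ i, w.1 (y i) ≤ Γ i := by
    intro i
    refine Fin.cases ?_ (fun i => ?_) i
    · simpa [hΓ, hy] using hz1
    · simpa [hΓ, hy] using hc i
  have hqΓ : ∀ i, w.1 (q' i) ≤ Γ i := by
    intro i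
    refine Fin.cases ?_ (fun i => ?_) i
    · simp [hΓ, hq']
    · simpa [hΓ, hq'] using hq i
  have hM0 : ∀ i, w.1 (M i 0) ≤ Γ i := by
    intro i
    refine Fin.cases ?_ (fun i => ?_) i
    · simpa [hM, hΓ] using hz1
    · simpa [hM, hΓ] using ht i
  have hprod : ∏ i, Γ i ^ 2 = ∏ i, γ i ^ 2 := by
    rw [Fin.prod_univ_succ]
    simp [hΓ]
  rw [mul_left_comm, ← map_mul, ← hdet, Matrix.det_succ_column_zero, ← map_mul, Finset.mul_sum]
  refine Valuation.map_sum_le w.1 fun i _ => ?_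
  rw [map_mul, map_mul, map_mul, map_pow, Valuation.map_neg, map_one, one_pow, one_mul]
  have h3 : M.submatrix i.succAbove Fin.succ =
      Matrix.of fun i' j => X.row (y (i.succAbove i')) (K j) -
        q' (i.succAbove i') / u * X.row u (K j) := by
    ext i' j
    rw [Matrix.submatrix_apply, hMs, Matrix.of_apply]
  have h4 := det_row_border X w (fun i' => y (i.succAbove i')) (fun i' => q' (i.succAbove i'))
    hu hu1 (fun i' => Γ (i.succAbove i'))
    (fun i' => hΓ1 _) (fun i' => hyΓ _) (fun i' => hqΓ _) K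
  rw [← h3] at h4
  have h6 : w.1 (M i 0) ≤ Γ i ^ 2 := by
    refine (hM0 i).trans ?_
    rw [sq]
    exact le_mul_of_one_le_left zero_le (hΓ1 i)
  calc w.1 u * (w.1 (M i 0) * w.1 (M.submatrix i.succAbove Fin.succ).det) =
      w.1 (M i 0) * (w.1 u * w.1 (M.submatrix i.succAbove Fin.succ).det) := by
        rw [mul_left_comm]
    _ ≤ Γ i ^ 2 * ((∏ i', Γ (i.succAbove i') ^ 2) * exp ((e * X.δ w + X.ρ w : ℕ) : ℤ)) :=
        mul_le_mul' h6 h4
    _ = (∏ i, γ i ^ 2) * exp ((e * X.δ w + X.ρ w : ℕ) : ℤ) := by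
      rw [← mul_assoc, ← hprod, ← Fin.prod_univ_succAbove (fun i => Γ i ^ 2) i]

/-- the local bound for combinations -/
theorem pl_comb (w : Place κ L) {e : ℕ} (c q t α : Fin e → L) {u z : L} (hu : u ≠ 0)
    (hu1 : w.1 u ≤ 1) (hz : z ≠ 0) (hz1 : w.1 z ≤ 1) (γ : Fin e → ℤᵐ⁰) (h1 : ∀ i, 1 ≤ γ i)
    (hc : ∀ i, w.1 (c i) ≤ γ i) (hq : ∀ i, w.1 (q i) ≤ γ i) (ht : ∀ i, w.1 (t i) ≤ γ i)
    (hα : ∀ i, α i ≠ 0) {b : Fin e → M3 d → L}
    (hb : ∀ i K, α i * b i K = X.row (c i) K - q i / u * X.row u K - t i / z * X.row z K) :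
    w.1 z * (w.1 u * (w.1 (∏ i, α i) * pl w.1 b)) ≤
      (∏ i, γ i ^ 2) * exp ((e * X.δ w + X.ρ w : ℕ) : ℤ) := by
  have hvu : w.1 u ≠ 0 := (Valuation.ne_zero_iff _).2 hu
  have hvz : w.1 z ≠ 0 := (Valuation.ne_zero_iff _).2 hz
  have hvα : w.1 (∏ i, α i) ≠ 0 :=
    (Valuation.ne_zero_iff _).2 (Finset.prod_ne_zero_iff.2 fun i _ => hα i)
  set c₀ := (w.1 z * (w.1 u * w.1 (∏ i, α i))) with hc₀
  have hc₀0 : c₀ ≠ 0 := mul_ne_zero hvz (mul_ne_zero hvu hvα)
  have key : ∀ K : Fin e → M3 d, w.1 z * (w.1 u * (w.1 (∏ i, α i) *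
      w.1 (Matrix.of fun i j => b i (K j)).det)) ≤
        (∏ i, γ i ^ 2) * exp ((e * X.δ w + X.ρ w : ℕ) : ℤ) := by
    intro K
    have h2 := det_row_border2 X w c q t hu hu1 hz hz1 γ h1 hc hq ht K
    have h3 : (Matrix.of fun i j => X.row (c i) (K j) - q i / u * X.row u (K j) -
      t i / z * X.row z (K j)) =
        Matrix.of fun i j => α i * (Matrix.of fun i j => b i (K j)) i j := by
      ext i j
      rw [Matrix.of_apply, Matrix.of_apply, Matrix.of_apply, hb]
    rw [h3, Matrix.det_mul_column, map_mul] at h2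
    exact h2
  unfold pl
  have h3 : vmax w.1 (fun K : Fin e → M3 d => (Matrix.of fun i j => b i (K j)).det) ≤
      c₀⁻¹ * ((∏ i, γ i ^ 2) * exp ((e * X.δ w + X.ρ w : ℕ) : ℤ)) := by
    refine vmax_le w.1 fun K => ?_
    have h4 := key K
    calc w.1 (Matrix.of fun i j => b i (K j)).det =
        c₀⁻¹ * (c₀ * w.1 (Matrix.of fun i j => b i (K j)).det) := by
          rw [← mul_assoc, inv_mul_cancel₀ hc₀0, one_mul]
      _ ≤ _ := by
          refine mul_le_mul_right ?_ _
          rw [hc₀]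
          simpa only [mul_assoc] using h4
  calc w.1 z * (w.1 u * (w.1 (∏ i, α i) *
      vmax w.1 (fun K : Fin e → M3 d => (Matrix.of fun i j => b i (K j)).det))) =
      c₀ * vmax w.1 (fun K : Fin e → M3 d => (Matrix.of fun i j => b i (K j)).det) := by
        rw [hc₀]
        simp only [mul_assoc]
    _ ≤ c₀ * (c₀⁻¹ * ((∏ i, γ i ^ 2) * exp ((e * X.δ w + X.ρ w : ℕ) : ℤ))) :=
        mul_le_mul_right h3 _
    _ = _ := by rw [← mul_assoc, mul_inv_cancel₀ hc₀0, one_mul]

/-- the row after a scaling by a power -/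
theorem row_scale {u : L} (hu : u ≠ 0) (k : ℕ) (c : L) (K : M3 d) :
    u ^ k * X.row c K = X.row (u ^ k * c) K - (k * (u ^ k * c)) / u * X.row u K := by
  have h3 : X.row (u ^ k * c) K = u ^ k * X.row c K + c * X.row (u ^ k) K := by
    rw [X.row_mul]
    simp only [Pi.add_apply, Pi.smul_apply, smul_eq_mul]
  rw [h3, row_pow X u k K]
  rcases Nat.eq_zero_or_pos k with h0 | h0
  · rw [h0]
    simp
  · have h4 : u ^ k = u * u ^ (k - 1) := by
      rw [← pow_succ', Nat.sub_add_cancel h0]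
    rw [h4]
    field_simp
    ring

/-- the logarithmic row after a scaling by a power -/
theorem lrow_scale {z η η' : L} (hz : z ≠ 0) (hη' : η' ≠ 0) (k : ℤ) (h : η = η' * z ^ k)
    (K : M3 d) :
    η' * X.lrow η K = X.row η' K - 0 * X.row z K - (- (k * η')) / z * X.row z K := by
  have h1 : X.lrow η = X.lrow η' + (k : L) • X.lrow z := by
    rw [h, X.lrow_mul hη' (zpow_ne_zero _ hz), X.lrow_zpow hz]
  rw [h1]
  simp only [DatG.lrow, Pi.add_apply, Pi.smul_apply, smul_eq_mul]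
  field_simp
  ring

/-- the data of a row in a combination, with the scalings `u` and `z` -/
structure RowC (w : Place κ L) (u z : L) (b : M3 d → L) (γ : ℤᵐ⁰) (v : ℤ) where
  /-- the element -/
  c : L
  /-- the coefficient of the first border row -/
  q : L
  /-- the coefficient of the second border row -/
  t : L
  /-- the scaling -/
  α : L
  hα : α ≠ 0
  hc : w.1 c ≤ γ
  hq : w.1 q ≤ γ
  ht : w.1 t ≤ γ
  hv : w.1 α = exp (- v)
  hb : ∀ K, α * b K = X.row c K - q / u * X.row u K - t / z * X.row z K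

/-- the local bound for combinations, with logarithms -/
theorem log_pl_le (w : Place κ L) {e : ℕ} {u z : L} (hu : u ≠ 0) {a : ℤ} (ha0 : 0 ≤ a)
    (hua : w.1 u = exp (- a)) (hz : z ≠ 0) {a' : ℤ} (ha0' : 0 ≤ a') (hza : w.1 z = exp (- a'))
    {b : Fin e → M3 d → L} (hb0 : pl w.1 b ≠ 0) {G v : Fin e → ℤ} (hG : ∀ i, 0 ≤ G i)
    (hR : ∀ i, Nonempty (RowC X w u z (b i) (exp (G i)) (v i))) :
    log (pl w.1 b) ≤ a + a' + ∑ i, v i + ∑ i, 2 * G i + ((e * X.δ w + X.ρ w : ℕ) : ℤ) := by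
  classical
  have R := fun i => Classical.choice (hR i)
  have hle : ∀ x : ℤ, 0 ≤ x → (exp (- x) : ℤᵐ⁰) ≤ 1 := by
    intro x hx
    exact exp_le_one' (by linarith)
  have h3 := pl_comb X w (fun i => (R i).c) (fun i => (R i).q) (fun i => (R i).t)
    (fun i => (R i).α) hu (by rw [hua]; exact hle a ha0) hz (by rw [hza]; exact hle a' ha0')
    (fun i => exp (G i)) (fun i => by rw [← exp_zero, exp_le_exp]; exact hG i)
    (fun i => (R i).hc) (fun i => (R i).hq) (fun i => (R i).ht) (fun i => (R i).hα)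
    (fun i K => (R i).hb K)
  have h4 : ∏ i, (exp (G i) : ℤᵐ⁰) ^ 2 = exp (∑ i, 2 * G i) := by
    rw [exp_sum]
    refine Finset.prod_congr rfl fun i _ => ?_
    rw [← exp_nsmul, nsmul_eq_mul]
    rfl
  have h5 : w.1 (∏ i, (R i).α) = exp (∑ i, - v i) := by
    rw [exp_sum, map_prod]
    exact Finset.prod_congr rfl fun i _ => (R i).hv
  rw [h4, h5, hua, hza, ← exp_add, ← mul_assoc (exp (-a)), ← mul_assoc, ← exp_add, ← exp_add,
    Finset.sum_neg_distrib] at h3
  rw [log_le_iff_le_exp hb0]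
  have h6 : (exp (a + a' + ∑ i, v i) : ℤᵐ⁰) * exp (-a' + (-a + - ∑ i, v i)) = 1 := by
    rw [← exp_add, show a + a' + ∑ i, v i + (-a' + (-a + - ∑ i, v i)) = 0 by ring, exp_zero]
  calc pl w.1 b = exp (a + a' + ∑ i, v i) * (exp (-a' + (-a + - ∑ i, v i)) * pl w.1 b) := by
        rw [← mul_assoc, h6, one_mul]
    _ ≤ exp (a + a' + ∑ i, v i) * exp (∑ i, 2 * G i + ((e * X.δ w + X.ρ w : ℕ) : ℤ)) :=
        mul_le_mul_right h3 _
    _ = _ := by rw [← exp_add]; congr 1; ring

end

section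

variable {κ L : Type*} [Field κ] [IsAlgClosed κ] [CharZero κ] [Field L] [Algebra κ L] {n d : ℕ}
  (X : DatG κ (L := L) n d)

omit [IsAlgClosed κ] [CharZero κ] in
/-- **The local bound** for the rows and logarithmic rows. -/
theorem log_pl_rows (w : Place κ L) {γ Λ : Type*} (c : Option γ → L) (k : γ → ℕ)
    (hk : ∀ t, k t ≤ 2) {u : L} {a g : ℤ} (ha0 : 0 ≤ a) (hg0 : 0 ≤ g)
    (hu : w.1 u = exp (- a)) (h1 : ∀ t, w.1 (u ^ k t * c (some t)) ≤ exp g)
    (h2 : w.1 (c none) ≤ vmax w.1 X.x) {η : Λ → L} (hη : ∀ k, η k ≠ 0) {t : Λ → ℕ} {ε : ℕ}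
    (hηε : (∀ k, w.1 (η k) = vmax w.1 X.x ^ t k) ∨ 1 ≤ ε) {e : ℕ} (s : Fin e → Option γ ⊕ Λ)
    (hs : Function.Injective s)
    (hb : pl w.1 (fun i => Sum.elim (fun t => X.row (c t)) (fun k => X.lrow (η k)) (s i)) ≠ 0) :
    log (pl w.1 (fun i => Sum.elim (fun t => X.row (c t)) (fun k => X.lrow (η k)) (s i))) ≤
      (2 * e + 1 : ℤ) * a + (e : ℤ) * (2 * g) + 2 * log (vmax w.1 X.x) +
        ((e : ℤ) * (X.δ w : ℤ) + ((X.ρ w : ℤ) + ε)) := by
  classical
  have hu0 : u ≠ 0 := by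
    intro h0
    rw [h0, map_zero] at hu
    exact exp_ne_zero hu.symm
  have hx0 : vmax w.1 X.x ≠ 0 := by
    rw [Ne, vmax_eq_zero_iff]
    exact X.x_ne_zero
  have hlog0 : 0 ≤ log (vmax w.1 X.x) := by
    rw [le_log_iff_exp_le hx0, exp_zero]
    exact X.one_le_vmax w
  obtain ⟨l, hl⟩ : ∃ l : ℕ, log (vmax w.1 X.x) = l := ⟨_, (Int.toNat_of_nonneg hlog0).symm⟩
  have hvx : vmax w.1 X.x = exp (l : ℤ) := by rw [← hl, exp_log hx0]
  -- the scaling `z`
  obtain ⟨z, a', hz0, ha0', hza, hz⟩ : ∃ (z : L) (a' : ℤ), z ≠ 0 ∧ 0 ≤ a' ∧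
      w.1 z = exp (- a') ∧ ((a' = 0 ∧ z = 1 ∧ l = 0 ∧ ∀ k, w.1 (η k) = 1) ∨
        (a' = 1 ∧ (1 ≤ l ∨ 1 ≤ ε))) := by
    by_cases hc : l = 0 ∧ ∀ k, w.1 (η k) = 1
    · exact ⟨1, 0, one_ne_zero, le_rfl, by rw [map_one, neg_zero, exp_zero],
        Or.inl ⟨rfl, rfl, hc.1, hc.2⟩⟩
    · obtain ⟨π, hπ0, hπ⟩ := exists_pi w
      refine ⟨π, 1, hπ0, zero_le_one, hπ, Or.inr ⟨rfl, ?_⟩⟩
      by_contra hcon
      push Not at hcon
      apply hc
      have hl0 : l = 0 := by omega
      refine ⟨hl0, fun k => ?_⟩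
      rcases hηε with h3 | h3
      · rw [h3 k, hvx, hl0, Nat.cast_zero, exp_zero, one_pow]
      · omega
  -- the values
  let G : Fin e → ℤ := fun i => Sum.elim (fun o : Option γ => o.elim 0 fun _ => g) (fun _ => 0)
    (s i)
  let v : Fin e → ℤ := fun i => Sum.elim (fun o : Option γ => o.elim (a' * l) fun t => k t * a)
    (fun _ => 0) (s i)
  have hG0 : ∀ i, 0 ≤ G i := by
    intro i
    simp only [G]
    rcases s i with (_ | t) | k
    · exact le_rfl
    · exact hg0
    · exact le_rfl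
  have hG : ∑ i, 2 * G i ≤ e * (2 * g) := by
    refine (Finset.sum_le_sum (g := fun _ => 2 * g) fun i _ => ?_).trans (le_of_eq ?_)
    · simp only [G]
      rcases s i with (_ | t) | k
      · simp only [Sum.elim_inl, Option.elim_none]
        linarith
      · exact le_rfl
      · simp only [Sum.elim_inr]
        linarith
    · rw [Finset.sum_const, Finset.card_univ, Fintype.card_fin, nsmul_eq_mul]
  have hv : ∑ i, v i ≤ 2 * e * a + a' * l := by
    have h3 : ∀ i, v i ≤ 2 * a + if s i = Sum.inl none then a' * l else 0 := by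
      intro i
      simp only [v]
      have hal : 0 ≤ a' * (l : ℤ) := by positivity
      rcases hi : s i with (_ | t) | k
      · simp only [Sum.elim_inl, Option.elim_none, if_true]
        linarith
      · have h4 : (k t : ℤ) ≤ 2 := by exact_mod_cast hk t
        have h5 := mul_le_mul_of_nonneg_right h4 ha0
        simp only [Sum.elim_inl, Option.elim_some, Sum.inl.injEq, reduceCtorEq, if_false, add_zero]
        exact h5
      · simp only [Sum.elim_inr, reduceCtorEq, if_false, add_zero]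
        linarith
    refine (Finset.sum_le_sum fun i _ => h3 i).trans ?_
    rw [Finset.sum_add_distrib, Finset.sum_const, Finset.card_univ, Fintype.card_fin, nsmul_eq_mul]
    have h4 : ∑ i : Fin e, (if s i = Sum.inl none then a' * (l : ℤ) else 0) ≤ a' * l := by
      rw [← Finset.sum_filter, Finset.sum_const, nsmul_eq_mul]
      have h5 : (Finset.univ.filter fun i : Fin e => s i = Sum.inl none).card ≤ 1 := by
        rw [Finset.card_le_one]
        intro i hi j hj
        rw [Finset.mem_filter] at hi hj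
        exact hs (hi.2.trans hj.2.symm)
      have h6 : (((Finset.univ.filter fun i : Fin e => s i = Sum.inl none).card : ℕ) : ℤ) ≤ 1 := by
        exact_mod_cast h5
      have h7 := mul_le_mul_of_nonneg_right h6 (show 0 ≤ a' * (l : ℤ) by positivity)
      linarith
    linarith
  have hmain := log_pl_le X w hu0 ha0 hu hz0 ha0' hza hb (G := G) (v := v) hG0 fun i => ?_
  · have h8 : a' + a' * (l : ℤ) ≤ 2 * l + ε := by
      have he : (0 : ℤ) ≤ ε := Int.natCast_nonneg _
      have hl' : (0 : ℤ) ≤ l := Int.natCast_nonneg _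
      rcases hz with ⟨h9, -, -, -⟩ | ⟨h9, h10⟩
      · rw [h9]
        linarith
      · rw [h9]
        rcases h10 with h10 | h10
        · have : (1 : ℤ) ≤ l := by exact_mod_cast h10
          linarith
        · have : (1 : ℤ) ≤ ε := by exact_mod_cast h10
          linarith
    rw [hl]
    push_cast at hmain
    linarith
  · -- the data of the rows
    have hvz : w.1 z ≠ 0 := (Valuation.ne_zero_iff _).2 hz0
    simp only [G, v]
    rcases s i with (_ | t') | k'
    · -- the coordinate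
      simp only [Sum.elim_inl, Option.elim_none]
      have hc1 : w.1 (z ^ l * c none) ≤ exp 0 := by
        rw [map_mul, map_pow, hza, exp_zero]
        rcases hz with ⟨h9, -, h11, -⟩ | ⟨h9, -⟩
        · rw [h11, pow_zero, one_mul]
          refine h2.trans ?_
          rw [hvx, h11, Nat.cast_zero, exp_zero]
        · rw [h9, ← exp_nsmul]
          calc exp (l • (-1 : ℤ)) * w.1 (c none) ≤ exp (l • (-1 : ℤ)) * exp (l : ℤ) := by
                rw [← hvx]
                exact mul_le_mul_right h2 _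
            _ = 1 := by rw [← exp_add, nsmul_eq_mul, mul_neg_one, neg_add_cancel, exp_zero]
      refine ⟨⟨z ^ l * c none, 0, l * (z ^ l * c none), z ^ l, pow_ne_zero _ hz0, hc1, ?_, ?_, ?_,
        fun K => ?_⟩⟩
      · rw [map_zero]
        exact zero_le
      · rw [map_mul]
        calc w.1 (l : L) * w.1 (z ^ l * c none) ≤ 1 * exp 0 :=
              mul_le_mul' (natCast_mem w.1.integer _) hc1
          _ = exp 0 := one_mul _
      · rw [map_pow, hza, ← exp_nsmul, nsmul_eq_mul, mul_neg]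
        congr 2
        ring
      · rw [row_scale X hz0 l (c none) K, zero_div, zero_mul, sub_zero]
    · -- the coefficients
      simp only [Sum.elim_inl, Option.elim_some]
      refine ⟨⟨u ^ k t' * c (some t'), k t' * (u ^ k t' * c (some t')), 0, u ^ k t',
        pow_ne_zero _ hu0, h1 t', ?_, ?_, ?_, fun K => ?_⟩⟩
      · rw [map_mul]
        calc w.1 (k t' : L) * w.1 (u ^ k t' * c (some t')) ≤ 1 * exp g :=
              mul_le_mul' (natCast_mem w.1.integer _) (h1 t')
          _ = exp g := one_mul _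
      · rw [map_zero]
        exact zero_le
      · rw [map_pow, hu, ← exp_nsmul, nsmul_eq_mul, mul_neg]
      · rw [row_scale X hu0 (k t') (c (some t')) K, zero_div, zero_mul, sub_zero]
    · -- the logarithmic rows
      simp only [Sum.elim_inr]
      rcases hz with ⟨-, h10, -, h11⟩ | ⟨h9, -⟩
      · refine ⟨⟨η k', 0, 0, η k', hη k', ?_, ?_, ?_, ?_, fun K => ?_⟩⟩
        · rw [h11, exp_zero]
        · rw [map_zero]
          exact zero_le
        · rw [map_zero]
          exact zero_le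
        · rw [h11, neg_zero, exp_zero]
        · rw [DatG.lrow, Pi.smul_apply, smul_eq_mul, ← mul_assoc, mul_inv_cancel₀ (hη k'), one_mul,
            zero_div, zero_mul, sub_zero, zero_div, zero_mul, sub_zero]
      · have hwk : w.1 (η k') ≠ 0 := (Valuation.ne_zero_iff _).2 (hη k')
        set m : ℤ := - log (w.1 (η k')) with hm
        have hzm : z ^ m ≠ 0 := zpow_ne_zero _ hz0
        have hwz : w.1 (z ^ m) = w.1 (η k') := by
          rw [map_zpow₀, hza, h9, ← exp_zsmul, smul_eq_mul, mul_neg, mul_one, hm, neg_neg,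
            exp_log hwk]
        set η' : L := η k' * (z ^ m)⁻¹ with hη'
        have hη'0 : η' ≠ 0 := mul_ne_zero (hη k') (inv_ne_zero hzm)
        have hη'1 : w.1 η' = 1 := by
          rw [hη', map_mul, map_inv₀, hwz, mul_inv_cancel₀ hwk]
        have hηη : η k' = η' * z ^ m := by
          rw [hη', mul_assoc, inv_mul_cancel₀ hzm, mul_one]
        refine ⟨⟨η', 0, -(m * η'), η', hη'0, ?_, ?_, ?_, ?_, fun K => ?_⟩⟩
        · rw [hη'1, exp_zero]
        · rw [map_zero]
          exact zero_le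
        · rw [Valuation.map_neg, map_mul, hη'1, mul_one, exp_zero]
          exact int_le_one w _
        · rw [hη'1, neg_zero, exp_zero]
        · rw [lrow_scale X hz0 hη'0 m hηη K, zero_div, zero_mul, zero_mul]

/-- **The height of a space spanned by rows and logarithmic rows**, with weights. -/
theorem ht_span_row_log (h : IsFF κ L) {γ Λ : Type*} [Fintype γ] [Fintype Λ] (c : Option γ → L)
    (k : γ → ℕ) (hk : ∀ t, k t ≤ 2) {u : Place κ L → L} {a g : Place κ L → ℤ}
    (ha : (Function.support a).Finite) (hg : (Function.support g).Finite)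
    (ha0 : ∀ w, 0 ≤ a w) (hg0 : ∀ w, 0 ≤ g w) (hu : ∀ w, w.1 (u w) = exp (- a w))
    (h1 : ∀ t w, w.1 (u w ^ k t * c (some t)) ≤ exp (g w))
    (h2 : ∀ w : Place κ L, w.1 (c none) ≤ vmax w.1 X.x) {η : Λ → L} (hη : ∀ k, η k ≠ 0) {t : Λ → ℕ}
    {ε : Place κ L → ℕ} (hε : (Function.support ε).Finite)
    (hηε : ∀ w : Place κ L, (∀ k, w.1 (η k) = vmax w.1 X.x ^ t k) ∨ 1 ≤ ε w)
    {V : Submodule L (M3 d → L)}
    (hV : V = Submodule.span L (Set.range fun o : Option γ ⊕ Λ =>
      Sum.elim (fun t => X.row (c t)) (fun k => X.lrow (η k)) o)) :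
    ht κ V ≤ finrank L V * (2 * ∑ᶠ w, a w + 2 * ∑ᶠ w, g w + X.Δ) + ∑ᶠ w, a w +
      2 * height κ X.x + (X.R + ∑ᶠ w, (ε w : ℤ)) := by
  classical
  obtain ⟨τ, σ', hσ', hsp, hli⟩ := exists_linearIndependent' L (fun o : Option γ ⊕ Λ =>
      Sum.elim (fun t => X.row (c t)) (fun k => X.lrow (η k)) o)
  have : Finite τ := Finite.of_injective σ' hσ'
  have : Fintype τ := Fintype.ofFinite τ
  set e := Fintype.card τ with he
  set σ : Fin e → Option γ ⊕ Λ := fun i => σ' ((Fintype.equivFin τ).symm i) with hσ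
  have hσi : Function.Injective σ := hσ'.comp (Fintype.equivFin τ).symm.injective
  set b : Fin e → M3 d → L := fun i => Sum.elim (fun t => X.row (c t)) (fun k => X.lrow (η k))
    (σ i) with hb
  have hai : LinearIndependent L b := hli.comp _ (Fintype.equivFin τ).symm.injective
  have has : Submodule.span L (Set.range b) = V := by
    have h1 : Set.range b = Set.range ((fun o : Option γ ⊕ Λ =>
      Sum.elim (fun t => X.row (c t)) (fun k => X.lrow (η k)) o) ∘ σ') := by
      ext y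
      constructor
      · rintro ⟨i, rfl⟩
        exact ⟨_, rfl⟩
      · rintro ⟨t, rfl⟩
        refine ⟨Fintype.equivFin τ t, ?_⟩
        simp [hb, hσ]
    rw [h1, hsp, hV]
  have hev : finrank L V = e := by
    have h1 := finrank_span_eq_card hai
    rw [has, Fintype.card_fin] at h1
    exact h1
  have hloc : ∀ w : Place κ L, log (pl w.1 b) ≤
      ((2 * e + 1 : ℤ) * a w + ((e : ℤ) * (2 * g w) + 2 * log (vmax w.1 X.x))) +
        ((e : ℤ) * (X.δ w : ℤ) + ((X.ρ w : ℤ) + (ε w : ℤ))) := by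
    intro w
    have n1 : pl w.1 b ≠ 0 := pl_ne_zero w.1 hai
    have h3 := log_pl_rows X w c k hk (ha0 w) (hg0 w) (hu w) (fun t => h1 t w) (h2 w) hη (hηε w)
      σ hσi n1
    refine h3.trans (le_of_eq ?_)
    ring
  have s1 := pl_support h hai
  have s0 : (Function.support fun w : Place κ L => (2 * e + 1 : ℤ) * a w).Finite := by
    refine ha.subset fun w hw h1 => hw ?_
    simp only at h1 ⊢
    rw [h1, mul_zero]
  have s2 : (Function.support fun w : Place κ L => (e : ℤ) * (2 * g w)).Finite := by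
    refine hg.subset fun w hw h1 => hw ?_
    simp only at h1 ⊢
    rw [h1, mul_zero, mul_zero]
  have s3 : (Function.support fun w : Place κ L => 2 * log (vmax w.1 X.x)).Finite := by
    refine (h.vmax_support X.x_ne_zero).subset fun w hw h1 => hw ?_
    simp only at h1 ⊢
    rw [h1, mul_zero]
  have s4 : (Function.support fun w : Place κ L => (e : ℤ) * (X.δ w : ℤ)).Finite := by
    refine X.hδ.subset fun w hw h1 => hw ?_
    simp only at h1 ⊢
    rw [h1, Nat.cast_zero, mul_zero]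
  have s5 : (Function.support fun w : Place κ L => (X.ρ w : ℤ)).Finite := by
    refine X.hρ.subset fun w hw h1 => hw ?_
    simp only at h1 ⊢
    rw [h1, Nat.cast_zero]
  have s6 : (Function.support fun w : Place κ L => (ε w : ℤ)).Finite := by
    refine hε.subset fun w hw h1 => hw ?_
    simp only at h1 ⊢
    rw [h1, Nat.cast_zero]
  have s23 := (s2.union s3).subset (Function.support_add _ _)
  have s023 := (s0.union s23).subset (Function.support_add _ _)
  have s56 := (s5.union s6).subset (Function.support_add _ _)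
  have s456 := (s4.union s56).subset (Function.support_add _ _)
  have hmain := finsum_mono s1 ((s023.union s456).subset (Function.support_add _ _)) hloc
  rw [finsum_add_distrib s023 s456, finsum_add_distrib s0 s23, finsum_add_distrib s2 s3,
    finsum_add_distrib s4 s56, finsum_add_distrib s5 s6] at hmain
  have e1 : ∑ᶠ w : Place κ L, log (pl w.1 b) = ht κ V := by
    rw [← ht_span h hai, has]
  have e0 : ∑ᶠ w : Place κ L, (2 * e + 1 : ℤ) * a w = (2 * e + 1) * ∑ᶠ w, a w :=
    (mul_finsum _ _).symm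
  have e2 : ∑ᶠ w : Place κ L, (e : ℤ) * (2 * g w) = e * (2 * ∑ᶠ w, g w) := by
    rw [← mul_finsum, ← mul_finsum]
  have e3 : ∑ᶠ w : Place κ L, 2 * log (vmax w.1 X.x) = 2 * height κ X.x := (mul_finsum _ _).symm
  have e4 : ∑ᶠ w : Place κ L, (e : ℤ) * (X.δ w : ℤ) = (e : ℤ) * X.Δ := (mul_finsum _ _).symm
  have e5 : ∑ᶠ w : Place κ L, (X.ρ w : ℤ) = X.R := rfl
  rw [e1, e0, e2, e3, e4, e5] at hmain
  rw [hev]
  linarith

end

end Pool.Agent.Lib.MP_44a246_ntC
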