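import Mathlib
import Pool.Agent.Lib.MP_44a246_ntC.C23

/-!
The height theorem in one block, with logarithmic rows: the height of the curve.
-/

namespace Pool.Agent.Lib.MP_44a246_ntC

open Pool.Agent.Lib.MP_44a246_nt
open Pool.Agent.Lib.MP_44a246_ntL
open Pool.Agent.Lib.MP_44a246_ntS
open Pool.Agent.Lib.MP_44a246_ntX
open Pool.Agent.Lib.MP_44a246_ntG
open Pool.Agent.Lib.MP_44a246_ntD
open Pool.Agent.Lib.MP_44a246_ntZ
open Pool.Agent.Lib.MP_e52354_nt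
open WithZero Module Polynomial

variable {κ L : Type*} [Field κ] [IsAlgClosed κ] [CharZero κ] [Field L] [Algebra κ L]

private theorem exp_le_one' {a : ℤ} (h : a ≤ 0) : (exp a : ℤᵐ⁰) ≤ 1 := by
  rw [← exp_zero, exp_le_exp]
  exact h

/-- **The height of the space of the rows and of the logarithmic rows.** -/
theorem ht_VJBL_le {n d b : ℕ} (X : DatG κ (L := L) n d) {A : L[X][X]} (hA : CrvG X b A)
    (h : IsFF κ L) {J : Finset (Fin (n + 1))} {γ Λ : Type*} [Finite γ] [Finite Λ] {β : γ → L}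
    (hβ : ∀ t, ∀ w : Place κ L, w.1 (β t) ≤ 1) {η : Λ → L} (hη : ∀ k, η k ≠ 0) {t : Λ → ℕ}
    {ε : Place κ L → ℕ} (hε : (Function.support ε).Finite)
    (hηε : ∀ w : Place κ L, (∀ k, w.1 (η k) = vmax w.1 X.x ^ t k) ∨ 1 ≤ ε w) {N : ℕ}
    (hN : finrank L (X.VJ J b A ⊔ (RB X β ⊔ LB X η) : Submodule L (M3 d → L)) ≤ N) :
    ht κ (X.VJ J b A ⊔ (RB X β ⊔ LB X η)) ≤
      N * (2 * gh κ A + 3 * X.Δ) + gh κ A + 2 * height κ X.x + (X.R + ∑ᶠ w, (ε w : ℤ)) := by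
  have := Fintype.ofFinite γ
  have := Fintype.ofFinite Λ
  have hA0 : A ≠ 0 := hA.irr.ne_zero
  have hα : 0 ≤ gh κ A := gh_nonneg h hA0
  have hΔ := X.Δ_nonneg
  have s0 := gg_support h hA0
  have s2 : (Function.support fun w : Place κ L => (X.δ w : ℤ)).Finite := by
    refine X.hδ.subset fun w hw h1 => hw ?_
    simp only at h1 ⊢
    rw [h1, Nat.cast_zero]
  have hlog : ∀ w : Place κ L, 0 ≤ log (gg w.1 A) := by
    intro w
    rw [le_log_iff_exp_le ((gg_eq_zero w.1).not.2 hA0), exp_zero]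
    exact one_le_gg hA.one w
  choose u hu1 hu2 using fun w => exists_scale X hA w
  have hule : ∀ w : Place κ L, w.1 (u w) ≤ 1 := by
    intro w
    rw [hu1 w]
    exact exp_le_one' (by have := hlog w; linarith)
  let ex : (Option ↥J × Fin (b + 1) × Fin (b + 1)) ⊕ γ → L := Sum.elim
    (fun t => ((t.1.elim A (fun k => X.B A k.1)).coeff t.2.1).coeff t.2.2) β
  have hV : X.VJ J b A ⊔ (RB X β ⊔ LB X η) = Submodule.span L (Set.range
      fun o : Option ((Option ↥J × Fin (b + 1) × Fin (b + 1)) ⊕ γ) ⊕ Λ =>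
        Sum.elim (fun t => X.row (t.elim X.y₁ ex)) (fun k => X.lrow (η k)) o) := by
    rw [Submodule.span_range_eq_iSup, iSup_sum, iSup_option, iSup_sum]
    unfold DatG.VJ RB LB
    rw [Finset.sup_univ_eq_iSup, Submodule.span_range_eq_iSup, Submodule.span_range_eq_iSup]
    have hsup : ∀ a b c e : Submodule L (M3 d → L), (a ⊔ b) ⊔ (c ⊔ e) = (b ⊔ (a ⊔ c)) ⊔ e := by
      intro a b c e
      rw [← sup_assoc, sup_comm a b, sup_assoc b a c]
    exact hsup _ _ _ _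
  have hmain := ht_span_row_log X h (fun t : Option ((Option ↥J ×
      Fin (b + 1) × Fin (b + 1)) ⊕ γ) => t.elim X.y₁ ex) (wt (b := b)) wt_le (u := u)
    (a := fun w => log (gg w.1 A)) (g := fun w => (X.δ w : ℤ))
    s0 s2 hlog (fun w => Int.natCast_nonneg _) hu1
    (fun t w => wt_bound X hA w hβ (hule w) (hu2 w) t) (fun w => ?_) hη hε hηε hV
  · have e1 : ∑ᶠ w : Place κ L, log (gg w.1 A) = gh κ A := rfl
    have e3 : ∑ᶠ w : Place κ L, (X.δ w : ℤ) = X.Δ := rfl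
    rw [e1, e3] at hmain
    have h1 : (finrank L (X.VJ J b A ⊔ (RB X β ⊔ LB X η) : Submodule L (M3 d → L)) : ℤ) ≤ N := by
      exact_mod_cast hN
    have h2 := mul_le_mul_of_nonneg_right h1 (show 0 ≤ 2 * gh κ A + 3 * X.Δ by linarith)
    have h3 : (finrank L (X.VJ J b A ⊔ (RB X β ⊔ LB X η) : Submodule L (M3 d → L)) : ℤ) *
        (2 * gh κ A + 2 * X.Δ + X.Δ) =
        (finrank L (X.VJ J b A ⊔ (RB X β ⊔ LB X η) : Submodule L (M3 d → L)) : ℤ) *
          (2 * gh κ A + 3 * X.Δ) := by ring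
    rw [h3] at hmain
    linarith
  · simp only [Option.elim_none]
    rw [X.vmax_x w]
    exact le_max_right _ _

/-- **The height of the curve is bounded by the poles of the derivations.** -/
theorem gh_le_blockW [CharZero L] (h : IsFF κ L) {n d a m r r₀ s : ℕ} {Λ : Type*} [Fintype Λ]
    (ha1 : 1 ≤ a)
    (hm : 1 ≤ m) (h10 : 10 * a ^ 2 ≤ d) (h150 : 150 * (a * m) ≤ d)
    (hs3 : 3 ≤ s) (h100 : 100 * (a * s) + 10 * Fintype.card Λ ≤ d) (hrd : r ≤ m * d) (X : DatG κ (L := L) n d)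
    {A : L[X][X]} {P : MvPolynomial (Fin 3) L} (hCA : CrvG X a A)
    (hmon : A.leadingCoeff.Monic) (hP : P.IsHomogeneous a) (hPirr : Irreducible P)
    (hPA : deh P = A) {γ : Type*} [Fintype γ] {β : γ → L}
    (hβ : ∀ t, ∀ w : Place κ L, w.1 (β t) ≤ 1)
    {η : Λ → L} (hr₀ : finrank L X.Ux ≤ r₀)
    (hrr : r₀ + (Fintype.card γ + Fintype.card Λ) ≤ r)
    (hv0 : X.row X.v ∈ X.Ux ⊔ (RB X β ⊔ LB X η)) {E : ℤ}
    (hv : ∀ {J : Finset (Fin (n + 1))} {N : ℕ},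
      finrank L (X.VJ J a A ⊔ (RB X β ⊔ LB X η) : Submodule L (M3 d → L)) ≤ N →
      ht κ (X.VJ J a A ⊔ (RB X β ⊔ LB X η)) ≤
        N * (2 * gh κ A + 3 * X.Δ) + gh κ A + (s - 1) * height κ X.x + E)
    (hE : X.Δ ≤ E) (hbig : 27 * (d : ℤ) ^ 2 * E < height κ X.x)
    (hα21 : 21 * (a * (m * gh κ A)) ≤ height κ X.x)
    (hα : 7 * (gh κ A * (d : ℤ) ^ 2) ≤ 200 * ((s : ℤ) * height κ X.x)) :
    7 * ((d : ℤ) ^ 2 * gh κ A) ≤ (d : ℤ) ^ 2 * X.Δ + 20 * X.R := by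
  have hΔ := X.Δ_nonneg
  have hR := X.R_nonneg
  have hE0 : 0 ≤ E := hΔ.trans hE
  have hpos : 0 < height κ X.x :=
    lt_of_le_of_lt (mul_nonneg (by positivity) hE0) hbig
  have hα0 : 0 ≤ gh κ A := gh_nonneg h hCA.irr.ne_zero
  have has3 : 3 * a ≤ a * s := by
    rw [mul_comm 3 a]
    exact Nat.mul_le_mul_left _ hs3
  have h300 : 300 * a ≤ d := by omega
  have hsa : s ≤ a * s := Nat.le_mul_of_pos_left _ ha1
  have h100s : 100 * s ≤ d := by omega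
  have hN1 := numC1 ha1 hm h10 h300 hrd
  have hN2 := numC2 h150 hN1
  have hm' : (1 : ℤ) ≤ m := by exact_mod_cast hm
  have ha1' : (1 : ℤ) ≤ a := by exact_mod_cast ha1
  have had : (300 : ℤ) * a ≤ d := by exact_mod_cast h300
  have hd300 : (300 : ℤ) ≤ d := by linarith
  have haαH : 21 * ((a : ℤ) * gh κ A) ≤ height κ X.x := by
    refine le_trans ?_ hα21
    have : (a : ℤ) * gh κ A ≤ a * (m * gh κ A) :=
      mul_le_mul_of_nonneg_left (le_mul_of_one_le_left hα0 hm') (Int.natCast_nonneg _)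
    linarith
  have hαH : 21 * gh κ A ≤ height κ X.x := by
    have : gh κ A ≤ a * gh κ A := le_mul_of_one_le_left hα0 ha1'
    linarith
  have hNd : 200 * ((NC r a : ℕ) : ℤ) ≤ 3 * (d : ℤ) ^ 2 := by exact_mod_cast hN2
  have hN0 : (0 : ℤ) ≤ ((NC r a : ℕ) : ℤ) := Int.natCast_nonneg _
  have m1 : 7 * ((d : ℤ) * gh κ A) ≤ 2 * height κ X.x :=
    numC4_a (by linarith) (by exact_mod_cast h100s) hpos hα
  have m2 : ((NC r a : ℕ) : ℤ) * (2 * gh κ A + 3 * X.Δ) + gh κ A + (s - 1) * height κ X.x + E ≤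
      2 * s * height κ X.x :=
    numC4_b (u := ((a * m : ℕ) : ℤ)) (D := d) (by linarith) (by exact_mod_cast h150) hN0
      (by exact_mod_cast hN1) hNd (by exact_mod_cast hs3) hpos hα0 hαH hα hΔ hE hbig
  obtain ⟨J, hJc, hJ⟩ := exists_J X
  have hJr : J.card ≤ r₀ := by
    rw [hJc]
    exact hr₀
  have hspan : 9 * (a : ℤ) * gh κ A + 3 * a * X.Δ < height κ X.x := by
    have h1 : 3 * (a : ℤ) * X.Δ * 2 ≤ 27 * (d : ℤ) ^ 2 * E := by
      have h2 : 3 * (a : ℤ) * 2 ≤ 27 * (d : ℤ) ^ 2 := by nlinarith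
      calc 3 * (a : ℤ) * X.Δ * 2 = 3 * (a : ℤ) * 2 * X.Δ := by ring
        _ ≤ 27 * (d : ℤ) ^ 2 * E := mul_le_mul h2 hE hΔ (by positivity)
    nlinarith
  have hW : finrank L (RB X β ⊔ LB X η : Submodule L (M3 d → L)) ≤
      Fintype.card γ + Fintype.card Λ := by
    refine (Submodule.finrank_add_le_finrank_add_finrank _ _).trans (add_le_add ?_ ?_)
    · exact finrank_range_le_card _
    · exact finrank_range_le_card _
  have hfin := finrank_VJW_NC h ha1 X hCA hmon hW hJr hrr hspan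
  have hRC : finrank L (RC X J a A ⊔ RB X β : Submodule L (M3 d → L)) ≤ NC r a :=
    (Submodule.finrank_mono (by rw [VJ_eq]; exact sup_le_sup le_sup_left le_sup_left)).trans hfin
  -- the small space
  set R' : Submodule L (M3 d → L) := Submodule.span L {X.row X.y₁} ⊔ LB X η with hR'
  have hsup : (RC X J a A ⊔ RB X β) ⊔ R' = X.VJ J a A ⊔ (RB X β ⊔ LB X η) := by
    rw [hR', VJ_eq]
    exact sup_sup_sup_comm _ _ _ _
  have hq1 : finrank L R' ≤ 1 + Fintype.card Λ := by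
    refine (Submodule.finrank_add_le_finrank_add_finrank _ _).trans (add_le_add ?_ ?_)
    · have h3 := finrank_span_le_card (R := L) ({X.row X.y₁} : Set (M3 d → L))
      simpa using h3
    · exact finrank_range_le_card _
  have hht : ht κ ((RC X J a A ⊔ RB X β) ⊔ R') ≤ (2 * s : ℕ) * height κ X.x := by
    rw [hsup]
    have h1 := hv hfin
    push_cast
    linarith
  have hhp : height κ ![1, X.y₁, X.y] = height κ X.x := X.height_p
  have key := gh_mul_le' (a := a) (c := 2 * s) (q := 1 + Fintype.card Λ)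
    (w := 10 * (a * s) + Fintype.card Λ + 1) (d := d) h ha1
    (by omega) hP hPirr hPA hCA.irr hCA.deg hCA.zero (by rw [hhp]; exact hpos)
    (by rw [hhp]; exact m1)
    (by rw [hsup]; exact xi_mem_VJW X hCA hJ hv0) hq1 (by rw [hhp]; exact hht)
    (by
      have : 5 * a * (2 * s) = 10 * (a * s) := by ring
      omega) (by omega)
  have hle := key.trans (ht_RCB_le' X hCA h J hβ)
  have hRC' : (finrank L (RC X J a A ⊔ RB X β : Submodule L (M3 d → L)) : ℤ) ≤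
      ((NC r a : ℕ) : ℤ) := by exact_mod_cast hRC
  refine numC4_c (w := ((10 * (a * s) + Fintype.card Λ : ℕ) : ℤ)) hd300 hNd hα0 hΔ hR hRC' ?_ ?_ hle
  · have : 10 * (10 * (a * s) + Fintype.card Λ) ≤ d := by omega
    exact_mod_cast this
  · have h1 : Fintype.card (M3 (d - (10 * (a * s) + Fintype.card Λ + 1))) = N3 (d - (10 * (a * s) + Fintype.card Λ + 1)) := card_M3 _
    rw [h1]
    have h2 := two_N3 (d - (10 * (a * s) + Fintype.card Λ + 1))
    have h3 : ((d - (10 * (a * s) + Fintype.card Λ + 1) : ℕ) : ℤ) = (d : ℤ) - ((10 * (a * s) + Fintype.card Λ : ℕ) : ℤ) - 1 := by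
      rw [Nat.cast_sub (by omega)]
      push_cast
      ring
    have h4 : 2 * ((N3 (d - (10 * (a * s) + Fintype.card Λ + 1)) : ℕ) : ℤ) =
        (((d - (10 * (a * s) + Fintype.card Λ + 1) : ℕ) : ℤ) + 1) * (((d - (10 * (a * s) + Fintype.card Λ + 1) : ℕ) : ℤ) + 2) := by
      exact_mod_cast h2
    rw [h4, h3]
    ring

/-- **The height theorem in one block.** -/
theorem height_blockL [CharZero L] (h : IsFF κ L) {n r r₀ d b m q M : ℕ}
    {Λ : Type*} [Fintype Λ]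
    (hm : 1 ≤ m) (h10 : 10 * b ^ 2 ≤ d) (h150 : 150 * (b * m) ≤ d)
    (hq : 100 * (b * (q + 3)) + 10 * Fintype.card Λ ≤ d) (hrd : r ≤ m * d) (X : DatG κ (L := L) n d)
    {γ : Type*} [Fintype γ] {β : γ → L} (hβ : ∀ t, ∀ w : Place κ L, w.1 (β t) ≤ 1)
    {η : Λ → L} (hη : ∀ k, η k ≠ 0) {t : Λ → ℕ} {ε : Place κ L → ℕ}
    (hε : (Function.support ε).Finite)
    (hηε : ∀ w : Place κ L, (∀ k, w.1 (η k) = vmax w.1 X.x ^ t k) ∨ 1 ≤ ε w)
    (hv : X.row X.v ∈ X.Ux ⊔ (RB X β ⊔ LB X η)) (hr₀ : finrank L X.Ux ≤ r₀)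
    (hrr : r₀ + (Fintype.card γ + Fintype.card Λ) ≤ r) {E₀ : ℤ} (hE₀ : 0 ≤ E₀)
    (hR : X.R + ∑ᶠ w, (ε w : ℤ) ≤ q * height κ X.x + E₀)
    (hA : ∃ (a : ℕ) (A : MvPolynomial (Fin 3) L), a ≤ b ∧ A ≠ 0 ∧ A.IsHomogeneous a ∧
        MvPolynomial.eval X.p A = 0 ∧ 21 * (a * (m * polyHeight κ A)) ≤ height κ X.x)
    {τ : Place κ L → ℕ} (hτ : (Function.support τ).Finite)
    {ι : Type*} {e : ι → ℕ} {a : ι → (Fin (n + 1) →₀ ℕ) → L}
    (he : ∀ i, 100 * (b * (q + 3) * e i) ≤ d ^ 2 ∨ e i ≤ M)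
    (ha : ∀ i, ∀ I ∈ expo (Fin (n + 1)) (e i), ∀ w : Place κ L, w.1 (a i I) ≤ exp (τ w : ℤ))
    (hz : ∀ i, Fval (e i) (a i) X.x = 0)
    (hbig : (d : ℤ) ^ 2 * ((27 * d ^ 2 + 2 * b * M) * (X.Δ + E₀ + ∑ᶠ w, (τ w : ℤ))) +
      9 * b * M * X.R < (d : ℤ) ^ 2 * height κ X.x) (hd1 : 1 ≤ d) :
    CertV e a b X.x := by
  have hΔ := X.Δ_nonneg
  have hR0 := X.R_nonneg
  have hΘ : 0 ≤ ∑ᶠ w, (τ w : ℤ) := finsum_nonneg fun w => Int.natCast_nonneg _
  generalize hΘe : ∑ᶠ w, (τ w : ℤ) = Θ at hΘ hbig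
  have hd1' : (1 : ℤ) ≤ d := by exact_mod_cast hd1
  have hd2' : (0 : ℤ) < (d : ℤ) ^ 2 := by positivity
  have hM0 : (0 : ℤ) ≤ 2 * b * M := by positivity
  have hM1 : (0 : ℤ) ≤ 9 * b * M * X.R := mul_nonneg (by positivity) hR0
  have hΔE : 0 ≤ X.Δ + E₀ := add_nonneg hΔ hE₀
  have hbig'' : (27 * (d : ℤ) ^ 2 + 2 * b * M) * (X.Δ + E₀ + Θ) < height κ X.x := by
    refine lt_of_mul_lt_mul_left ?_ hd2'.le
    linarith
  have hpos : 0 < height κ X.x :=
    lt_of_le_of_lt (mul_nonneg (by positivity) (add_nonneg hΔE hΘ)) hbig''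
  have hbig3 : 27 * (d : ℤ) ^ 2 * (X.Δ + E₀ + Θ) < height κ X.x := by
    have h2 : 0 ≤ (2 * b * M : ℤ) * (X.Δ + E₀ + Θ) := mul_nonneg hM0 (add_nonneg hΔE hΘ)
    linarith
  have h27E : 0 ≤ 27 * (d : ℤ) ^ 2 * E₀ := mul_nonneg (by positivity) hE₀
  have h27Θ : 0 ≤ 27 * (d : ℤ) ^ 2 * Θ := mul_nonneg (by positivity) hΘ
  have hbig' : 27 * (d : ℤ) ^ 2 * (X.Δ + E₀) < height κ X.x := by linarith
  have hbig4 : 27 * (d : ℤ) ^ 2 * (X.Δ + Θ) < height κ X.x := by linarith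
  have hbig5 : 27 * (d : ℤ) ^ 2 * X.Δ < height κ X.x := by linarith
  have hvVJ : ∀ {b : ℕ} {A : L[X][X]}, CrvG X b A → ∀ {J : Finset (Fin (n + 1))} {N : ℕ},
      finrank L (X.VJ J b A ⊔ (RB X β ⊔ LB X η) : Submodule L (M3 d → L)) ≤ N →
      ht κ (X.VJ J b A ⊔ (RB X β ⊔ LB X η)) ≤
        N * (2 * gh κ A + 3 * X.Δ) + gh κ A + (((q + 3 : ℕ) : ℤ) - 1) * height κ X.x +
          (X.Δ + E₀) := by
    intro b A hA J N hVN
    have h1 := ht_VJBL_le X hA h hβ hη hε hηε hVN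
    push_cast
    linarith
  have hW : finrank L (RB X β ⊔ LB X η : Submodule L (M3 d → L)) ≤
      Fintype.card γ + Fintype.card Λ := by
    refine (Submodule.finrank_add_le_finrank_add_finrank _ _).trans (add_le_add ?_ ?_)
    · exact finrank_range_le_card _
    · exact finrank_range_le_card _
  obtain ⟨a₁, A, P, ha1, hab, hCA, hmon, hP, hPirr, hPA, hα21, hα⟩ :=
    small_curve_blockW h hm h10 h150 (show 3 ≤ q + 3 by omega) (by omega) hrd X hW hr₀ hrr hv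
      (E := X.Δ + E₀) hA hvVJ (by linarith) hbig'
  have hb1 : 1 ≤ b := ha1.trans hab
  have hα0 : 0 ≤ gh κ A := gh_nonneg h hCA.irr.ne_zero
  have h10a : 10 * a₁ ^ 2 ≤ d :=
    (Nat.mul_le_mul_left _ (Nat.pow_le_pow_left hab 2)).trans h10
  have h150a : 150 * (a₁ * m) ≤ d :=
    (Nat.mul_le_mul_left _ (Nat.mul_le_mul_right _ hab)).trans h150
  have h100a : 100 * (a₁ * (q + 3)) + 10 * Fintype.card Λ ≤ d :=
    (add_le_add_left (Nat.mul_le_mul_left _ (Nat.mul_le_mul_right _ hab)) _).trans hq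
  have hαΔ := gh_le_blockW h ha1 hm h10a h150a (show 3 ≤ q + 3 by omega) h100a hrd X hCA hmon hP
    hPirr hPA hβ hr₀ hrr hv (E := X.Δ + E₀) (fun {J N} hJN => hvVJ hCA hJN) (by linarith) hbig'
    hα21 hα
  have hbs3 : 3 * b ≤ b * (q + 3) := by
    rw [mul_comm 3 b]
    exact Nat.mul_le_mul_left _ (by omega)
  have h300 : (300 : ℤ) * b ≤ d := by
    have : 300 * b ≤ d := by omega
    exact_mod_cast this
  have ha1' : (1 : ℤ) ≤ a₁ := by exact_mod_cast ha1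
  have hab' : (a₁ : ℤ) ≤ b := by exact_mod_cast hab
  have hs3' : (3 : ℤ) ≤ ((q + 3 : ℕ) : ℤ) := by
    push_cast
    linarith [Int.natCast_nonneg q]
  have hbig6 : (d : ℤ) ^ 2 * ((27 * d ^ 2 + 2 * b * M) * (X.Δ + Θ)) + 9 * b * M * X.R <
      (d : ℤ) ^ 2 * height κ X.x := by
    have h1 : 0 ≤ (d : ℤ) ^ 2 * ((27 * d ^ 2 + 2 * b * M) * E₀) := by positivity
    linarith
  refine CertV_mono hab (stepC X hCA h hτ ha hz (fun i => ?_) ?_)
  · rw [hΘe]
    rcases he i with hei | hei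
    · exact numC5 ha1' hab' (Int.natCast_nonneg (e i)) hs3' h300 (by exact_mod_cast hei) hpos hα0
        hΔ hΘ hα hbig4
    · exact numC6 ha1' hab' (Int.natCast_nonneg (e i)) (by exact_mod_cast hei) h300 hΔ hΘ hR0 hα0
        hαΔ hbig6
  · have h1 := numC5 (e := 1) (Θ := 0) ha1' hab' (by norm_num) hs3' h300 (by
      rw [mul_one]
      have h2 : 100 * (b * (q + 3)) ≤ d ^ 2 := by
        calc 100 * (b * (q + 3)) ≤ d := by omega
          _ = d * 1 := (mul_one d).symm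
          _ ≤ d * d := Nat.mul_le_mul_left _ hd1
          _ = d ^ 2 := (sq d).symm
      exact_mod_cast h2) hpos hα0 hΔ le_rfl hα (by rw [add_zero]; exact hbig5)
    linarith

end Pool.Agent.Lib.MP_44a246_ntC
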