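import Mathlib
import Pool.Agent.Lib.MP_44a246_ntC.C15
import Pool.Agent.Lib.MP_44a246_ntC.C24
import Pool.Agent.Lib.MP_44a246_ntR.R04

/-!
The height theorem for several forms, with logarithmic rows.
-/

namespace Pool.Agent.Lib.MP_44a246_ntC

open Pool.Agent.Lib.MP_44a246_ntK
open Pool.Agent.Lib.MP_44a246_ntF
open Pool.Agent.Lib.MP_e52354_ntF
open Pool.Agent.Lib.MP_44a246_nt
open Pool.Agent.Lib.MP_44a246_ntL
open Pool.Agent.Lib.MP_44a246_ntS
open Pool.Agent.Lib.MP_44a246_ntX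
open Pool.Agent.Lib.MP_44a246_ntG
open Pool.Agent.Lib.MP_44a246_ntD
open Pool.Agent.Lib.MP_e52354_nt
open WithZero Module

section

variable {κ L : Type*} [Field κ] [Field L] [Algebra κ L] {n p : ℕ} {d : Fin p → ℕ}
  (X : DatC κ (L := L) n d)

/-- the space spanned by the logarithmic rows, for all blocks -/
noncomputable def glog {Λ : Type*} (η : Λ → L) : Submodule L ((Σ j : Fin p, M3 (d j)) → L) :=
  Submodule.span L (Set.range fun k => (η k)⁻¹ • grow X.jF (η k))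

theorem map_fL {Λ : Type*} (η : Λ → L) :
    (MP_44a246_ntR.fL X η).map (combF X) = glog X η := by
  unfold MP_44a246_ntR.fL glog
  rw [Submodule.map_span, ← Set.range_comp]
  congr 2
  funext k
  simp only [Function.comp_apply, lrowD]
  rw [map_smul, combF_rowD]

/-- the space of all rows -/
noncomputable def gall {γ Λ : Type*} (β : γ → L) (η : Λ → L) :
    Submodule L ((Σ j : Fin p, M3 (d j)) → L) :=
  gspan X.jF X.x ⊔ (gspan X.jF β ⊔ glog X η)

/-- the hypothesis about the space of the rows, for the combinations of the derivations -/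
theorem finrank_QL {γ Λ : Type*} {β : γ → L} {η : Λ → L} (hp : X.pt ≠ 0) {g : ℕ}
    (hQ : g ≤ finrank L ((fU X ⊔ fB X β ⊔ MP_44a246_ntR.fL X η) ⊓ MP_44a246_ntR.xsp d X.x :
      Submodule L (ES (n + 1) d → L))) :
    g ≤ finrank L (gall X β η ⊓
      Submodule.span L (Set.range (embB fun j => xi (d j) X.pt)) :
        Submodule L ((Σ j : Fin p, M3 (d j)) → L)) := by
  set Q := (fU X ⊔ fB X β ⊔ MP_44a246_ntR.fL X η) ⊓ MP_44a246_ntR.xsp d X.x with hQdef
  have h1 : finrank L (Q.map (combF X)) = finrank L Q := by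
    have hinj : Function.Injective ((combF X).domRestrict Q) := by
      rw [← LinearMap.ker_eq_bot, LinearMap.ker_eq_bot']
      intro u hu
      apply Subtype.ext
      exact combF_inj X hp u.1 (Submodule.mem_inf.1 u.2).2 hu
    have h2 : Q.map (combF X) = LinearMap.range ((combF X).domRestrict Q) := by
      rw [LinearMap.range_domRestrict]
    rw [h2]
    exact LinearMap.finrank_range_of_inj hinj
  rw [← h1] at hQ
  refine hQ.trans (Submodule.finrank_mono (le_inf ?_ ?_))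
  · refine (Submodule.map_mono inf_le_left).trans ?_
    have h2 : (fU X).map (combF X) = gspan X.jF X.x := combF_span X X.x
    have h3 : (fB X β).map (combF X) = gspan X.jF β := combF_span X β
    rw [Submodule.map_sup, Submodule.map_sup, h2, h3, map_fL, gall, sup_assoc]
  · refine (Submodule.map_mono inf_le_right).trans ?_
    unfold MP_44a246_ntR.xsp
    rw [Submodule.map_span_le]
    rintro _ ⟨j, rfl⟩
    rw [combF_xB]
    exact Submodule.subset_span ⟨j, rfl⟩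

/-- the row of the value of the form of a block which contains the vector of the monomials -/
theorem row_v_memL {γ Λ : Type*} {β : γ → L} {η : Λ → L} {j : Fin p}
    (h : xi (d j) X.pt ∈ piece κ (gall X β η) j) :
    (X.blk j).row (X.blk j).v ∈
      (X.blk j).Ux ⊔ (RB (X.blk j) β ⊔ LB (X.blk j) η) := by
  obtain ⟨u, hu, hu2⟩ := h
  rw [Matrix.mulVecLin_apply, prj_mulVec] at hu2
  have h1 : DatC.res L j u ∈ (gall X β η).map (DatC.res L j) := ⟨u, hu.1, rfl⟩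
  have h0 : (glog X η).map (DatC.res L j) = LB (X.blk j) η := by
    unfold glog LB
    rw [Submodule.map_span, ← Set.range_comp]
    congr 2
  rw [gall, Submodule.map_sup, Submodule.map_sup, X.map_gspan, X.map_gspan, h0] at h1
  have h2 : DatC.res L j u = xi (d j) X.pt := hu2
  rw [h2] at h1
  have h3 : DatC.res L j (X.xiB j) = xi (d j) X.pt := by
    funext K
    show X.xiB j ⟨j, K⟩ = _
    unfold DatC.xiB
    rw [if_pos rfl]
  have h4 := congrArg (DatC.res L j) (X.xiB_eq j)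
  rw [h3, map_sub, map_sum, X.res_grow] at h4
  have h5 : (X.blk j).row (X.v j) = xi (d j) X.pt +
      ∑ l, DatC.res L j (grad (d j) (X.a j) X.x l • grow X.jF (X.x l)) := by
    rw [h4]
    abel
  rw [X.blk_v, h5]
  refine Submodule.add_mem _ h1 (Submodule.sum_mem _ fun l _ => ?_)
  rw [map_smul, X.res_grow]
  exact Submodule.smul_mem _ _ (Submodule.mem_sup_left (Submodule.subset_span ⟨l, rfl⟩))

theorem finrank_gall {γ Λ : Type*} [Fintype γ] [Fintype Λ] {β : γ → L} {η : Λ → L} {r r₀ : ℕ}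
    (h1 : finrank L (gspan X.jF X.x) ≤ r₀) (h2 : r₀ + (Fintype.card γ + Fintype.card Λ) ≤ r) :
    finrank L (gall X β η) ≤ r := by
  unfold gall
  have h3 := Submodule.finrank_add_le_finrank_add_finrank (gspan X.jF X.x)
    (gspan X.jF β ⊔ glog X η)
  have h4 := Submodule.finrank_add_le_finrank_add_finrank (gspan X.jF β) (glog X η)
  have h5 : finrank L (gspan X.jF β) ≤ Fintype.card γ := finrank_range_le_card _
  have h6 : finrank L (glog X η) ≤ Fintype.card Λ := finrank_range_le_card _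
  omega

end

/-- the numerical contradiction: not all blocks of `A` can have a large height -/
theorem numC7L {p : ℕ} {A : Finset (Fin p)} {d m : Fin p → ℕ} {r r₀ b q g : ℕ} (hb : 1 ≤ b)
    (hg : A.card = g)
    (hN : 21 * r + 20 * b * (r₀ + 2 + q + 12 * b * ∑ j ∈ A, m j + 2 * b * g) ≤
      20 * b * (∑ j ∈ A, d j + g))
    {H Δ R E₀ h₀ : ℤ} {hj : Fin p → ℤ} {rj : Fin p → ℕ} {ρ : ℕ} (hH : 0 < H)
    (h1 : ∀ j ∈ A, 20 * (b : ℤ) * (((d j : ℤ) - 12 * ((b * m j : ℕ) : ℤ) - 2 * b + 1) * H) ≤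
      20 * b * hj j + 21 * H * rj j)
    (h0 : ∀ j, 0 ≤ hj j)
    (h2 : ∑ j, hj j ≤ h₀) (h3 : ∑ j, rj j ≤ ρ) (h4 : ρ ≤ r)
    (h5 : h₀ ≤ (r₀ + 1) * H + r * Δ + R) (h6 : R ≤ q * H + E₀) : H ≤ r * Δ + E₀ := by
  have hb' : (1 : ℤ) ≤ b := by exact_mod_cast hb
  have e1 := Finset.sum_le_sum h1
  rw [Finset.sum_add_distrib, ← Finset.mul_sum, ← Finset.mul_sum, ← Finset.mul_sum] at e1
  have e2 : ∑ j ∈ A, (((d j : ℤ) - 12 * ((b * m j : ℕ) : ℤ) - 2 * b + 1) * H) =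
      ((∑ j ∈ A, (d j : ℤ)) - 12 * (b * ∑ j ∈ A, (m j : ℤ)) - 2 * b * g + g) * H := by
    rw [← Finset.sum_mul, Finset.sum_add_distrib, Finset.sum_sub_distrib, Finset.sum_sub_distrib]
    congr 1
    rw [Finset.sum_const, Finset.sum_const, hg, Finset.mul_sum, Finset.mul_sum]
    have e3 : ∀ j ∈ A, 12 * ((b * m j : ℕ) : ℤ) = 12 * ((b : ℤ) * (m j : ℤ)) := by
      intro j _
      push_cast
      ring
    rw [Finset.sum_congr rfl e3]
    simp only [nsmul_eq_mul, mul_one]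
    ring
  rw [e2] at e1
  have e0 : ∑ j ∈ A, rj j ≤ ∑ j, rj j :=
    Finset.sum_le_sum_of_subset_of_nonneg (Finset.subset_univ A) fun _ _ _ => Nat.zero_le _
  have e0' : ∑ j ∈ A, hj j ≤ ∑ j, hj j :=
    Finset.sum_le_sum_of_subset_of_nonneg (Finset.subset_univ A) fun j _ _ => h0 j
  have e3 : (∑ j ∈ A, (rj j : ℤ)) ≤ r := by exact_mod_cast (e0.trans h3).trans h4
  have e4 : 21 * (r : ℤ) + 20 * b * (r₀ + 2 + q + 12 * b * ∑ j ∈ A, (m j : ℤ) + 2 * b * g) ≤
      20 * b * (∑ j ∈ A, (d j : ℤ) + g) := by exact_mod_cast hN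
  have e5 := mul_le_mul_of_nonneg_right e4 hH.le
  have e6 : 20 * (b : ℤ) * ∑ j ∈ A, hj j ≤ 20 * b * ((r₀ + 1) * H + r * Δ + R) :=
    mul_le_mul_of_nonneg_left ((e0'.trans h2).trans h5) (by linarith)
  have e7 : 21 * H * ∑ j ∈ A, (rj j : ℤ) ≤ 21 * H * r :=
    mul_le_mul_of_nonneg_left e3 (by linarith)
  have e8 : (b : ℤ) * R ≤ b * (q * H + E₀) := mul_le_mul_of_nonneg_left h6 (by linarith)
  have e9 : (b : ℤ) * H ≤ b * (r * Δ + E₀) := by nlinarith
  exact le_of_mul_le_mul_left e9 (by linarith)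

section

variable {κ L : Type*} [Field κ] [IsAlgClosed κ] [CharZero κ] [Field L] [Algebra κ L] {n p : ℕ}
  {d : Fin p → ℕ} (X : DatC κ (L := L) n d)

omit [IsAlgClosed κ] [CharZero κ] in
/-- coordinates whose rows span the space of all rows of coordinates -/
theorem exists_Jg : ∃ J : Finset (Fin (n + 1)), J.card = finrank L (gspan X.jF X.x) ∧
    gspan X.jF X.x = Submodule.span L (Set.range fun j : ↥J => grow X.jF (X.x j)) := by
  classical
  obtain ⟨τ, σ, hσ, hsp, hli⟩ := exists_linearIndependent' L (fun j => grow X.jF (X.x j))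
  have : Finite τ := Finite.of_injective σ hσ
  have : Fintype τ := Fintype.ofFinite τ
  have h1 := finrank_span_eq_card hli
  rw [hsp] at h1
  refine ⟨Finset.univ.image σ, ?_, le_antisymm ?_ ?_⟩
  · rw [Finset.card_image_of_injective _ hσ, Finset.card_univ, ← h1]
    rfl
  · unfold gspan
    rw [← hsp]
    refine Submodule.span_mono ?_
    rintro _ ⟨t, rfl⟩
    exact ⟨⟨σ t, Finset.mem_image_of_mem σ (Finset.mem_univ t)⟩, rfl⟩
  · refine Submodule.span_mono ?_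
    rintro _ ⟨t, rfl⟩
    exact ⟨t.1, rfl⟩

/-- **The height of the space of all rows.** -/
theorem ht_gall (h : IsFF κ L) (hx1 : ∀ w : Place κ L, 1 ≤ vmax w.1 X.x) (hx0 : X.x ≠ 0)
    {γ Λ : Type*} [Fintype γ] [Fintype Λ] {β : γ → L} (hβ : ∀ t, ∀ w : Place κ L, w.1 (β t) ≤ 1)
    {η : Λ → L} (hη : ∀ k, η k ≠ 0) {t : Λ → ℕ} {ε : Place κ L → ℕ}
    (hε : (Function.support ε).Finite)
    (hηε : ∀ w : Place κ L, (∀ k, w.1 (η k) = vmax w.1 X.x ^ t k) ∨ 1 ≤ ε w) {r r₀ : ℕ}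
    (hr₀ : finrank L (gspan X.jF X.x) ≤ r₀) (hr : finrank L (gall X β η) ≤ r) :
    ht κ (gall X β η) ≤ (r₀ + 1) * height κ X.x + r * X.Δ + (X.R + ∑ᶠ w, (ε w : ℤ)) := by
  obtain ⟨J, hJ, hJs⟩ := exists_Jg X
  have hU : gall X β η = Submodule.span L (Set.range
      fun p : ↥J ⊕ (γ ⊕ Λ) => Sum.elim (fun j : ↥J => rowD X.jF (X.x j.1))
        (Sum.elim (fun t => rowD X.jF (β t)) (fun k => lrowD X.jF (η k))) p) := by
    rw [gall, hJs, Submodule.span_range_eq_iSup (v := fun p : ↥J ⊕ (γ ⊕ Λ) =>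
      Sum.elim (fun j : ↥J => rowD X.jF (X.x j.1))
        (Sum.elim (fun t => rowD X.jF (β t)) (fun k => lrowD X.jF (η k))) p), iSup_sum, iSup_sum,
      Submodule.span_range_eq_iSup]
    unfold gspan glog
    rw [Submodule.span_range_eq_iSup, Submodule.span_range_eq_iSup]
    rfl
  have h1 := ht_rows_log_le h X.hδ X.hρ X.jF_minor hx1 hx0 (J := J) hβ hη hε hηε hU
  have h2 : (J.card : ℤ) ≤ r₀ := by
    rw [hJ]
    exact_mod_cast hr₀
  have h3 := mul_le_mul_of_nonneg_right h2 (h.height_nonneg hx0)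
  have h4 : (finrank L (gall X β η) : ℤ) ≤ r := by exact_mod_cast hr
  have h5 := mul_le_mul_of_nonneg_right h4 X.Δ_nonneg
  have e1 : ∑ᶠ w, (X.δ w : ℤ) = X.Δ := rfl
  have e2 : ∑ᶠ w, (X.ρ w : ℤ) = X.R := rfl
  rw [e1, e2] at h1
  linarith

end

/-- **The height theorem for several forms**, with logarithmic rows. -/
theorem height_jointRL {κ L : Type*} [Field κ] [IsAlgClosed κ] [CharZero κ] [Field L] [CharZero L]
    [Algebra κ L] (h : IsFF κ L) {n p r r₀ b q g M D d₀ : ℕ} {d m : Fin p → ℕ} (hb : 1 ≤ b)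
    {Λ : Type*} [Fintype Λ]
    (hm : ∀ j, 1 ≤ m j) (h10 : ∀ j, 10 * b ^ 2 ≤ d j) (hr : ∀ j, r ≤ m j * d j)
    (h150 : ∀ j, 150 * (b * m j) ≤ d j)
    (hq : ∀ j, 100 * (b * (q + 3)) + 10 * Fintype.card Λ ≤ d j)
    (hN : ∀ A : Finset (Fin p), A.card = g →
      21 * r + 20 * b * (r₀ + 2 + q + 12 * b * ∑ j ∈ A, m j + 2 * b * g) ≤
        20 * b * (∑ j ∈ A, d j + g))
    (hd₀ : ∀ j, d₀ ≤ d j) (hd₀1 : 1 ≤ d₀) (hD : ∀ j, d j ≤ D) (X : DatC κ (L := L) n d)
    {γ : Type*} [Fintype γ] {β : γ → L} (hβ : ∀ t, ∀ w : Place κ L, w.1 (β t) ≤ 1)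
    {η : Λ → L} (hη : ∀ k, η k ≠ 0) {t : Λ → ℕ} {ε : Place κ L → ℕ}
    (hε : (Function.support ε).Finite)
    (hηε : ∀ w : Place κ L, (∀ k, w.1 (η k) = vmax w.1 X.x ^ t k) ∨ 1 ≤ ε w)
    (hQ : g ≤ finrank L ((fU X ⊔ fB X β ⊔ MP_44a246_ntR.fL X η) ⊓ MP_44a246_ntR.xsp d X.x :
      Submodule L (ES (n + 1) d → L)))
    (hr₀' : finrank L (fU X) ≤ r₀) (hrr : r₀ + (Fintype.card γ + Fintype.card Λ) ≤ r) {E₀ : ℤ}
    (hE₀ : 0 ≤ E₀) (hR : X.R + ∑ᶠ w, (ε w : ℤ) ≤ q * height κ X.x + E₀)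
    {τ : Place κ L → ℕ} (hτ : (Function.support τ).Finite)
    {ι : Type*} {e : ι → ℕ} {a : ι → (Fin (n + 1) →₀ ℕ) → L}
    (he : ∀ i, 100 * (b * (q + 3) * e i) ≤ d₀ ^ 2 ∨ e i ≤ M)
    (ha : ∀ i, ∀ I ∈ expo (Fin (n + 1)) (e i), ∀ w : Place κ L, w.1 (a i I) ≤ exp (τ w : ℤ))
    (hz : ∀ i, Fval (e i) (a i) X.x = 0) :
    (d₀ : ℤ) ^ 2 * height κ X.x ≤
        (d₀ : ℤ) ^ 2 * ((27 * D ^ 2 + 2 * b * M) * (X.Δ + E₀ + ∑ᶠ w, (τ w : ℤ))) +
          9 * b * M * X.R ∨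
      CertV e a b X.x := by
  have hΔ := X.Δ_nonneg
  have hR0 := X.R_nonneg
  have hΘ : 0 ≤ ∑ᶠ w, (τ w : ℤ) := finsum_nonneg fun w => Int.natCast_nonneg _
  have hΔE : 0 ≤ X.Δ + E₀ := add_nonneg hΔ hE₀
  rcases le_or_gt ((d₀ : ℤ) ^ 2 * height κ X.x)
    ((d₀ : ℤ) ^ 2 * ((27 * D ^ 2 + 2 * b * M) * (X.Δ + E₀ + ∑ᶠ w, (τ w : ℤ))) +
      9 * b * M * X.R)
    with hle | hbig
  · exact Or.inl hle
  right
  by_contra hcert
  have hd₀' : (1 : ℤ) ≤ d₀ := by exact_mod_cast hd₀1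
  have hd₀2 : (0 : ℤ) < (d₀ : ℤ) ^ 2 := by positivity
  have hM1 : (0 : ℤ) ≤ 9 * b * M * X.R := mul_nonneg (by positivity) hR0
  set Y := (27 * (D : ℤ) ^ 2 + 2 * b * M) * (X.Δ + E₀ + ∑ᶠ w, (τ w : ℤ)) with hY
  have hY1 : Y < height κ X.x := by
    refine lt_of_mul_lt_mul_left ?_ hd₀2.le
    linarith
  have hY0 : 0 ≤ Y := mul_nonneg (by positivity) (add_nonneg hΔE hΘ)
  have hpos : 0 < height κ X.x := lt_of_le_of_lt hY0 hY1
  have hr₀ : finrank L (gspan X.jF X.x) ≤ r₀ := (finrank_gspan_le_fU X).trans hr₀'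
  have hpt : X.pt ≠ 0 := by
    intro h1
    have h2 := congrFun h1 0
    exact one_ne_zero h2
  obtain ⟨A, hA, hAp⟩ := exists_blocks h (finrank_QL X hpt hQ)
  -- the bound in every block
  have hblk : ∀ j, (d j : ℤ) ^ 2 * ((27 * d j ^ 2 + 2 * b * M) *
      (X.Δ + E₀ + ∑ᶠ w, (τ w : ℤ))) + 9 * b * M * X.R < (d j : ℤ) ^ 2 * height κ X.x := by
    intro j
    have e1 : (d₀ : ℤ) ≤ d j := by exact_mod_cast hd₀ j
    have e2 : (d j : ℤ) ≤ D := by exact_mod_cast hD j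
    have e3 : (d₀ : ℤ) ^ 2 ≤ (d j : ℤ) ^ 2 := pow_le_pow_left₀ (by linarith) e1 2
    have e4 : (d j : ℤ) ^ 2 ≤ (D : ℤ) ^ 2 := pow_le_pow_left₀ (by linarith) e2 2
    have e5 : (27 * (d j : ℤ) ^ 2 + 2 * b * M) * (X.Δ + E₀ + ∑ᶠ w, (τ w : ℤ)) ≤ Y :=
      mul_le_mul_of_nonneg_right (by linarith) (add_nonneg hΔE hΘ)
    have e6 : (d j : ℤ) ^ 2 * ((27 * d j ^ 2 + 2 * b * M) * (X.Δ + E₀ + ∑ᶠ w, (τ w : ℤ))) ≤
        (d j : ℤ) ^ 2 * Y := mul_le_mul_of_nonneg_left e5 (by positivity)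
    have e7 : (d₀ : ℤ) ^ 2 * (height κ X.x - Y) ≤ (d j : ℤ) ^ 2 * (height κ X.x - Y) :=
      mul_le_mul_of_nonneg_right e3 (by linarith)
    linarith
  -- no block has a curve
  have hnoc : ∀ j ∈ A, 20 * (b : ℤ) * (((d j : ℤ) - 12 * ((b * m j : ℕ) : ℤ) - 2 * b + 1) *
      height κ X.x) ≤ 20 * b * ht κ (piece κ (gall X β η) j) +
        21 * height κ X.x * finrank L (piece κ (gall X β η) j) := by
    intro j hjA
    have hbu : b ≤ b * m j := Nat.le_mul_of_pos_right _ (hm j)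
    have hxi : xi (d j) (X.blk j).p ∈ piece κ (gall X β η) j := hAp j hjA
    have h1 := stepA_block h (X.blk j) (b := b) (u := b * m j) hxi hb hbu
      (by have := h150 j; omega) hpos
    rcases h1 with ⟨a₁, A₁, g1, g2, g3, g4, g5⟩ | h1
    · exfalso
      apply hcert
      have g6 : 21 * (a₁ * (m j * polyHeight κ A₁)) ≤ height κ (X.blk j).x := by
        have hb' : (0 : ℤ) < b := by exact_mod_cast hb
        refine le_of_mul_le_mul_left (le_of_eq_of_le ?_ g5) hb'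
        push_cast
        ring
      refine height_blockL h (r := r) (r₀ := r₀) (q := q) (M := M) (hm j) (h10 j) (h150 j) (hq j)
        (hr j) (X.blk j) hβ hη hε hηε (row_v_memL X hxi) ((X.finrank_blk_Ux j).trans hr₀) hrr hE₀
        hR ⟨a₁, A₁, g1, g2, g3, g4, g6⟩ hτ (fun i => ?_) ha hz (hblk j)
        (by have := h10 j; have h2 : 1 ≤ b ^ 2 := Nat.one_le_pow _ _ hb; omega)
      rcases he i with h2 | h2
      · left
        exact h2.trans (Nat.pow_le_pow_left (hd₀ j) 2)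
      · exact Or.inr h2
    · exact h1
  have hfin := finrank_gall X (β := β) (η := η) hr₀ hrr
  obtain ⟨p1, p2⟩ := ht_piece h (gall X β η)
  have hhtU : ht κ (gall X β η) ≤
      (r₀ + 1) * height κ X.x + r * X.Δ + (X.R + ∑ᶠ w, (ε w : ℤ)) := by
    have hx1 : ∀ w : Place κ L, 1 ≤ vmax w.1 X.x := by
      intro w
      have h1 : w.1 (∑ j, (X.ξ₀ j : L) * X.x j) ≤ vmax w.1 X.x := by
        refine w.1.map_sum_le fun j _ => ?_
        rw [map_mul]
        calc w.1 (X.ξ₀ j : L) * w.1 (X.x j) ≤ 1 * vmax w.1 X.x :=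
              mul_le_mul' (natCast_mem w.1.integer _) (le_vmax w.1 X.x j)
          _ = vmax w.1 X.x := one_mul _
      rwa [X.h0, map_one] at h1
    have hx0 : X.x ≠ 0 := by
      intro h1
      have h2 := X.h0
      rw [h1] at h2
      simp at h2
    exact ht_gall X h hx1 hx0 hβ hη hε hηε hr₀ hfin
  have hfinal := numC7L hb hA (hN A hA) hpos hnoc (fun j => ht_nonneg h _) p1 p2 hfin hhtU hR
  -- the contradiction
  obtain ⟨j⟩ : Nonempty (Fin p) := by
    by_contra hp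
    rw [not_nonempty_iff] at hp
    have hp0 : p = 0 := by
      rcases Nat.eq_zero_or_pos p with h0 | h0
      · exact h0
      · exact (hp.false ⟨0, h0⟩).elim
    subst hp0
    have hA0 : A = ∅ := Finset.eq_empty_of_isEmpty A
    have hN' := hN A hA
    rw [hA0, Finset.card_empty] at hA
    rw [hA0, ← hA, Finset.sum_empty, Finset.sum_empty] at hN'
    have : 0 < 20 * b * (r₀ + 2 + q + 12 * b * 0 + 2 * b * 0) := by positivity
    omega
  have e1 : (r : ℤ) ≤ (d j : ℤ) ^ 2 := by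
    have h1 : m j ≤ d j := by
      have h2 := h150 j
      have h3 : m j ≤ b * m j := Nat.le_mul_of_pos_left _ hb
      omega
    have h2 : r ≤ d j ^ 2 := by
      calc r ≤ m j * d j := hr j
        _ ≤ d j * d j := Nat.mul_le_mul_right _ h1
        _ = d j ^ 2 := (sq _).symm
    exact_mod_cast h2
  have e2 : (d j : ℤ) ^ 2 ≤ (D : ℤ) ^ 2 :=
    pow_le_pow_left₀ (by positivity) (by exact_mod_cast hD j) 2
  have e4 : (1 : ℤ) ≤ (D : ℤ) ^ 2 := by
    have h1 : 1 ≤ d j := hd₀1.trans (hd₀ j)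
    have h2 : (1 : ℤ) ≤ D := by exact_mod_cast h1.trans (hD j)
    nlinarith
  have e3 : (r : ℤ) * X.Δ + E₀ ≤ Y := by
    have h1 : (r : ℤ) * X.Δ ≤ (27 * (D : ℤ) ^ 2 + 2 * b * M) * X.Δ := by
      refine mul_le_mul_of_nonneg_right ?_ hΔ
      have h2 : (0 : ℤ) ≤ 2 * b * M := by positivity
      have h3 : (0 : ℤ) ≤ (D : ℤ) ^ 2 := by positivity
      linarith
    have h2 : 0 ≤ (27 * (D : ℤ) ^ 2 + 2 * b * M) * ∑ᶠ w, (τ w : ℤ) :=
      mul_nonneg (by positivity) hΘ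
    have h4 : 1 * E₀ ≤ (27 * (D : ℤ) ^ 2 + 2 * b * M) * E₀ := by
      refine mul_le_mul_of_nonneg_right ?_ hE₀
      have h5 : (0 : ℤ) ≤ 2 * b * M := by positivity
      linarith
    rw [hY, mul_add, mul_add]
    linarith
  linarith

end Pool.Agent.Lib.MP_44a246_ntC
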