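import Mathlib
import Pool.Agent.Lib.MP_44a246_ntD.D13
import Pool.Agent.Lib.MP_44a246_ntC.C11
import Pool.Agent.Lib.MP_44a246_ntK.K10
import Pool.Agent.Lib.MP_44a246_ntK.K12

/-!
The height theorem over the base field, for complete intersections.
-/

namespace Pool.Agent.Lib.MP_44a246_ntC

open Pool.Agent.Lib.MP_44a246_ntK

open Pool.Agent.Lib.MP_44a246_ntD
open Pool.Agent.Lib.MP_44a246_ntQ
open Pool.Agent.Lib.MP_44a246_nt
open Pool.Agent.Lib.MP_44a246_ntL
open Pool.Agent.Lib.MP_44a246_ntV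
open Pool.Agent.Lib.MP_44a246_ntS
open Pool.Agent.Lib.MP_44a246_ntX
open Pool.Agent.Lib.MP_44a246_ntG
open Pool.Agent.Lib.MP_44a246_ntU
open Pool.Agent.Lib.MP_44a246_ntZ
open Pool.Agent.Lib.MP_e52354_nt
open WithZero Module

universe u v w

/-- **The height theorem over the base field**, for the points of the sections `t_j = H_j (x)` of a
variety in `P (d_1, ..., d_p, 1, ..., 1)` defined over a subfield `k` of finite transcendence
degree. -/
theorem heightC_base {κ : Type u} {K : Type v} [Field κ] [IsAlgClosed κ] [CharZero κ] [Field K]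
    [CharZero K] [Algebra κ K] (hK : IsFF κ K) (htr : Cardinal.aleph0 ≤ Algebra.trdeg ℚ κ)
    {k : Type*} [Field k] [CharZero k] [Algebra k K]
    (hk : Algebra.trdeg ℚ k < Cardinal.aleph0) {n p b r₀ r q M D d₀ : ℕ} {d m : Fin p → ℕ}
    (hb : 1 ≤ b) (hm : ∀ j, 1 ≤ m j) (h10 : ∀ j, 10 * b ^ 2 ≤ d j) (hr : ∀ j, r ≤ m j * d j)
    (h150 : ∀ j, 150 * (b * m j) ≤ d j) (hq : ∀ j, 100 * (b * (q + 3)) ≤ d j)
    (hN : 21 * r + 20 * b * (r + 2 + q + 12 * b * ∑ j, m j + 2 * b * p) ≤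
      20 * b * (∑ j, d j + p))
    (hd₀ : ∀ j, d₀ ≤ d j) (hd₀1 : 1 ≤ d₀) (hD : ∀ j, d j ≤ D)
    {ι : Type*} [Finite ι] {e : ι → ℕ}
    (he : ∀ i, 100 * (b * (q + 3) * e i) ≤ d₀ ^ 2 ∨ e i ≤ M)
    {f : ι → MvPolynomial (Fin p ⊕ Fin (n + 1)) k}
    (hf : ∀ i, (f i).IsWeightedHomogeneous (wtP (n + 1) d) (e i))
    (hdim : ringKrullDim (MvPolynomial (Fin p ⊕ Fin (n + 1)) k ⧸ Ideal.span (Set.range f)) ≤
      ((r₀ + 1 : ℕ) : ℕ))
    {a : Fin p → (Fin (n + 1) →₀ ℕ) → K} {P : Finset (Fin p × (Fin (n + 1) →₀ ℕ))}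
    (hrr : r₀ + P.card ≤ r)
    (ha : AlgebraicIndependent k (fun s : {s // s ∈ jexpo n d ∧ s ∉ P} => a s.1.1 s.1.2)) :
    ∃ C : ℕ, ∀ (L : Type w) [Field L] [Algebra K L] [FiniteDimensional K L] [Algebra κ L]
      [IsScalarTower κ K L] [Algebra k L] [IsScalarTower k K L] (x : Fin (n + 1) → L), x ≠ 0 →
      (∀ i, Fval (e i) (aWP d (fun j I => algebraMap K L (a j I)) f i) x = 0) → NDegP f x →
      q * height κ x < ramDeg κ L K ∨
        (d₀ : ℤ) ^ 2 * height κ x ≤ C * finrank K L + 9 * b * M * ramDeg κ L K ∨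
        CertV e (aWP d (fun j I => algebraMap K L (a j I)) f) b x := by
  classical
  have := Fintype.ofFinite ι
  obtain ⟨z, hz0, hz⟩ := exists_modif (κ := κ) htr hk (jexpo n d) P
    (a := fun s => a s.1 s.2) ha
  obtain ⟨X, hXa, hXk⟩ := exists_baseS hK htr hk
    (a := fun s : Fin p × (Fin (n + 1) →₀ ℕ) => a s.1 s.2 + algebraMap κ K (z s)) hz
  -- the poles of the coefficients
  let θ : Type _ := (Σ i : ι, ↥(expo (Fin (n + 1)) (e i)))
  obtain ⟨A, hAs, hA⟩ := Pool.Agent.Lib.MP_44a246_ntV.exists_polesA hK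
    (fun t : θ => aWP d a f t.1 t.2.1)
  refine ⟨d₀ ^ 2 * ((27 * D ^ 2 + 2 * b * M) * ((∑ᶠ v, X.B v) + ∑ᶠ v, A v)), ?_⟩
  intro L _ _ _ _ _ _ _ x hx hfx hne
  have hL : IsFF κ L := hK.of_finite
  have hchar : CharZero L := charZero_of_injective_algebraMap (algebraMap K L).injective
  obtain ⟨Y, c, hc, hYa, hYx, hYδ, hYρ, hYD⟩ := exists_datC X hK hx
  obtain ⟨hA1, hA2⟩ := mason_sum_over hL hAs
  obtain ⟨hB1, hB2⟩ := mason_sum_over hL X.hB
  have hτ : (Function.support fun w : Place κ L => ramIdx K w.1 * A (below K w)).Finite := by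
    refine hA1.subset fun w hw h0 => hw ?_
    exact Int.natCast_eq_zero.1 h0
  have hfx' : ∀ i, Fval (e i) (aWP d (fun j I => algebraMap K L (a j I)) f i) Y.x = 0 := by
    intro i
    rw [hYx, Fval_smul, hfx i, mul_zero]
  set η : Fin p → L := fun j => Fval (d j) (fun I => algebraMap K L (a j I)) Y.x with hη
  have hzero : ∀ i, MvPolynomial.aeval (Sum.elim η Y.x : Fin p ⊕ Fin (n + 1) → L) (f i) = 0 := by
    intro i
    rw [← hfx' i, Fval_aWP' hf]
  have hDk : ∀ s, s.2 ∈ expo (Fin (n + 1)) (d s.1) → ∀ u : k, Y.D s (algebraMap k L u) = 0 := by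
    intro s hs u
    rw [IsScalarTower.algebraMap_apply k K L, hYD, hXk s (mem_jexpo.2 hs) u, map_zero]
  have hneY : NDegP f Y.x := by
    rw [hYx]
    exact hne.smul hf hc
  have hv : ∀ j, Y.v j = η j + Fval (d j) (fun I => algebraMap κ L (z (j, I))) Y.x := by
    intro j
    show Fval (d j) (Y.a j) Y.x = _
    rw [hη, hYa, hXa]
    unfold Fval
    rw [← Finset.sum_add_distrib]
    refine Finset.sum_congr rfl fun I _ => ?_
    show algebraMap K L (a j I + algebraMap κ K (z (j, I))) * mon Y.x I =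
      algebraMap K L (a j I) * mon Y.x I + algebraMap κ L (z (j, I)) * mon Y.x I
    rw [map_add, add_mul, ← IsScalarTower.algebraMap_apply κ K L]
  have hrow : ∀ j, grow Y.jF (Y.v j) ∈
      gspan Y.jF (Sum.elim Y.x (fun s : ↥P => algebraMap κ L (z s.1))) := by
    intro j
    rw [hv j, grow_add]
    refine Submodule.add_mem _ ?_ ?_
    · rw [Y.gspan_sum]
      exact Submodule.mem_sup_left (grow_mem_P Y hDk hf hzero hneY j)
    · refine grow_Fval_mem Y (fun l => grow_mem_gspan Y.jF (Sum.elim Y.x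
        (fun s : ↥P => algebraMap κ L (z s.1))) (Sum.inl l)) fun I _ => ?_
      by_cases hI : (j, I) ∈ P
      · exact grow_mem_gspan Y.jF (Sum.elim Y.x
          (fun s : ↥P => algebraMap κ L (z s.1))) (Sum.inr ⟨(j, I), hI⟩)
      · rw [hz0 _ hI, map_zero, grow_zero]
        exact Submodule.zero_mem _
  have h3 : Y.R = ramDeg κ L K := by
    unfold DatC.R
    rw [hYρ]
    exact (mason_sum_ram (K := K) hL).2
  have h1 : height κ Y.x = height κ x := by
    rw [hYx]
    exact hL.height_smul hc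
  rcases lt_or_ge (q * height κ x) (ramDeg κ L K : ℤ) with hR | hR
  · exact Or.inl hR
  right
  have hmain := height_joint hL hb hm h10 hr h150 hq hN hd₀ hd₀1 hD Y
    (β := fun s : ↥P => algebraMap κ L (z s.1)) (fun s w => place_const_le w _) hrow
    (finrank_gspan_leP Y hDk hf hdim hzero) (by rwa [Fintype.card_coe])
    (by rw [h3, h1]; exact hR) hτ (e := e) (M := M)
    (a := aWP d (fun j I => algebraMap K L (a j I)) f) he (by
      intro i I hI w
      have h1 : aWP d (fun j I => algebraMap K L (a j I)) f i I = algebraMap K L (aWP d a f i I) :=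
        (map_aWP d a (algebraMap K L) (fun u =>
          (IsScalarTower.algebraMap_apply k K L u).symm) f i I).symm
      rw [h1]
      exact coef_le A (fun v => hA ⟨i, ⟨I, hI⟩⟩ v) w) hfx'
  have h2 : Y.Δ = ((∑ᶠ v, X.B v : ℕ) : ℤ) * Module.finrank K L := by
    unfold DatC.Δ
    rw [hYδ, ← hB2]
  rcases hmain with h | h
  · left
    rw [h1, h2, h3, hA2] at h
    refine h.trans (le_of_eq ?_)
    push_cast
    ring
  · right
    rw [hYx] at h
    exact (certV_smul hc).1 h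

end Pool.Agent.Lib.MP_44a246_ntC
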