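import Mathlib
import Pool.Agent.Lib.MP_44a246_ntS.SP5c
import Pool.Agent.Lib.MP_44a246_ntK.K12
import Pool.Agent.Lib.MP_44a246_ntR.R06

/-!
The functionals on the tangent space given by the equations of a weighted projective variety, at
the points at which the matrix of the derivatives with respect to the variables `t_j` has a given
rank.
-/

namespace Pool.Agent.Lib.MP_44a246_ntC

open Pool.Agent.Lib.MP_44a246_ntR
open Pool.Agent.Lib.MP_44a246_ntK
open Pool.Agent.Lib.MP_44a246_nt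
open Pool.Agent.Lib.MP_44a246_ntL
open Pool.Agent.Lib.MP_44a246_ntQ
open Pool.Agent.Lib.MP_44a246_ntS
open Pool.Agent.Lib.MP_44a246_ntU
open Pool.Agent.Lib.MP_e52354_nt
open MvPolynomial

section

variable {k M : Type*} [Field k] [Field M] [Algebra k M] {n p : ℕ} {d : Fin p → ℕ}

/-- Euler's relation for weighted homogeneous polynomials -/
theorem euler_wt {g : MvPolynomial (Fin p ⊕ Fin n) k} {E : ℕ}
    (hg : g.IsWeightedHomogeneous (wtP n d) E) (y : Fin p ⊕ Fin n → M) :
    ∑ j, aeval y (pderiv (Sum.inl j) g) * (d j * y (Sum.inl j)) +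
      ∑ l, aeval y (pderiv (Sum.inr l) g) * y (Sum.inr l) = E * aeval y g := by
  have h1 := congrArg (aeval y) (IsWeightedHomogeneous.sum_weight_X_mul_pderiv hg)
  rw [map_sum, Fintype.sum_sum_type, map_nsmul, nsmul_eq_mul] at h1
  rw [← h1]
  congr 1
  · refine Finset.sum_congr rfl fun j _ => ?_
    rw [map_nsmul, map_mul, aeval_X, nsmul_eq_mul]
    show _ = ((d j : ℕ) : M) * _
    ring
  · refine Finset.sum_congr rfl fun l _ => ?_
    rw [map_nsmul, map_mul, aeval_X, nsmul_eq_mul]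
    show _ = ((1 : ℕ) : M) * _
    push_cast
    ring

variable {a : Fin p → (Fin n →₀ ℕ) → M} {γ : Fin n → M}

/-- the functional given by an equation -/
noncomputable def cJ (d : Fin p → ℕ) (a : Fin p → (Fin n →₀ ℕ) → M) (γ : Fin n → M)
    (g : MvPolynomial (Fin p ⊕ Fin n) k) (l : Fin n) : M :=
  ∑ j, aeval (Sum.elim (fun j => Fval (d j) (a j) γ) γ : Fin p ⊕ Fin n → M)
      (pderiv (Sum.inl j) g) * grad (d j) (a j) γ l +
    aeval (Sum.elim (fun j => Fval (d j) (a j) γ) γ : Fin p ⊕ Fin n → M) (pderiv (Sum.inr l) g)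

theorem cJ_mul (g : MvPolynomial (Fin p ⊕ Fin n) k) (v : Fin n → M) :
    ∑ l, cJ d a γ g l * v l =
      ∑ j, aeval (Sum.elim (fun j => Fval (d j) (a j) γ) γ : Fin p ⊕ Fin n → M)
        (pderiv (Sum.inl j) g) * ∑ l, grad (d j) (a j) γ l * v l +
      ∑ l, aeval (Sum.elim (fun j => Fval (d j) (a j) γ) γ : Fin p ⊕ Fin n → M)
        (pderiv (Sum.inr l) g) * v l := by
  unfold cJ
  simp only [add_mul, Finset.sum_add_distrib, Finset.sum_mul, Finset.mul_sum]
  rw [Finset.sum_comm]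
  congr 1
  exact Finset.sum_congr rfl fun j _ => Finset.sum_congr rfl fun l _ => by ring

theorem cJ_euler {g : MvPolynomial (Fin p ⊕ Fin n) k} {E : ℕ}
    (hg : g.IsWeightedHomogeneous (wtP n d) E)
    (h0 : aeval (Sum.elim (fun j => Fval (d j) (a j) γ) γ : Fin p ⊕ Fin n → M) g = 0) :
    ∑ l, cJ d a γ g l * γ l = 0 := by
  rw [cJ_mul]
  have h1 := euler_wt hg (Sum.elim (fun j => Fval (d j) (a j) γ) γ : Fin p ⊕ Fin n → M)
  rw [h0, mul_zero] at h1
  rw [← h1]
  congr 1
  refine Finset.sum_congr rfl fun j _ => ?_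
  rw [grad_euler]
  rfl

theorem cJ_der {g : MvPolynomial (Fin p ⊕ Fin n) k}
    (h0 : aeval (Sum.elim (fun j => Fval (d j) (a j) γ) γ : Fin p ⊕ Fin n → M) g = 0)
    (F : Derivation ℤ M M) (hF : ∀ u : k, F (algebraMap k M u) = 0) :
    ∑ l, cJ d a γ g l * F (γ l) =
      - ∑ j, aeval (Sum.elim (fun j => Fval (d j) (a j) γ) γ : Fin p ⊕ Fin n → M)
        (pderiv (Sum.inl j) g) * ∑ I ∈ expo (Fin n) (d j), F (a j I) * mon γ I := by
  rw [cJ_mul]
  have h1 := der_aevalG F hF (Sum.elim (fun j => Fval (d j) (a j) γ) γ : Fin p ⊕ Fin n → M) g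
  rw [h0, map_zero, Fintype.sum_sum_type] at h1
  simp only [Sum.elim_inl, Sum.elim_inr] at h1
  have h2 : ∀ j, ∑ l, grad (d j) (a j) γ l * F (γ l) = F (Fval (d j) (a j) γ) -
      ∑ I ∈ expo (Fin n) (d j), F (a j I) * mon γ I := by
    intro j
    rw [D_Fval (d j) (a j) F γ]
    ring
  have h3 : ∑ j, aeval (Sum.elim (fun j => Fval (d j) (a j) γ) γ : Fin p ⊕ Fin n → M)
      (pderiv (Sum.inl j) g) * ∑ l, grad (d j) (a j) γ l * F (γ l) =
      ∑ j, aeval (Sum.elim (fun j => Fval (d j) (a j) γ) γ : Fin p ⊕ Fin n → M)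
        (pderiv (Sum.inl j) g) * F (Fval (d j) (a j) γ) -
      ∑ j, aeval (Sum.elim (fun j => Fval (d j) (a j) γ) γ : Fin p ⊕ Fin n → M)
        (pderiv (Sum.inl j) g) * ∑ I ∈ expo (Fin n) (d j), F (a j I) * mon γ I := by
    rw [← Finset.sum_sub_distrib]
    exact Finset.sum_congr rfl fun j _ => by rw [h2 j, mul_sub]
  rw [h3, eq_neg_iff_add_eq_zero]
  rw [h1]
  ring

/-- **The functionals given by the equations**, at a point at which the matrix of the derivatives
with respect to the variables `t_j` has rank at least `ρ`. -/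
theorem exists_jac {ι : Type*} {e : ι → ℕ} {ρ : ℕ} {f : ι → MvPolynomial (Fin p ⊕ Fin n) k}
    (hf : ∀ i, (f i).IsWeightedHomogeneous (wtP n d) (e i))
    (h0 : ∀ i, aeval (Sum.elim (fun j => Fval (d j) (a j) γ) γ : Fin p ⊕ Fin n → M) (f i) = 0)
    (hJ : JRank ρ f (Sum.elim (fun j => Fval (d j) (a j) γ) γ : Fin p ⊕ Fin n → M)) :
    ∃ (jj : Fin ρ → Fin p) (Λ : Fin ρ → Fin p → M) (c : Fin ρ → Fin n → M),
      Function.Injective jj ∧ (∀ b b', Λ b (jj b') = if b = b' then 1 else 0) ∧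
      (∀ b, ∑ l, c b l * γ l = 0) ∧
      ∀ (b : Fin ρ) (F : Derivation ℤ M M), (∀ u : k, F (algebraMap k M u) = 0) →
        ∑ l, c b l * F (γ l) =
          - ∑ j, Λ b j * ∑ I ∈ expo (Fin n) (d j), F (a j I) * mon γ I := by
  classical
  obtain ⟨i, jj, hdet⟩ := hJ
  set G : Fin ρ → Fin p → M := fun b j =>
    aeval (Sum.elim (fun j => Fval (d j) (a j) γ) γ : Fin p ⊕ Fin n → M)
      (pderiv (Sum.inl j) (f (i b))) with hG
  set N : Matrix (Fin ρ) (Fin ρ) M := Matrix.of fun a b => G a (jj b) with hN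
  have hu : IsUnit N.det := isUnit_iff_ne_zero.2 hdet
  refine ⟨jj, fun b j => ∑ t, N⁻¹ b t * G t j, fun b l => ∑ t, N⁻¹ b t * cJ d a γ (f (i t)) l,
    ?_, ?_, ?_, ?_⟩
  · intro b b' hbb
    by_contra hne
    exact hdet (Matrix.det_zero_of_column_eq hne fun t => by
      show G t (jj b) = G t (jj b')
      rw [hbb])
  · intro b b'
    have h1 : (N⁻¹ * N) b b' = ∑ t, N⁻¹ b t * G t (jj b') := by
      rw [Matrix.mul_apply]
      rfl
    show ∑ t, N⁻¹ b t * G t (jj b') = _
    rw [← h1, Matrix.nonsing_inv_mul N hu, Matrix.one_apply]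
  · intro b
    simp only [Finset.sum_mul]
    rw [Finset.sum_comm]
    refine Finset.sum_eq_zero fun t _ => ?_
    have h1 := cJ_euler (hf (i t)) (h0 (i t))
    rw [← mul_zero (N⁻¹ b t), ← h1, Finset.mul_sum]
    exact Finset.sum_congr rfl fun l _ => by ring
  · intro b F hF
    simp only [Finset.sum_mul]
    rw [Finset.sum_comm, Finset.sum_comm (s := (Finset.univ : Finset (Fin p))),
      ← Finset.sum_neg_distrib]
    refine Finset.sum_congr rfl fun t _ => ?_
    have h1 := cJ_der (h0 (i t)) F hF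
    have h2 : ∑ l, N⁻¹ b t * cJ d a γ (f (i t)) l * F (γ l) =
        N⁻¹ b t * ∑ l, cJ d a γ (f (i t)) l * F (γ l) := by
      rw [Finset.mul_sum]
      exact Finset.sum_congr rfl fun l _ => by ring
    rw [h2, h1, mul_neg, Finset.mul_sum]
    congr 1
    exact Finset.sum_congr rfl fun j _ => by rw [hG]; ring

end

section

variable {k L : Type*} [Field k] [Field L] [Algebra k L] {n p : ℕ}

/-- the rank condition for germs -/
theorem JRank.germ {Ω : Type*} [Field Ω] [Algebra k Ω]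
    (ψ : UP L →+* Ω) (hψ : ∀ u : k, ψ (constHom (algebraMap k L u)) = algebraMap k Ω u)
    {ι : Type*} [Finite ι] {ρ : ℕ} {f : ι → MvPolynomial (Fin p ⊕ Fin n) k}
    {y : ℕ → Fin p ⊕ Fin n → L}
    (h : ∀ N, JRank ρ f (y N)) : JRank ρ f (fun s => ψ (germHom (fun N => y N s))) := by
  classical
  choose i j hdet using h
  by_contra hcon
  have h1 : ∀ t : (Fin ρ → ι) × (Fin ρ → Fin p), ∀ᶠ N in (Filter.hyperfilter ℕ : Filter ℕ),
      (Matrix.of fun a b => aeval (y N) (pderiv (Sum.inl (t.2 b)) (f (t.1 a)))).det = 0 := by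
    intro t
    have h2 : (Matrix.of fun a b => aeval (fun s => ψ (germHom (fun N => y N s)))
        (pderiv (Sum.inl (t.2 b)) (f (t.1 a)))).det = 0 := by
      by_contra h3
      exact hcon ⟨t.1, t.2, h3⟩
    have h3 : (Matrix.of fun a b => aeval (fun s => ψ (germHom (fun N => y N s)))
        (pderiv (Sum.inl (t.2 b)) (f (t.1 a)))) =
        (ψ.comp germHom).mapMatrix (Matrix.of fun a b N =>
          aeval (y N) (pderiv (Sum.inl (t.2 b)) (f (t.1 a)))) := by
      ext a b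
      rw [RingHom.mapMatrix_apply, Matrix.map_apply, Matrix.of_apply, Matrix.of_apply]
      exact germ_aeval ψ hψ y _
    rw [h3, ← RingHom.map_det] at h2
    have h4 : ψ (germHom (Matrix.of fun a b N =>
        aeval (y N) (pderiv (Sum.inl (t.2 b)) (f (t.1 a)))).det) = 0 := h2
    rw [map_eq_zero, germHom_eq_zero_iff] at h4
    refine h4.mono fun N hN => ?_
    have h5 := (Pi.evalRingHom (fun _ : ℕ => L) N).map_det (Matrix.of fun a b N =>
        aeval (y N) (pderiv (Sum.inl (t.2 b)) (f (t.1 a))))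
    have h6 : (Pi.evalRingHom (fun _ : ℕ => L) N) (Matrix.of fun a b N =>
        aeval (y N) (pderiv (Sum.inl (t.2 b)) (f (t.1 a)))).det = 0 := hN
    rw [h6] at h5
    exact h5.symm
  rw [← Filter.eventually_all] at h1
  obtain ⟨N, hN⟩ := h1.exists
  exact hdet N (hN (i N, j N))

end

end Pool.Agent.Lib.MP_44a246_ntC
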