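import Mathlib
import Pool.Agent.Lib.MP_44a246_ntD.D19
import Pool.Agent.Lib.MP_44a246_ntK.K10
import Pool.Agent.Lib.MP_44a246_ntK.K12
import Pool.Agent.Lib.MP_44a246_ntK.K22
import Pool.Agent.Lib.MP_44a246_ntC.C16

/-!
Step E for points at which the matrix of the derivatives with respect to the variables `t_j` has
a given rank: the points of a section `t_j = H_j (x)` of a weighted projective variety on plane
curves of small degree move in few directions.
-/

namespace Pool.Agent.Lib.MP_44a246_ntC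

open Pool.Agent.Lib.MP_44a246_ntK
open Pool.Agent.Lib.MP_44a246_ntR

open Pool.Agent.Lib.MP_44a246_ntD
open Pool.Agent.Lib.MP_44a246_ntQ

open Pool.Agent.Lib.MP_e52354_nt
open Pool.Agent.Lib.MP_44a246_nt
open Pool.Agent.Lib.MP_44a246_ntL
open Pool.Agent.Lib.MP_44a246_ntS
open Pool.Agent.Lib.MP_44a246_ntG
open Pool.Agent.Lib.MP_44a246_ntU
open WithZero Polynomial Module

universe u

/-- **Step E**, for points which need not be generic. -/
theorem no_certER_der {κ : Type u} [Field κ] [IsAlgClosed κ] [CharZero κ] {k : Type*} [Field k]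
    [CharZero k] [Algebra k κ] {n m' p r b s ρ : ℕ} {d : Fin p → ℕ}
    (hd : ∀ B : Finset (Fin p), B.card = ρ →
      2 * r + 2 * b + s ≤ (∑ j ∈ B, d j) + m' + ρ)
    {ι : Type*} {e : ι → ℕ} {f : ι → MvPolynomial (Fin p ⊕ Fin (n + 1)) k}
    (hf : ∀ i, (f i).IsWeightedHomogeneous (wtP (n + 1) d) (e i))
    (hI : ringKrullDim (MvPolynomial (Fin (n + 1)) k ⧸ imI f) ≤ ((r + 1 : ℕ) : ℕ))
    {a : Fin p → (Fin (n + 1) →₀ ℕ) → κ} (δ : Fin m' → Derivation ℤ κ κ)
    (hδk : ∀ i, ∀ u : k, δ i (algebraMap k κ u) = 0)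
    (hδa : ∀ i j, ∀ I ∈ expo (Fin (n + 1)) (d j), δ i (a j I) = 0)
    {P : Finset (Fin p × (Fin (n + 1) →₀ ℕ))} (hP : P.card ≤ s)
    (W : Fin p → (Fin (n + 1) →₀ ℕ) → Derivation ℤ κ κ)
    (hWk : ∀ b I, ∀ u : k, W b I (algebraMap k κ u) = 0)
    (hWa : ∀ b, ∀ I ∈ expo (Fin (n + 1)) (d b), ∀ b', ∀ J ∈ expo (Fin (n + 1)) (d b'),
      (b', J) ∉ P → W b I (a b' J) = if (b, I) = (b', J) then 1 else 0)
    {x : Fin (n + 1) → κ}
    (hx : LinearIndependent κ
      (Fin.cons x (fun i k => δ i (x k)) : Fin (m' + 1) → Fin (n + 1) → κ))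
    (hne : JRank ρ f (Sum.elim (fun j => Fval (d j) (a j) x) x : Fin p ⊕ Fin (n + 1) → κ)) :
    ¬ CertV e (aWP d a f) b x := by
  classical
  rintro ⟨A, Bv, ξ₀, ξ₁, ξ₂, c, y₁, y, hboxA, -, hc, hξ₀, hξ₁, hξ₂, hA, hAY, hB, hF, h0, h1, h2⟩
  set α := (derivative A).evalEval y₁ y with hα
  obtain ⟨m, i₀, hm', hind⟩ := exists_dirs (β := α * c) hA hAY (mul_ne_zero hAY hc)
    (fun j => by rw [mul_assoc]; exact hB j) h0 h1 δ hx
  obtain ⟨g, hirr, hf0, hfdeg, hfA, hfz⟩ := exists_factor hA hAY
  refine with_curve hirr hf0 ?_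
  intro M _ _ _ _ _ _ _ _ _ Y hY hgen hfin ht halg
  set φ := algebraMap κ M with hφ
  set X' : M := algebraMap κ[X] M X with hX'
  -- specialisation
  have hspec : ∀ G : κ[X][X], evalEvalRingHom y₁ y G ≠ 0 → ev φ X' Y G ≠ 0 := by
    intro G hG h3
    rw [hX', ev_aeval, hY] at h3
    obtain ⟨q, rfl⟩ := h3
    apply hG
    rw [map_mul]
    have h4 : evalEvalRingHom y₁ y g = 0 := hfz
    rw [h4, zero_mul]
  have hevA : ∀ G : κ[X][X], A ∣ G → ev φ X' Y G = 0 := by
    intro G hG
    rw [hX', ev_aeval, hY]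
    exact hfA.trans hG
  have hAP : ev φ X' Y A = 0 := hevA A dvd_rfl
  have hAYP : ev φ X' Y (derivative A) ≠ 0 := hspec _ hAY
  set ω := ev φ X' Y (derivative A) with hω
  set γ : Fin (n + 1) → M := fun j => ev φ X' Y (Bv j) with hγdef
  -- the derivations
  obtain ⟨D, hDκ, hDX⟩ := exists_der_ext ht halg (0 : Derivation ℤ κ κ) 1
  choose E hEκ hEX using fun i : Fin m' => exists_der_ext ht halg (δ i) 0
  have hDκ' : ∀ u : κ, D (algebraMap κ M u) = 0 := fun u => by
    rw [hDκ]
    simp
  have hD : ∀ G, ω * D (ev φ X' Y G) = ev φ X' Y (vf A (cX κ) G) := by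
    intro G
    rw [ev_vf φ 0 D hDκ hAP G, hX', hDX, one_mul, vf_apply, cE_zero, cE_zero]
    simp
  have hE : ∀ i G, ω * E i (ev φ X' Y G) = ev φ X' Y (vf A (cE (δ i)) G) := by
    intro i G
    rw [ev_vf φ (δ i) (E i) (hEκ i) hAP G, hX', hEX, zero_mul, add_zero]
  -- the relations between `γ` and the projection
  have hsum : ∀ ξ : Fin (n + 1) → κ, ev φ X' Y (∑ j, C (C (ξ j)) * Bv j) = ∑ j, φ (ξ j) * γ j := by
    intro ξ
    rw [map_sum]
    refine Finset.sum_congr rfl fun j _ => ?_
    rw [map_mul, ev_C_C]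
  have r0 : ∑ j, φ (ξ₀ j) * γ j = ω := by
    rw [← hsum, ← sub_eq_zero, hω, ← map_sub]
    exact hevA _ h0
  have r1 : ∑ j, φ (ξ₁ j) * γ j = X' * ω := by
    rw [← hsum, ← sub_eq_zero, hω]
    have h4 : X' * ev φ X' Y (derivative A) = ev φ X' Y (C X * derivative A) := by
      rw [map_mul, ev_C_X]
    rw [h4, ← map_sub]
    exact hevA _ h1
  have r2 : ∑ j, φ (ξ₂ j) * γ j = Y * ω := by
    rw [← hsum, ← sub_eq_zero, hω]
    have h4 : Y * ev φ X' Y (derivative A) = ev φ X' Y (X * derivative A) := by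
      rw [map_mul, ev_X]
    rw [h4, ← map_sub]
    exact hevA _ h2
  have hγ : γ ≠ 0 := by
    intro h3
    apply hAYP
    rw [← r0, h3]
    simp
  -- the structure of an algebra over `k`
  let _ : Algebra k M := ((algebraMap κ M).comp (algebraMap k κ)).toAlgebra
  have hkM : ∀ u : k, algebraMap k M u = algebraMap κ M (algebraMap k κ u) := fun u => rfl
  have tkM : IsScalarTower k κ M := IsScalarTower.of_algebraMap_eq hkM
  -- `γ` is a zero of all the forms
  have hFo : ∀ o : ι, Fval (e o) (fun I => algebraMap κ M (aWP d a f o I)) γ = 0 := by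
    intro o
    have h3 := hevA _ (hF o)
    rw [← h3]
    unfold FB Fval mon
    rw [map_sum]
    refine Finset.sum_congr rfl fun I _ => ?_
    rw [map_mul, ev_C_C, map_prod]
    congr 1
    refine Finset.prod_congr rfl fun j _ => ?_
    rw [map_pow]
  set η : Fin p → M := fun j => Fval (d j) (fun I => algebraMap κ M (a j I)) γ with hη
  have hfγ : ∀ i, MvPolynomial.aeval (Sum.elim η γ : Fin p ⊕ Fin (n + 1) → M) (f i) = 0 := by
    intro i
    rw [hη, ← Fval_aWP hf a γ i]
    exact hFo i
  -- the rank condition at the generic point of the curve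
  have hne' : JRank ρ f (Sum.elim η γ : Fin p ⊕ Fin (n + 1) → M) := by
    set β := α * c with hβ
    have hβ0 : β ≠ 0 := mul_ne_zero hAY hc
    obtain ⟨i, jj, hdet⟩ := hne.smul hf hβ0
    refine ⟨i, jj, ?_⟩
    set Hb : Fin p → κ[X][X] := fun j => FB (d j) (a j) Bv with hHb
    set N : Matrix (Fin ρ) (Fin ρ) κ[X][X] := Matrix.of fun a b =>
      MvPolynomial.aeval (Sum.elim Hb Bv : Fin p ⊕ Fin (n + 1) → κ[X][X])
        (MvPolynomial.pderiv (Sum.inl (jj b)) (f (i a))) with hN
    have h3 : ∀ (S : Type u) [Field S] [Algebra k S] (ψ : κ[X][X] →+* S)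
        (_ : ∀ u : k, ψ (algebraMap k κ[X][X] u) = algebraMap k S u)
        (q : MvPolynomial (Fin p ⊕ Fin (n + 1)) k),
        ψ (MvPolynomial.aeval (Sum.elim Hb Bv : Fin p ⊕ Fin (n + 1) → κ[X][X]) q) =
          MvPolynomial.aeval (Sum.elim (fun j => ψ (Hb j)) (fun j => ψ (Bv j)) :
          Fin p ⊕ Fin (n + 1) → S) q := by
      intro S _ _ ψ hψ q
      rw [MvPolynomial.aeval_def, MvPolynomial.hom_eval₂, MvPolynomial.aeval_def]
      congr 1
      · exact RingHom.ext hψ
      · funext t
        rcases t with t | t <;> rfl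
    have h3' : ∀ (S : Type u) [Field S] [Algebra k S] (ψ : κ[X][X] →+* S)
        (_ : ∀ u : k, ψ (algebraMap k κ[X][X] u) = algebraMap k S u),
        ψ N.det = (Matrix.of fun a b => MvPolynomial.aeval
          (Sum.elim (fun j => ψ (Hb j)) (fun j => ψ (Bv j)) : Fin p ⊕ Fin (n + 1) → S)
          (MvPolynomial.pderiv (Sum.inl (jj b)) (f (i a)))).det := by
      intro S _ _ ψ hψ
      rw [RingHom.map_det]
      congr 1
      ext a b
      rw [RingHom.mapMatrix_apply, Matrix.map_apply, hN, Matrix.of_apply, Matrix.of_apply,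
        h3 S ψ hψ]
    have h4 : evalEvalRingHom y₁ y N.det ≠ 0 := by
      rw [h3' κ (evalEvalRingHom y₁ y) (fun u => by
        rw [IsScalarTower.algebraMap_apply k κ κ[X][X]]
        show evalEval y₁ y (C (C (algebraMap k κ u))) = _
        rw [evalEval_C, eval_C])]
      have hBv : ∀ l, evalEvalRingHom y₁ y (Bv l) = β * x l := by
        intro l
        show evalEval y₁ y (Bv l) = β * x l
        rw [← hB l, hβ, mul_assoc]
      have h5 : (Sum.elim (fun j => evalEvalRingHom y₁ y (Hb j))
          (fun j => evalEvalRingHom y₁ y (Bv j)) : Fin p ⊕ Fin (n + 1) → κ) =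
          Sum.elim (fun j => β ^ d j * (Sum.elim (fun j => Fval (d j) (a j) x) x :
            Fin p ⊕ Fin (n + 1) → κ) (Sum.inl j))
            (fun l => β * (Sum.elim (fun j => Fval (d j) (a j) x) x :
              Fin p ⊕ Fin (n + 1) → κ) (Sum.inr l)) := by
        funext t
        rcases t with t | t
        · simp only [Sum.elim_inl]
          rw [← Fval_smul, hHb]
          unfold FB Fval mon
          rw [map_sum]
          refine Finset.sum_congr rfl fun I _ => ?_
          rw [map_mul, map_prod]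
          congr 1
          · show evalEval y₁ y (C (C (a t I))) = a t I
            rw [evalEval_C, eval_C]
          · refine Finset.prod_congr rfl fun l _ => ?_
            rw [map_pow, hBv]
        · simp only [Sum.elim_inr]
          exact hBv t
      rw [h5]
      exact hdet
    have h6 := hspec N.det h4
    rw [h3' M (ev φ X' Y) (fun u => by
      rw [IsScalarTower.algebraMap_apply k κ κ[X][X], hkM]
      show ev φ X' Y (C (C (algebraMap k κ u))) = _
      rw [ev_C_C])] at h6
    have h7 : ∀ j, ev φ X' Y (Hb j) = η j := by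
      intro j
      rw [hHb, hη]
      unfold FB Fval mon
      rw [map_sum]
      refine Finset.sum_congr rfl fun I _ => ?_
      rw [map_mul, ev_C_C, map_prod]
      congr 1
      refine Finset.prod_congr rfl fun j _ => ?_
      rw [map_pow]
    have h8 : (Sum.elim (fun j => ev φ X' Y (Hb j)) (fun j => ev φ X' Y (Bv j)) :
        Fin p ⊕ Fin (n + 1) → M) = Sum.elim η γ := by
      funext t
      rcases t with t | t
      · exact h7 t
      · rfl
    rw [h8] at h6
    exact h6
  -- independence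
  have hindM : LinearIndependent M (Fin.cons γ (Fin.cons (fun k => D (γ k))
      fun i k => E (i₀ i) (γ k)) : Fin (m + 2) → Fin (n + 1) → M) := by
    have h3 := indep_of_spec (evalEvalRingHom y₁ y) (ev φ X' Y) hspec
      (N := Fin.cons Bv (Fin.cons (fun j => vf A (cX κ) (Bv j))
        fun i j => vf A (cE (δ (i₀ i))) (Bv j))) (by
        convert hind using 1
        funext i
        refine Fin.cases rfl (fun i => ?_) i
        exact Fin.cases rfl (fun i => rfl) i)
    have hω0 : ω ≠ 0 := hAYP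
    have h4 := h3.units_smul (Fin.cons 1 fun _ => (Units.mk0 ω hω0)⁻¹)
    convert h4 using 1
    funext i
    refine Fin.cases ?_ (fun i => ?_) i
    · funext j
      simp only [Fin.cons_zero, Pi.smul_apply', one_smul]
      rfl
    · refine Fin.cases ?_ (fun i => ?_) i
      · funext j
        show D (γ j) = (ω⁻¹ : M) * ev φ X' Y (vf A (cX κ) (Bv j))
        rw [← hD, inv_mul_cancel_left₀ hω0]
      · funext j
        show E (i₀ i) (γ j) =
          (ω⁻¹ : M) * ev φ X' Y (vf A (cE (δ (i₀ i))) (Bv j))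
        rw [← hE, inv_mul_cancel_left₀ hω0]
  -- the tangent space
  obtain ⟨l, hl⟩ : ∃ l, γ l ≠ 0 := by
    by_contra hcon
    push Not at hcon
    exact hγ (funext hcon)
  obtain ⟨T, hT, hγT, hDT⟩ := exists_tangent (k := k) (r := r) hl
    (fun p j hj => card_le_of_dimI hf hI hfγ hl hj)
  -- the functionals
  set aM : Fin p → (Fin (n + 1) →₀ ℕ) → M := fun j I => algebraMap κ M (a j I) with haM
  obtain ⟨jj, Λ, cr', hjj, hΛ, hg0, hgder⟩ := exists_jac (a := aM) hf hfγ hne'
  have hgD : ∀ j, ∑ k, cr' j k * D (γ k) = 0 := by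
    intro j
    rw [hgder j D fun u => by rw [hkM, hDκ'], Finset.sum_eq_zero, neg_zero]
    intro j' _
    rw [Finset.sum_eq_zero, mul_zero]
    intro I _
    rw [haM]
    simp only
    rw [hDκ', zero_mul]
  have hgE : ∀ j i, ∑ k, cr' j k * E i (γ k) = 0 := by
    intro j i
    rw [hgder j (E i) fun u => by rw [hkM, hEκ, hδk, map_zero], Finset.sum_eq_zero, neg_zero]
    intro j' _
    rw [Finset.sum_eq_zero, mul_zero]
    intro I hI
    rw [haM]
    simp only
    rw [hEκ, hδa _ j' I hI, map_zero, zero_mul]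
  have hMff : IsFF κ M := by
    have t : IsScalarTower κ (RatFunc κ) M := by
      refine IsScalarTower.of_algebraMap_eq fun u => ?_
      rw [IsScalarTower.algebraMap_apply κ κ[X] M,
        IsScalarTower.algebraMap_apply κ κ[X] (RatFunc κ),
        ← IsScalarTower.algebraMap_apply κ[X] (RatFunc κ) M]
    exact (sp5b_isFF κ).of_finite
  have hpos : 0 < height κ γ := height_pos hγ (ξ₀ := ξ₀) (ξ₁ := ξ₁) (by rw [← hφ, r0]; exact hAYP)
    (by rw [← hφ, r0, r1])
  -- the coefficients which need not be independent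
  set P' : Finset (Fin p × (Fin (n + 1) →₀ ℕ)) := (jexpo n d).filter (fun I => I ∈ P) with hP'
  have hP'c : Fintype.card ↥P' ≤ s := by
    rw [Fintype.card_coe]
    refine (Finset.card_le_card ?_).trans hP
    intro I hI
    exact (Finset.mem_filter.1 hI).2
  have hP'm : ∀ t : ↥P', t.1.2 ∈ expo (Fin (n + 1)) (d t.1.1) := fun t =>
    mem_jexpo.1 (Finset.mem_filter.1 t.2).1
  choose W' hWκ' hWX' using fun b I => exists_der_ext ht halg (W b I) 0
  let gl : (Fin (n + 1) ⊕ ↥P' → M) →ₗ[M] (Fin ρ → M) := LinearMap.pi fun j =>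
    (∑ k, (cr' j k) • LinearMap.proj (Sum.inl k)) +
      ∑ t : ↥P', (Λ j t.1.1 * mon γ t.1.2) • LinearMap.proj (Sum.inr t)
  have hgl : ∀ (v : Fin (n + 1) ⊕ ↥P' → M) (j : Fin ρ),
      gl v j = ∑ k, cr' j k * v (Sum.inl k) +
        ∑ t : ↥P', (Λ j t.1.1 * mon γ t.1.2) * v (Sum.inr t) := by
    intro v j
    simp only [gl, LinearMap.pi_apply, LinearMap.add_apply, LinearMap.sum_apply,
      LinearMap.smul_apply, LinearMap.proj_apply, smul_eq_mul]
  have hgl0 : ∀ (v : Fin (n + 1) → M), (∀ j, ∑ k, cr' j k * v k = 0) →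
      gl (Sum.elim v 0) = 0 := by
    intro v hv
    funext j
    rw [hgl, Pi.zero_apply, ← hv j]
    simp only [Sum.elim_inl, Sum.elim_inr, Pi.zero_apply, mul_zero, Finset.sum_const_zero, add_zero]
  -- the inequalities
  have hglob := wedge_globalEK (n := n + 1) (d := fun b => d (jj b)) (r := r) D hDκ' hDX
    (fun i => E (i₀ i)) (fun i u => ⟨_, hEκ _ u⟩) (fun i => ⟨0, by rw [hEX, map_zero]⟩)
    (fun b I => W' (jj b) I)
    (fun b I u => ⟨_, hWκ' _ _ u⟩) (fun b I => ⟨0, by rw [hWX', map_zero]⟩)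
    (fun b I t => W (jj b) I (a t.1.1 t.1.2) - if (jj b, I) = t.1 then 1 else 0) gl (hgl0 _ hg0)
    (hgl0 _ hgD) (fun i => hgl0 _ fun j => hgE j _) (fun b I hI b' => by
      rw [hgl]
      simp only [Sum.elim_inl, Sum.elim_inr]
      have h3 : ∑ k, cr' b' k * W' (jj b) I (γ k) =
          - ∑ j, Λ b' j * ∑ J ∈ expo (Fin (n + 1)) (d j), W' (jj b) I (aM j J) * mon γ J :=
        hgder b' (W' (jj b) I) fun u => by rw [hkM, hWκ', hWk, map_zero]
      rw [h3]
      have h4 : ∀ j, ∑ J ∈ expo (Fin (n + 1)) (d j), W' (jj b) I (aM j J) * mon γ J =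
          ∑ J ∈ (expo (Fin (n + 1)) (d j)).filter (fun J => (j, J) ∈ P),
            (algebraMap κ M (W (jj b) I (a j J))) * mon γ J +
            ∑ J ∈ (expo (Fin (n + 1)) (d j)).filter (fun J => (j, J) ∉ P),
              algebraMap κ M (if (jj b, I) = (j, J) then 1 else 0) * mon γ J := by
        intro j
        rw [← Finset.sum_filter_add_sum_filter_not (expo (Fin (n + 1)) (d j))
          (fun J => (j, J) ∈ P)]
        refine congrArg₂ (fun z w => z + w) (Finset.sum_congr rfl fun J _ => ?_)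
          (Finset.sum_congr rfl fun J hJ => ?_)
        · rw [haM]
          simp only
          rw [hWκ']
        · rw [Finset.mem_filter] at hJ
          rw [haM]
          simp only
          rw [hWκ', hWa (jj b) I hI j J hJ.1 hJ.2]
      have h5 : ∑ t : ↥P', (Λ b' t.1.1 * mon γ t.1.2) *
            algebraMap κ M (W (jj b) I (a t.1.1 t.1.2) - if (jj b, I) = t.1 then 1 else 0) =
          ∑ j, Λ b' j * (∑ J ∈ (expo (Fin (n + 1)) (d j)).filter (fun J => (j, J) ∈ P),
            (algebraMap κ M (W (jj b) I (a j J))) * mon γ J -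
            ∑ J ∈ (expo (Fin (n + 1)) (d j)).filter (fun J => (j, J) ∈ P),
              algebraMap κ M (if (jj b, I) = (j, J) then 1 else 0) * mon γ J) := by
        have h6 : ∑ t : ↥P', (Λ b' t.1.1 * mon γ t.1.2) *
            algebraMap κ M (W (jj b) I (a t.1.1 t.1.2) - if (jj b, I) = t.1 then 1 else 0) =
            ∑ j, ∑ t ∈ P', (if t.1 = j then Λ b' j *
              (algebraMap κ M (W (jj b) I (a t.1 t.2)) * mon γ t.2 -
              algebraMap κ M (if (jj b, I) = t then 1 else 0) * mon γ t.2) else 0) := by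
          rw [Finset.sum_comm, ← Finset.sum_coe_sort P']
          refine Finset.sum_congr rfl fun t _ => ?_
          rw [Finset.sum_ite_eq, if_pos (Finset.mem_univ _), map_sub]
          ring
        rw [h6]
        refine Finset.sum_congr rfl fun j _ => ?_
        rw [← Finset.sum_filter, ← Finset.sum_sub_distrib, Finset.mul_sum]
        refine Finset.sum_nbij' (fun t => t.2) (fun J => (j, J)) ?_ ?_ ?_ ?_ ?_
        · intro t ht
          rw [Finset.mem_filter, hP', Finset.mem_filter, mem_jexpo] at ht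
          obtain ⟨⟨h7, h8⟩, h9⟩ := ht
          rw [Finset.mem_filter, ← h9]
          exact ⟨h7, h8⟩
        · intro J hJ
          rw [Finset.mem_filter] at hJ
          rw [Finset.mem_filter, hP', Finset.mem_filter, mem_jexpo]
          exact ⟨⟨hJ.1, hJ.2⟩, rfl⟩
        · intro t ht
          rw [Finset.mem_filter] at ht
          rw [← ht.2]
        · intro J hJ
          rfl
        · intro t ht
          rw [Finset.mem_filter] at ht
          rw [← ht.2]
      have h6 : ∀ j, ∑ J ∈ (expo (Fin (n + 1)) (d j)).filter (fun J => (j, J) ∈ P),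
            algebraMap κ M (if (jj b, I) = (j, J) then 1 else 0) * mon γ J +
          ∑ J ∈ (expo (Fin (n + 1)) (d j)).filter (fun J => (j, J) ∉ P),
            algebraMap κ M (if (jj b, I) = (j, J) then 1 else 0) * mon γ J =
          if j = jj b then mon γ I else 0 := by
        intro j
        rw [Finset.sum_filter_add_sum_filter_not]
        by_cases hbb : j = jj b
        · rw [if_pos hbb, Finset.sum_eq_single I]
          · rw [if_pos (by rw [hbb]), map_one, one_mul]
          · intro J _ hJ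
            rw [if_neg, map_zero, zero_mul]
            intro h7
            exact hJ (congrArg Prod.snd h7).symm
          · intro h
            rw [hbb] at h
            exact absurd hI h
        · rw [if_neg hbb]
          refine Finset.sum_eq_zero fun J _ => ?_
          rw [if_neg, map_zero, zero_mul]
          intro h7
          exact hbb (congrArg Prod.fst h7).symm
      have h7 : ∑ j, Λ b' j * (if j = jj b then mon γ I else 0) =
          if b' = b then mon γ I else 0 := by
        rw [Finset.sum_eq_single (jj b)]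
        · rw [if_pos rfl, hΛ]
          split_ifs
          · rw [one_mul]
          · rw [zero_mul]
        · intro j _ hj
          rw [if_neg hj, mul_zero]
        · intro h
          exact absurd (Finset.mem_univ _) h
      have h8 : (if b' = b then - mon γ I else 0) = - (if b' = b then mon γ I else 0) := by
        split_ifs
        · rfl
        · rw [neg_zero]
      rw [h5, h8, ← h7, ← Finset.sum_neg_distrib, ← Finset.sum_neg_distrib,
        ← Finset.sum_add_distrib]
      refine Finset.sum_congr rfl fun j _ => ?_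
      rw [h4 j, ← h6 j]
      ring) hindM hT hγT
    (hDT D fun u => by rw [hkM, hDκ'])
    (fun i => hDT _ fun u => by rw [hkM, hEκ, hδk, map_zero])
    (fun b I _ => hDT _ fun u => by rw [hkM, hWκ', hWk, map_zero])
  have hgen' : pointField (RatFunc κ) γ = ⊤ := by
    rw [eq_top_iff, ← hgen, IntermediateField.adjoin_le_iff, Set.singleton_subset_iff]
    have hmem : ∀ ξ : Fin (n + 1) → κ, (∑ j, φ (ξ j) * γ j) / γ l ∈ pointField (RatFunc κ) γ := by
      intro ξ
      rw [Finset.sum_div]
      refine sum_mem fun j _ => ?_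
      rw [mul_div_assoc]
      refine mul_mem ?_ (IntermediateField.subset_adjoin _ _ ⟨j, l, rfl⟩)
      have h5 : φ (ξ j) = algebraMap (RatFunc κ) M (algebraMap κ[X] (RatFunc κ) (C (ξ j))) := by
        rw [← IsScalarTower.algebraMap_apply κ[X] (RatFunc κ) M, hφ,
          IsScalarTower.algebraMap_apply κ κ[X] M]
        rfl
      rw [h5]
      exact (pointField (RatFunc κ) γ).algebraMap_mem _
    have h6 : Y = ((∑ j, φ (ξ₂ j) * γ j) / γ l) / ((∑ j, φ (ξ₀ j) * γ j) / γ l) := by
      rw [r0, r2]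
      field_simp
    rw [h6]
    exact div_mem (hmem ξ₂) (hmem ξ₀)
  have hram := ram_le hγ hgen'
  have hfin' : (Module.finrank (RatFunc κ) M : ℤ) ≤ b := by
    rw [hfin]
    exact_mod_cast hfdeg.trans hboxA.1
  have h8 : 2 * ((Module.finrank (RatFunc κ) M : ℤ) - 1) * height κ γ ≤
      2 * ((b : ℤ) - 1) * height κ γ := by
    apply mul_le_mul_of_nonneg_right _ hpos.le
    linarith
  have h9 : (Fintype.card ↥P' : ℤ) * height κ γ ≤ (s : ℤ) * height κ γ :=
    mul_le_mul_of_nonneg_right (by exact_mod_cast hP'c) hpos.le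
  have h10 : ((∑ b, (d (jj b) : ℤ)) + m + 2 + ρ) * height κ γ ≤
      (2 * (r + 1) + s + 2 * (b - 1)) * height κ γ := by
    linarith
  have h11 := le_of_mul_le_mul_right h10 hpos
  have hB1 : (Finset.univ.image jj).card = ρ := by
    rw [Finset.card_image_of_injective _ hjj, Finset.card_univ, Fintype.card_fin]
  have hB2 : ∑ j ∈ Finset.univ.image jj, d j = ∑ b, d (jj b) :=
    Finset.sum_image fun x _ y _ h => hjj h
  have hd' := hd _ hB1
  rw [hB2] at hd'
  have h12 : ((2 * r + 2 * b + s : ℕ) : ℤ) ≤ (((∑ b, d (jj b)) + m' + ρ : ℕ) : ℤ) := by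
    exact_mod_cast hd'
  have h13 : (m' : ℤ) ≤ m + 1 := by exact_mod_cast hm'
  push_cast at h12
  linarith

end Pool.Agent.Lib.MP_44a246_ntC
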