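import Mathlib
import Pool.Agent.Lib.MP_44a246_ntD.D10
import Pool.Agent.Lib.MP_44a246_ntC.C18
import Pool.Agent.Lib.MP_44a246_ntQ.Q10

/-!
Compactness, for points with `m` algebraically independent coordinates, if all but `s` of the
coefficients of the forms are algebraically independent.
-/

namespace Pool.Agent.Lib.MP_44a246_ntC

open Pool.Agent.Lib.MP_44a246_ntK
open Pool.Agent.Lib.MP_44a246_ntR
open Pool.Agent.Lib.MP_44a246_ntD
open Pool.Agent.Lib.MP_44a246_ntQ
open Pool.Agent.Lib.MP_e52354_nt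
open Pool.Agent.Lib.MP_44a246_nt
open Pool.Agent.Lib.MP_44a246_ntL
open Pool.Agent.Lib.MP_44a246_ntS
open Pool.Agent.Lib.MP_44a246_ntG
open Pool.Agent.Lib.MP_44a246_ntU

/-- the germs of the values of a form -/
theorem germ_Fval {k₂ L Ω : Type*} [Field k₂] [Field L] [Algebra k₂ L] [Field Ω] [Algebra k₂ Ω]
    (ψ : UP L →+* Ω) (hψ : ∀ u : k₂, ψ (constHom (algebraMap k₂ L u)) = algebraMap k₂ Ω u) {n : ℕ}
    (d : ℕ) (a : (Fin n →₀ ℕ) → k₂) (x : ℕ → Fin n → L) :
    ψ (germHom (fun N => Fval d (fun I => algebraMap k₂ L (a I)) (x N))) =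
      Fval d (fun I => algebraMap k₂ Ω (a I)) (fun l => ψ (germHom (fun N => x N l))) := by
  rw [← aeval_formOf, germ_aeval ψ hψ]
  congr 2
  funext N
  rw [aeval_formOf]

/-- The contradiction in an algebraically closed extension of the ultrapower. -/
private theorem excER_aux {k k₂ L : Type*} [Field k] [CharZero k] [Field k₂] [CharZero k₂]
    [Field L] [CharZero L] [Algebra k k₂] [Algebra k₂ L] [Algebra k L] [IsScalarTower k k₂ L]
    {Ω : Type*} [Field Ω] [IsAlgClosed Ω] [CharZero Ω] [Algebra k₂ Ω] [Algebra k Ω]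
    [IsScalarTower k k₂ Ω]
    (ψ : UP L →+* Ω) (hψ : ∀ u : k₂, ψ (constHom (algebraMap k₂ L u)) = algebraMap k₂ Ω u)
    {n m p r b s ρ : ℕ} {d : Fin p → ℕ}
    (hd : ∀ B : Finset (Fin p), B.card = ρ →
      2 * r + 2 * b + s ≤ (∑ j ∈ B, d j) + m + ρ) {ι : Type*} [Finite ι] {e : ι → ℕ}
    {f : ι → MvPolynomial (Fin p ⊕ Fin (n + 1)) k}
    (hf : ∀ i, (f i).IsWeightedHomogeneous (wtP (n + 1) d) (e i))
    (hI : ringKrullDim (MvPolynomial (Fin (n + 1)) k ⧸ imI f) ≤ ((r + 1 : ℕ) : ℕ))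
    {a : Fin p → (Fin (n + 1) →₀ ℕ) → k₂}
    {P : Finset (Fin p × (Fin (n + 1) →₀ ℕ))} (hP : P.card ≤ s)
    (ha : AlgebraicIndependent k (fun s : {s // s ∈ jexpo n d ∧ s ∉ P} => a s.1.1 s.1.2))
    {l : Fin (n + 1)} {j : Fin m → Fin (n + 1)}
    {z : ℕ → Fin m → L} {x : ℕ → Fin (n + 1) → L}
    (hz : ∀ H : MvPolynomial (Fin m) k₂, H ≠ 0 →
      ∃ N₀, ∀ N ≥ N₀, MvPolynomial.aeval (z N) H ≠ 0)
    (hx1 : ∀ N, CertV e (aWP d (fun j I => algebraMap k₂ L (a j I)) f) b (x N))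
    (hxn : ∀ N, JRank ρ f (Sum.elim (fun i => Fval (d i) (fun I => algebraMap k₂ L (a i I)) (x N))
      (x N) : Fin p ⊕ Fin (n + 1) → L)) (hx2 : ∀ N, x N l = 1)
    (hx3 : ∀ N i, z N i = x N (j i)) : False := by
  have hψk : ∀ u : k, ψ (constHom (algebraMap k L u)) = algebraMap k Ω u := by
    intro u
    rw [IsScalarTower.algebraMap_apply k k₂ L, hψ, ← IsScalarTower.algebraMap_apply k k₂ Ω]
  have hcg := certV_map ψ (certV_germ hx1)
  have hx0 : germHom (fun N => x N l) = 1 := by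
    have : (fun N => x N l) = 1 := funext fun N => hx2 N
    rw [this, map_one]
  have hA : (fun (i : ι) (I : Fin (n + 1) →₀ ℕ) =>
      ψ (constHom (aWP d (fun j I => algebraMap k₂ L (a j I)) f i I))) =
      aWP d (fun j I => algebraMap k₂ Ω (a j I)) f := by
    funext i I
    refine (map_aWP d (fun j I => algebraMap k₂ L (a j I)) (ψ.comp constHom) hψk f i I).trans ?_
    refine congrFun (congrFun (aWP_congr (fun j I _ => ?_) f) i) I
    exact hψ _
  rw [hA] at hcg
  have hJ : JRank ρ f (Sum.elim (fun i => Fval (d i) (fun I => algebraMap k₂ Ω (a i I))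
      (fun l => ψ (germHom (fun N => x N l)))) (fun l => ψ (germHom (fun N => x N l))) :
        Fin p ⊕ Fin (n + 1) → Ω) := by
    have h1 := JRank.germ ψ hψk hxn
    have h2 : (fun s => ψ (germHom (fun N => (Sum.elim (fun i => Fval (d i)
        (fun I => algebraMap k₂ L (a i I)) (x N)) (x N) : Fin p ⊕ Fin (n + 1) → L) s))) =
        (Sum.elim (fun i => Fval (d i) (fun I => algebraMap k₂ Ω (a i I))
        (fun l => ψ (germHom (fun N => x N l)))) (fun l => ψ (germHom (fun N => x N l))) :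
          Fin p ⊕ Fin (n + 1) → Ω) := by
      funext s
      rcases s with s | s
      · exact germ_Fval ψ hψ (d s) (a s) x
      · rfl
    rw [h2] at h1
    exact h1
  refine no_certER_closed hd hf hI (l := l) (j := j) hP ?_ (k₂ := k₂) (a₂ := a)
    (fun j I _ => rfl) ?_ ?_ hJ hcg
  · have h1 := ha.map' (f := IsScalarTower.toAlgHom k k₂ Ω) (algebraMap k₂ Ω).injective
    exact h1
  · show ψ (germHom (fun N => x N l)) ≠ 0
    rw [hx0, map_one]
    exact one_ne_zero
  · have h1 := algIndep_germV ψ hψ (z := z) hz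
    convert h1 using 1
    funext i
    show ψ (germHom (fun N => x N (j i))) / ψ (germHom (fun N => x N l)) =
      ψ (germHom (fun N => z N i))
    rw [hx0, map_one, div_one]
    congr 2
    funext N
    exact (hx3 N i).symm

private theorem excER_aux2 {k k₂ L : Type*} [Field k] [CharZero k] [Field k₂] [CharZero k₂]
    [Field L] [CharZero L] [Algebra k k₂] [Algebra k₂ L] [Algebra k L] [IsScalarTower k k₂ L]
    {Ω : Type*} [Field Ω] [IsAlgClosed Ω] [CharZero Ω]
    (ψ : UP L →+* Ω)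
    {n m p r b s ρ : ℕ} {d : Fin p → ℕ}
    (hd : ∀ B : Finset (Fin p), B.card = ρ →
      2 * r + 2 * b + s ≤ (∑ j ∈ B, d j) + m + ρ) {ι : Type*} [Finite ι] {e : ι → ℕ}
    {f : ι → MvPolynomial (Fin p ⊕ Fin (n + 1)) k}
    (hf : ∀ i, (f i).IsWeightedHomogeneous (wtP (n + 1) d) (e i))
    (hI : ringKrullDim (MvPolynomial (Fin (n + 1)) k ⧸ imI f) ≤ ((r + 1 : ℕ) : ℕ))
    {a : Fin p → (Fin (n + 1) →₀ ℕ) → k₂}
    {P : Finset (Fin p × (Fin (n + 1) →₀ ℕ))} (hP : P.card ≤ s)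
    (ha : AlgebraicIndependent k (fun s : {s // s ∈ jexpo n d ∧ s ∉ P} => a s.1.1 s.1.2))
    {l : Fin (n + 1)} {j : Fin m → Fin (n + 1)}
    {z : ℕ → Fin m → L} {x : ℕ → Fin (n + 1) → L}
    (hz : ∀ H : MvPolynomial (Fin m) k₂, H ≠ 0 →
      ∃ N₀, ∀ N ≥ N₀, MvPolynomial.aeval (z N) H ≠ 0)
    (hx1 : ∀ N, CertV e (aWP d (fun j I => algebraMap k₂ L (a j I)) f) b (x N))
    (hxn : ∀ N, JRank ρ f (Sum.elim (fun i => Fval (d i) (fun I => algebraMap k₂ L (a i I)) (x N))
      (x N) : Fin p ⊕ Fin (n + 1) → L)) (hx2 : ∀ N, x N l = 1)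
    (hx3 : ∀ N i, z N i = x N (j i)) : False := by
  let _ : Algebra k₂ Ω := (ψ.comp (constHom.comp (algebraMap k₂ L))).toAlgebra
  let _ : Algebra k Ω := ((algebraMap k₂ Ω).comp (algebraMap k k₂)).toAlgebra
  have t : IsScalarTower k k₂ Ω := IsScalarTower.of_algebraMap_eq fun u => rfl
  exact excER_aux ψ (fun u => rfl) hd hf hI hP ha hz hx1 hxn hx2 hx3

/-- **Compactness.** -/
theorem exists_excER {k K L : Type*} [Field k] [CharZero k] [Countable k] [Field K] [CharZero K]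
    [Field L] [CharZero L] [Algebra k K] [Algebra K L] [Algebra k L] [IsScalarTower k K L]
    {n m p r b s ρ : ℕ} {d : Fin p → ℕ}
    (hd : ∀ B : Finset (Fin p), B.card = ρ →
      2 * r + 2 * b + s ≤ (∑ j ∈ B, d j) + m + ρ) {ι : Type*} [Finite ι] {e : ι → ℕ}
    {f : ι → MvPolynomial (Fin p ⊕ Fin (n + 1)) k}
    (hf : ∀ i, (f i).IsWeightedHomogeneous (wtP (n + 1) d) (e i))
    (hI : ringKrullDim (MvPolynomial (Fin (n + 1)) k ⧸ imI f) ≤ ((r + 1 : ℕ) : ℕ))
    {a : Fin p → (Fin (n + 1) →₀ ℕ) → K}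
    {P : Finset (Fin p × (Fin (n + 1) →₀ ℕ))} (hP : P.card ≤ s)
    (ha : AlgebraicIndependent k (fun s : {s // s ∈ jexpo n d ∧ s ∉ P} => a s.1.1 s.1.2))
    (l : Fin (n + 1)) (j : Fin m → Fin (n + 1)) :
    ∃ g : MvPolynomial (Fin m) K, g ≠ 0 ∧ ∀ x : Fin (n + 1) → L,
      CertV e (aWP d (fun j I => algebraMap K L (a j I)) f) b x →
      JRank ρ f (Sum.elim (fun i => Fval (d i) (fun I => algebraMap K L (a i I)) x) x :
        Fin p ⊕ Fin (n + 1) → L) → x l ≠ 0 →
        MvPolynomial.aeval (fun i => x (j i) / x l) g = 0 := by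
  classical
  -- the field of the coefficients
  set k₂ : IntermediateField k K := IntermediateField.adjoin k
    (Set.range fun I : ↥(jexpo n d) => a I.1.1 I.1.2) with hk₂
  have hc2 : Countable k₂ := countable_adjoin _
  obtain ⟨a₂, ha₂⟩ : ∃ a₂ : Fin p → (Fin (n + 1) →₀ ℕ) → k₂,
      ∀ j, ∀ I ∈ expo (Fin (n + 1)) (d j), (a₂ j I : K) = a j I :=
    ⟨fun j I => if hI : I ∈ expo (Fin (n + 1)) (d j) then ⟨a j I,
      IntermediateField.subset_adjoin k _ ⟨⟨(j, I), mem_jexpo.2 hI⟩, rfl⟩⟩ else 0,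
      fun j I hI => by simp only [dif_pos hI]⟩
  have ha' : AlgebraicIndependent k
      (fun s : {s // s ∈ jexpo n d ∧ s ∉ P} => a₂ s.1.1 s.1.2) := by
    refine AlgebraicIndependent.of_comp k₂.val ?_
    have h1 : (k₂.val ∘ fun s : {s // s ∈ jexpo n d ∧ s ∉ P} => a₂ s.1.1 s.1.2) =
        fun s : {s // s ∈ jexpo n d ∧ s ∉ P} => a s.1.1 s.1.2 := by
      funext I
      exact ha₂ I.1.1 I.1.2 (mem_jexpo.1 I.2.1)
    rw [h1]
    exact ha
  set S : Set (Fin m → L) := {z | ∃ x : Fin (n + 1) → L,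
    CertV e (aWP d (fun j I => algebraMap K L (a j I)) f) b x ∧
      JRank ρ f (Sum.elim (fun i => Fval (d i) (fun I => algebraMap K L (a i I)) x) x :
        Fin p ⊕ Fin (n + 1) → L) ∧ x l = 1 ∧
      ∀ i : Fin m, z i = x (j i)} with hS
  have key : ∃ g : MvPolynomial (Fin m) K, g ≠ 0 ∧ ∀ z ∈ S, MvPolynomial.aeval z g = 0 := by
    by_contra hcon
    push Not at hcon
    obtain ⟨z, hzS, hz⟩ := exists_generic_seqC (k := k₂) (L := L) (S := S) fun g hg => by
      obtain ⟨z, hz1, hz2⟩ := hcon g hg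
      exact ⟨z, hz1, hz2⟩
    choose x hx1 hxn hx2 hx3 using hzS
    have hcU : CharZero (UP L) := charZero_of_injective_ringHom (constHom (L := L)).injective
    have hcΩ : CharZero (AlgebraicClosure (UP L)) :=
      charZero_of_injective_ringHom (algebraMap (UP L) (AlgebraicClosure (UP L))).injective
    have hA : aWP d (fun j I => algebraMap K L (a j I)) f =
        aWP d (fun j I => algebraMap k₂ L (a₂ j I)) f := by
      refine aWP_congr (fun j I hI => ?_) f
      rw [← ha₂ j I hI]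
      rfl
    have hxn' : ∀ N, JRank ρ f (Sum.elim (fun i => Fval (d i)
        (fun I => algebraMap k₂ L (a₂ i I)) (x N)) (x N) : Fin p ⊕ Fin (n + 1) → L) := by
      intro N
      have h1 := hxn N
      have h2 : (fun i => Fval (d i) (fun I => algebraMap K L (a i I)) (x N)) =
          fun i => Fval (d i) (fun I => algebraMap k₂ L (a₂ i I)) (x N) := by
        funext i
        unfold Fval
        refine Finset.sum_congr rfl fun I hI => ?_
        beta_reduce
        rw [← ha₂ i I hI]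
        rfl
      rw [h2] at h1
      exact h1
    rw [hA] at hx1
    exact excER_aux2 (a := a₂) (l := l) (j := j) (z := z) (x := x)
      (algebraMap (UP L) (AlgebraicClosure (UP L))) hd hf hI hP ha' hz hx1 hxn' hx2 hx3
  obtain ⟨g, hg0, hg⟩ := key
  refine ⟨g, hg0, fun x hx hxn hx0 => ?_⟩
  refine hg _ ⟨fun k => (x l)⁻¹ * x k, (certV_smul (inv_ne_zero hx0)).2 hx,
    ?_, inv_mul_cancel₀ hx0,
    fun i => div_eq_inv_mul _ _⟩
  have h1 := hxn.smul hf (inv_ne_zero hx0)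
  have h2 : (Sum.elim (fun i => Fval (d i) (fun I => algebraMap K L (a i I))
      (fun k => (x l)⁻¹ * x k)) (fun k => (x l)⁻¹ * x k) : Fin p ⊕ Fin (n + 1) → L) =
      Sum.elim (fun j => (x l)⁻¹ ^ d j * (Sum.elim (fun i => Fval (d i)
        (fun I => algebraMap K L (a i I)) x) x : Fin p ⊕ Fin (n + 1) → L) (Sum.inl j))
        (fun k => (x l)⁻¹ * (Sum.elim (fun i => Fval (d i)
        (fun I => algebraMap K L (a i I)) x) x : Fin p ⊕ Fin (n + 1) → L) (Sum.inr k)) := by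
    funext s
    rcases s with s | s
    · simp only [Sum.elim_inl]
      rw [Fval_smul]
    · rfl
  rw [h2]
  exact h1

end Pool.Agent.Lib.MP_44a246_ntC
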