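import Mathlib
import Pool.Agent.Lib.MP_44a246_ntC.C25

/-!
The height theorem for several forms, with logarithmic rows: the data of the curve.
-/

namespace Pool.Agent.Lib.MP_44a246_ntC

open Pool.Agent.Lib.MP_44a246_ntK
open Pool.Agent.Lib.MP_44a246_ntF
open Pool.Agent.Lib.MP_e52354_ntF
open Pool.Agent.Lib.MP_44a246_nt
open Pool.Agent.Lib.MP_44a246_ntL
open Pool.Agent.Lib.MP_44a246_ntS
open Pool.Agent.Lib.MP_44a246_ntX
open Pool.Agent.Lib.MP_44a246_ntG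
open Pool.Agent.Lib.MP_44a246_ntD
open Pool.Agent.Lib.MP_e52354_nt
open WithZero Module Polynomial

section

variable {κ L : Type*} [Field κ] [IsAlgClosed κ] [CharZero κ] [Field L] [Algebra κ L]

/-- there is a curve of degree at most `b` and of small height through the point -/
def SmallC {n d : ℕ} (X : DatG κ (L := L) n d) (b q : ℕ) : Prop :=
  ∃ (a : ℕ) (A : L[X][X]), 1 ≤ a ∧ a ≤ b ∧ CrvG X a A ∧
    7 * (gh κ A * (d : ℤ) ^ 2) ≤ 200 * (((q + 3 : ℕ) : ℤ) * height κ X.x) ∧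
    7 * ((d : ℤ) ^ 2 * gh κ A) ≤ (d : ℤ) ^ 2 * X.Δ + 20 * X.R

/-- **The curve in one block.** -/
theorem smallC_blockL [CharZero L] (h : IsFF κ L) {n r r₀ d b m q : ℕ}
    {Λ : Type*} [Fintype Λ]
    (hm : 1 ≤ m) (h10 : 10 * b ^ 2 ≤ d) (h150 : 150 * (b * m) ≤ d)
    (hq : 100 * (b * (q + 3)) + 10 * Fintype.card Λ ≤ d) (hrd : r ≤ m * d) (X : DatG κ (L := L) n d)
    {γ : Type*} [Fintype γ] {β : γ → L} (hβ : ∀ t, ∀ w : Place κ L, w.1 (β t) ≤ 1)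
    {η : Λ → L} (hη : ∀ k, η k ≠ 0) {t : Λ → ℕ} {ε : Place κ L → ℕ}
    (hε : (Function.support ε).Finite)
    (hηε : ∀ w : Place κ L, (∀ k, w.1 (η k) = vmax w.1 X.x ^ t k) ∨ 1 ≤ ε w)
    (hv : X.row X.v ∈ X.Ux ⊔ (RB X β ⊔ LB X η)) (hr₀ : finrank L X.Ux ≤ r₀)
    (hrr : r₀ + (Fintype.card γ + Fintype.card Λ) ≤ r) {E₀ : ℤ} (hE₀ : 0 ≤ E₀)
    (hR : X.R + ∑ᶠ w, (ε w : ℤ) ≤ q * height κ X.x + E₀)
    (hA : ∃ (a : ℕ) (A : MvPolynomial (Fin 3) L), a ≤ b ∧ A ≠ 0 ∧ A.IsHomogeneous a ∧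
        MvPolynomial.eval X.p A = 0 ∧ 21 * (a * (m * polyHeight κ A)) ≤ height κ X.x)
    (hbig' : 27 * (d : ℤ) ^ 2 * (X.Δ + E₀) < height κ X.x) :
    SmallC X b q := by
  have hΔ := X.Δ_nonneg
  have hΔE : 0 ≤ X.Δ + E₀ := add_nonneg hΔ hE₀
  have hpos : 0 < height κ X.x := lt_of_le_of_lt (mul_nonneg (by positivity) hΔE) hbig'
  have hvVJ : ∀ {b : ℕ} {A : L[X][X]}, CrvG X b A → ∀ {J : Finset (Fin (n + 1))} {N : ℕ},
      finrank L (X.VJ J b A ⊔ (RB X β ⊔ LB X η) : Submodule L (M3 d → L)) ≤ N →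
      ht κ (X.VJ J b A ⊔ (RB X β ⊔ LB X η)) ≤
        N * (2 * gh κ A + 3 * X.Δ) + gh κ A + (((q + 3 : ℕ) : ℤ) - 1) * height κ X.x +
          (X.Δ + E₀) := by
    intro b A hA J N hVN
    have h1 := ht_VJBL_le X hA h hβ hη hε hηε hVN
    push_cast
    linarith
  have hW : finrank L (RB X β ⊔ LB X η : Submodule L (M3 d → L)) ≤
      Fintype.card γ + Fintype.card Λ := by
    refine (Submodule.finrank_add_le_finrank_add_finrank _ _).trans (add_le_add ?_ ?_)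
    · exact finrank_range_le_card _
    · exact finrank_range_le_card _
  obtain ⟨a₁, A, P, ha1, hab, hCA, hmon, hP, hPirr, hPA, hα21, hα⟩ :=
    small_curve_blockW h hm h10 h150 (show 3 ≤ q + 3 by omega) (by omega) hrd X hW hr₀ hrr hv
      (E := X.Δ + E₀) hA hvVJ (by linarith) hbig'
  have h10a : 10 * a₁ ^ 2 ≤ d :=
    (Nat.mul_le_mul_left _ (Nat.pow_le_pow_left hab 2)).trans h10
  have h150a : 150 * (a₁ * m) ≤ d :=
    (Nat.mul_le_mul_left _ (Nat.mul_le_mul_right _ hab)).trans h150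
  have h100a : 100 * (a₁ * (q + 3)) + 10 * Fintype.card Λ ≤ d :=
    (add_le_add_left (Nat.mul_le_mul_left _ (Nat.mul_le_mul_right _ hab)) _).trans hq
  have hαΔ := gh_le_blockW h ha1 hm h10a h150a (show 3 ≤ q + 3 by omega) h100a hrd X hCA hmon hP
    hPirr hPA hβ hr₀ hrr hv (E := X.Δ + E₀) (fun {J N} hJN => hvVJ hCA hJN) (by linarith) hbig'
    hα21 hα
  exact ⟨a₁, A, ha1, hab, hCA, hα, hαΔ⟩

/-- the height of the equations restricted to the curve -/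
theorem smallC_small (h : IsFF κ L) {n d b q M : ℕ} (hb : 1 ≤ b) (hq : 100 * (b * (q + 3)) ≤ d)
    (X : DatG κ (L := L) n d) {a : ℕ} {A : L[X][X]} (ha1 : 1 ≤ a) (hab : a ≤ b) (hCA : CrvG X a A)
    (hα : 7 * (gh κ A * (d : ℤ) ^ 2) ≤ 200 * (((q + 3 : ℕ) : ℤ) * height κ X.x))
    (hαΔ : 7 * ((d : ℤ) ^ 2 * gh κ A) ≤ (d : ℤ) ^ 2 * X.Δ + 20 * X.R) {Θ : ℤ} (hΘ : 0 ≤ Θ)
    (hbig : (d : ℤ) ^ 2 * ((27 * d ^ 2 + 2 * b * M) * (X.Δ + Θ)) + 9 * b * M * X.R <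
      (d : ℤ) ^ 2 * height κ X.x) {e : ℕ} (he : 100 * (b * (q + 3) * e) ≤ d ^ 2 ∨ e ≤ M) :
    (e * a : ℤ) * gh κ A + a * (Θ + e * (2 * gh κ A + X.Δ)) < height κ X.x := by
  have hΔ := X.Δ_nonneg
  have hR0 := X.R_nonneg
  have hbs3 : 3 * b ≤ b * (q + 3) := by
    rw [mul_comm 3 b]
    exact Nat.mul_le_mul_left _ (by omega)
  have hd1 : 1 ≤ d := by omega
  have h300 : (300 : ℤ) * b ≤ d := by
    have : 300 * b ≤ d := by omega
    exact_mod_cast this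
  have ha1' : (1 : ℤ) ≤ a := by exact_mod_cast ha1
  have hab' : (a : ℤ) ≤ b := by exact_mod_cast hab
  have hs3' : (3 : ℤ) ≤ ((q + 3 : ℕ) : ℤ) := by
    push_cast
    linarith [Int.natCast_nonneg q]
  have hα0 : 0 ≤ gh κ A := gh_nonneg h hCA.irr.ne_zero
  have hd2' : (0 : ℤ) < (d : ℤ) ^ 2 := by
    have : (1 : ℤ) ≤ d := by exact_mod_cast hd1
    positivity
  have hM0 : (0 : ℤ) ≤ 2 * b * M := by positivity
  have hM1 : (0 : ℤ) ≤ 9 * b * M * X.R := mul_nonneg (by positivity) hR0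
  have hbig4 : 27 * (d : ℤ) ^ 2 * (X.Δ + Θ) < height κ X.x := by
    have h1 : (27 * (d : ℤ) ^ 2 + 2 * b * M) * (X.Δ + Θ) < height κ X.x := by
      refine lt_of_mul_lt_mul_left ?_ hd2'.le
      linarith
    have h2 : 0 ≤ (2 * b * M : ℤ) * (X.Δ + Θ) := mul_nonneg hM0 (add_nonneg hΔ hΘ)
    linarith
  have hpos : 0 < height κ X.x :=
    lt_of_le_of_lt (mul_nonneg (by positivity) (add_nonneg hΔ hΘ)) hbig4
  rcases he with hei | hei
  · exact numC5 ha1' hab' (Int.natCast_nonneg e) hs3' h300 (by exact_mod_cast hei) hpos hα0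
      hΔ hΘ hα hbig4
  · exact numC6 ha1' hab' (Int.natCast_nonneg e) (by exact_mod_cast hei) h300 hΔ hΘ hR0 hα0
      hαΔ hbig

end

/-- **The height theorem for several forms**, with logarithmic rows: the curve. -/
theorem smallC_joint {κ L : Type*} [Field κ] [IsAlgClosed κ] [CharZero κ] [Field L] [CharZero L]
    [Algebra κ L] (h : IsFF κ L) {n p r r₀ b q g M D d₀ : ℕ} {d m : Fin p → ℕ} (hb : 1 ≤ b)
    {Λ : Type*} [Fintype Λ]
    (hm : ∀ j, 1 ≤ m j) (h10 : ∀ j, 10 * b ^ 2 ≤ d j) (hr : ∀ j, r ≤ m j * d j)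
    (h150 : ∀ j, 150 * (b * m j) ≤ d j)
    (hq : ∀ j, 100 * (b * (q + 3)) + 10 * Fintype.card Λ ≤ d j)
    (hN : ∀ A : Finset (Fin p), A.card = g →
      21 * r + 20 * b * (r₀ + 2 + q + 12 * b * ∑ j ∈ A, m j + 2 * b * g) ≤
        20 * b * (∑ j ∈ A, d j + g))
    (hd₀ : ∀ j, d₀ ≤ d j) (hd₀1 : 1 ≤ d₀) (hD : ∀ j, d j ≤ D) (X : DatC κ (L := L) n d)
    {γ : Type*} [Fintype γ] {β : γ → L} (hβ : ∀ t, ∀ w : Place κ L, w.1 (β t) ≤ 1)
    {η : Λ → L} (hη : ∀ k, η k ≠ 0) {t : Λ → ℕ} {ε : Place κ L → ℕ}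
    (hε : (Function.support ε).Finite)
    (hηε : ∀ w : Place κ L, (∀ k, w.1 (η k) = vmax w.1 X.x ^ t k) ∨ 1 ≤ ε w)
    (hQ : g ≤ finrank L ((fU X ⊔ fB X β ⊔ MP_44a246_ntR.fL X η) ⊓ MP_44a246_ntR.xsp d X.x :
      Submodule L (ES (n + 1) d → L)))
    (hr₀' : finrank L (fU X) ≤ r₀) (hrr : r₀ + (Fintype.card γ + Fintype.card Λ) ≤ r) {E₀ : ℤ}
    (hE₀ : 0 ≤ E₀) (hR : X.R + ∑ᶠ w, (ε w : ℤ) ≤ q * height κ X.x + E₀)
    {Θ : ℤ} (hΘ : 0 ≤ Θ) :
    (d₀ : ℤ) ^ 2 * height κ X.x ≤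
        (d₀ : ℤ) ^ 2 * ((27 * D ^ 2 + 2 * b * M) * (X.Δ + E₀ + Θ)) +
          9 * b * M * X.R ∨
      ∃ j, SmallC (X.blk j) b q ∧
        (d j : ℤ) ^ 2 * ((27 * d j ^ 2 + 2 * b * M) * (X.Δ + E₀ + Θ)) + 9 * b * M * X.R <
          (d j : ℤ) ^ 2 * height κ X.x := by
  have hΔ := X.Δ_nonneg
  have hR0 := X.R_nonneg
  have hΔE : 0 ≤ X.Δ + E₀ := add_nonneg hΔ hE₀
  rcases le_or_gt ((d₀ : ℤ) ^ 2 * height κ X.x)
    ((d₀ : ℤ) ^ 2 * ((27 * D ^ 2 + 2 * b * M) * (X.Δ + E₀ + Θ)) +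
      9 * b * M * X.R)
    with hle | hbig
  · exact Or.inl hle
  right
  by_contra hcert
  have hd₀' : (1 : ℤ) ≤ d₀ := by exact_mod_cast hd₀1
  have hd₀2 : (0 : ℤ) < (d₀ : ℤ) ^ 2 := by positivity
  have hM1 : (0 : ℤ) ≤ 9 * b * M * X.R := mul_nonneg (by positivity) hR0
  set Y := (27 * (D : ℤ) ^ 2 + 2 * b * M) * (X.Δ + E₀ + Θ) with hY
  have hY1 : Y < height κ X.x := by
    refine lt_of_mul_lt_mul_left ?_ hd₀2.le
    linarith
  have hY0 : 0 ≤ Y := mul_nonneg (by positivity) (add_nonneg hΔE hΘ)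
  have hpos : 0 < height κ X.x := lt_of_le_of_lt hY0 hY1
  have hr₀ : finrank L (gspan X.jF X.x) ≤ r₀ := (finrank_gspan_le_fU X).trans hr₀'
  have hpt : X.pt ≠ 0 := by
    intro h1
    have h2 := congrFun h1 0
    exact one_ne_zero h2
  obtain ⟨A, hA, hAp⟩ := exists_blocks h (finrank_QL X hpt hQ)
  -- the bound in every block
  have hblk : ∀ j, (d j : ℤ) ^ 2 * ((27 * d j ^ 2 + 2 * b * M) *
      (X.Δ + E₀ + Θ)) + 9 * b * M * X.R < (d j : ℤ) ^ 2 * height κ X.x := by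
    intro j
    have e1 : (d₀ : ℤ) ≤ d j := by exact_mod_cast hd₀ j
    have e2 : (d j : ℤ) ≤ D := by exact_mod_cast hD j
    have e3 : (d₀ : ℤ) ^ 2 ≤ (d j : ℤ) ^ 2 := pow_le_pow_left₀ (by linarith) e1 2
    have e4 : (d j : ℤ) ^ 2 ≤ (D : ℤ) ^ 2 := pow_le_pow_left₀ (by linarith) e2 2
    have e5 : (27 * (d j : ℤ) ^ 2 + 2 * b * M) * (X.Δ + E₀ + Θ) ≤ Y :=
      mul_le_mul_of_nonneg_right (by linarith) (add_nonneg hΔE hΘ)
    have e6 : (d j : ℤ) ^ 2 * ((27 * d j ^ 2 + 2 * b * M) * (X.Δ + E₀ + Θ)) ≤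
        (d j : ℤ) ^ 2 * Y := mul_le_mul_of_nonneg_left e5 (by positivity)
    have e7 : (d₀ : ℤ) ^ 2 * (height κ X.x - Y) ≤ (d j : ℤ) ^ 2 * (height κ X.x - Y) :=
      mul_le_mul_of_nonneg_right e3 (by linarith)
    linarith
  -- no block has a curve
  have hnoc : ∀ j ∈ A, 20 * (b : ℤ) * (((d j : ℤ) - 12 * ((b * m j : ℕ) : ℤ) - 2 * b + 1) *
      height κ X.x) ≤ 20 * b * ht κ (piece κ (gall X β η) j) +
        21 * height κ X.x * finrank L (piece κ (gall X β η) j) := by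
    intro j hjA
    have hbu : b ≤ b * m j := Nat.le_mul_of_pos_right _ (hm j)
    have hxi : xi (d j) (X.blk j).p ∈ piece κ (gall X β η) j := hAp j hjA
    have h1 := stepA_block h (X.blk j) (b := b) (u := b * m j) hxi hb hbu
      (by have := h150 j; omega) hpos
    rcases h1 with ⟨a₁, A₁, g1, g2, g3, g4, g5⟩ | h1
    · exfalso
      apply hcert
      have g6 : 21 * (a₁ * (m j * polyHeight κ A₁)) ≤ height κ (X.blk j).x := by
        have hb' : (0 : ℤ) < b := by exact_mod_cast hb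
        refine le_of_mul_le_mul_left (le_of_eq_of_le ?_ g5) hb'
        push_cast
        ring
      have hdj : (1 : ℤ) ≤ (d j : ℤ) ^ 2 := by
        have e1 : (1 : ℤ) ≤ d j := by exact_mod_cast hd₀1.trans (hd₀ j)
        nlinarith
      refine ⟨j, smallC_blockL h (r := r) (r₀ := r₀) (q := q) (hm j) (h10 j) (h150 j) (hq j)
        (hr j) (X.blk j) hβ hη hε hηε (row_v_memL X hxi) ((X.finrank_blk_Ux j).trans hr₀) hrr hE₀
        hR ⟨a₁, A₁, g1, g2, g3, g4, g6⟩ ?_, hblk j⟩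
      have k1 := hblk j
      have k2 : (27 * (d j : ℤ) ^ 2 + 2 * b * M) * (X.Δ + E₀ + Θ) < height κ X.x := by
        refine lt_of_mul_lt_mul_left ?_ (by linarith : (0 : ℤ) ≤ (d j : ℤ) ^ 2)
        linarith
      have k3 : 0 ≤ (2 * b * M : ℤ) * (X.Δ + E₀ + Θ) :=
        mul_nonneg (by positivity) (add_nonneg hΔE hΘ)
      have k4 : 0 ≤ 27 * (d j : ℤ) ^ 2 * Θ := mul_nonneg (by positivity) hΘ
      have k5 : X.Δ = (X.blk j).Δ := rfl
      have k6 : height κ X.x = height κ (X.blk j).x := rfl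
      rw [← k5, ← k6]
      linarith
    · exact h1
  have hfin := finrank_gall X (β := β) (η := η) hr₀ hrr
  obtain ⟨p1, p2⟩ := ht_piece h (gall X β η)
  have hhtU : ht κ (gall X β η) ≤
      (r₀ + 1) * height κ X.x + r * X.Δ + (X.R + ∑ᶠ w, (ε w : ℤ)) := by
    have hx1 : ∀ w : Place κ L, 1 ≤ vmax w.1 X.x := by
      intro w
      have h1 : w.1 (∑ j, (X.ξ₀ j : L) * X.x j) ≤ vmax w.1 X.x := by
        refine w.1.map_sum_le fun j _ => ?_
        rw [map_mul]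
        calc w.1 (X.ξ₀ j : L) * w.1 (X.x j) ≤ 1 * vmax w.1 X.x :=
              mul_le_mul' (natCast_mem w.1.integer _) (le_vmax w.1 X.x j)
          _ = vmax w.1 X.x := one_mul _
      rwa [X.h0, map_one] at h1
    have hx0 : X.x ≠ 0 := by
      intro h1
      have h2 := X.h0
      rw [h1] at h2
      simp at h2
    exact ht_gall X h hx1 hx0 hβ hη hε hηε hr₀ hfin
  have hfinal := numC7L hb hA (hN A hA) hpos hnoc (fun j => ht_nonneg h _) p1 p2 hfin hhtU hR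
  -- the contradiction
  obtain ⟨j⟩ : Nonempty (Fin p) := by
    by_contra hp
    rw [not_nonempty_iff] at hp
    have hp0 : p = 0 := by
      rcases Nat.eq_zero_or_pos p with h0 | h0
      · exact h0
      · exact (hp.false ⟨0, h0⟩).elim
    subst hp0
    have hA0 : A = ∅ := Finset.eq_empty_of_isEmpty A
    have hN' := hN A hA
    rw [hA0, Finset.card_empty] at hA
    rw [hA0, ← hA, Finset.sum_empty, Finset.sum_empty] at hN'
    have : 0 < 20 * b * (r₀ + 2 + q + 12 * b * 0 + 2 * b * 0) := by positivity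
    omega
  have e1 : (r : ℤ) ≤ (d j : ℤ) ^ 2 := by
    have h1 : m j ≤ d j := by
      have h2 := h150 j
      have h3 : m j ≤ b * m j := Nat.le_mul_of_pos_left _ hb
      omega
    have h2 : r ≤ d j ^ 2 := by
      calc r ≤ m j * d j := hr j
        _ ≤ d j * d j := Nat.mul_le_mul_right _ h1
        _ = d j ^ 2 := (sq _).symm
    exact_mod_cast h2
  have e2 : (d j : ℤ) ^ 2 ≤ (D : ℤ) ^ 2 :=
    pow_le_pow_left₀ (by positivity) (by exact_mod_cast hD j) 2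
  have e4 : (1 : ℤ) ≤ (D : ℤ) ^ 2 := by
    have h1 : 1 ≤ d j := hd₀1.trans (hd₀ j)
    have h2 : (1 : ℤ) ≤ D := by exact_mod_cast h1.trans (hD j)
    nlinarith
  have e3 : (r : ℤ) * X.Δ + E₀ ≤ Y := by
    have h1 : (r : ℤ) * X.Δ ≤ (27 * (D : ℤ) ^ 2 + 2 * b * M) * X.Δ := by
      refine mul_le_mul_of_nonneg_right ?_ hΔ
      have h2 : (0 : ℤ) ≤ 2 * b * M := by positivity
      have h3 : (0 : ℤ) ≤ (D : ℤ) ^ 2 := by positivity
      linarith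
    have h2 : 0 ≤ (27 * (D : ℤ) ^ 2 + 2 * b * M) * Θ :=
      mul_nonneg (by positivity) hΘ
    have h4 : 1 * E₀ ≤ (27 * (D : ℤ) ^ 2 + 2 * b * M) * E₀ := by
      refine mul_le_mul_of_nonneg_right ?_ hE₀
      have h5 : (0 : ℤ) ≤ 2 * b * M := by positivity
      linarith
    rw [hY, mul_add, mul_add]
    linarith
  linarith

end Pool.Agent.Lib.MP_44a246_ntC
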