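import Mathlib
import Pool.Agent.Lib.MP_44a246_ntG.G24
import Pool.Agent.Lib.MP_44a246_ntS.SJ5
import Pool.Agent.Lib.MP_44a246_ntS.SQ1c
import Pool.Agent.Lib.MP_44a246_ntY.Y39
import Pool.Agent.Lib.MP_44a246_ntY.Y63
import Pool.Agent.Lib.MP_44a246_ntY.Y64
import Pool.Agent.Lib.MP_44a246_ntY.Y70

/-!
The second main theorem on the curve: a point on a curve of small height, whose image has many
points on the boundary, has small height.
-/

namespace Pool.Agent.Lib.MP_44a246_ntC

open Pool.Agent.Lib.MP_44a246_nt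
open Pool.Agent.Lib.MP_44a246_ntL
open Pool.Agent.Lib.MP_44a246_ntS
open Pool.Agent.Lib.MP_44a246_ntG
open Pool.Agent.Lib.MP_44a246_ntY
open Pool.Agent.Lib.MP_e52354_nt
open WithZero Module Polynomial

universe u v w x y

section

variable {κ L : Type*} [Field κ] [IsAlgClosed κ] [CharZero κ] [Field L] [CharZero L]
  [Algebra κ L] {n d : ℕ} (X : DatG κ (L := L) n d) {b : ℕ} {A : L[X][X]} (hA : CrvG X b A)

/-- the size of the coefficients of the curve and of the boundary restricted to it -/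
noncomputable def tauD (D : ℕ) (A : L[X][X]) (α : Place κ L → ℕ) (w : Place κ L) : ℕ :=
  α w + (2 * D + 1) * (log (gg w.1 A)).toNat + D * X.δ w

private theorem c27_natCast_support {f : Place κ L → ℕ} (hf : (Function.support f).Finite) :
    (Function.support fun w => (f w : ℤ)).Finite := by
  refine hf.subset fun w hw h0 => hw ?_
  simp only
  rw [h0, Nat.cast_zero]

private theorem c27_const_mul_support {f : Place κ L → ℤ} (hf : (Function.support f).Finite)
    (c : ℤ) : (Function.support fun w => c * f w).Finite := by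
  refine hf.subset fun w hw h0 => hw ?_
  simp only
  rw [h0, mul_zero]

private theorem c27_exp_mul_pow (a : ℤ) (m : ℕ) : (exp a : ℤᵐ⁰) ^ m = exp ((m : ℤ) * a) := by
  rw [← exp_nsmul, nsmul_eq_mul]

include hA in
private theorem c27_log_nonneg (w : Place κ L) : 0 ≤ log (gg w.1 A) := by
  have h1 : gg w.1 A ≠ 0 := by
    rw [Ne, gg_eq_zero]
    exact hA.irr.ne_zero
  rw [le_log_iff_exp_le h1, exp_zero]
  exact one_le_gg hA.one w

include hA in
private theorem c27_B_le_exp (j : Fin (n + 1)) (w : Place κ L) :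
    gg w.1 (X.B A j) ≤ exp (2 * log (gg w.1 A) + (X.δ w : ℤ)) := by
  have h1 : gg w.1 A ≠ 0 := by
    rw [Ne, gg_eq_zero]
    exact hA.irr.ne_zero
  have h2 := X.B_le hA j w
  rw [← exp_log h1, ← exp_nsmul, ← exp_add, nsmul_eq_mul, Nat.cast_ofNat] at h2
  exact h2

include hA in
private theorem c27_tauD_cast (D : ℕ) (α : Place κ L → ℕ) (w : Place κ L) :
    (tauD X D A α w : ℤ) =
    (α w : ℤ) + (2 * D + 1) * log (gg w.1 A) + D * (X.δ w : ℤ) := by
  unfold tauD
  push_cast
  rw [Int.toNat_of_nonneg (c27_log_nonneg X hA w)]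

include hA in
theorem tauD_sum (h : IsFF κ L) (D : ℕ) {α : Place κ L → ℕ} (hα : (Function.support α).Finite) :
    (Function.support (tauD X D A α)).Finite ∧ ∑ᶠ w, (tauD X D A α w : ℤ) =
      ∑ᶠ w, (α w : ℤ) + (2 * D + 1) * gh κ A + D * X.Δ := by
  have s1 := c27_natCast_support hα
  have s3 := gg_support h hA.irr.ne_zero
  have s4 := c27_const_mul_support s3 (2 * D + 1)
  have s6 := c27_const_mul_support (c27_natCast_support X.hδ) (D : ℤ)
  have s5 : (Function.support fun w : Place κ L =>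
      (α w : ℤ) + (2 * D + 1) * log (gg w.1 A)).Finite :=
    (s1.union s4).subset (Function.support_add _ _)
  have s7 : (Function.support fun w : Place κ L =>
      (α w : ℤ) + (2 * D + 1) * log (gg w.1 A) + D * (X.δ w : ℤ)).Finite :=
    (s5.union s6).subset (Function.support_add _ _)
  refine ⟨s7.subset fun w hw h0 => hw ?_, ?_⟩
  · have h1 := c27_tauD_cast X hA D α w
    simp only at h0
    rw [h0] at h1
    exact_mod_cast h1
  · have e : (fun w => (tauD X D A α w : ℤ)) = fun w : Place κ L =>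
        (α w : ℤ) + (2 * D + 1) * log (gg w.1 A) + D * (X.δ w : ℤ) :=
      funext fun w => c27_tauD_cast X hA D α w
    rw [e, finsum_add_distrib s5 s6, finsum_add_distrib s1 s4, ← mul_finsum, ← mul_finsum]
    rfl

include hA in
theorem gg_le_tauD {D : ℕ} {c : (Fin (n + 1) →₀ ℕ) → L} {α : Place κ L → ℕ}
    (ha : ∀ I ∈ expo (Fin (n + 1)) D, ∀ w : Place κ L, w.1 (c I) ≤ exp (α w : ℤ))
    (w : Place κ L) : gg w.1 A ≤ exp (tauD X D A α w : ℤ) ∧
      gg w.1 (FB D c (X.B A)) ≤ exp (tauD X D A α w : ℤ) := by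
  have h1 : gg w.1 A ≠ 0 := by
    rw [Ne, gg_eq_zero]
    exact hA.irr.ne_zero
  have h2 := c27_log_nonneg X hA w
  have hd0 : (0 : ℤ) ≤ D := Int.natCast_nonneg _
  have hα0 : (0 : ℤ) ≤ α w := Int.natCast_nonneg _
  have hδ0 : (0 : ℤ) ≤ X.δ w := Int.natCast_nonneg _
  have hdl : 0 ≤ (D : ℤ) * log (gg w.1 A) := mul_nonneg hd0 h2
  have hdδ : 0 ≤ (D : ℤ) * (X.δ w : ℤ) := mul_nonneg hd0 hδ0
  rw [c27_tauD_cast X hA D α w]
  constructor
  · rw [← log_le_iff_le_exp h1]
    nlinarith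
  · refine (FB_le w.1 (fun I hI => ha I hI w) (fun j => c27_B_le_exp X hA j w)).trans ?_
    rw [c27_exp_mul_pow, ← exp_add, exp_le_exp]
    nlinarith

include hA in
theorem FB_valueD (D : ℕ) (a : (Fin (n + 1) →₀ ℕ) → L) :
    (FB D a (X.B A)).evalEval X.y₁ X.y =
    (derivative A).evalEval X.y₁ X.y ^ D * Fval D a X.x := by
  rw [FB_eval]
  have h1 : (fun j => (X.B A j).evalEval X.y₁ X.y) =
      fun j => (derivative A).evalEval X.y₁ X.y * X.x j := by
    funext j
    rw [X.B_eval hA j]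
  rw [h1]
  set c := (derivative A).evalEval X.y₁ X.y with hc
  unfold Fval
  rw [Finset.mul_sum]
  refine Finset.sum_congr rfl fun I hI => ?_
  have hdeg : ∑ j, I j = D := by
    have := mem_expo.1 hI
    rwa [Finsupp.degree_eq_sum] at this
  have h3 : mon (fun j => c * X.x j) I = c ^ D * mon X.x I := by
    unfold mon
    simp only [mul_pow]
    rw [Finset.prod_mul_distrib, Finset.prod_pow_eq_pow_sum, hdeg]
  rw [h3]
  ring

variable {M : Type*} [Field M] [IsAlgClosed M] [Algebra L M]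

include hA in
/-- **The certificate, or many points**, for a boundary of degree `D`. -/
theorem certLD_or (h : IsFF κ L) {τ : Place κ L → ℕ} (hτ : (Function.support τ).Finite)
    {ι : Type*} {e : ι → ℕ} {v : ι → (Fin (n + 1) →₀ ℕ) → L}
    (hv : ∀ i, ∀ I ∈ expo (Fin (n + 1)) (e i), ∀ w : Place κ L, w.1 (v i I) ≤ exp (τ w : ℤ))
    (hz : ∀ i, Fval (e i) (v i) X.x = 0)
    (hh : ∀ i, (e i * b : ℤ) * gh κ A + b * (∑ᶠ w, (τ w : ℤ) + e i * (2 * gh κ A + X.Δ)) <
      height κ X.x)
    (hlin : (b : ℤ) * gh κ A + b * (2 * gh κ A + X.Δ) < height κ X.x) (D : ℕ)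
    (c : (Fin (n + 1) →₀ ℕ) → L) :
    CertLV e (fun i I => algebraMap L M (v i I)) D (fun I => algebraMap L M (c I)) b
      (fun j => algebraMap L M (X.x j)) ∨
    ∃ (A₁ : M[X][X]) (E : Finset (M × M)), Irreducible A₁ ∧ A₁ ∣ ex M A ∧ A₁.natDegree ≠ 0 ∧
      A₁.evalEval (algebraMap L M X.y₁) (algebraMap L M X.y) = 0 ∧
      (∀ p ∈ E, A₁.evalEval p.1 p.2 = 0 ∧ (derivative (ex M A)).evalEval p.1 p.2 ≠ 0 ∧
        (ex M (FB D c (X.B A))).evalEval p.1 p.2 = 0) ∧
      2 * A₁.natDegree + A₁.natDegree * (A₁.natDegree - 1) / 2 < E.card := by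
  classical
  obtain ⟨l0, l1, l2⟩ := dvd_lin X hA h hlin
  have hBd : ∀ j, (X.B A j).natDegree ≤ b := fun j => (X.B_box hA j).1
  have hFv : ∀ i, A ∣ FB (e i) (v i) (X.B A) := fun i =>
    dvd_of_small X hA h (FB_natDegree hBd) (gh_FB X hA h hτ (hv i)) (FB_zero X hA (hz i)) (hh i)
  have hev : ∀ P : L[X][X], (ex M P).evalEval (algebraMap L M X.y₁) (algebraMap L M X.y) =
      algebraMap L M (P.evalEval X.y₁ X.y) := fun P => m2_evalEval _ P _ _
  have hder : derivative (ex M A) = ex M (derivative A) := (m2_derivative _ A).symm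
  have hz : (ex M A).evalEval (algebraMap L M X.y₁) (algebraMap L M X.y) = 0 := by
    rw [hev, hA.zero, map_zero]
  have hdne : (derivative (ex M A)).evalEval (algebraMap L M X.y₁) (algebraMap L M X.y) ≠ 0 := by
    rw [hder, hev]
    exact (_root_.map_ne_zero _).2 hA.der
  obtain ⟨A₁, h1, h2, h3, h4, h5⟩ := Pool.Agent.Lib.MP_44a246_ntS.exists_factor hz hdne
  have hA0 : ex M A ≠ 0 := by
    intro h0
    rw [h0] at hdne
    simp at hdne
  by_cases hE : ∀ E : Finset (M × M),
      (∀ p ∈ E, A₁.evalEval p.1 p.2 = 0 ∧ (derivative A₁).evalEval p.1 p.2 ≠ 0 ∧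
        (derivative (ex M A)).evalEval p.1 p.2 ≠ 0 ∧
        (FB D (fun I => algebraMap L M (c I)) (fun j => ex M (X.B A j))).evalEval p.1 p.2 = 0) →
      E.card ≤ 2 * A₁.natDegree + A₁.natDegree * (A₁.natDegree - 1) / 2
  · left
    have hboxA : Box b (ex M A) := hA.box.m2 (algebraMap L M)
    have hmap : ∀ (c : Fin (n + 1) → L) (Q : L[X][X]), A ∣ ∑ j, C (C (c j)) * X.B A j - Q →
        A₁ ∣ ∑ j, C (C (algebraMap L M (c j))) * ex M (X.B A j) - ex M Q := by
      intro c Q hQ
      have h6 := map_dvd (m2 (algebraMap L M)) hQ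
      rw [map_sub, map_sum] at h6
      simp only [map_mul, m2_CC] at h6
      exact h4.trans h6
    refine ⟨A₁, derivative (ex M A), fun j => ex M (X.B A j), fun j => algebraMap L M (X.ξ₀ j : L),
      fun j => algebraMap L M (X.ξ₁ j : L), fun j => algebraMap L M (algebraMap κ L (X.z j)), 1,
      algebraMap L M X.y₁, algebraMap L M X.y, h1, Box.of_dvd hboxA hA0 h4, ?_,
      fun j => (X.B_box hA j).m2 (algebraMap L M), one_ne_zero, ?_, ?_, ?_, h5, ?_, hdne, ?_,
      ?_, ?_, ?_, ?_, hE⟩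
    · exact box_derivative' hboxA
    · simp only [one_mul, ← map_mul, ← map_sum]
      rw [X.h0, map_one]
    · simp only [one_mul, ← map_mul, ← map_sum]
      rfl
    · simp only [one_mul, ← map_mul, ← map_sum]
      rfl
    · -- `ex M A = A₁ * U`
      obtain ⟨U, hU⟩ := h4
      intro h0
      apply hdne
      rw [hU, derivative_mul, evalEval_add, evalEval_mul, evalEval_mul, h0, h5, zero_mul, zero_mul,
        add_zero]
    · intro j
      rw [one_mul, hder, hev, hev, ← map_mul, X.B_eval hA j]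
    · intro i
      rw [← ex_FB]
      exact h4.trans (map_dvd (m2 (algebraMap L M)) (hFv i))
    · have := hmap (fun j => (X.ξ₀ j : L)) (derivative A) l0
      rwa [hder]
    · have := hmap (fun j => (X.ξ₁ j : L)) (C Polynomial.X * derivative A) l1
      rw [hder]
      have e1 : ex M (C Polynomial.X * derivative A) = C Polynomial.X * ex M (derivative A) := by
        simp [ex_eq_m2, m2]
      rwa [e1] at this
    · have := hmap (fun j => algebraMap κ L (X.z j)) (Polynomial.X * derivative A) l2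
      rw [hder]
      have e1 : ex M (Polynomial.X * derivative A) = Polynomial.X * ex M (derivative A) := by
        simp [ex_eq_m2, m2]
      rwa [e1] at this
  · right
    push Not at hE
    obtain ⟨E, hE1, hE2⟩ := hE
    refine ⟨A₁, E, h1, h4, h2.ne', h5, fun p hp => ?_, hE2⟩
    obtain ⟨p1, -, p3, p4⟩ := hE1 p hp
    refine ⟨p1, p3, ?_⟩
    rw [ex_FB]
    exact p4

end

/-- forms of degree zero -/
theorem Fval_zero_deg {L : Type*} [Field L] {n : ℕ} (a : (Fin n →₀ ℕ) → L) (z : Fin n → L) :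
    Fval 0 a z = a 0 := by
  have h1 : expo (Fin n) 0 = {0} := by
    ext I
    rw [mem_expo, Finset.mem_singleton]
    constructor
    · intro h
      rwa [Finsupp.degree_eq_zero_iff] at h
    · rintro rfl
      simp
  unfold Fval
  rw [h1, Finset.sum_singleton]
  simp [mon]

/-- **The second main theorem on the curve.** -/
theorem curve_smt {κ : Type u} {K : Type v} [Field κ] [IsAlgClosed κ] [CharZero κ] [Field K]
    [Algebra κ K] (hK : IsFF κ K) :
    ∃ C : ℕ, ∀ (L : Type w) (M : Type x) [Field L] [CharZero L] [Algebra κ L] [Algebra K L]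
      [IsScalarTower κ K L] [FiniteDimensional K L] [Field M] [Algebra κ M] [Algebra L M]
      [IsScalarTower κ L M] [IsAlgClosed M] [Algebra.IsAlgebraic L M]
      {n d b D : ℕ} (X : DatG κ (L := L) n d) {a : ℕ} {A : L[X][X]} (_ : CrvG X a A) (_ : a ≤ b)
      {ι : Type y} {e : ι → ℕ} {v : ι → (Fin (n + 1) →₀ ℕ) → L}
      (_ : ∀ i, Fval (e i) (v i) X.x = 0)
      {c : (Fin (n + 1) →₀ ℕ) → L} (_ : Fval D c X.x ≠ 0)
      {ε α τ : Place κ L → ℕ} (_ : (Function.support ε).Finite) (_ : (Function.support α).Finite)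
      (_ : (Function.support τ).Finite)
      (_ : ∀ w : Place κ L, w.1 (Fval D c X.x) = vmax w.1 X.x ^ D ∨ 1 ≤ ε w)
      (_ : ∀ I ∈ expo (Fin (n + 1)) D, ∀ w : Place κ L, w.1 (c I) ≤ exp (α w : ℤ))
      (_ : ∀ i, ∀ I ∈ expo (Fin (n + 1)) (e i), ∀ w : Place κ L, w.1 (v i I) ≤ exp (τ w : ℤ))
      (_ : ∀ i, (e i * a : ℤ) * gh κ A + a * (∑ᶠ w, (τ w : ℤ) + e i * (2 * gh κ A + X.Δ)) <
        height κ X.x)
      (_ : (a : ℤ) * gh κ A + a * (2 * gh κ A + X.Δ) < height κ X.x),
      (D ≠ 0 ∧ height κ X.x ≤ cE b (D * b) D * (∑ᶠ w, (ε w : ℤ) + (ramDeg κ L K : ℤ) +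
        C * finrank K L + (∑ᶠ w, (α w : ℤ) + (2 * D + 1) * gh κ A + D * X.Δ))) ∨
      CertLV e (fun i I => algebraMap L M (v i I)) D (fun I => algebraMap L M (c I)) b
        (fun j => algebraMap L M (X.x j)) := by
  classical
  obtain ⟨C, hC⟩ := moving_curve_rel.{u, v, w, x} hK
  refine ⟨C, ?_⟩
  intro L M _ _ _ _ _ _ _ _ _ _ _ _ n d b D X a A hCA hab ι e v hz c hc ε α τ hε hα hτ hεv ha
    hva hh hlin
  have hL : IsFF κ L := hK.of_finite
  rcases certLD_or (M := M) X hCA hL hτ hva hz hh hlin D c with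
    hcert | ⟨A₁, E, h1, h2, h3, h4, h5, h6⟩
  · exact Or.inr (hcert.mono hab)
  left
  have hD0 : D ≠ 0 := by
    rintro rfl
    obtain ⟨p, hp⟩ : E.Nonempty := Finset.card_pos.1 (by omega)
    obtain ⟨-, -, h7⟩ := h5 p hp
    rw [ex_FB, FB_eval, Fval_zero_deg] at h7
    rw [Fval_zero_deg] at hc
    exact hc ((map_eq_zero _).1 h7)
  refine ⟨hD0, ?_⟩
  obtain ⟨t1, t2⟩ := tauD_sum X hCA hL D hα
  have hval := FB_valueD X hCA D c
  have hPhi : (FB D c (X.B A)).evalEval X.y₁ X.y ≠ 0 := by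
    rw [hval]
    exact mul_ne_zero (pow_ne_zero _ hCA.der) hc
  have hle : ∀ w : Place κ L, w.1 X.y ≤ max 1 (w.1 X.y₁) := by
    intro w
    rw [← X.vmax_x w]
    unfold DatG.y
    refine Valuation.map_sum_le _ fun j _ => ?_
    rw [map_mul]
    refine le_trans (mul_le_mul' ?_ (le_vmax w.1 X.x j)) (le_of_eq (one_mul _))
    by_cases hz : X.z j = 0
    · rw [hz, map_zero, map_zero]
      exact zero_le
    · exact (w.2.2 _ hz).le
  have hP : ∀ w : Place κ L, w ∉ hε.toFinset →
      w.1 ((derivative A).evalEval X.y₁ X.y) ^ D ≤ w.1 ((FB D c (X.B A)).evalEval X.y₁ X.y) := by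
    intro w hw
    rw [Set.Finite.mem_toFinset, Function.mem_support, not_not] at hw
    have h7 : w.1 (Fval D c X.x) = vmax w.1 X.x ^ D := by
      rcases hεv w with h8 | h8
      · exact h8
      · omega
    rw [hval, map_mul, map_pow, h7]
    exact le_mul_of_one_le_right' (one_le_pow₀ (X.one_le_vmax w))
  have hboxb : Box b A := ⟨hCA.box.1.trans hab, fun i => (hCA.box.2 i).trans hab⟩
  have hboxB : ∀ j, Box b (X.B A j) := fun j =>
    ⟨(X.B_box hCA j).1.trans hab, fun i => ((X.B_box hCA j).2 i).trans hab⟩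
  have hmain := hC L M (tauD X D A α) t1 b (D * b) D A (FB D c (X.B A)) hCA.irr
    hCA.deg hboxb (box_FB D c hboxB) (fun w => (gg_le_tauD X hCA ha w).1)
    (fun w => (gg_le_tauD X hCA ha w).2) X.y₁ X.y hCA.zero hPhi hle hε.toFinset hP A₁ h1 h2 h3
    h4 E h5 h6
  rw [X.height_y₁, t2] at hmain
  have hcard : (hε.toFinset.card : ℤ) ≤ ∑ᶠ w, (ε w : ℤ) := by
    rw [finsum_eq_sum_of_support_subset (s := hε.toFinset) _ (by
      intro w hw
      rw [Function.mem_support] at hw
      rw [Set.Finite.coe_toFinset, Function.mem_support]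
      exact_mod_cast hw)]
    rw [Finset.card_eq_sum_ones]
    push_cast
    refine Finset.sum_le_sum fun w hw => ?_
    rw [Set.Finite.mem_toFinset, Function.mem_support] at hw
    have : 1 ≤ ε w := by omega
    exact_mod_cast this
  refine hmain.trans ?_
  refine mul_le_mul_of_nonneg_left ?_ (Int.natCast_nonneg _)
  linarith

end Pool.Agent.Lib.MP_44a246_ntC
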