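import Mathlib
import Pool.Agent.Lib.MP_44a246_ntC.C26
import Pool.Agent.Lib.MP_44a246_ntC.C27
import Pool.Agent.Lib.MP_44a246_ntC.C28

/-!
The height theorem over the base field for pairs: points of large height lie on curves of small
degree which have few points on the boundary, or the truncated counting function is large.
-/

namespace Pool.Agent.Lib.MP_44a246_ntC

open Pool.Agent.Lib.MP_44a246_ntR
open Pool.Agent.Lib.MP_44a246_ntD
open Pool.Agent.Lib.MP_44a246_ntF
open Pool.Agent.Lib.MP_44a246_ntQ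
open Pool.Agent.Lib.MP_44a246_nt
open Pool.Agent.Lib.MP_44a246_ntL
open Pool.Agent.Lib.MP_44a246_ntV
open Pool.Agent.Lib.MP_44a246_ntS
open Pool.Agent.Lib.MP_44a246_ntX
open Pool.Agent.Lib.MP_44a246_ntG
open Pool.Agent.Lib.MP_44a246_ntU
open Pool.Agent.Lib.MP_44a246_ntZ
open Pool.Agent.Lib.MP_44a246_ntK
open Pool.Agent.Lib.MP_44a246_ntY
open Pool.Agent.Lib.MP_e52354_nt
open WithZero Module

universe u v w x y

/-- products of weighted homogeneous polynomials -/
theorem prod_wh {k : Type*} [Field k] {n p q : ℕ} {d : Fin p → ℕ}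
    {g : Fin q → MvPolynomial (Fin p ⊕ Fin n) k} {E : Fin q → ℕ}
    (hg : ∀ l, (g l).IsWeightedHomogeneous (wtP n d) (E l)) :
    (∏ l, g l).IsWeightedHomogeneous (wtP n d) (∑ l, E l) :=
  MvPolynomial.IsWeightedHomogeneous.prod Finset.univ g E fun l _ => hg l

/-- the value of a product of forms -/
theorem Fval_prod {k L : Type*} [Field k] [Field L] [Algebra k L] {n p q : ℕ} {d : Fin p → ℕ}
    {g : Fin q → MvPolynomial (Fin p ⊕ Fin n) k} {E : Fin q → ℕ}
    (hg : ∀ l, (g l).IsWeightedHomogeneous (wtP n d) (E l)) (a : Fin p → (Fin n →₀ ℕ) → L)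
    (x : Fin n → L) :
    Fval (∑ l, E l) (aWP d a (fun _ : Unit => ∏ l, g l) ()) x =
      ∏ l, Fval (E l) (aWP d a g l) x := by
  have h1 := Fval_aWP' (e := fun _ : Unit => ∑ l, E l) (f := fun _ : Unit => ∏ l, g l)
    (fun _ => prod_wh hg) a x ()
  rw [h1, map_prod]
  exact Finset.prod_congr rfl fun l _ => (Fval_aWP' hg a x l).symm

/-- **The height theorem over the base field for pairs.** -/
theorem heightP_baseC {κ : Type u} {K : Type v} [Field κ] [IsAlgClosed κ] [CharZero κ] [Field K]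
    [CharZero K] [Algebra κ K] (hK : IsFF κ K) (htr : Cardinal.aleph0 ≤ Algebra.trdeg ℚ κ)
    {k : Type*} [Field k] [CharZero k] [Algebra k K]
    (hk : Algebra.trdeg ℚ k < Cardinal.aleph0) {n p r ρ c b s M q D d₀ : ℕ} {d m : Fin p → ℕ}
    (hb : 1 ≤ b)
    (hm : ∀ j, 1 ≤ m j) (h10 : ∀ j, 10 * b ^ 2 ≤ d j) (hr : ∀ j, r + (c + q) ≤ m j * d j)
    (h150 : ∀ j, 150 * (b * m j) ≤ d j)
    (hs : ∀ j, 100 * (b * (s + 3)) + 10 * q ≤ d j)
    (hN : ∀ A : Finset (Fin p), A.card = ρ + q →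
      21 * (r + (c + q)) + 20 * b * (r + 2 + s + 12 * b * ∑ j ∈ A, m j + 2 * b * (ρ + q)) ≤
        20 * b * (∑ j ∈ A, d j + (ρ + q)))
    (hd₀ : ∀ j, d₀ ≤ d j) (hd₀1 : 1 ≤ d₀)
    {ι : Type y} [Finite ι] {e : ι → ℕ} (he : ∀ i, 100 * (b * (s + 3) * e i) ≤ d₀ ^ 2 ∨ e i ≤ M)
    {f : ι → MvPolynomial (Fin p ⊕ Fin (n + 1)) k}
    (hf : ∀ i, (f i).IsWeightedHomogeneous (wtP (n + 1) d) (e i))
    (hI : ringKrullDim (MvPolynomial (Fin (n + 1)) k ⧸ imI f) ≤ ((r + 1 : ℕ) : ℕ))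
    {g : Fin q → MvPolynomial (Fin p ⊕ Fin (n + 1)) k} {E : Fin q → ℕ}
    (hg : ∀ l, (g l).IsWeightedHomogeneous (wtP (n + 1) d) (E l)) (hE : ∑ l, E l = D)
    {S : Set (Place κ K)} (hS : S.Finite)
    {a : Fin p → (Fin (n + 1) →₀ ℕ) → K} {G : Finset (Fin p × (Fin (n + 1) →₀ ℕ))}
    (hcc : G.card ≤ c)
    (ha : AlgebraicIndependent k (fun s : {s // s ∈ jexpo n d ∧ s ∉ G} => a s.1.1 s.1.2)) :
    ∃ C : ℕ, ∀ (L : Type w) [Field L] [Algebra K L] [FiniteDimensional K L]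
      [Algebra κ L] [IsScalarTower κ K L] [Algebra k L] [IsScalarTower k K L]
      (x : Fin (n + 1) → L), x ≠ 0 →
      (∀ i, Fval (e i) (aWP d (fun j I => algebraMap K L (a j I)) f i) x = 0) →
      (∀ l, Fval (E l) (aWP d (fun j I => algebraMap K L (a j I)) g l) x ≠ 0) →
      (JRank (ρ + q) (Sum.elim f g) (Sum.elim
        (fun j => Fval (d j) (fun I => algebraMap K L (a j I)) x) x : Fin p ⊕ Fin (n + 1) → L) ∨
        (q = 0 ∧ ρ = p ∧ NDegP f x)) →
      s * height κ x < Set.ncard {w : Place κ L |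
          (∀ v ∈ S, ¬ (w.1.comap (algebraMap K L)).IsEquiv v.1) ∧
          ∃ l, w.1 (Fval (E l) (aWP d (fun j I => algebraMap K L (a j I)) g l) x) <
            vmax w.1 x ^ E l} + ramDeg κ L K ∨
        (d₀ : ℤ) ^ 2 * height κ x ≤ C * finrank K L + (9 * b * M : ℕ) * ramDeg κ L K ∨
        (D ≠ 0 ∧ height κ x ≤ C * finrank K L + cE b (D * b) D * (Set.ncard {w : Place κ L |
          (∀ v ∈ S, ¬ (w.1.comap (algebraMap K L)).IsEquiv v.1) ∧
          ∃ l, w.1 (Fval (E l) (aWP d (fun j I => algebraMap K L (a j I)) g l) x) <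
            vmax w.1 x ^ E l} + (2 * D + 2) * ramDeg κ L K)) ∨
        (CertV e (aWP d (fun j I => algebraMap K L (a j I)) f) b x ∧
          ∀ (F : Type x) [Field F] [Algebra κ F] [Algebra L F] [IsScalarTower κ L F]
            [IsAlgClosed F] [Algebra.IsAlgebraic L F],
            CertLV e (fun i I => algebraMap L F
              (aWP d (fun j I => algebraMap K L (a j I)) f i I)) D
              (fun I => algebraMap L F (aWP d (fun j I => algebraMap K L (a j I))
                (fun _ : Unit => ∏ l, g l) () I)) b (fun j => algebraMap L F (x j))) := by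
  classical
  have := Fintype.ofFinite ι
  have hcq : Fintype.card (Fin q) = q := Fintype.card_fin q
  obtain ⟨C, β, hCb⟩ := exists_dataC.{u, v, w} (Λ := Fin q) (ρ := ρ) hK htr hk hf hI hg hS ha
  obtain ⟨C₁, hC₁⟩ := curve_smt.{u, v, w, x, y} hK
  -- the poles of the coefficients of the boundary
  obtain ⟨A, hAs, hA⟩ := Pool.Agent.Lib.MP_44a246_ntV.exists_polesA hK
    (fun t : ↥(expo (Fin (n + 1)) D) => aWP d a (fun _ : Unit => ∏ l, g l) () t.1)
  obtain ⟨Dd, hDd⟩ : ∃ Dd : ℕ, ∀ j, d j ≤ Dd := ⟨∑ j, d j, fun j =>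
    Finset.single_le_sum (f := d) (fun _ _ => Nat.zero_le _) (Finset.mem_univ j)⟩
  refine ⟨d₀ ^ 2 * ((27 * Dd ^ 2 + 2 * b * M) * (3 * C)) +
    cE b (D * b) D * (C + C₁ + (∑ᶠ v, A v) + (3 * D + 1) * C), ?_⟩
  intro L _ _ _ _ _ _ _ x hx hfx hgx hne
  rw [hcq] at hCb
  obtain ⟨Y, c', ε, τ, η, hc, hYx, hh, hΔ, hR, hηv, hη, hε, hηε, hεs, hv, hr', hτ, hτs, hco, hz⟩ :=
    hCb L x hx hfx hgx hne
  have hL : IsFF κ L := hK.of_finite
  have hchar : CharZero L := charZero_of_injective_algebraMap (algebraMap K L).injective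
  set N := Set.ncard {w : Place κ L |
          (∀ v ∈ S, ¬ (w.1.comap (algebraMap K L)).IsEquiv v.1) ∧
          ∃ l, w.1 (Fval (E l) (aWP d (fun j I => algebraMap K L (a j I)) g l) x) <
            vmax w.1 x ^ E l} with hNdef
  rcases lt_or_ge (s * height κ x) ((N : ℤ) + (ramDeg κ L K : ℤ)) with hle | hgt
  · exact Or.inl hle
  right
  have hfr : (0 : ℤ) ≤ finrank K L := Int.natCast_nonneg _
  have hE₀ : (0 : ℤ) ≤ C * finrank K L := by positivity
  have hN0 : (0 : ℤ) ≤ N := Int.natCast_nonneg _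
  have hR0 : (0 : ℤ) ≤ ramDeg κ L K := Int.natCast_nonneg _
  have hΔ0 := Y.Δ_nonneg
  have hΘ : 0 ≤ ∑ᶠ w, (τ w : ℤ) := finsum_nonneg fun w => Int.natCast_nonneg _
  have hcE0 : (0 : ℤ) ≤ (cE b (D * b) D : ℤ) := Int.natCast_nonneg _
  have hd₀2 : (0 : ℤ) ≤ (d₀ : ℤ) ^ 2 := by positivity
  have hmain := smallC_joint hL (n := n) (r := r + (c + q)) (r₀ := r) (b := b) (q := s)
    (g := ρ + q) (M := M) (D := Dd) (d₀ := d₀) (d := d) (m := m) hb (Λ := Fin q) hm h10 hr h150
    (by rwa [hcq]) hN hd₀ hd₀1 hDd Y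
    (β := fun s : ↥G => algebraMap κ L (β s)) (fun s w => place_const_le w _) hη hε hηε
    hv hr' (by rw [Fintype.card_coe, hcq]; omega) hE₀ (by rw [hR, hh]; linarith) hΘ
  rcases hmain with h | ⟨j, ⟨a₁, A₁, ha1, hab, hCA, hα, hαΔ⟩, hbig⟩
  · left
    rw [hh, hR] at h
    have h1 : Y.Δ + C * finrank K L + ∑ᶠ w, (τ w : ℤ) ≤ 3 * (C * finrank K L) := by linarith
    have h2 := mul_le_mul_of_nonneg_left h1
      (show (0 : ℤ) ≤ (d₀ : ℤ) ^ 2 * (27 * Dd ^ 2 + 2 * b * M) by positivity)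
    have h5 : (0 : ℤ) ≤ (cE b (D * b) D * (C + C₁ + ((∑ᶠ v, A v : ℕ) : ℤ) +
      (3 * D + 1) * C)) * finrank K L := by positivity
    push_cast
    linarith
  · -- the data of the curve
    have hΔj : (Y.blk j).Δ = Y.Δ := rfl
    have hRj : (Y.blk j).R = Y.R := rfl
    have hxj : (Y.blk j).x = Y.x := rfl
    have hsj := hs j
    have hΔE : 0 ≤ Y.Δ + C * finrank K L := add_nonneg hΔ0 hE₀
    have hbig' : ∀ Θ' : ℤ, 0 ≤ Θ' → Θ' ≤ ∑ᶠ w, (τ w : ℤ) →
        (d j : ℤ) ^ 2 * ((27 * d j ^ 2 + 2 * b * M) * ((Y.blk j).Δ + Θ')) +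
          9 * b * M * (Y.blk j).R < (d j : ℤ) ^ 2 * height κ (Y.blk j).x := by
      intro Θ' h0 h1
      rw [hΔj, hRj, hxj]
      refine lt_of_le_of_lt ?_ hbig
      have h2 : (d j : ℤ) ^ 2 * ((27 * d j ^ 2 + 2 * b * M) * (Y.Δ + Θ')) ≤
          (d j : ℤ) ^ 2 * ((27 * d j ^ 2 + 2 * b * M) *
            (Y.Δ + C * finrank K L + ∑ᶠ w, (τ w : ℤ))) :=
        mul_le_mul_of_nonneg_left (mul_le_mul_of_nonneg_left (by linarith) (by positivity))
          (by positivity)
      linarith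
    have hhi : ∀ i, (e i * a₁ : ℤ) * gh κ A₁ + a₁ * (∑ᶠ w, (τ w : ℤ) +
        e i * (2 * gh κ A₁ + (Y.blk j).Δ)) < height κ (Y.blk j).x := by
      intro i
      refine smallC_small hL (M := M) hb (by omega) (Y.blk j) ha1 hab hCA hα hαΔ hΘ
        (hbig' _ hΘ le_rfl) ?_
      rcases he i with h2 | h2
      · left
        exact h2.trans (Nat.pow_le_pow_left (hd₀ j) 2)
      · exact Or.inr h2
    have hlin : (a₁ : ℤ) * gh κ A₁ + a₁ * (2 * gh κ A₁ + (Y.blk j).Δ) <
        height κ (Y.blk j).x := by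
      have h1 := smallC_small hL (M := M) (e := 1) hb (by omega) (Y.blk j) ha1 hab hCA hα hαΔ
        (le_refl (0 : ℤ)) (hbig' 0 le_rfl hΘ) (Or.inl (by
          rw [mul_one]
          have h2 : 1 ≤ d j := hd₀1.trans (hd₀ j)
          calc 100 * (b * (s + 3)) ≤ d j := by omega
            _ = d j * 1 := (mul_one _).symm
            _ ≤ d j * d j := Nat.mul_le_mul_left _ h2
            _ = d j ^ 2 := (sq _).symm))
      push_cast at h1
      linarith
    have hval : Fval D (aWP d (fun j I => algebraMap K L (a j I)) (fun _ : Unit => ∏ l, g l) ())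
        Y.x = ∏ l, η l := by
      rw [← hE, Fval_prod hg]
      exact Finset.prod_congr rfl fun l _ => (hηv l).symm
    have hne0 : Fval D (aWP d (fun j I => algebraMap K L (a j I)) (fun _ : Unit => ∏ l, g l) ())
        (Y.blk j).x ≠ 0 := by
      rw [hxj, hval]
      exact Finset.prod_ne_zero_iff.2 fun l _ => hη l
    obtain ⟨hA1, hA2⟩ := mason_sum_over hL hAs
    have hαf : (Function.support fun w : Place κ L => ramIdx K w.1 * A (below K w)).Finite := by
      refine hA1.subset fun w hw h0 => hw ?_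
      exact Int.natCast_eq_zero.1 h0
    have hεD : ∀ w : Place κ L, w.1 (Fval D (aWP d (fun j I => algebraMap K L (a j I))
        (fun _ : Unit => ∏ l, g l) ()) (Y.blk j).x) = vmax w.1 (Y.blk j).x ^ D ∨ 1 ≤ ε w := by
      intro w
      rcases hηε w with h1 | h1
      · left
        rw [hxj, hval, map_prod, Finset.prod_congr rfl (fun l _ => h1 l),
          Finset.prod_pow_eq_pow_sum, hE]
      · exact Or.inr h1
    have hcoef : ∀ I ∈ expo (Fin (n + 1)) D, ∀ w : Place κ L,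
        w.1 (aWP d (fun j I => algebraMap K L (a j I)) (fun _ : Unit => ∏ l, g l) () I) ≤
          exp ((ramIdx K w.1 * A (below K w) : ℕ) : ℤ) := by
      intro I hI w
      rw [← map_aWP d a (algebraMap K L) (fun u =>
        (IsScalarTower.algebraMap_apply k K L u).symm) _ () I]
      exact coef_le A (fun v => hA ⟨I, hI⟩ v) w
    by_cases hsm : D ≠ 0 ∧ height κ x ≤ (((d₀ ^ 2 * ((27 * Dd ^ 2 + 2 * b * M) * (3 * C)) +
        cE b (D * b) D * (C + C₁ + (∑ᶠ v, A v) + (3 * D + 1) * C) : ℕ) : ℤ) *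
        finrank K L + cE b (D * b) D * (N + (2 * D + 2) * ramDeg κ L K))
    · exact Or.inr (Or.inl hsm)
    refine Or.inr (Or.inr ⟨?_, ?_⟩)
    · have h1 := CertV_mono hab (stepC (Y.blk j) hCA hL hτ hco hz hhi hlin)
      rw [hxj, hYx] at h1
      exact (Pool.Agent.Lib.MP_44a246_ntU.certV_smul hc).1 h1
    · intro F _ _ _ _ _ _
      rcases hC₁ L F (D := D) (b := b) (Y.blk j) hCA hab hz hne0 hε hαf hτ hεD hcoef hco hhi hlin
        with ⟨hD0, h⟩ | h
      · exfalso
        rw [hxj, hh, hΔj, hA2] at h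
        refine hsm ⟨hD0, ?_⟩
        -- the height of the curve
        have hgh : gh κ A₁ ≤ C * finrank K L + ramDeg κ L K := by
          rw [hΔj, hRj, hR] at hαΔ
          have e1 : (20 : ℤ) ≤ (d j : ℤ) ^ 2 := by
            have h2 : (100 : ℤ) ≤ d j := by
              have h3 : 1 ≤ b * (s + 3) := Nat.mul_pos hb (by omega)
              have : 100 ≤ d j := by omega
              exact_mod_cast this
            nlinarith
          have e2 : (20 : ℤ) * ramDeg κ L K ≤ (d j : ℤ) ^ 2 * ramDeg κ L K :=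
            mul_le_mul_of_nonneg_right e1 hR0
          have e3 : (d j : ℤ) ^ 2 * (7 * gh κ A₁) ≤ (d j : ℤ) ^ 2 * (Y.Δ + ramDeg κ L K) := by
            linarith
          have e4 : 7 * gh κ A₁ ≤ Y.Δ + ramDeg κ L K :=
            le_of_mul_le_mul_left e3 (by linarith)
          have e5 : 0 ≤ gh κ A₁ := gh_nonneg hL hCA.irr.ne_zero
          linarith
        have hD' : (0 : ℤ) ≤ D := Int.natCast_nonneg _
        have e1 : (2 * (D : ℤ) + 1) * gh κ A₁ ≤ (2 * D + 1) * (C * finrank K L + ramDeg κ L K) :=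
          mul_le_mul_of_nonneg_left hgh (by positivity)
        have e2 : (D : ℤ) * Y.Δ ≤ D * (C * finrank K L) := mul_le_mul_of_nonneg_left hΔ hD'
        have e3 : ∑ᶠ w, (ε w : ℤ) + (ramDeg κ L K : ℤ) + C₁ * finrank K L +
            (((∑ᶠ v, A v : ℕ) : ℤ) * finrank K L + (2 * D + 1) * gh κ A₁ + D * Y.Δ) ≤
            (C + C₁ + ((∑ᶠ v, A v : ℕ) : ℤ) + (3 * D + 1) * C) * finrank K L +
              (N + (2 * D + 2) * ramDeg κ L K) := by
          linarith
        have e4 := h.trans (mul_le_mul_of_nonneg_left e3 hcE0)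
        have e7 : (0 : ℤ) ≤ (d₀ : ℤ) ^ 2 * ((27 * Dd ^ 2 + 2 * b * M) * (3 * C)) *
            finrank K L := by positivity
        push_cast
        linarith
      · rw [hxj, hYx] at h
        have h4 := h.smul_of (r := (algebraMap L F c')⁻¹) (inv_ne_zero ((map_ne_zero _).2 hc))
        have h5 : (fun j => (algebraMap L F c')⁻¹ * algebraMap L F (c' * x j)) =
            fun j => algebraMap L F (x j) := by
          funext j
          rw [map_mul, inv_mul_cancel_left₀ ((map_ne_zero _).2 hc)]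
        rwa [h5] at h4

/-- **The height theorem over the base field for pairs**, with simplified conditions. -/
theorem heightP_baseCl {κ : Type u} {K : Type v} [Field κ] [IsAlgClosed κ] [CharZero κ] [Field K]
    [CharZero K] [Algebra κ K] (hK : IsFF κ K) (htr : Cardinal.aleph0 ≤ Algebra.trdeg ℚ κ)
    {k : Type*} [Field k] [CharZero k] [Algebra k K]
    (hk : Algebra.trdeg ℚ k < Cardinal.aleph0) {n p r ρ c b l s P Q q m : ℕ} {d : Fin p → ℕ}
    (hb : 1 ≤ b) (hl : 1 ≤ l) (hp : 1 ≤ p)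
    (hms : ∀ A : Finset (Fin p), A.card = ρ + q → m + s ≤ ∑ j ∈ A, d j)
    (hd : ∀ j, 10 * b ^ 2 ≤ d j ∧ r + c + q ≤ l * d j ∧ 150 * (b * l) ≤ d j ∧
      100 * (b * (s + 3)) + 10 * q ≤ d j ∧ Q ≤ d j ^ 2)
    (hN : 21 * (r + c + q) + 20 * b * (r + 2 + 12 * b * l * (ρ + q) + 2 * b * (ρ + q)) ≤
      20 * b * (m + ρ + q))
    {ι : Type y} [Finite ι] {e : ι → ℕ}
    (he : ∀ i, 100 * (b * (s + 3) * e i) ≤ Q ∨ 9 * b * e i ≤ P)
    {f : ι → MvPolynomial (Fin p ⊕ Fin (n + 1)) k}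
    (hf : ∀ i, (f i).IsWeightedHomogeneous (wtP (n + 1) d) (e i))
    (hI : ringKrullDim (MvPolynomial (Fin (n + 1)) k ⧸ imI f) ≤ ((r + 1 : ℕ) : ℕ))
    {g : Fin q → MvPolynomial (Fin p ⊕ Fin (n + 1)) k} {E : Fin q → ℕ}
    (hg : ∀ l, (g l).IsWeightedHomogeneous (wtP (n + 1) d) (E l))
    {S : Set (Place κ K)} (hS : S.Finite)
    {a : Fin p → (Fin (n + 1) →₀ ℕ) → K} {G : Finset (Fin p × (Fin (n + 1) →₀ ℕ))}
    (hcc : G.card ≤ c)
    (ha : AlgebraicIndependent k (fun s : {s // s ∈ jexpo n d ∧ s ∉ G} => a s.1.1 s.1.2)) :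
    ∃ C : ℕ, ∀ (L : Type w) [Field L] [Algebra K L] [FiniteDimensional K L]
      [Algebra κ L] [IsScalarTower κ K L] [Algebra k L] [IsScalarTower k K L]
      (x : Fin (n + 1) → L), x ≠ 0 →
      (∀ i, Fval (e i) (aWP d (fun j I => algebraMap K L (a j I)) f i) x = 0) →
      (∀ l, Fval (E l) (aWP d (fun j I => algebraMap K L (a j I)) g l) x ≠ 0) →
      (JRank (ρ + q) (Sum.elim f g) (Sum.elim
        (fun j => Fval (d j) (fun I => algebraMap K L (a j I)) x) x : Fin p ⊕ Fin (n + 1) → L) ∨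
        (q = 0 ∧ ρ = p ∧ NDegP f x)) →
      s * height κ x < Set.ncard {w : Place κ L |
          (∀ v ∈ S, ¬ (w.1.comap (algebraMap K L)).IsEquiv v.1) ∧
          ∃ l, w.1 (Fval (E l) (aWP d (fun j I => algebraMap K L (a j I)) g l) x) <
            vmax w.1 x ^ E l} + ramDeg κ L K ∨
        (Q : ℤ) * height κ x ≤ C * finrank K L + P * ramDeg κ L K ∨
        (∑ l, E l ≠ 0 ∧ height κ x ≤ C * finrank K L +
          cE b ((∑ l, E l) * b) (∑ l, E l) * (Set.ncard {w : Place κ L |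
            (∀ v ∈ S, ¬ (w.1.comap (algebraMap K L)).IsEquiv v.1) ∧
            ∃ l, w.1 (Fval (E l) (aWP d (fun j I => algebraMap K L (a j I)) g l) x) <
              vmax w.1 x ^ E l} + (2 * ∑ l, E l + 2) * ramDeg κ L K)) ∨
        (CertV e (aWP d (fun j I => algebraMap K L (a j I)) f) b x ∧
          ∀ (F : Type x) [Field F] [Algebra κ F] [Algebra L F] [IsScalarTower κ L F]
            [IsAlgClosed F] [Algebra.IsAlgebraic L F],
            CertLV e (fun i I => algebraMap L F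
              (aWP d (fun j I => algebraMap K L (a j I)) f i I)) (∑ l, E l)
              (fun I => algebraMap L F (aWP d (fun j I => algebraMap K L (a j I))
                (fun _ : Unit => ∏ l, g l) () I)) b (fun j => algebraMap L F (x j))) := by
  classical
  obtain ⟨j₀, -, hj₀⟩ := Finset.exists_min_image (Finset.univ : Finset (Fin p)) d
    ⟨⟨0, hp⟩, Finset.mem_univ _⟩
  obtain ⟨C, hC⟩ := heightP_baseC.{u, v, w, x, y} hK htr hk (m := fun _ => l) (M := P / (9 * b))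
    (d₀ := d j₀) (s := s) (ρ := ρ) hb (fun _ => hl) (fun j => (hd j).1)
    (fun j => by rw [← add_assoc]; exact (hd j).2.1) (fun j => (hd j).2.2.1)
    (fun j => (hd j).2.2.2.1) (fun A hA => by
      have h1 := hms A hA
      rw [Finset.sum_const, hA, smul_eq_mul]
      have h2 : 20 * b * (m + ρ + q) + 20 * b * s ≤ 20 * b * (∑ j ∈ A, d j + (ρ + q)) := by
        rw [← Nat.mul_add]
        exact Nat.mul_le_mul_left _ (by omega)
      refine le_trans (le_of_eq ?_) ((Nat.add_le_add_right hN (20 * b * s)).trans h2)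
      ring) (fun j => hj₀ j (Finset.mem_univ j)) (by
      have h2 := (hd j₀).1
      have h3 : 1 ≤ b ^ 2 := Nat.one_le_pow _ _ hb
      omega) (e := e) (fun i => by
      rcases he i with h1 | h1
      · exact Or.inl (h1.trans (hd j₀).2.2.2.2)
      · right
        rw [Nat.le_div_iff_mul_le (by omega)]
        rw [mul_comm]
        exact h1) hf hI hg rfl hS hcc ha
  refine ⟨C, ?_⟩
  intro L _ _ _ _ _ _ _ x hx hfx hgx hne
  have hL : IsFF κ L := hK.of_finite
  have hht : 0 ≤ height κ x := hL.height_nonneg hx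
  rcases hC L x hx hfx hgx hne with h | h | h | h
  · exact Or.inl h
  · right
    left
    have h4 : (9 * b * (P / (9 * b)) : ℕ) ≤ P := Nat.mul_div_le P (9 * b)
    have h5 : ((9 * b * (P / (9 * b)) : ℕ) : ℤ) * (ramDeg κ L K : ℤ) ≤ P * ramDeg κ L K :=
      mul_le_mul_of_nonneg_right (by exact_mod_cast h4) (Int.natCast_nonneg _)
    have h6 : (Q : ℤ) * height κ x ≤ (d j₀ : ℤ) ^ 2 * height κ x :=
      mul_le_mul_of_nonneg_right (by exact_mod_cast (hd j₀).2.2.2.2) hht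
    linarith
  · exact Or.inr (Or.inr (Or.inl h))
  · exact Or.inr (Or.inr (Or.inr h))

end Pool.Agent.Lib.MP_44a246_ntC
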