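import Mathlib
import Pool.Agent.Lib.MP_44a246_ntD.D16

/-!
The local estimate of a determinant whose rows are the values of derivations at a point, with
logarithmic derivatives of further elements, with further coordinates which are integral, and with
factors of the size of the point.
-/

namespace Pool.Agent.Lib.MP_44a246_ntC

open Pool.Agent.Lib.MP_44a246_ntD
open Pool.Agent.Lib.MP_e52354_nt
open Pool.Agent.Lib.MP_44a246_nt
open Pool.Agent.Lib.MP_44a246_ntL
open Pool.Agent.Lib.MP_44a246_ntS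
open WithZero Polynomial

section

variable {κ M : Type*} [Field κ] [IsAlgClosed κ] [CharZero κ] [Field M] [Algebra κ M]
  [Algebra κ[X] M] [IsScalarTower κ κ[X] M]
  [Algebra (RatFunc κ) M] [IsScalarTower κ[X] (RatFunc κ) M]
  [Algebra (Rinf κ) M] [IsScalarTower (Rinf κ) (RatFunc κ) M]
  [FiniteDimensional (RatFunc κ) M]

omit [IsAlgClosed κ] [CharZero κ] [Algebra κ[X] M] [IsScalarTower κ κ[X] M]
  [Algebra (RatFunc κ) M] [IsScalarTower κ[X] (RatFunc κ) M]
  [Algebra (Rinf κ) M] [IsScalarTower (Rinf κ) (RatFunc κ) M]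
  [FiniteDimensional (RatFunc κ) M] in
/-- the logarithmic derivative is integral for a derivation which kills a uniformiser -/
theorem logder_int (w : Place κ M) {π : M} (hπ : w.1 π = exp (-1 : ℤ)) (F : Derivation ℤ M M)
    (hFπ : F π = 0) (hF : ∀ y, w.1 y ≤ 1 → w.1 (F y) ≤ 1) {y : M} (hy : y ≠ 0) :
    w.1 (F y / y) ≤ 1 := by
  have hπ0 : π ≠ 0 := by
    rintro rfl
    rw [map_zero] at hπ
    exact exp_ne_zero hπ.symm
  obtain ⟨k, hk⟩ : ∃ k : ℤ, w.1 y = exp k :=
    ⟨log (w.1 y), (exp_log ((w.1.ne_zero_iff).mpr hy)).symm⟩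
  have hu1 : w.1 (y * π ^ k) = 1 := by
    rw [map_mul, map_zpow₀, hk, hπ, ← exp_zsmul, ← exp_add]
    simp
  have hpk : π ^ k ≠ 0 := zpow_ne_zero _ hπ0
  have h1 : F y / y = F (y * π ^ k) / (y * π ^ k) := by
    rw [Derivation.leibniz, Derivation.leibniz_zpow, hFπ]
    simp only [smul_eq_mul, mul_zero, smul_zero, zero_add]
    field_simp
  rw [h1, map_div₀, hu1, div_one]
  exact hF _ hu1.le

omit [IsAlgClosed κ] [CharZero κ] [Algebra κ[X] M] [IsScalarTower κ κ[X] M]
  [Algebra (RatFunc κ) M] [IsScalarTower κ[X] (RatFunc κ) M]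
  [Algebra (Rinf κ) M] [IsScalarTower (Rinf κ) (RatFunc κ) M]
  [FiniteDimensional (RatFunc κ) M] in
/-- the logarithmic derivative has at most one more pole than the derivation -/
theorem logder_le (w : Place κ M) {π : M} (hπ : w.1 π = exp (-1 : ℤ)) (D : Derivation ℤ M M)
    {e : ℕ} (hD : ∀ y, w.1 y ≤ 1 → w.1 (D y) ≤ exp (e : ℤ)) {y : M} (hy : y ≠ 0) :
    w.1 (D y / y) ≤ exp ((e : ℤ) + 1) := by
  have hπ0 : π ≠ 0 := by
    rintro rfl
    rw [map_zero] at hπ
    exact exp_ne_zero hπ.symm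
  obtain ⟨k, hk⟩ : ∃ k : ℤ, w.1 y = exp k :=
    ⟨log (w.1 y), (exp_log ((w.1.ne_zero_iff).mpr hy)).symm⟩
  have hu1 : w.1 (y * π ^ k) = 1 := by
    rw [map_mul, map_zpow₀, hk, hπ, ← exp_zsmul, ← exp_add]
    simp
  have hpk : π ^ k ≠ 0 := zpow_ne_zero _ hπ0
  have h1 : D y / y = D (y * π ^ k) / (y * π ^ k) - k * (D π / π) := by
    rw [Derivation.leibniz, Derivation.leibniz_zpow]
    simp only [smul_eq_mul, zsmul_eq_mul]
    rw [zpow_sub_one₀ hπ0]
    field_simp
    ring
  have hπ1 : w.1 π ≤ 1 := by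
    rw [hπ, ← exp_zero, exp_le_exp]
    norm_num
  rw [h1]
  refine (w.1.map_sub _ _).trans (max_le ?_ ?_)
  · rw [map_div₀, hu1, div_one]
    refine (hD _ hu1.le).trans ?_
    rw [exp_le_exp]
    linarith
  · rw [map_mul, map_div₀, hπ]
    have h2 : w.1 (k : M) ≤ 1 := intCast_mem w.1.integer k
    calc w.1 (k : M) * (w.1 (D π) / exp (-1 : ℤ)) ≤ 1 * (exp (e : ℤ) / exp (-1 : ℤ)) := by
          refine mul_le_mul' h2 ?_
          rw [div_eq_mul_inv, div_eq_mul_inv]
          exact mul_le_mul' (hD π hπ1) le_rfl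
      _ = exp ((e : ℤ) + 1) := by
          rw [one_mul, ← exp_sub, sub_neg_eq_add]

/-- **The local estimate of the determinant.** -/
theorem wedge_placeL (w : Place κ M) {n : ℕ} {Λ θ ρ : Type*} [Fintype ρ] [DecidableEq ρ]
    (D : Derivation ℤ M M)
    (hκ : ∀ u : κ, D (algebraMap κ M u) = 0) (hX : D (algebraMap κ[X] M X) = 1)
    {π : M} (hπ : w.1 π = exp (-1 : ℤ))
    {γ : Fin n → M} {l : Fin n} (hl0 : γ l ≠ 0) (hlmax : ∀ k, w.1 (γ k) ≤ w.1 (γ l))
    {E : Λ → ℕ} {h : Λ → M} (hh0 : ∀ t, h t ≠ 0) {ζ : ℕ}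
    (hζ : (∀ t, w.1 (h t) = w.1 (γ l) ^ E t) ∨ 1 ≤ ζ)
    {R : ρ → Fin n ⊕ (Λ ⊕ θ) → M} {iγ iD : ρ} (hne : iγ ≠ iD)
    (hRγ : R iγ = Sum.elim γ (Sum.elim (fun t => (E t : M)) 0))
    (hRD : R iD = Sum.elim (fun k => D (γ k)) (Sum.elim (fun t => D (h t) / h t) 0)) {c : ρ → ℕ}
    (hR : ∀ i, i ≠ iγ → i ≠ iD → ∃ (F : Derivation ℤ M M) (η : θ → M),
      (R i = fun k => γ l ^ c i * (Sum.elim (fun k => F (γ k))
        (Sum.elim (fun t => F (h t) / h t) η) : Fin n ⊕ (Λ ⊕ θ) → M) k) ∧
        (∀ y, w.1 y ≤ 1 → w.1 (F y - F π / D π * D y) ≤ 1) ∧ ∀ t, w.1 (η t) ≤ 1)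
    (hcγ : c iγ = 0) (hcD : c iD = 0) (J : ρ → Fin n ⊕ (Λ ⊕ θ)) :
    w.1 (Matrix.of fun i k => R i (J k)).det ≤
      w.1 (γ l) ^ ((∑ i, c i) + (Finset.univ.filter fun k => (J k).isLeft = true).card) *
        exp (((ramIdx (RatFunc κ) w.1 - 1 : ℕ) : ℤ) + ζ) := by
  classical
  set e : ℕ := ramIdx (RatFunc κ) w.1 - 1 with he
  have hDκ : ∀ u : κ, ∃ u' : κ, D (algebraMap κ M u) = algebraMap κ M u' := fun u =>
    ⟨0, by rw [hκ u, map_zero]⟩
  have hDX : ∃ u : κ, D (algebraMap κ[X] M X) = algebraMap κ M u := ⟨1, by rw [hX, map_one]⟩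
  have hDπ : D π ≠ 0 := der_unif_ne w D hκ hX hπ
  have hDp : ∀ y, w.1 y ≤ 1 → w.1 (D y) ≤ exp (e : ℤ) := fun y hy => der_place w D hDκ hDX hy
  have hR' : ∀ i, ∃ (F : Derivation ℤ M M) (η : θ → M), i ≠ iγ → i ≠ iD →
      (R i = fun k => γ l ^ c i * (Sum.elim (fun k => F (γ k))
        (Sum.elim (fun t => F (h t) / h t) η) : Fin n ⊕ (Λ ⊕ θ) → M) k) ∧
        (∀ y, w.1 y ≤ 1 → w.1 (F y - F π / D π * D y) ≤ 1) ∧ ∀ t, w.1 (η t) ≤ 1 := by
    intro i
    by_cases h1 : i ≠ iγ ∧ i ≠ iD
    · obtain ⟨F, η, h2⟩ := hR i h1.1 h1.2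
      exact ⟨F, η, fun _ _ => h2⟩
    · exact ⟨0, 0, fun h2 h3 => absurd ⟨h2, h3⟩ h1⟩
  choose F η hF using hR'
  -- the normalised vector
  set q : Fin n → M := fun k => γ k / γ l with hq
  have hγq : ∀ k, γ k = γ l * q k := fun k => by
    rw [hq]
    simp only
    rw [mul_div_cancel₀ _ hl0]
  have hqv : ∀ k, w.1 (q k) ≤ 1 := by
    intro k
    rw [hq]
    simp only
    rw [map_div₀]
    exact div_le_one_of_le₀ (hlmax k) zero_le
  have hder : ∀ (F : Derivation ℤ M M) (k : Fin n),
      F (γ k) = γ l * F (q k) + F (γ l) / γ l * γ k := by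
    intro F k
    have h1 : F (γ k) = F (γ l * q k) := by rw [← hγq k]
    rw [h1, Derivation.leibniz, smul_eq_mul, smul_eq_mul, hγq k]
    field_simp
  -- the normalised elements
  set z : Λ → M := fun t => h t / γ l ^ E t with hz
  have hz0 : ∀ t, z t ≠ 0 := fun t => div_ne_zero (hh0 t) (pow_ne_zero _ hl0)
  have hlog : ∀ (F : Derivation ℤ M M) (t : Λ),
      F (h t) / h t = F (z t) / z t + F (γ l) / γ l * E t := by
    intro F t
    have h1 : h t = z t * γ l ^ E t := by
      rw [hz]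
      simp only
      rw [div_mul_cancel₀ _ (pow_ne_zero _ hl0)]
    have h2 := hz0 t
    rw [h1, Derivation.leibniz, Derivation.leibniz_pow]
    simp only [smul_eq_mul, nsmul_eq_mul]
    rcases Nat.eq_zero_or_pos (E t) with h0 | h0
    · rw [h0]
      simp
    · have h3 : γ l ^ E t = γ l ^ (E t - 1) * γ l := by
        rw [← pow_succ]
        congr 1
        omega
      rw [h3]
      have h4 : γ l ^ (E t - 1) ≠ 0 := pow_ne_zero _ hl0
      field_simp
      ring
  set N : Matrix ρ ρ M := Matrix.of fun i k => R i (J k) with hN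
  set R₂ : ρ → Fin n ⊕ (Λ ⊕ θ) → M := fun i =>
    if i = iγ then Sum.elim γ (Sum.elim (fun t => (E t : M)) 0) else
    if i = iD then Sum.elim (fun k => γ l * D (q k)) (Sum.elim (fun t => D (z t) / z t) 0) else
      fun k => γ l ^ c i * (Sum.elim (fun k => γ l * F i (q k))
        (Sum.elim (fun t => F i (z t) / z t) (η i)) : Fin n ⊕ (Λ ⊕ θ) → M) k with hR₂
  set R₃ : ρ → Fin n ⊕ (Λ ⊕ θ) → M := fun i =>
    if i = iγ then Sum.elim γ (Sum.elim (fun t => (E t : M)) 0) else
    if i = iD then Sum.elim (fun k => γ l * D (q k)) (Sum.elim (fun t => D (z t) / z t) 0) else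
      fun k => γ l ^ c i * (Sum.elim (fun k => γ l * (F i (q k) - F i π / D π * D (q k)))
        (Sum.elim (fun t => (F i (z t) - F i π / D π * D (z t)) / z t) (η i)) :
        Fin n ⊕ (Λ ⊕ θ) → M) k with hR₃
  set N₂ : Matrix ρ ρ M := Matrix.of fun i k => R₂ i (J k) with hN₂
  set N₃ : Matrix ρ ρ M := Matrix.of fun i k => R₃ i (J k) with hN₃
  have hne' : iD ≠ iγ := hne.symm
  have e2γ : R₂ iγ = Sum.elim γ (Sum.elim (fun t => (E t : M)) 0) := by simp only [hR₂, if_true]
  have e3D : R₃ iD = Sum.elim (fun k => γ l * D (q k)) (Sum.elim (fun t => D (z t) / z t) 0) := by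
    simp only [hR₃, if_neg hne', if_true]
  have d2 : N.det = N₂.det := by
    refine Matrix.det_eq_of_forall_row_eq_smul_add_const
      (fun i => if i = iγ then 0 else if i = iD then D (γ l) / γ l else
        γ l ^ c i * (F i (γ l) / γ l)) iγ (by simp only [if_true]) ?_
    intro i k
    show R i (J k) = R₂ i (J k) + _ * R₂ iγ (J k)
    rw [e2γ]
    by_cases h1 : i = iγ
    · subst h1
      rw [hRγ, e2γ]
      simp only [if_true, zero_mul, add_zero]
    by_cases h2 : i = iD
    · subst h2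
      rw [hRD]
      simp only [hR₂, if_neg h1, if_true]
      rcases J k with k' | (k' | k')
      · simp only [Sum.elim_inl]
        exact hder D k'
      · simp only [Sum.elim_inr, Sum.elim_inl]
        exact hlog D k'
      · simp only [Sum.elim_inr, Pi.zero_apply, mul_zero, add_zero]
    · obtain ⟨h3, -, -⟩ := hF i h1 h2
      rw [h3]
      simp only [hR₂, if_neg h1, if_neg h2]
      rcases J k with k' | (k' | k')
      · simp only [Sum.elim_inl]
        rw [hder (F i) k']
        ring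
      · simp only [Sum.elim_inr, Sum.elim_inl]
        rw [hlog (F i) k']
        ring
      · simp only [Sum.elim_inr, Pi.zero_apply, mul_zero, add_zero]
  have d3 : N₂.det = N₃.det := by
    refine Matrix.det_eq_of_forall_row_eq_smul_add_const
      (fun i => if i = iγ then 0 else if i = iD then 0 else
        γ l ^ c i * (F i π / D π)) iD (by simp only [if_neg hne', if_true]) ?_
    intro i k
    show R₂ i (J k) = R₃ i (J k) + _ * R₃ iD (J k)
    rw [e3D]
    by_cases h1 : i = iγ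
    · subst h1
      simp only [hR₂, hR₃, if_true, zero_mul, add_zero]
    by_cases h2 : i = iD
    · subst h2
      simp only [hR₂, hR₃, if_neg h1, if_true, zero_mul, add_zero]
    · simp only [hR₂, hR₃, if_neg h1, if_neg h2]
      rcases J k with k' | (k' | k')
      · simp only [Sum.elim_inl]
        ring
      · simp only [Sum.elim_inr, Sum.elim_inl]
        rw [sub_div]
        ring
      · simp only [Sum.elim_inr, Pi.zero_apply, mul_zero, add_zero]
  -- the bounds
  have hζ0 : (0 : ℤ) ≤ ζ := Int.natCast_nonneg _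
  have hDz : ∀ t, w.1 (D (z t) / z t) ≤ exp ((e : ℤ) + ζ) := by
    intro t
    rcases hζ with h1 | h1
    · have h2 : w.1 (z t) = 1 := by
        rw [hz]
        simp only
        rw [map_div₀, map_pow, h1 t, div_self]
        exact pow_ne_zero _ ((Valuation.ne_zero_iff w.1).mpr hl0)
      rw [map_div₀, h2, div_one]
      refine (hDp _ h2.le).trans ?_
      rw [exp_le_exp]
      linarith
    · refine (logder_le w hπ D hDp (hz0 t)).trans ?_
      rw [exp_le_exp]
      have : (1 : ℤ) ≤ ζ := by exact_mod_cast h1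
      linarith
  have d4 : w.1 N₃.det ≤ (∏ i, (w.1 (γ l) ^ c i * if i = iD then exp ((e : ℤ) + ζ) else 1)) *
      ∏ k, (if (J k).isLeft = true then w.1 (γ l) else 1) := by
    refine det_weights w.1 N₃ _ _ ?_
    intro i k
    show w.1 (R₃ i (J k)) ≤ _
    by_cases h1 : i = iγ
    · subst h1
      simp only [hR₃, if_true, if_neg hne, mul_one, hcγ, pow_zero, one_mul]
      rcases hJ : J k with k' | (k' | k')
      · simp only [Sum.elim_inl, Sum.isLeft_inl, if_true]
        exact hlmax k'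
      · simp only [Sum.elim_inr, Sum.elim_inl, Sum.isLeft_inr]
        rw [if_neg (by simp)]
        exact natCast_mem w.1.integer _
      · simp only [Sum.elim_inr, Pi.zero_apply, map_zero]
        exact zero_le
    by_cases h2 : i = iD
    · subst h2
      simp only [hR₃, if_neg h1, if_true, hcD, pow_zero, one_mul]
      rcases hJ : J k with k' | (k' | k')
      · simp only [Sum.elim_inl, Sum.isLeft_inl, if_true]
        rw [map_mul, mul_comm]
        refine mul_le_mul' ((hDp _ (hqv k')).trans ?_) le_rfl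
        rw [exp_le_exp]
        linarith
      · simp only [Sum.elim_inr, Sum.elim_inl, Sum.isLeft_inr]
        rw [if_neg (by simp), mul_one]
        exact hDz k'
      · simp only [Sum.elim_inr, Pi.zero_apply, map_zero]
        exact zero_le
    · obtain ⟨-, h4, h5⟩ := hF i h1 h2
      simp only [hR₃, if_neg h1, if_neg h2, mul_one]
      rw [map_mul, map_pow]
      refine mul_le_mul' le_rfl ?_
      rcases hJ : J k with k' | (k' | k')
      · simp only [Sum.elim_inl, Sum.isLeft_inl, if_true]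
        rw [map_mul]
        exact mul_le_of_le_one_right' (h4 _ (hqv k'))
      · simp only [Sum.elim_inr, Sum.elim_inl, Sum.isLeft_inr]
        rw [if_neg (by simp)]
        have h6 := logder_int w hπ (F i - (F i π / D π) • D) (by
          show F i π - F i π / D π * D π = 0
          rw [div_mul_cancel₀ _ hDπ, sub_self]) h4 (hz0 k')
        exact h6
      · simp only [Sum.elim_inr]
        have : (Sum.inr (Sum.inr k') : Fin n ⊕ (Λ ⊕ θ)).isLeft = false := rfl
        rw [this, if_neg (by simp)]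
        exact h5 k'
  rw [d2, d3]
  refine d4.trans (le_of_eq ?_)
  rw [Finset.prod_mul_distrib, Finset.prod_pow_eq_pow_sum, Finset.prod_ite_eq' Finset.univ iD,
    if_pos (Finset.mem_univ _), Finset.prod_ite, Finset.prod_const, Finset.prod_const_one, mul_one,
    pow_add]
  exact mul_right_comm _ _ _

end

end Pool.Agent.Lib.MP_44a246_ntC
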