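import Mathlib
import Pool.Agent.Lib.MP_44a246_ntS.SP5b
import Pool.Agent.Lib.MP_44a246_ntS.SP5c
import Pool.Agent.Lib.MP_44a246_ntD.D18
import Pool.Agent.Lib.MP_44a246_ntK.K21
import Pool.Agent.Lib.MP_44a246_ntC.C30

/-!
A family of curves in a complete intersection in a variety, with forms which do not vanish on the
curves: the global inequality, with the number of the zeros of the forms.
-/

namespace Pool.Agent.Lib.MP_44a246_ntC

open Pool.Agent.Lib.MP_44a246_ntK
open Pool.Agent.Lib.MP_44a246_ntD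
open Pool.Agent.Lib.MP_44a246_ntU

open Pool.Agent.Lib.MP_e52354_nt
open Pool.Agent.Lib.MP_44a246_nt
open Pool.Agent.Lib.MP_44a246_ntL
open Pool.Agent.Lib.MP_44a246_ntS
open WithZero Polynomial Module

section

variable {κ M : Type*} [Field κ] [IsAlgClosed κ] [CharZero κ] [Field M] [Algebra κ M]
  [Algebra κ[X] M] [IsScalarTower κ κ[X] M]
  [Algebra (RatFunc κ) M] [IsScalarTower κ[X] (RatFunc κ) M]
  [Algebra (Rinf κ) M] [IsScalarTower (Rinf κ) (RatFunc κ) M]
  [FiniteDimensional (RatFunc κ) M]

/-- the places at which one of the elements does not have the size of the point -/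
theorem zeros_finiteL {n : ℕ} {γ : Fin n → M} (hγ : γ ≠ 0) {Λ : Type*} [Finite Λ] {El : Λ → ℕ}
    {h : Λ → M} (hh0 : ∀ t, h t ≠ 0) :
    {w : Place κ M | ∃ t, w.1 (h t) ≠ vmax w.1 γ ^ El t}.Finite := by
  refine ((vmax_finite (κ := κ) hγ).union
    (Set.finite_iUnion fun t => place_finite (κ := κ) (hh0 t))).subset ?_
  rintro w ⟨t, hw⟩
  by_contra hcon
  simp only [Set.mem_union, Set.mem_ofPred_eq, Set.mem_iUnion, not_or, not_not, not_exists] at hcon hw
  apply hw
  rw [hcon.1, one_pow]
  exact hcon.2 t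

/-- **The global inequality.** -/
theorem wedge_globalL {m n p r : ℕ} {d : Fin p → ℕ} {Λ θ : Type*} [Fintype Λ] [Fintype θ]
    (D : Derivation ℤ M M)
    (hκ : ∀ u : κ, D (algebraMap κ M u) = 0) (hX : D (algebraMap κ[X] M X) = 1)
    (E : Fin m → Derivation ℤ M M)
    (hEκ : ∀ i, ∀ u : κ, ∃ u' : κ, E i (algebraMap κ M u) = algebraMap κ M u')
    (hEX : ∀ i, ∃ u : κ, E i (algebraMap κ[X] M X) = algebraMap κ M u)
    (W : Fin p → (Fin n →₀ ℕ) → Derivation ℤ M M)
    (hWκ : ∀ b I, ∀ u : κ, ∃ u' : κ, W b I (algebraMap κ M u) = algebraMap κ M u')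
    (hWX : ∀ b I, ∃ u : κ, W b I (algebraMap κ[X] M X) = algebraMap κ M u)
    (η : Fin p → (Fin n →₀ ℕ) → θ → κ) {El : Λ → ℕ} {h : Λ → M} (hh0 : ∀ t, h t ≠ 0)
    {γ : Fin n → M} (g : (Fin n ⊕ (Λ ⊕ θ) → M) →ₗ[M] (Fin p → M))
    (hgγ : g (Sum.elim γ (Sum.elim (fun t => (El t : M)) 0)) = 0)
    (hgD : g (Sum.elim (fun k => D (γ k)) (Sum.elim (fun t => D (h t) / h t) 0)) = 0)
    (hgE : ∀ i, g (Sum.elim (fun k => E i (γ k)) (Sum.elim (fun t => E i (h t) / h t) 0)) = 0)
    (hgW : ∀ b, ∀ I ∈ expo (Fin n) (d b), ∀ b',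
      g (Sum.elim (fun k => W b I (γ k)) (Sum.elim (fun t => W b I (h t) / h t)
        fun t => algebraMap κ M (η b I t))) b' = if b' = b then - mon γ I else 0)
    (hind : LinearIndependent M (Fin.cons γ (Fin.cons (fun k => D (γ k)) fun i k => E i (γ k)) :
      Fin (m + 2) → Fin n → M))
    {T : Submodule M (Fin n → M)} (hT : finrank M T ≤ r + 1) (hγT : γ ∈ T)
    (hDT : (fun k => D (γ k)) ∈ T) (hET : ∀ i, (fun k => E i (γ k)) ∈ T)
    (hWT : ∀ b, ∀ I ∈ expo (Fin n) (d b), (fun k => W b I (γ k)) ∈ T) :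
    ((∑ b, (d b : ℤ)) + m + 2 + p) * height κ γ ≤
      (2 * (r + 1) + (Fintype.card Λ + Fintype.card θ)) * height κ γ +
        ramDeg κ M (RatFunc κ) +
        ({w : Place κ M | ∃ t, w.1 (h t) ≠ vmax w.1 γ ^ El t}.ncard : ℤ) := by
  classical
  set A : Fin (m + 2) → Fin n → M :=
    Fin.cons γ (Fin.cons (fun k => D (γ k)) fun i k => E i (γ k)) with hA
  have hγ : γ ≠ 0 := hind.ne_zero 0
  have hvγ : ∀ w : Place κ M, vmax w.1 γ ≠ 0 := fun w h => hγ ((vmax_eq_zero_iff w.1).mp h)
  obtain ⟨l, hl⟩ : ∃ l, γ l ≠ 0 := by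
    by_contra hcon
    push Not at hcon
    exact hγ (funext hcon)
  -- the vectors
  set u : Fin (m + 2) → Fin n ⊕ (Λ ⊕ θ) → M :=
    Fin.cons (Sum.elim γ (Sum.elim (fun t => (El t : M)) 0))
      (Fin.cons (Sum.elim (fun k => D (γ k)) (Sum.elim (fun t => D (h t) / h t) 0))
        fun i => Sum.elim (fun k => E i (γ k)) (Sum.elim (fun t => E i (h t) / h t) 0)) with hu
  have hu0 : u 0 = Sum.elim γ (Sum.elim (fun t => (El t : M)) 0) := rfl
  have hu1 : u 1 = Sum.elim (fun k => D (γ k)) (Sum.elim (fun t => D (h t) / h t) 0) := rfl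
  have hu2 : ∀ i : Fin m, u i.succ.succ =
      Sum.elim (fun k => E i (γ k)) (Sum.elim (fun t => E i (h t) / h t) 0) := fun i => rfl
  have huA : ∀ i, (fun k => u i (Sum.inl k)) = A i := by
    intro i
    refine Fin.cases rfl (fun i => ?_) i
    exact Fin.cases rfl (fun i => rfl) i
  have hui : LinearIndependent M u := by
    refine LinearIndependent.of_comp
      (LinearMap.funLeft M M (Sum.inl : Fin n → Fin n ⊕ (Λ ⊕ θ))) ?_
    have h1 : (LinearMap.funLeft M M (Sum.inl : Fin n → Fin n ⊕ (Λ ⊕ θ)) : _ → _) ∘ u = A :=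
      funext huA
    rw [h1]
    exact hind
  have hgu : ∀ i, g (u i) = 0 := by
    intro i
    refine Fin.cases hgγ (fun i => Fin.cases hgD (fun i => hgE i) i) i
  set wv : Fin p → (Fin n →₀ ℕ) → Fin n ⊕ (Λ ⊕ θ) → M := fun b I =>
    Sum.elim (fun k => W b I (γ k)) (Sum.elim (fun t => W b I (h t) / h t)
      fun t => algebraMap κ M (η b I t)) with hwv
  let Φ : Fin p → ((Fin n →₀ ℕ) → M) →ₗ[M] (Fin n ⊕ (Λ ⊕ θ) → M) := fun b =>
    { toFun := fun c => ∑ I ∈ expo (Fin n) (d b), c I • wv b I
      map_add' := fun a b => by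
        simp only [Pi.add_apply, add_smul, Finset.sum_add_distrib]
      map_smul' := fun c a => by
        simp only [Pi.smul_apply, smul_eq_mul, RingHom.id_apply, Finset.smul_sum, mul_smul] }
  have hΦ : ∀ b c, Φ b c = ∑ I ∈ expo (Fin n) (d b), c I • wv b I := fun b c => rfl
  set T' : Submodule M (Fin n ⊕ (Λ ⊕ θ) → M) :=
    Submodule.span M (Set.range u) ⊔ ⨆ b, LinearMap.range (Φ b) with hT'
  have huT' : ∀ i, u i ∈ T' := fun i =>
    Submodule.mem_sup_left (Submodule.subset_span ⟨i, rfl⟩)
  have hwT' : ∀ b, ∀ I ∈ expo (Fin n) (d b), wv b I ∈ T' := by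
    intro b I hI
    refine Submodule.mem_sup_right (Submodule.mem_iSup_of_mem b ⟨Pi.single I 1, ?_⟩)
    rw [hΦ, Finset.sum_eq_single I]
    · rw [Pi.single_eq_same, one_smul]
    · intro J _ hJ
      rw [Pi.single_eq_of_ne hJ, zero_smul]
    · intro h
      exact absurd hI h
  -- the dimension
  have hAT : ∀ i, A i ∈ T := by
    intro i
    refine Fin.cases ?_ (fun i => ?_) i
    · exact hγT
    · refine Fin.cases ?_ (fun i => ?_) i
      · exact hDT
      · exact hET i
  have hT'T : ∀ x ∈ T', (fun k => x (Sum.inl k)) ∈ T := by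
    have h1 : T' ≤ Submodule.comap (LinearMap.funLeft M M (Sum.inl : Fin n → Fin n ⊕ (Λ ⊕ θ))) T := by
      rw [hT', sup_le_iff]
      refine ⟨?_, ?_⟩
      · rw [Submodule.span_le]
        rintro _ ⟨i, rfl⟩
        show (fun k => u i (Sum.inl k)) ∈ T
        rw [huA]
        exact hAT i
      · rw [iSup_le_iff]
        rintro b _ ⟨c, rfl⟩
        rw [hΦ]
        refine Submodule.sum_mem _ fun I hI => Submodule.smul_mem _ _ ?_
        exact hWT b I hI
    intro x hx
    exact h1 hx
  have hfT' : finrank M T' ≤ finrank M T + (Fintype.card Λ + Fintype.card θ) := by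
    have h1 := finrank_le_of_left hT'T
    rwa [Fintype.card_sum] at h1
  -- the generators of the kernel
  set S : Set (Fin n ⊕ (Λ ⊕ θ) → M) := {x | ∃ (b : Fin p) (P : Fin n →₀ ℕ) (p : Fin n),
      P.degree + 1 = d b ∧ x = γ l • wv b (P + Finsupp.single p 1) -
        γ p • wv b (P + Finsupp.single l 1)} with hS
  have hexp : ∀ (b : Fin p) (P : Fin n →₀ ℕ) (p : Fin n), P.degree + 1 = d b →
      P + Finsupp.single p 1 ∈ expo (Fin n) (d b) := by
    intro b P p hP
    rw [mem_expo, map_add, Finsupp.degree_single]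
    exact hP
  have hadd : ∀ (P : Fin n →₀ ℕ) (p : Fin n), mon γ (P + Finsupp.single p 1) = mon γ P * γ p := by
    intro P p
    unfold mon
    simp only [Finsupp.add_apply, pow_add, Finset.prod_mul_distrib]
    congr 1
    rw [Finset.prod_eq_single p]
    · rw [Finsupp.single_eq_same, pow_one]
    · intro b _ hb
      rw [Finsupp.single_eq_of_ne hb, pow_zero]
    · intro h
      exact absurd (Finset.mem_univ _) h
  have hST : ∀ x ∈ S, x ∈ T' := by
    rintro x ⟨b, P, p, hP, rfl⟩
    exact T'.sub_mem (T'.smul_mem _ (hwT' _ _ (hexp b P p hP)))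
      (T'.smul_mem _ (hwT' _ _ (hexp b P l hP)))
  have hgS : ∀ x ∈ S, g x = 0 := by
    rintro x ⟨b, P, p, hP, rfl⟩
    funext b'
    rw [map_sub, map_smul, map_smul, Pi.sub_apply, Pi.smul_apply, Pi.smul_apply,
      hgW b _ (hexp b P p hP), hgW b _ (hexp b P l hP), hadd, hadd, smul_eq_mul, smul_eq_mul,
      Pi.zero_apply]
    split_ifs
    · ring
    · ring
  have hker : ∀ x ∈ T', g x = 0 → x ∈ Submodule.span M (Set.range u ∪ S) := by
    intro x hx hgx
    obtain ⟨a, ha, y, hy, rfl⟩ := Submodule.mem_sup.1 hx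
    have hga : g a = 0 := by
      have h1 : Submodule.span M (Set.range u) ≤ LinearMap.ker g := by
        rw [Submodule.span_le]
        rintro _ ⟨i, rfl⟩
        exact hgu i
      exact h1 ha
    obtain ⟨cy, hcy⟩ := (Submodule.mem_iSup_iff_exists_finsupp _ _).1 hy
    obtain ⟨hcy1, hcy2⟩ := hcy
    choose c hc using fun b => (LinearMap.mem_range.1 (hcy1 b))
    have hy' : y = ∑ b, Φ b (c b) := by
      rw [← hcy2, Finsupp.sum_fintype _ _ (fun _ => rfl)]
      exact Finset.sum_congr rfl fun b _ => (hc b).symm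
    rw [map_add, hga, zero_add, hy', map_sum] at hgx
    have h2 : ∀ b, ∑ I ∈ expo (Fin n) (d b), c b I * mon γ I = 0 := by
      intro b
      have h3 := congrFun hgx b
      rw [Finset.sum_apply, Pi.zero_apply, Finset.sum_eq_single b] at h3
      · rw [hΦ, map_sum, Finset.sum_apply] at h3
        rw [← neg_eq_zero, ← h3, ← Finset.sum_neg_distrib]
        refine Finset.sum_congr rfl fun I hI => ?_
        rw [map_smul, Pi.smul_apply, hgW b I hI, if_pos rfl, smul_eq_mul]
        ring
      · intro b' _ hb'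
        rw [hΦ, map_sum, Finset.sum_apply]
        refine Finset.sum_eq_zero fun I hI => ?_
        rw [map_smul, Pi.smul_apply, hgW b' I hI, if_neg (Ne.symm hb'), smul_zero]
      · intro h
        exact absurd (Finset.mem_univ b) h
    rw [Submodule.span_union]
    refine Submodule.add_mem _ (Submodule.mem_sup_left ha) (Submodule.mem_sup_right ?_)
    rw [hy']
    refine Submodule.sum_mem _ fun b _ => ?_
    rw [hΦ]
    refine Submodule.span_mono ?_ (mem_span_of_eval_zero hl (wv b) (c b) (h2 b))
    rintro x ⟨P, p, hP, rfl⟩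
    exact ⟨b, P, p, hP, rfl⟩
  have hmonS : ∀ (k : Fin n) (e : ℕ), mon γ (Finsupp.single k e) = γ k ^ e := by
    intro k e
    unfold mon
    rw [Finset.prod_eq_single k]
    · rw [Finsupp.single_eq_same]
    · intro b _ hb
      rw [Finsupp.single_eq_of_ne hb, pow_zero]
    · intro h
      exact absurd (Finset.mem_univ _) h
  have hsing : ∀ (k : Fin n) (b : Fin p), Finsupp.single k (d b) ∈ expo (Fin n) (d b) :=
    fun k b => by rw [mem_expo, Finsupp.degree_single]
  have hdet : ∀ k : Fin n, (Matrix.of fun b b' => g (wv b (Finsupp.single k (d b))) b').det =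
      ∏ b, (- γ k ^ d b) := by
    intro k
    have h1 : (Matrix.of fun b b' => g (wv b (Finsupp.single k (d b))) b') =
        Matrix.diagonal fun b => (- γ k ^ d b) := by
      ext b b'
      rw [Matrix.of_apply, hgW b _ (hsing k b), hmonS, Matrix.diagonal_apply]
      by_cases h : b = b'
      · rw [if_pos h, if_pos h.symm]
      · rw [if_neg h, if_neg (Ne.symm h)]
    rw [h1, Matrix.det_diagonal]
  have hw0 : (Matrix.of fun b b' => g (wv b (Finsupp.single l (d b))) b').det ≠ 0 := by
    rw [hdet]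
    exact Finset.prod_ne_zero_iff.2 fun b _ => neg_ne_zero.2 (pow_ne_zero _ hl)
  obtain ⟨j, s, hsS, hsli, hTs, hj⟩ := exists_ext_basisK (w₀ := fun b => wv b
    (Finsupp.single l (d b))) hui huT' hST hgu hgS hker (fun b => hwT' b _ (hsing l b)) hw0
  rw [Fintype.card_fin] at hj
  have hgus : ∀ i, g (Sum.elim u s i) = 0 := by
    rintro (i | i)
    · exact hgu i
    · exact hgS _ (hsS i)
  obtain ⟨J, lam, hlam0, hlam⟩ := exists_minorGK hsli hgus hw0 hTs
  set Lc : ℕ := (Finset.univ.filter fun k => (J k).isLeft = true).card with hLc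
  have hLcr : Lc ≤ r + 1 := by
    refine le_trans (card_left_le (R := fun o : Fin p ⊕ (Fin (m + 2) ⊕ Fin j) =>
      (Sum.elim (fun b => wv b (Finsupp.single l (d b))) (Sum.elim u s) o : Fin n ⊕ (Λ ⊕ θ) → M))
      (J := J) ?_ (T := T) ?_) hT
    · rw [hlam _ (fun b => hwT' b _ (hsing l b))]
      exact mul_ne_zero hlam0 hw0
    · rintro (b | (i | i))
      · exact hWT b _ (hsing l b)
      · show (fun k => u i (Sum.inl k)) ∈ T
        rw [huA]
        exact hAT i
      · exact hT'T _ (hST _ (hsS i))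
  -- the local estimate
  set Z : Set (Place κ M) := {w : Place κ M | ∃ t, w.1 (h t) ≠ vmax w.1 γ ^ El t} with hZ
  have hZfin : Z.Finite := zeros_finiteL hγ hh0
  set ζ : Place κ M → ℕ := fun w => if w ∈ Z then 1 else 0 with hζ
  have hloc : ∀ w : Place κ M, log (w.1 lam) + (∑ b, (d b : ℤ)) * log (vmax w.1 γ) ≤
      ((j : ℤ) + Lc) * log (vmax w.1 γ) + (((ramIdx (RatFunc κ) w.1 - 1 : ℕ) : ℤ) + ζ w) := by
    intro w
    obtain ⟨π, hπ⟩ := w.2.1 (exp (-1 : ℤ))
    obtain ⟨l', hl'0, hl'v, hl'max⟩ := exists_vmax w.1 hγ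
    have hint : ∀ k, w.1 (γ k / γ l') ≤ 1 := by
      intro k
      rw [map_div₀]
      exact div_le_one_of_le₀ (hl'max k) zero_le
    have hζw : (∀ t, w.1 (h t) = w.1 (γ l') ^ El t) ∨ 1 ≤ ζ w := by
      by_cases hw : w ∈ Z
      · right
        simp only [hζ, if_pos hw, le_refl]
      · left
        intro t
        rw [← hl'v]
        by_contra h2
        exact hw ⟨t, h2⟩
    have h1 := wedge_placeL (θ := θ) w D hκ hX hπ hl'0 hl'max hh0 hζw
      (R := fun o : Fin p ⊕ (Fin (m + 2) ⊕ Fin j) =>
        (Sum.elim (fun b => wv b (Finsupp.single l' (d b))) (Sum.elim u s) o : Fin n ⊕ (Λ ⊕ θ) → M))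
      (iγ := Sum.inr (Sum.inl 0)) (iD := Sum.inr (Sum.inl 1)) (by
        intro h
        have h2 := Sum.inl_injective (Sum.inr_injective h)
        exact absurd h2 (by simp)) hu0 hu1
      (c := Sum.elim (fun _ => 0) (Sum.elim (fun _ => 0) fun _ => 1)) (by
        rintro (b | (i | i)) hi1 hi2
        · refine ⟨W b (Finsupp.single l' (d b)),
            fun t => algebraMap κ M (η b (Finsupp.single l' (d b)) t),
            ?_, fun y hy => der_corr w D hκ hX hπ _ (hWκ _ _) (hWX _ _) hy,
            fun t => place_const_le w _⟩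
          funext k
          simp only [Sum.elim_inl, pow_zero, one_mul, hwv]
        · revert hi1 hi2
          refine Fin.cases (fun h2 _ => absurd rfl h2) (fun i => ?_) i
          refine Fin.cases (fun _ h2 => absurd rfl h2) (fun i _ _ => ?_) i
          refine ⟨E i, 0, ?_, fun y hy => der_corr w D hκ hX hπ _ (hEκ i) (hEX i) hy,
            fun t => by rw [Pi.zero_apply, map_zero]; exact zero_le⟩
          funext k
          simp only [Sum.elim_inr, Sum.elim_inl, pow_zero, one_mul]
          exact congrFun (hu2 i) k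
        · obtain ⟨b, P, p, hP, hsi⟩ := hsS i
          refine ⟨(γ l / γ l') • W b (P + Finsupp.single p 1) -
            (γ p / γ l') • W b (P + Finsupp.single l 1),
            fun t => (γ l / γ l') * algebraMap κ M (η b (P + Finsupp.single p 1) t) -
              (γ p / γ l') * algebraMap κ M (η b (P + Finsupp.single l 1) t), ?_, ?_, ?_⟩
          · show s i = _
            rw [hsi]
            funext k
            simp only [Sum.elim_inr, pow_one, hwv, Pi.sub_apply, Pi.smul_apply,
              smul_eq_mul]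
            rcases k with k | k
            · simp only [Sum.elim_inl, Derivation.sub_apply, Derivation.smul_apply, smul_eq_mul]
              field_simp
            · rcases k with k | k
              · have h5 := hh0 k
                simp only [Sum.elim_inr, Sum.elim_inl, Derivation.sub_apply,
                  Derivation.smul_apply, smul_eq_mul]
                field_simp
              · simp only [Sum.elim_inr]
                field_simp
          · intro y hy
            have h2 := der_corr w D hκ hX hπ _ (hWκ b (P + Finsupp.single p 1))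
              (hWX b (P + Finsupp.single p 1)) hy
            have h3 := der_corr w D hκ hX hπ _ (hWκ b (P + Finsupp.single l 1))
              (hWX b (P + Finsupp.single l 1)) hy
            have h4 : ((γ l / γ l') • W b (P + Finsupp.single p 1) -
                (γ p / γ l') • W b (P + Finsupp.single l 1) : Derivation ℤ M M) y -
                ((γ l / γ l') • W b (P + Finsupp.single p 1) -
                  (γ p / γ l') • W b (P + Finsupp.single l 1) : Derivation ℤ M M) π / D π * D y =
                (γ l / γ l') * (W b (P + Finsupp.single p 1) y -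
                  W b (P + Finsupp.single p 1) π / D π * D y) -
                (γ p / γ l') * (W b (P + Finsupp.single l 1) y -
                  W b (P + Finsupp.single l 1) π / D π * D y) := by
              simp only [Derivation.sub_apply, Derivation.smul_apply, smul_eq_mul]
              ring
            rw [h4]
            refine (w.1.map_sub _ _).trans (max_le ?_ ?_)
            · rw [map_mul]
              exact _root_.mul_le_one' (hint l) h2
            · rw [map_mul]
              exact _root_.mul_le_one' (hint p) h3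
          · intro t
            refine (w.1.map_sub _ _).trans (max_le ?_ ?_)
            · rw [map_mul]
              exact _root_.mul_le_one' (hint l) (place_const_le w _)
            · rw [map_mul]
              exact _root_.mul_le_one' (hint p) (place_const_le w _)) rfl rfl J
    have h2 := hlam (fun b => wv b (Finsupp.single l' (d b))) (fun b => hwT' b _ (hsing l' b))
    rw [hdet] at h2
    rw [h2, map_mul, map_prod] at h1
    simp only [Valuation.map_neg, map_pow] at h1
    rw [Finset.prod_pow_eq_pow_sum, ← hl'v] at h1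
    have hcs : ∑ i : Fin p ⊕ (Fin (m + 2) ⊕ Fin j),
        ((Sum.elim (fun _ => 0) (Sum.elim (fun _ => 0) fun _ => 1) i : ℕ)) = j := by
      rw [Fintype.sum_sum_type, Fintype.sum_sum_type]
      simp only [Sum.elim_inl, Sum.elim_inr,
        Finset.sum_const_zero, Finset.sum_const, Finset.card_univ, Fintype.card_fin, smul_eq_mul,
        mul_one, zero_add]
    rw [hcs] at h1
    have hlw : w.1 lam ≠ 0 := (Valuation.ne_zero_iff w.1).mpr hlam0
    have h3 := (log_le_log (mul_ne_zero hlw (pow_ne_zero _ (hvγ w)))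
      (mul_ne_zero (pow_ne_zero _ (hvγ w)) exp_ne_zero)).mpr h1
    rw [log_mul hlw (pow_ne_zero _ (hvγ w)), log_mul (pow_ne_zero _ (hvγ w)) exp_ne_zero,
      log_pow, log_pow, log_exp, nsmul_eq_mul, nsmul_eq_mul] at h3
    push_cast at h3 ⊢
    exact h3
  -- summation
  have htow : IsScalarTower κ (RatFunc κ) M := by
    refine IsScalarTower.of_algebraMap_eq fun c => ?_
    rw [IsScalarTower.algebraMap_apply κ κ[X] M, IsScalarTower.algebraMap_apply κ[X] (RatFunc κ) M,
      ← IsScalarTower.algebraMap_apply κ κ[X] (RatFunc κ)]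
  let P : Finset (Place κ M) := (vmax_finite hγ).toFinset ∪ (place_finite hlam0).toFinset ∪
    (ramIdx_finite (κ := κ) (K := RatFunc κ) (L := M)).toFinset
  have hP : ∀ v ∉ P, vmax v.1 γ = 1 ∧ v.1 lam = 1 ∧ ramIdx (RatFunc κ) v.1 = 1 := by
    intro v hv
    simp only [P, Finset.mem_union, Set.Finite.mem_toFinset, not_or, Set.mem_ofPred_eq,
      not_not] at hv
    exact ⟨hv.1.1, hv.1.2, hv.2⟩
  have hsum := Finset.sum_le_sum fun v (_ : v ∈ P) => hloc v
  simp only [Finset.sum_add_distrib, ← Finset.mul_sum] at hsum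
  have e5 : ∑ v ∈ P, (ζ v : ℤ) ≤ (Z.ncard : ℤ) := by
    rw [← Nat.cast_sum]
    have h6 : ∑ v ∈ P, ζ v ≤ Z.ncard := by
      rw [Set.ncard_eq_toFinset_card Z hZfin, Finset.card_eq_sum_ones]
      have h7 : ∑ v ∈ P, ζ v = ∑ v ∈ P.filter (fun v => v ∈ Z), 1 := by
        rw [Finset.sum_filter]
      rw [h7]
      refine Finset.sum_le_sum_of_subset fun v hv => ?_
      rw [Set.Finite.mem_toFinset]
      exact (Finset.mem_filter.1 hv).2
    exact_mod_cast h6
  have e1 : ∑ v ∈ P, log (v.1 lam) = 0 := by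
    rw [← product_formula (κ := κ) hlam0]
    symm
    refine finsum_eq_sum_of_support_subset _ fun v hv => ?_
    by_contra hvP
    apply hv
    simp only
    rw [(hP v hvP).2.1, log_one]
  have e2 : ∑ v ∈ P, log (vmax v.1 γ) = height κ γ := by
    symm
    refine finsum_eq_sum_of_support_subset _ fun v hv => ?_
    by_contra hvP
    apply hv
    simp only
    rw [(hP v hvP).1, log_one]
  have e4 : ∑ v ∈ P, ((ramIdx (RatFunc κ) v.1 - 1 : ℕ) : ℤ) = (ramDeg κ M (RatFunc κ) : ℤ) := by
    rw [← Nat.cast_sum]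
    congr 1
    symm
    refine finsum_eq_sum_of_support_subset _ fun v hv => ?_
    by_contra hvP
    apply hv
    simp only
    rw [(hP v hvP).2.2, Nat.sub_self]
  rw [e1, e2, e4, zero_add] at hsum
  have hM : IsFF κ M := by
    exact (sp5b_isFF κ).of_finite
  have hpos : 0 ≤ height κ γ := hM.height_nonneg hγ
  have hcount : ((j : ℤ) + Lc) + (m + 2 + p) ≤
      2 * (r + 1) + (Fintype.card Λ + Fintype.card θ) := by
    have h1 : m + 2 + j + p ≤ r + 1 + (Fintype.card Λ + Fintype.card θ) := by omega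
    have h2 : (Lc : ℤ) ≤ r + 1 := by exact_mod_cast hLcr
    have h3 : ((m + 2 + j + p : ℕ) : ℤ) ≤
        ((r + 1 + (Fintype.card Λ + Fintype.card θ) : ℕ) : ℤ) := by exact_mod_cast h1
    push_cast at h3
    linarith
  have h5 := mul_le_mul_of_nonneg_right hcount hpos
  linarith

end

end Pool.Agent.Lib.MP_44a246_ntC
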