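import Mathlib
import Pool.Agent.Lib.MP_44a246_ntY.Y70
import Pool.Agent.Lib.MP_44a246_ntC.C16

/-!
The functionals on the tangent space given by the equations of a weighted projective variety and by
forms which do not vanish, at the points at which the matrix of the derivatives with respect to the
variables `t_j` has a given rank.
-/

namespace Pool.Agent.Lib.MP_44a246_ntC

open Pool.Agent.Lib.MP_44a246_ntR
open Pool.Agent.Lib.MP_44a246_ntK
open Pool.Agent.Lib.MP_44a246_nt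
open Pool.Agent.Lib.MP_44a246_ntL
open Pool.Agent.Lib.MP_44a246_ntQ
open Pool.Agent.Lib.MP_44a246_ntS
open Pool.Agent.Lib.MP_44a246_ntU
open Pool.Agent.Lib.MP_44a246_ntY
open Pool.Agent.Lib.MP_e52354_nt

section

open Polynomial

/-- the point and the derivative along the curve are independent (general denominator) -/
theorem indep_pairL {κ : Type*} [Field κ] {n : ℕ} {A W : κ[X][X]} {Bv : Fin n → κ[X][X]}
    {ξ₀ ξ₁ : Fin n → κ} {y₁ y : κ} (hA : A.evalEval y₁ y = 0)
    (hAY : (derivative A).evalEval y₁ y ≠ 0) (hW : W.evalEval y₁ y ≠ 0)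
    (h0 : A ∣ ∑ j, C (C (ξ₀ j)) * Bv j - W)
    (h1 : A ∣ ∑ j, C (C (ξ₁ j)) * Bv j - C X * W) :
    LinearIndependent κ ![fun j => (Bv j).evalEval y₁ y,
      fun j => (vf A (cX κ) (Bv j)).evalEval y₁ y] := by
  classical
  set α := (derivative A).evalEval y₁ y with hα
  set ω := W.evalEval y₁ y with hω
  set v₀ : Fin n → κ := fun j => (Bv j).evalEval y₁ y with hv₀
  set v₁ : Fin n → κ := fun j => (vf A (cX κ) (Bv j)).evalEval y₁ y with hv₁
  have key : ∀ ξ : Fin n → κ, ∀ V : Derivation ℤ κ[X][X] κ[X][X],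
      V (∑ j, C (C (ξ j)) * Bv j) = ∑ j, (C (C (ξ j)) * V (Bv j) + Bv j * V (C (C (ξ j)))) := by
    intro ξ V
    rw [map_sum]
    refine Finset.sum_congr rfl fun j _ => ?_
    rw [Derivation.leibniz, smul_eq_mul, smul_eq_mul]
  have hVC : ∀ c : κ, vf A (cX κ) (C (C c)) = 0 := by
    intro c
    rw [vf_apply, cX_C_C, derivative_C]
    ring
  have hev : ∀ ξ : Fin n → κ,
      (vf A (cX κ) (∑ j, C (C (ξ j)) * Bv j)).evalEval y₁ y = ∑ j, ξ j * v₁ j := by
    intro ξ
    rw [key, evalEval_finsetSum]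
    refine Finset.sum_congr rfl fun j _ => ?_
    rw [hVC, mul_zero, add_zero, evalEval_mul, evalEval_C, eval_C]
  have hev0 : ∀ ξ : Fin n → κ,
      (∑ j, C (C (ξ j)) * Bv j).evalEval y₁ y = ∑ j, ξ j * v₀ j := by
    intro ξ
    rw [evalEval_finsetSum]
    refine Finset.sum_congr rfl fun j _ => ?_
    rw [evalEval_mul, evalEval_C, eval_C]
  obtain ⟨q₀, hq₀⟩ := h0
  obtain ⟨q₁, hq₁⟩ := h1
  have hq₀' : ∑ j, C (C (ξ₀ j)) * Bv j = W + A * q₀ := by rw [← hq₀]; ring
  have hq₁' : ∑ j, C (C (ξ₁ j)) * Bv j = C X * W + A * q₁ := by rw [← hq₁]; ring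
  set c₀ := (vf A (cX κ) W).evalEval y₁ y with hc₀
  have e00 : ∑ j, ξ₀ j * v₀ j = ω := by
    rw [← hev0, hq₀', evalEval_add, evalEval_mul, hA, zero_mul, add_zero]
  have e10 : ∑ j, ξ₁ j * v₀ j = y₁ * ω := by
    rw [← hev0, hq₁', evalEval_add, evalEval_mul, evalEval_mul, hA, zero_mul, add_zero,
      evalEval_C, eval_X]
  have e01 : ∑ j, ξ₀ j * v₁ j = c₀ := by
    rw [← hev, hq₀', map_add, vf_mul, evalEval_add, evalEval_mul, hA, zero_mul, add_zero]
  have e11 : ∑ j, ξ₁ j * v₁ j = y₁ * c₀ + ω * α := by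
    rw [← hev, hq₁', map_add, vf_mul, evalEval_add, evalEval_mul, hA, zero_mul, add_zero,
      Derivation.leibniz, smul_eq_mul, smul_eq_mul, evalEval_add, evalEval_mul, evalEval_mul,
      evalEval_C, eval_X]
    have h3 : vf A (cX κ) (C X) = derivative A := by
      rw [vf_apply, cX_C_X, derivative_C]
      ring
    rw [h3]
  rw [LinearIndependent.pair_iff]
  intro s t hst
  have f0 : s * ω + t * c₀ = 0 := by
    have := congrArg (fun u : Fin n → κ => ∑ j, ξ₀ j * u j) hst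
    simp only [Pi.add_apply, Pi.smul_apply, smul_eq_mul, Pi.zero_apply, mul_zero,
      Finset.sum_const_zero, mul_add, Finset.sum_add_distrib] at this
    rw [← e00, ← e01, Finset.mul_sum, Finset.mul_sum, ← this]
    congr 1 <;> exact Finset.sum_congr rfl fun j _ => by ring
  have f1 : s * (y₁ * ω) + t * (y₁ * c₀ + ω * α) = 0 := by
    have := congrArg (fun u : Fin n → κ => ∑ j, ξ₁ j * u j) hst
    simp only [Pi.add_apply, Pi.smul_apply, smul_eq_mul, Pi.zero_apply, mul_zero,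
      Finset.sum_const_zero, mul_add, Finset.sum_add_distrib] at this
    rw [← e10, ← e11, Finset.mul_sum, Finset.mul_sum, ← this]
    congr 1 <;> exact Finset.sum_congr rfl fun j _ => by ring
  have ht : t * (ω * α) = 0 := by linear_combination f1 - y₁ * f0
  have ht0 : t = 0 := (mul_eq_zero.mp ht).resolve_right (mul_ne_zero hW hAY)
  refine ⟨?_, ht0⟩
  rw [ht0, zero_mul, add_zero] at f0
  exact (mul_eq_zero.mp f0).resolve_right hW

/-- The derivatives at a point of the curve are independent, if at most one of the given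
derivations is omitted (general denominator). -/
theorem exists_dirsL {κ : Type*} [Field κ] {m' n : ℕ} {A W : κ[X][X]} {Bv : Fin n → κ[X][X]}
    {ξ₀ ξ₁ x : Fin n → κ} {y₁ y β : κ} (hA : A.evalEval y₁ y = 0)
    (hAY : (derivative A).evalEval y₁ y ≠ 0) (hW : W.evalEval y₁ y ≠ 0)
    (hβ : β ≠ 0) (hB : ∀ j, β * x j = (Bv j).evalEval y₁ y)
    (h0 : A ∣ ∑ j, C (C (ξ₀ j)) * Bv j - W)
    (h1 : A ∣ ∑ j, C (C (ξ₁ j)) * Bv j - C X * W)
    (e : Fin m' → Derivation ℤ κ κ)
    (hx : LinearIndependent κ (Fin.cons x (fun i k => e i (x k)) : Fin (m' + 1) → Fin n → κ)) :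
    ∃ (m : ℕ) (i₀ : Fin m → Fin m'), m' ≤ m + 1 ∧ LinearIndependent κ
      (Fin.cons (fun j => (Bv j).evalEval y₁ y)
        (Fin.cons (fun j => (vf A (cX κ) (Bv j)).evalEval y₁ y)
          fun i j => (vf A (cE (e (i₀ i))) (Bv j)).evalEval y₁ y) :
        Fin (m + 2) → Fin n → κ) := by
  rcases m' with _ | m
  · refine ⟨0, Fin.elim0, by omega, ?_⟩
    convert indep_pairL hA hAY hW h0 h1 using 1
    funext i
    fin_cases i <;> rfl
  · obtain ⟨i₀, hi₀⟩ := indep_atLV hA hAY hW hβ hB h0 h1 e hx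
    exact ⟨m, i₀.succAbove, le_rfl, hi₀⟩

end

section

open MvPolynomial

variable {k M : Type*} [Field k] [Field M] [Algebra k M] {n p : ℕ} {d : Fin p → ℕ}
  {a : Fin p → (Fin n →₀ ℕ) → M} {γ : Fin n → M}

theorem cJ_eulerL {g : MvPolynomial (Fin p ⊕ Fin n) k} {E : ℕ}
    (hg : g.IsWeightedHomogeneous (wtP n d) E) :
    ∑ l, cJ d a γ g l * γ l =
      E * aeval (Sum.elim (fun j => Fval (d j) (a j) γ) γ : Fin p ⊕ Fin n → M) g := by
  rw [cJ_mul]
  have h1 := euler_wt hg (Sum.elim (fun j => Fval (d j) (a j) γ) γ : Fin p ⊕ Fin n → M)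
  rw [← h1]
  congr 1
  refine Finset.sum_congr rfl fun j _ => ?_
  rw [grad_euler]
  rfl

theorem cJ_derL {g : MvPolynomial (Fin p ⊕ Fin n) k}
    (F : Derivation ℤ M M) (hF : ∀ u : k, F (algebraMap k M u) = 0) :
    ∑ l, cJ d a γ g l * F (γ l) =
      F (aeval (Sum.elim (fun j => Fval (d j) (a j) γ) γ : Fin p ⊕ Fin n → M) g) -
      ∑ j, aeval (Sum.elim (fun j => Fval (d j) (a j) γ) γ : Fin p ⊕ Fin n → M)
        (pderiv (Sum.inl j) g) * ∑ I ∈ expo (Fin n) (d j), F (a j I) * mon γ I := by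
  rw [cJ_mul]
  have h1 := der_aevalG F hF (Sum.elim (fun j => Fval (d j) (a j) γ) γ : Fin p ⊕ Fin n → M) g
  rw [Fintype.sum_sum_type] at h1
  simp only [Sum.elim_inl, Sum.elim_inr] at h1
  have h2 : ∀ j, ∑ l, grad (d j) (a j) γ l * F (γ l) = F (Fval (d j) (a j) γ) -
      ∑ I ∈ expo (Fin n) (d j), F (a j I) * mon γ I := by
    intro j
    rw [D_Fval (d j) (a j) F γ]
    ring
  have h3 : ∑ j, aeval (Sum.elim (fun j => Fval (d j) (a j) γ) γ : Fin p ⊕ Fin n → M)
      (pderiv (Sum.inl j) g) * ∑ l, grad (d j) (a j) γ l * F (γ l) =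
      ∑ j, aeval (Sum.elim (fun j => Fval (d j) (a j) γ) γ : Fin p ⊕ Fin n → M)
        (pderiv (Sum.inl j) g) * F (Fval (d j) (a j) γ) -
      ∑ j, aeval (Sum.elim (fun j => Fval (d j) (a j) γ) γ : Fin p ⊕ Fin n → M)
        (pderiv (Sum.inl j) g) * ∑ I ∈ expo (Fin n) (d j), F (a j I) * mon γ I := by
    rw [← Finset.sum_sub_distrib]
    exact Finset.sum_congr rfl fun j _ => by rw [h2 j, mul_sub]
  rw [h3, h1]
  ring

/-- **The functionals given by the equations and by the forms on the boundary**, at a point at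
which the matrix of the derivatives with respect to the variables `t_j` has rank at least `ρ`. -/
theorem exists_jacL {ι Λ : Type*} [Fintype Λ] {e : ι → ℕ} {ρ : ℕ}
    {f : ι → MvPolynomial (Fin p ⊕ Fin n) k} {g : Λ → MvPolynomial (Fin p ⊕ Fin n) k} {E : Λ → ℕ}
    (hf : ∀ i, (f i).IsWeightedHomogeneous (wtP n d) (e i))
    (hg : ∀ l, (g l).IsWeightedHomogeneous (wtP n d) (E l))
    (h0 : ∀ i, aeval (Sum.elim (fun j => Fval (d j) (a j) γ) γ : Fin p ⊕ Fin n → M) (f i) = 0)
    {h : Λ → M}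
    (hh : ∀ l, aeval (Sum.elim (fun j => Fval (d j) (a j) γ) γ : Fin p ⊕ Fin n → M) (g l) = h l)
    (hh0 : ∀ l, h l ≠ 0)
    (hJ : JRank ρ (Sum.elim f g) (Sum.elim (fun j => Fval (d j) (a j) γ) γ :
      Fin p ⊕ Fin n → M)) :
    ∃ (jj : Fin ρ → Fin p) (Lm : Fin ρ → Fin p → M) (c : Fin ρ → Fin n → M)
      (ν : Fin ρ → Λ → M),
      Function.Injective jj ∧ (∀ b b', Lm b (jj b') = if b = b' then 1 else 0) ∧
      (∀ b, ∑ l, c b l * γ l - ∑ t, ν b t * E t = 0) ∧
      ∀ (b : Fin ρ) (F : Derivation ℤ M M), (∀ u : k, F (algebraMap k M u) = 0) →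
        ∑ l, c b l * F (γ l) - ∑ t, ν b t * (F (h t) / h t) =
          - ∑ j, Lm b j * ∑ I ∈ expo (Fin n) (d j), F (a j I) * mon γ I := by
  classical
  obtain ⟨i, jj, hdet⟩ := hJ
  set y : Fin p ⊕ Fin n → M := Sum.elim (fun j => Fval (d j) (a j) γ) γ with hy
  set G : Fin ρ → Fin p → M := fun b j =>
    aeval y (pderiv (Sum.inl j) (Sum.elim f g (i b))) with hG
  set N : Matrix (Fin ρ) (Fin ρ) M := Matrix.of fun a b => G a (jj b) with hN
  have hu : IsUnit N.det := isUnit_iff_ne_zero.2 hdet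
  -- the coefficients of the logarithmic derivatives
  set μ : Fin ρ → Λ → M := fun b t => Sum.elim (fun _ => 0) (fun t' => if t' = t then h t else 0)
    (i b) with hμ
  have hμE : ∀ b, ∑ l, cJ d a γ (Sum.elim f g (i b)) l * γ l = ∑ t, μ b t * E t := by
    intro b
    rcases hi : i b with i' | t'
    · have h1 := cJ_eulerL (a := a) (γ := γ) (hf i')
      rw [h0 i', mul_zero] at h1
      simp only [Sum.elim_inl, hμ, hi, zero_mul, Finset.sum_const_zero]
      exact h1
    · have h1 := cJ_eulerL (a := a) (γ := γ) (hg t')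
      rw [hh t'] at h1
      simp only [Sum.elim_inr, hμ, hi, ite_mul, zero_mul, Finset.sum_ite_eq, Finset.mem_univ,
        if_true]
      rw [h1, mul_comm]
  have hμF : ∀ b (F : Derivation ℤ M M), F (aeval y (Sum.elim f g (i b))) =
      ∑ t, μ b t * (F (h t) / h t) := by
    intro b F
    rcases hi : i b with i' | t'
    · simp only [Sum.elim_inl, hμ, hi, zero_mul, Finset.sum_const_zero]
      rw [h0 i', map_zero]
    · simp only [Sum.elim_inr, hμ, hi, ite_mul, zero_mul, Finset.sum_ite_eq, Finset.mem_univ,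
        if_true]
      rw [hh t', mul_div_cancel₀ _ (hh0 t')]
  refine ⟨jj, fun b j => ∑ t, N⁻¹ b t * G t j,
    fun b l => ∑ t, N⁻¹ b t * cJ d a γ (Sum.elim f g (i t)) l,
    fun b l => ∑ t, N⁻¹ b t * μ t l, ?_, ?_, ?_, ?_⟩
  · intro b b' hbb
    by_contra hne
    exact hdet (Matrix.det_zero_of_column_eq hne fun t => by
      show G t (jj b) = G t (jj b')
      rw [hbb])
  · intro b b'
    have h1 : (N⁻¹ * N) b b' = ∑ t, N⁻¹ b t * G t (jj b') := by
      rw [Matrix.mul_apply]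
      rfl
    show ∑ t, N⁻¹ b t * G t (jj b') = _
    rw [← h1, Matrix.nonsing_inv_mul N hu, Matrix.one_apply]
  · intro b
    have e1 : ∑ l, (∑ t, N⁻¹ b t * cJ d a γ (Sum.elim f g (i t)) l) * γ l =
        ∑ t, N⁻¹ b t * ∑ l, cJ d a γ (Sum.elim f g (i t)) l * γ l := by
      simp only [Finset.sum_mul, Finset.mul_sum]
      rw [Finset.sum_comm]
      exact Finset.sum_congr rfl fun t _ => Finset.sum_congr rfl fun l _ => by ring
    have e2 : ∑ l, (∑ t, N⁻¹ b t * μ t l) * (E l : M) =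
        ∑ t, N⁻¹ b t * ∑ l, μ t l * E l := by
      simp only [Finset.sum_mul, Finset.mul_sum]
      rw [Finset.sum_comm]
      exact Finset.sum_congr rfl fun t _ => Finset.sum_congr rfl fun l _ => by ring
    rw [e1, e2, sub_eq_zero]
    exact Finset.sum_congr rfl fun t _ => by rw [hμE]
  · intro b F hF
    have e1 : ∑ l, (∑ t, N⁻¹ b t * cJ d a γ (Sum.elim f g (i t)) l) * F (γ l) =
        ∑ t, N⁻¹ b t * ∑ l, cJ d a γ (Sum.elim f g (i t)) l * F (γ l) := by
      simp only [Finset.sum_mul, Finset.mul_sum]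
      rw [Finset.sum_comm]
      exact Finset.sum_congr rfl fun t _ => Finset.sum_congr rfl fun l _ => by ring
    have e2 : ∑ l, (∑ t, N⁻¹ b t * μ t l) * (F (h l) / h l) =
        ∑ t, N⁻¹ b t * ∑ l, μ t l * (F (h l) / h l) := by
      simp only [Finset.sum_mul, Finset.mul_sum]
      rw [Finset.sum_comm]
      exact Finset.sum_congr rfl fun t _ => Finset.sum_congr rfl fun l _ => by ring
    have e3 : ∀ S : Fin p → M, ∑ j, (∑ t, N⁻¹ b t * G t j) * S j =
        ∑ t, N⁻¹ b t * ∑ j, G t j * S j := by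
      intro S
      simp only [Finset.sum_mul, Finset.mul_sum]
      rw [Finset.sum_comm]
      exact Finset.sum_congr rfl fun t _ => Finset.sum_congr rfl fun l _ => by ring
    rw [e1, e2, e3, ← Finset.sum_sub_distrib, ← Finset.sum_neg_distrib]
    refine Finset.sum_congr rfl fun t _ => ?_
    rw [cJ_derL F hF, hμF]
    ring

end

end Pool.Agent.Lib.MP_44a246_ntC
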