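import Mathlib
import Pool.Agent.Lib.MP_44a246_ntS.SP9
import Pool.Agent.Lib.MP_44a246_ntS.SP5b
import Pool.Agent.Lib.MP_44a246_ntS.SP6
import Pool.Agent.Lib.MP_44a246_ntY.Y54
import Pool.Agent.Lib.MP_44a246_ntY.Y72
import Pool.Agent.Lib.MP_44a246_ntK.K10
import Pool.Agent.Lib.MP_44a246_ntC.C31
import Pool.Agent.Lib.MP_44a246_ntC.C32

/-!
Step E for pairs, for points at which the matrix of the derivatives with respect to the variables
`t_j` has a given rank: curves of small degree in the variety through a point with many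
algebraically independent coordinates meet the boundary in many points.
-/

namespace Pool.Agent.Lib.MP_44a246_ntC

open Pool.Agent.Lib.MP_44a246_ntK
open Pool.Agent.Lib.MP_44a246_ntR
open Pool.Agent.Lib.MP_44a246_ntY

open Pool.Agent.Lib.MP_44a246_ntD
open Pool.Agent.Lib.MP_44a246_ntQ

open Pool.Agent.Lib.MP_e52354_nt
open Pool.Agent.Lib.MP_44a246_nt
open Pool.Agent.Lib.MP_44a246_ntL
open Pool.Agent.Lib.MP_44a246_ntS
open Pool.Agent.Lib.MP_44a246_ntG
open Pool.Agent.Lib.MP_44a246_ntU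
open WithZero Polynomial Module

universe u

section aux

variable {κ M : Type*} [Field κ] [IsAlgClosed κ] [CharZero κ] [Field M] [Algebra κ M]
  [Algebra κ[X] M] [IsScalarTower κ κ[X] M]
  [Algebra (RatFunc κ) M] [IsScalarTower κ[X] (RatFunc κ) M]
  [Algebra (Rinf κ) M] [IsScalarTower (Rinf κ) (RatFunc κ) M]
  [FiniteDimensional (RatFunc κ) M]

/-- the height of the separating element -/
theorem c33_height_X : height κ ![1, algebraMap κ[X] M X] =
    (Module.finrank (RatFunc κ) M : ℤ) := by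
  classical
  have hX0 : algebraMap κ[X] (RatFunc κ) X ≠ 0 := by
    rw [ne_eq, FaithfulSMul.algebraMap_eq_zero_iff]
    exact X_ne_zero
  have hX : algebraMap κ[X] M X = algebraMap (RatFunc κ) M (algebraMap κ[X] (RatFunc κ) X) :=
    IsScalarTower.algebraMap_apply κ[X] (RatFunc κ) M X
  have hXM : algebraMap κ[X] M X ≠ 0 := by
    rw [hX]
    exact (_root_.map_ne_zero _).mpr hX0
  have h1 := sum_infinite_places (κ := κ) hXM
  have h3 : (Algebra.norm (RatFunc κ) (algebraMap κ[X] M X)).intDegree =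
      (Module.finrank (RatFunc κ) M : ℤ) := by
    rw [hX, Algebra.norm_algebraMap, intDegree_pow' hX0, RatFunc.intDegree_polynomial, natDegree_X]
    push_cast
    ring
  rw [h3] at h1
  have h4 : height κ ![1, algebraMap κ[X] M X] =
      - ∑ᶠ v : Place κ M, (if v.1 (algebraMap κ[X] M X) ≤ 1 then (0 : ℤ) else
        - log (v.1 (algebraMap κ[X] M X))) := by
    rw [← finsum_neg_distrib]
    unfold height
    refine finsum_congr fun v => ?_
    rw [Pool.Agent.Lib.MP_44a246_ntL.vmax_pair]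
    split_ifs with h
    · rw [max_eq_left h, log_one, neg_zero]
    · rw [max_eq_right (not_le.mp h).le, neg_neg]
  rw [h4, h1, neg_neg]

omit [IsAlgClosed κ] [CharZero κ] [Algebra κ M] [IsScalarTower κ κ[X] M]
  [Algebra (Rinf κ) M] [IsScalarTower (Rinf κ) (RatFunc κ) M]
  [FiniteDimensional (RatFunc κ) M] in
private theorem c33_clear (Y : M) (r : (RatFunc κ)[X]) :
    ∃ (q : κ[X]) (P : κ[X][X]), q ≠ 0 ∧ aeval Y P = algebraMap κ[X] M q * aeval Y r := by
  obtain ⟨b, hb0, hb⟩ := IsLocalization.integerNormalization_spec (nonZeroDivisors κ[X]) r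
  refine ⟨b, IsLocalization.integerNormalization (nonZeroDivisors κ[X]) r,
    nonZeroDivisors.ne_zero hb0, ?_⟩
  rw [← aeval_map_algebraMap (RatFunc κ), hb]
  have h1 : b • r = C (algebraMap κ[X] (RatFunc κ) b) * r := by
    rw [← smul_eq_C_mul, algebraMap_smul]
  rw [h1, map_mul, aeval_C, ← IsScalarTower.algebraMap_apply κ[X] (RatFunc κ) M]

omit [IsAlgClosed κ] [CharZero κ] [Algebra (Rinf κ) M] [IsScalarTower (Rinf κ) (RatFunc κ) M]
  [FiniteDimensional (RatFunc κ) M] in
/-- every element is a quotient of polynomials in `X`, `Y` -/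
theorem c33_gen {Y : M} (hgen : IntermediateField.adjoin (RatFunc κ) {Y} = ⊤) (z : M) :
    ∃ G H : κ[X][X], ev (algebraMap κ M) (algebraMap κ[X] M X) Y H ≠ 0 ∧
      z * ev (algebraMap κ M) (algebraMap κ[X] M X) Y H =
        ev (algebraMap κ M) (algebraMap κ[X] M X) Y G := by
  have hz : z ∈ IntermediateField.adjoin (RatFunc κ) {Y} := by
    rw [hgen]
    exact IntermediateField.mem_top
  obtain ⟨r, s, hrs⟩ := (IntermediateField.mem_adjoin_simple_iff (RatFunc κ) z).1 hz
  by_cases hs : aeval Y s = 0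
  · refine ⟨0, 1, ?_, ?_⟩
    · rw [map_one]
      exact one_ne_zero
    · rw [hrs, hs, div_zero, zero_mul, map_zero]
  · obtain ⟨q₁, P₁, hq₁, hP₁⟩ := c33_clear Y r
    obtain ⟨q₂, P₂, hq₂, hP₂⟩ := c33_clear Y s
    have hinj : ∀ q : κ[X], q ≠ 0 → algebraMap κ[X] M q ≠ 0 := by
      intro q hq
      rw [IsScalarTower.algebraMap_apply κ[X] (RatFunc κ) M]
      refine (_root_.map_ne_zero _).mpr ?_
      rw [ne_eq, FaithfulSMul.algebraMap_eq_zero_iff]
      exact hq
    refine ⟨C q₂ * P₁, C q₁ * P₂, ?_, ?_⟩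
    · rw [ev_aeval, map_mul, aeval_C, hP₂]
      exact mul_ne_zero (hinj _ hq₁) (mul_ne_zero (hinj _ hq₂) hs)
    · rw [ev_aeval, ev_aeval, map_mul, map_mul, aeval_C, aeval_C, hP₁, hP₂, hrs]
      field_simp

omit [IsAlgClosed κ] [CharZero κ] [Field M] [Algebra κ M] [Algebra κ[X] M]
  [IsScalarTower κ κ[X] M] [Algebra (RatFunc κ) M] [IsScalarTower κ[X] (RatFunc κ) M]
  [Algebra (Rinf κ) M] [IsScalarTower (Rinf κ) (RatFunc κ) M]
  [FiniteDimensional (RatFunc κ) M] in
theorem c33_box {b : ℕ} {A : κ[X][X]} (h : Box b A) : Box b (derivative A) := by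
  refine ⟨(natDegree_derivative_le A).trans ((Nat.sub_le _ _).trans h.1), fun i => ?_⟩
  rw [coeff_derivative]
  refine natDegree_mul_le.trans ?_
  have h1 : ((i : κ[X]) + 1).natDegree = 0 := by
    have : ((i : κ[X]) + 1) = C ((i : κ) + 1) := by simp
    rw [this, natDegree_C]
  rw [h1, add_zero]
  exact h.2 _

end aux

private theorem c33_num {r b s m m' ρ N S : ℕ} {h R nZ nG n1 n2 n3 n4 hX hY hδ hω : ℤ}
    (hd : 4 * r + 13 * b + 6 + 2 * s ≤ 2 * (S + m' + ρ)) (hm : m' ≤ m + 1)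
    (hN : 0 < N) (hNb : N ≤ b) (hpos : 0 < h)
    (hglob : ((S : ℤ) + m + 2 + ρ) * h ≤ (2 * (r + 1) + s) * h + R + nZ)
    (hram : R ≤ 2 * ((N : ℤ) - 1) * h)
    (hZ : nZ ≤ nG + (n1 + (n2 + (n3 + n4))))
    (hG : nG ≤ 2 * N + ((N * (N - 1) / 2 : ℕ) : ℤ))
    (h1 : n1 ≤ hX) (h2 : n2 ≤ hY) (h3 : n3 ≤ hδ) (h4 : n4 ≤ hω)
    (hXh : hX ≤ h) (hYh : hY ≤ h) (hXN : hX = N) (hδh : hδ ≤ b * hX + b * hY)
    (hωh : hω ≤ b * hX + b * hY) : False := by
  have hq : 2 * ((N * (N - 1) / 2 : ℕ) : ℤ) ≤ (N : ℤ) * ((N : ℤ) - 1) := by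
    have h5 : 2 * (N * (N - 1) / 2) ≤ N * (N - 1) := Nat.mul_div_le _ _
    have h6 : ((N - 1 : ℕ) : ℤ) = (N : ℤ) - 1 := by
      rw [Nat.cast_sub hN, Nat.cast_one]
    rw [← h6]
    exact_mod_cast h5
  have hNh : (N : ℤ) ≤ h := by
    rw [← hXN]
    exact hXh
  have hNb' : (N : ℤ) ≤ b := by exact_mod_cast hNb
  have hN' : (1 : ℤ) ≤ N := by exact_mod_cast hN
  have hd' : (4 * (r : ℤ) + 13 * b + 6 + 2 * s) ≤ 2 * (S + m' + ρ) := by exact_mod_cast hd
  have hm'' : (m' : ℤ) ≤ m + 1 := by exact_mod_cast hm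
  have hb0 : (0 : ℤ) ≤ b := by positivity
  have e1 : (N : ℤ) * ((N : ℤ) - 1) ≤ h * ((b : ℤ) - 1) :=
    mul_le_mul hNh (by linarith) (by linarith) hpos.le
  have e2 : (b : ℤ) * hX ≤ b * h := mul_le_mul_of_nonneg_left hXh hb0
  have e3 : (b : ℤ) * hY ≤ b * h := mul_le_mul_of_nonneg_left hYh hb0
  have e4 : ((N : ℤ) - 1) * h ≤ ((b : ℤ) - 1) * h :=
    mul_le_mul_of_nonneg_right (by linarith) hpos.le
  have e5 : (4 * (r : ℤ) + 13 * b + 6 + 2 * s) * h ≤ (2 * (S + (m + 1) + ρ)) * h :=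
    mul_le_mul_of_nonneg_right (by linarith) hpos.le
  have e6 : nZ ≤ 2 * N + ((N * (N - 1) / 2 : ℕ) : ℤ) + 2 * h + 4 * (b * h) := by linarith
  linarith [e1, e4, e5, e6, hq]

private theorem c33_hom {k : Type*} [Field k] {R S : Type*} [CommRing R] [CommRing S]
    [Algebra k R] [Algebra k S] {σ τ : Type*} (ψ : R →+* S)
    (hψ : ∀ u : k, ψ (algebraMap k R u) = algebraMap k S u) (x : σ → R) (y : τ → R)
    (q : MvPolynomial (σ ⊕ τ) k) :
    ψ (MvPolynomial.aeval (Sum.elim x y) q) =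
      MvPolynomial.aeval (Sum.elim (fun j => ψ (x j)) (fun j => ψ (y j)) : σ ⊕ τ → S) q := by
  rw [MvPolynomial.aeval_def, MvPolynomial.hom_eval₂, MvPolynomial.aeval_def]
  have e1 : ψ.comp (algebraMap k R) = algebraMap k S := RingHom.ext hψ
  have e2 : (fun i => ψ (Sum.elim x y i)) = (Sum.elim (fun j => ψ (x j)) (fun j => ψ (y j)) : σ ⊕ τ → S) := by
    funext t
    rcases t with t | t <;> rfl
  rw [e1, e2]

private theorem c33_det {k : Type*} [Field k] {R S : Type*} [CommRing R] [CommRing S]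
    [Algebra k R] [Algebra k S] {σ τ : Type*} (ψ : R →+* S)
    (hψ : ∀ u : k, ψ (algebraMap k R u) = algebraMap k S u) (x : σ → R) (y : τ → R) {N : ℕ}
    (P : Fin N → Fin N → MvPolynomial (σ ⊕ τ) k) :
    ψ (Matrix.of fun a b => MvPolynomial.aeval (Sum.elim x y : σ ⊕ τ → R) (P a b)).det =
      (Matrix.of fun a b => MvPolynomial.aeval
        (Sum.elim (fun j => ψ (x j)) (fun j => ψ (y j)) : σ ⊕ τ → S) (P a b)).det := by
  rw [RingHom.map_det]
  refine congrArg Matrix.det (Matrix.ext fun a b => ?_)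
  rw [RingHom.mapMatrix_apply, Matrix.map_apply, Matrix.of_apply, Matrix.of_apply, c33_hom ψ hψ]

/-- **Step E for pairs**, with derivations. -/
theorem no_certLP_der {κ : Type u} [Field κ] [IsAlgClosed κ] [CharZero κ] {k : Type*} [Field k]
    [CharZero k] [Algebra k κ] {n m' p r b s ρ q : ℕ} {d : Fin p → ℕ}
    (hd : ∀ B : Finset (Fin p), B.card = ρ + q →
      4 * r + 13 * b + 6 + 2 * s ≤ 2 * ((∑ j ∈ B, d j) + m' + ρ))
    {ι : Type*} {e : ι → ℕ} {f : ι → MvPolynomial (Fin p ⊕ Fin (n + 1)) k}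
    (hf : ∀ i, (f i).IsWeightedHomogeneous (wtP (n + 1) d) (e i))
    (hI : ringKrullDim (MvPolynomial (Fin (n + 1)) k ⧸ imI f) ≤ ((r + 1 : ℕ) : ℕ))
    {g : Fin q → MvPolynomial (Fin p ⊕ Fin (n + 1)) k} {El : Fin q → ℕ}
    (hg : ∀ l, (g l).IsWeightedHomogeneous (wtP (n + 1) d) (El l))
    {a : Fin p → (Fin (n + 1) →₀ ℕ) → κ} (δ : Fin m' → Derivation ℤ κ κ)
    (hδk : ∀ i, ∀ u : k, δ i (algebraMap k κ u) = 0)
    (hδa : ∀ i j, ∀ I ∈ expo (Fin (n + 1)) (d j), δ i (a j I) = 0)
    {P : Finset (Fin p × (Fin (n + 1) →₀ ℕ))} (hP : P.card ≤ s)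
    (W : Fin p → (Fin (n + 1) →₀ ℕ) → Derivation ℤ κ κ)
    (hWk : ∀ b I, ∀ u : k, W b I (algebraMap k κ u) = 0)
    (hWa : ∀ b, ∀ I ∈ expo (Fin (n + 1)) (d b), ∀ b', ∀ J ∈ expo (Fin (n + 1)) (d b'),
      (b', J) ∉ P → W b I (a b' J) = if (b, I) = (b', J) then 1 else 0)
    {x : Fin (n + 1) → κ}
    (hx : LinearIndependent κ
      (Fin.cons x (fun i k => δ i (x k)) : Fin (m' + 1) → Fin (n + 1) → κ))
    (hgx : ∀ l, Fval (El l) (aWP d a g l) x ≠ 0)
    (hne : JRank (ρ + q) (Sum.elim f g)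
      (Sum.elim (fun j => Fval (d j) (a j) x) x : Fin p ⊕ Fin (n + 1) → κ)) :
    ¬ CertLV e (aWP d a f) (∑ l, El l) (aWP d a (fun _ : Unit => ∏ l, g l) ()) b x := by
  classical
  rintro ⟨A, Wd, Bv, ξ₀, ξ₁, ξ₂, c, y₁, y, hirr, hboxA, hboxW, -, hc, hξ₀, hξ₁, hξ₂, hA, hAY, hW,
    hB, hF, h0, h1, h2, hcount⟩
  obtain ⟨m, i₀, hm', hind⟩ := exists_dirsL (β := Wd.evalEval y₁ y * c) hA hAY hW
    (mul_ne_zero hW hc) (fun j => by rw [mul_assoc]; exact hB j) h0 h1 δ hx
  have hdegA : 0 < A.natDegree := by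
    rw [Nat.pos_iff_ne_zero]
    intro h3
    apply hAY
    rw [eq_C_of_natDegree_eq_zero h3, derivative_C]
    simp
  refine with_curve hirr hdegA ?_
  intro M _ _ _ _ _ _ _ _ _ Y hY hgen hfin ht halg
  set φ := algebraMap κ M with hφ
  set X' : M := algebraMap κ[X] M X with hX'
  -- specialisation
  have hspec : ∀ G : κ[X][X], G.evalEval y₁ y ≠ 0 → ev φ X' Y G ≠ 0 := by
    intro G hG h3
    rw [hX', ev_aeval, hY] at h3
    obtain ⟨g, rfl⟩ := h3
    apply hG
    rw [evalEval_mul, hA, zero_mul]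
  have hevA : ∀ G : κ[X][X], A ∣ G → ev φ X' Y G = 0 := by
    intro G hG
    rw [hX', ev_aeval, hY]
    exact hG
  have hAP : ev φ X' Y A = 0 := hevA A dvd_rfl
  have hδ : ev φ X' Y (derivative A) ≠ 0 := hspec _ hAY
  obtain ⟨δA, hδA⟩ : ∃ δA, δA = ev φ X' Y (derivative A) := ⟨_, rfl⟩
  obtain ⟨ω, hω⟩ : ∃ ω, ω = ev φ X' Y Wd := ⟨_, rfl⟩
  have hω0 : ω ≠ 0 := by
    rw [hω]
    exact hspec _ hW
  rw [← hδA] at hδ
  set γ : Fin (n + 1) → M := fun j => ev φ X' Y (Bv j) with hγdef
  -- the derivations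
  obtain ⟨D, hDκ, hDX⟩ := exists_der_ext ht halg (0 : Derivation ℤ κ κ) 1
  choose E hEκ hEX using fun i : Fin m' => exists_der_ext ht halg (δ i) 0
  choose W' hWκ' hWX' using fun b I => exists_der_ext ht halg (W b I) 0
  have hDκ' : ∀ u : κ, D (algebraMap κ M u) = 0 := fun u => by
    rw [hDκ]
    simp
  have hD : ∀ G, δA * D (ev φ X' Y G) = ev φ X' Y (vf A (cX κ) G) := by
    intro G
    rw [hδA, ev_vf φ 0 D hDκ hAP G, hX', hDX, one_mul, vf_apply, cE_zero, cE_zero]
    simp
  have hE : ∀ i G, δA * E i (ev φ X' Y G) = ev φ X' Y (vf A (cE (δ i)) G) := by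
    intro i G
    rw [hδA, ev_vf φ (δ i) (E i) (hEκ i) hAP G, hX', hEX, zero_mul, add_zero]
  -- the relations between `γ` and the projection
  have hsum : ∀ ξ : Fin (n + 1) → κ, ev φ X' Y (∑ j, C (C (ξ j)) * Bv j) = ∑ j, φ (ξ j) * γ j := by
    intro ξ
    rw [map_sum]
    refine Finset.sum_congr rfl fun j _ => ?_
    rw [map_mul, ev_C_C]
  have r0 : ∑ j, φ (ξ₀ j) * γ j = ω := by
    rw [← hsum, ← sub_eq_zero, hω, ← map_sub]
    exact hevA _ h0
  have r1 : ∑ j, φ (ξ₁ j) * γ j = X' * ω := by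
    rw [← hsum, ← sub_eq_zero, hω]
    have h4 : X' * ev φ X' Y Wd = ev φ X' Y (C X * Wd) := by
      rw [map_mul, ev_C_X]
    rw [h4, ← map_sub]
    exact hevA _ h1
  have r2 : ∑ j, φ (ξ₂ j) * γ j = Y * ω := by
    rw [← hsum, ← sub_eq_zero, hω]
    have h4 : Y * ev φ X' Y Wd = ev φ X' Y (X * Wd) := by
      rw [map_mul, ev_X]
    rw [h4, ← map_sub]
    exact hevA _ h2
  have hγ : γ ≠ 0 := by
    intro h3
    apply hω0
    rw [← r0, h3]
    simp
  -- the structure of an algebra over `k`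
  let _ : Algebra k M := ((algebraMap κ M).comp (algebraMap k κ)).toAlgebra
  have hkM : ∀ u : k, algebraMap k M u = algebraMap κ M (algebraMap k κ u) := fun u => rfl
  have tkM : IsScalarTower k κ M := IsScalarTower.of_algebraMap_eq hkM
  -- `γ` is a zero of all the forms
  have hFo : ∀ o : ι, Fval (e o) (fun I => algebraMap κ M (aWP d a f o I)) γ = 0 := by
    intro o
    have h3 := hevA _ (hF o)
    rw [← h3]
    unfold FB Fval mon
    rw [map_sum]
    refine Finset.sum_congr rfl fun I _ => ?_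
    rw [map_mul, ev_C_C, map_prod]
    congr 1
    refine Finset.prod_congr rfl fun j _ => ?_
    rw [map_pow]
  set η : Fin p → M := fun j => Fval (d j) (fun I => algebraMap κ M (a j I)) γ with hη
  have hfγ : ∀ i, MvPolynomial.aeval (Sum.elim η γ : Fin p ⊕ Fin (n + 1) → M) (f i) = 0 := by
    intro i
    rw [hη, ← Fval_aWP hf a γ i]
    exact hFo i
  -- the values of the forms on the boundary
  set aP : (Fin (n + 1) →₀ ℕ) → κ := aWP d a (fun _ : Unit => ∏ l, g l) () with haP
  have hprod : (∏ l, g l).IsWeightedHomogeneous (wtP (n + 1) d) (∑ l, El l) :=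
    MvPolynomial.IsWeightedHomogeneous.prod Finset.univ g El fun l _ => hg l
  have hPx : Fval (∑ l, El l) aP x ≠ 0 := by
    have h3 := Fval_aWP' (e := fun _ : Unit => ∑ l, El l) (f := fun _ : Unit => ∏ l, g l)
      (fun _ => hprod) a x ()
    rw [haP, h3, map_prod]
    refine Finset.prod_ne_zero_iff.2 fun l _ => ?_
    rw [← Fval_aWP' hg]
    exact hgx l
  obtain ⟨hv, hhv⟩ : ∃ hv : Fin q → M, ∀ l,
      MvPolynomial.aeval (Sum.elim η γ : Fin p ⊕ Fin (n + 1) → M) (g l) = hv l :=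
    ⟨fun l => MvPolynomial.aeval (Sum.elim η γ : Fin p ⊕ Fin (n + 1) → M) (g l), fun l => rfl⟩
  obtain ⟨f', hf'⟩ : ∃ f', f' = ev φ X' Y (FB (∑ l, El l) aP Bv) := ⟨_, rfl⟩
  have hFγ : Fval (∑ l, El l) (fun I => algebraMap κ M (aP I)) γ = f' := by
    rw [hf']
    unfold FB Fval mon
    rw [map_sum]
    refine Finset.sum_congr rfl fun I _ => ?_
    rw [map_mul, ev_C_C, map_prod]
    congr 1
    refine Finset.prod_congr rfl fun j _ => ?_
    rw [map_pow]
  have hf'prod : f' = ∏ l, hv l := by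
    have h3 := Fval_aWP (e := fun _ : Unit => ∑ l, El l) (f := fun _ : Unit => ∏ l, g l)
      (fun _ => hprod) a γ ()
    rw [← hFγ, haP, h3, map_prod]
    exact Finset.prod_congr rfl fun l _ => hhv l
  have hf0 : f' ≠ 0 := by
    rw [hf']
    apply hspec
    have h3 : (FB (∑ l, El l) aP Bv).evalEval y₁ y =
        Fval (∑ l, El l) aP (fun j => Wd.evalEval y₁ y * c * x j) := by
      have h4 : (FB (∑ l, El l) aP Bv).evalEval y₁ y =
        evalEvalRingHom y₁ y (FB (∑ l, El l) aP Bv) := rfl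
      rw [h4]
      unfold FB Fval mon
      rw [map_sum]
      refine Finset.sum_congr rfl fun I _ => ?_
      rw [map_mul, map_prod]
      have h5 : evalEvalRingHom y₁ y (C (C (aP I))) = aP I := by
        show (C (C (aP I)) : κ[X][X]).evalEval y₁ y = aP I
        rw [evalEval_C, eval_C]
      rw [h5]
      congr 1
      refine Finset.prod_congr rfl fun j _ => ?_
      rw [map_pow]
      refine congrArg (fun z => z ^ I j) ?_
      show (Bv j).evalEval y₁ y = _
      rw [← hB j]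
      ring
    rw [h3, Fval_smul]
    exact mul_ne_zero (pow_ne_zero _ (mul_ne_zero hW hc)) hPx
  have hv0 : ∀ l, hv l ≠ 0 := by
    intro l
    rw [hf'prod] at hf0
    exact Finset.prod_ne_zero_iff.1 hf0 l (Finset.mem_univ l)
  -- the rank condition at the generic point of the curve
  have hne' : JRank (ρ + q) (Sum.elim f g) (Sum.elim η γ : Fin p ⊕ Fin (n + 1) → M) := by
    set β := Wd.evalEval y₁ y * c with hβ
    have hβ0 : β ≠ 0 := mul_ne_zero hW hc
    obtain ⟨i, jj, hdet⟩ := JRank.smul (e := Sum.elim e El) (f := Sum.elim f g) (by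
      rintro (i | i)
      · exact hf i
      · exact hg i) hne hβ0
    refine ⟨i, jj, ?_⟩
    set Hb : Fin p → κ[X][X] := fun j => FB (d j) (a j) Bv with hHb
    set N : Matrix (Fin (ρ + q)) (Fin (ρ + q)) κ[X][X] := Matrix.of fun a b =>
      MvPolynomial.aeval (Sum.elim Hb Bv : Fin p ⊕ Fin (n + 1) → κ[X][X])
        (MvPolynomial.pderiv (Sum.inl (jj b)) (Sum.elim f g (i a))) with hN
    have h3' : ∀ (S : Type u) [Field S] [Algebra k S] (ψ : κ[X][X] →+* S)
        (_ : ∀ u : k, ψ (algebraMap k κ[X][X] u) = algebraMap k S u),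
        ψ N.det = (Matrix.of fun a b => MvPolynomial.aeval
          (Sum.elim (fun j => ψ (Hb j)) (fun j => ψ (Bv j)) : Fin p ⊕ Fin (n + 1) → S)
          (MvPolynomial.pderiv (Sum.inl (jj b)) (Sum.elim f g (i a)))).det := by
      intro S _ _ ψ hψ
      rw [hN]
      exact c33_det ψ hψ Hb Bv _
    have h4 : evalEvalRingHom y₁ y N.det ≠ 0 := by
      rw [h3' κ (evalEvalRingHom y₁ y) (fun u => by
        rw [IsScalarTower.algebraMap_apply k κ κ[X][X]]
        show evalEval y₁ y (C (C (algebraMap k κ u))) = _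
        rw [evalEval_C, eval_C])]
      have hBv : ∀ l, evalEvalRingHom y₁ y (Bv l) = β * x l := by
        intro l
        show evalEval y₁ y (Bv l) = β * x l
        rw [← hB l, hβ, mul_assoc]
      have h5 : (Sum.elim (fun j => evalEvalRingHom y₁ y (Hb j))
          (fun j => evalEvalRingHom y₁ y (Bv j)) : Fin p ⊕ Fin (n + 1) → κ) =
          Sum.elim (fun j => β ^ d j * (Sum.elim (fun j => Fval (d j) (a j) x) x :
            Fin p ⊕ Fin (n + 1) → κ) (Sum.inl j))
            (fun l => β * (Sum.elim (fun j => Fval (d j) (a j) x) x :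
              Fin p ⊕ Fin (n + 1) → κ) (Sum.inr l)) := by
        funext t
        rcases t with t | t
        · simp only [Sum.elim_inl]
          rw [← Fval_smul, hHb]
          unfold FB Fval mon
          rw [map_sum]
          refine Finset.sum_congr rfl fun I _ => ?_
          rw [map_mul, map_prod]
          congr 1
          · show evalEval y₁ y (C (C (a t I))) = a t I
            rw [evalEval_C, eval_C]
          · refine Finset.prod_congr rfl fun l _ => ?_
            rw [map_pow, hBv]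
        · simp only [Sum.elim_inr]
          exact hBv t
      rw [h5]
      exact hdet
    have h6 := hspec N.det h4
    rw [h3' M (ev φ X' Y) (fun u => by
      rw [IsScalarTower.algebraMap_apply k κ κ[X][X], hkM]
      show ev φ X' Y (C (C (algebraMap k κ u))) = _
      rw [ev_C_C])] at h6
    have h7 : ∀ j, ev φ X' Y (Hb j) = η j := by
      intro j
      rw [hHb, hη]
      unfold FB Fval mon
      rw [map_sum]
      refine Finset.sum_congr rfl fun I _ => ?_
      rw [map_mul, ev_C_C, map_prod]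
      congr 1
      refine Finset.prod_congr rfl fun j _ => ?_
      rw [map_pow]
    have h8 : (Sum.elim (fun j => ev φ X' Y (Hb j)) (fun j => ev φ X' Y (Bv j)) :
        Fin p ⊕ Fin (n + 1) → M) = Sum.elim η γ := by
      funext t
      rcases t with t | t
      · exact h7 t
      · rfl
    rw [h8] at h6
    exact h6
  -- independence
  have hspec' : ∀ G : κ[X][X], evalEvalRingHom y₁ y G ≠ 0 → ev φ X' Y G ≠ 0 := hspec
  have hindM : LinearIndependent M (Fin.cons γ (Fin.cons (fun k => D (γ k))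
      fun i k => E (i₀ i) (γ k)) : Fin (m + 2) → Fin (n + 1) → M) := by
    have h3 := indep_of_spec (evalEvalRingHom y₁ y) (ev φ X' Y) hspec'
      (N := Fin.cons Bv (Fin.cons (fun j => vf A (cX κ) (Bv j))
        fun i j => vf A (cE (δ (i₀ i))) (Bv j))) (by
        convert hind using 1
        funext i
        refine Fin.cases rfl (fun i => ?_) i
        exact Fin.cases rfl (fun i => rfl) i)
    have h4 := h3.units_smul (Fin.cons 1 fun _ => (Units.mk0 δA hδ)⁻¹)
    convert h4 using 1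
    funext i
    refine Fin.cases ?_ (fun i => ?_) i
    · funext j
      simp only [Fin.cons_zero, Pi.smul_apply', one_smul]
      rfl
    · refine Fin.cases ?_ (fun i => ?_) i
      · funext j
        show D (γ j) = (δA⁻¹ : M) * ev φ X' Y (vf A (cX κ) (Bv j))
        rw [← hD, inv_mul_cancel_left₀ hδ]
      · funext j
        show E (i₀ i) (γ j) =
          (δA⁻¹ : M) * ev φ X' Y (vf A (cE (δ (i₀ i))) (Bv j))
        rw [← hE, inv_mul_cancel_left₀ hδ]
  -- the tangent space
  obtain ⟨l, hl⟩ : ∃ l, γ l ≠ 0 := by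
    by_contra hcon
    push Not at hcon
    exact hγ (funext hcon)
  obtain ⟨T, hT, hγT, hDT⟩ := exists_tangent (k := k) (r := r) hl
    (fun p j hj => card_le_of_dimI hf hI hfγ hl hj)
  -- the functionals
  set aM : Fin p → (Fin (n + 1) →₀ ℕ) → M := fun j I => algebraMap κ M (a j I) with haM
  obtain ⟨jj, Lm, cr', ν, hjj, hLm, hg0, hgder⟩ := exists_jacL (a := aM) hf hg hfγ hhv hv0 hne'
  have hzero : ∀ (b : Fin (ρ + q)) (F : Derivation ℤ M M), (∀ u : k, F (algebraMap k M u) = 0) →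
      (∀ j, ∀ I ∈ expo (Fin (n + 1)) (d j), F (aM j I) = 0) →
      ∑ k, cr' b k * F (γ k) - ∑ t, ν b t * (F (hv t) / hv t) = 0 := by
    intro b F hFk hFa
    rw [hgder b F hFk, neg_eq_zero]
    refine Finset.sum_eq_zero fun j _ => ?_
    rw [Finset.sum_eq_zero, mul_zero]
    intro I hI
    rw [hFa j I hI, zero_mul]
  -- the coefficients which need not be independent
  set P' : Finset (Fin p × (Fin (n + 1) →₀ ℕ)) := (jexpo n d).filter (fun I => I ∈ P) with hP'
  have hP'c : Fintype.card ↥P' ≤ s := by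
    rw [Fintype.card_coe]
    refine (Finset.card_le_card ?_).trans hP
    intro I hI
    exact (Finset.mem_filter.1 hI).2
  let gl : (Fin (n + 1) ⊕ (Fin q ⊕ ↥P') → M) →ₗ[M] (Fin (ρ + q) → M) := LinearMap.pi fun j =>
    (∑ k, (cr' j k) • LinearMap.proj (Sum.inl k)) -
      (∑ t, (ν j t) • LinearMap.proj (Sum.inr (Sum.inl t))) +
      ∑ t : ↥P', (Lm j t.1.1 * mon γ t.1.2) • LinearMap.proj (Sum.inr (Sum.inr t))
  have hgl : ∀ (v : Fin (n + 1) ⊕ (Fin q ⊕ ↥P') → M) (j : Fin (ρ + q)),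
      gl v j = ∑ k, cr' j k * v (Sum.inl k) - ∑ t, ν j t * v (Sum.inr (Sum.inl t)) +
        ∑ t : ↥P', (Lm j t.1.1 * mon γ t.1.2) * v (Sum.inr (Sum.inr t)) := by
    intro v j
    simp only [gl, LinearMap.pi_apply, LinearMap.add_apply, LinearMap.sub_apply,
      LinearMap.sum_apply, LinearMap.smul_apply, LinearMap.proj_apply, smul_eq_mul]
  have hgl0 : ∀ (v : Fin (n + 1) → M) (z : Fin q → M),
      (∀ j, ∑ k, cr' j k * v k - ∑ t, ν j t * z t = 0) →
      gl (Sum.elim v (Sum.elim z 0)) = 0 := by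
    intro v z hv
    funext j
    rw [hgl, Pi.zero_apply, ← hv j]
    simp only [Sum.elim_inl, Sum.elim_inr, Pi.zero_apply, mul_zero, Finset.sum_const_zero, add_zero]
  -- the inequalities
  have hglob := wedge_globalL (n := n + 1) (d := fun b => d (jj b)) (r := r) D hDκ' hDX
    (fun i => E (i₀ i)) (fun i u => ⟨_, hEκ _ u⟩) (fun i => ⟨0, by rw [hEX, map_zero]⟩)
    (fun b I => W' (jj b) I)
    (fun b I u => ⟨_, hWκ' _ _ u⟩) (fun b I => ⟨0, by rw [hWX', map_zero]⟩)
    (fun b I t => W (jj b) I (a t.1.1 t.1.2) - if (jj b, I) = t.1 then 1 else 0)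
    (El := El) hv0 gl (hgl0 _ _ hg0)
    (hgl0 _ _ fun j => hzero j D (fun u => by rw [hkM, hDκ']) fun j' I _ => hDκ' _)
    (fun i => hgl0 _ _ fun j => hzero j _ (fun u => by rw [hkM, hEκ, hδk, map_zero])
      fun j' I hI => by rw [haM]; simp only; rw [hEκ, hδa _ j' I hI, map_zero])
    (fun b I hI b' => by
      rw [hgl]
      simp only [Sum.elim_inl, Sum.elim_inr]
      have h3 : ∑ k, cr' b' k * W' (jj b) I (γ k) -
          ∑ t, ν b' t * (W' (jj b) I (hv t) / hv t) =
          - ∑ j, Lm b' j * ∑ J ∈ expo (Fin (n + 1)) (d j), W' (jj b) I (aM j J) * mon γ J :=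
        hgder b' (W' (jj b) I) fun u => by rw [hkM, hWκ', hWk, map_zero]
      rw [h3]
      have h4 : ∀ j, ∑ J ∈ expo (Fin (n + 1)) (d j), W' (jj b) I (aM j J) * mon γ J =
          ∑ J ∈ (expo (Fin (n + 1)) (d j)).filter (fun J => (j, J) ∈ P),
            (algebraMap κ M (W (jj b) I (a j J))) * mon γ J +
            ∑ J ∈ (expo (Fin (n + 1)) (d j)).filter (fun J => (j, J) ∉ P),
              algebraMap κ M (if (jj b, I) = (j, J) then 1 else 0) * mon γ J := by
        intro j
        rw [← Finset.sum_filter_add_sum_filter_not (expo (Fin (n + 1)) (d j))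
          (fun J => (j, J) ∈ P)]
        refine congrArg₂ (fun z w => z + w) (Finset.sum_congr rfl fun J _ => ?_)
          (Finset.sum_congr rfl fun J hJ => ?_)
        · rw [haM]
          simp only
          rw [hWκ']
        · rw [Finset.mem_filter] at hJ
          rw [haM]
          simp only
          rw [hWκ', hWa (jj b) I hI j J hJ.1 hJ.2]
      have h5 : ∑ t : ↥P', (Lm b' t.1.1 * mon γ t.1.2) *
            algebraMap κ M (W (jj b) I (a t.1.1 t.1.2) - if (jj b, I) = t.1 then 1 else 0) =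
          ∑ j, Lm b' j * (∑ J ∈ (expo (Fin (n + 1)) (d j)).filter (fun J => (j, J) ∈ P),
            (algebraMap κ M (W (jj b) I (a j J))) * mon γ J -
            ∑ J ∈ (expo (Fin (n + 1)) (d j)).filter (fun J => (j, J) ∈ P),
              algebraMap κ M (if (jj b, I) = (j, J) then 1 else 0) * mon γ J) := by
        have h6 : ∑ t : ↥P', (Lm b' t.1.1 * mon γ t.1.2) *
            algebraMap κ M (W (jj b) I (a t.1.1 t.1.2) - if (jj b, I) = t.1 then 1 else 0) =
            ∑ j, ∑ t ∈ P', (if t.1 = j then Lm b' j *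
              (algebraMap κ M (W (jj b) I (a t.1 t.2)) * mon γ t.2 -
              algebraMap κ M (if (jj b, I) = t then 1 else 0) * mon γ t.2) else 0) := by
          rw [Finset.sum_comm, ← Finset.sum_coe_sort P']
          refine Finset.sum_congr rfl fun t _ => ?_
          rw [Finset.sum_ite_eq, if_pos (Finset.mem_univ _), map_sub]
          ring
        rw [h6]
        refine Finset.sum_congr rfl fun j _ => ?_
        rw [← Finset.sum_filter, ← Finset.sum_sub_distrib, Finset.mul_sum]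
        refine Finset.sum_nbij' (fun t => t.2) (fun J => (j, J)) ?_ ?_ ?_ ?_ ?_
        · intro t ht
          rw [Finset.mem_filter, hP', Finset.mem_filter, mem_jexpo] at ht
          obtain ⟨⟨h7, h8⟩, h9⟩ := ht
          rw [Finset.mem_filter, ← h9]
          exact ⟨h7, h8⟩
        · intro J hJ
          rw [Finset.mem_filter] at hJ
          rw [Finset.mem_filter, hP', Finset.mem_filter, mem_jexpo]
          exact ⟨⟨hJ.1, hJ.2⟩, rfl⟩
        · intro t ht
          rw [Finset.mem_filter] at ht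
          rw [← ht.2]
        · intro J hJ
          rfl
        · intro t ht
          rw [Finset.mem_filter] at ht
          rw [← ht.2]
      have h6 : ∀ j, ∑ J ∈ (expo (Fin (n + 1)) (d j)).filter (fun J => (j, J) ∈ P),
            algebraMap κ M (if (jj b, I) = (j, J) then 1 else 0) * mon γ J +
          ∑ J ∈ (expo (Fin (n + 1)) (d j)).filter (fun J => (j, J) ∉ P),
            algebraMap κ M (if (jj b, I) = (j, J) then 1 else 0) * mon γ J =
          if j = jj b then mon γ I else 0 := by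
        intro j
        rw [Finset.sum_filter_add_sum_filter_not]
        by_cases hbb : j = jj b
        · rw [if_pos hbb, Finset.sum_eq_single I]
          · rw [if_pos (by rw [hbb]), map_one, one_mul]
          · intro J _ hJ
            rw [if_neg, map_zero, zero_mul]
            intro h7
            exact hJ (congrArg Prod.snd h7).symm
          · intro h
            rw [hbb] at h
            exact absurd hI h
        · rw [if_neg hbb]
          refine Finset.sum_eq_zero fun J _ => ?_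
          rw [if_neg, map_zero, zero_mul]
          intro h7
          exact hbb (congrArg Prod.fst h7).symm
      have h7 : ∑ j, Lm b' j * (if j = jj b then mon γ I else 0) =
          if b' = b then mon γ I else 0 := by
        rw [Finset.sum_eq_single (jj b)]
        · rw [if_pos rfl, hLm]
          split_ifs
          · rw [one_mul]
          · rw [zero_mul]
        · intro j _ hj
          rw [if_neg hj, mul_zero]
        · intro h
          exact absurd (Finset.mem_univ _) h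
      have h8 : (if b' = b then - mon γ I else 0) = - (if b' = b then mon γ I else 0) := by
        split_ifs
        · rfl
        · rw [neg_zero]
      rw [h5, h8, ← h7, ← Finset.sum_neg_distrib, ← Finset.sum_neg_distrib,
        ← Finset.sum_add_distrib]
      refine Finset.sum_congr rfl fun j _ => ?_
      rw [h4 j, ← h6 j]
      ring) hindM hT hγT
    (hDT D fun u => by rw [hkM, hDκ'])
    (fun i => hDT _ fun u => by rw [hkM, hEκ, hδk, map_zero])
    (fun b I _ => hDT _ fun u => by rw [hkM, hWκ', hWk, map_zero])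
  have hgen' : pointField (RatFunc κ) γ = ⊤ := by
    rw [eq_top_iff, ← hgen, IntermediateField.adjoin_le_iff, Set.singleton_subset_iff]
    obtain ⟨l, hl⟩ : ∃ l, γ l ≠ 0 := by
      by_contra hcon
      push Not at hcon
      exact hγ (funext hcon)
    have hmem : ∀ ξ : Fin (n + 1) → κ, (∑ j, φ (ξ j) * γ j) / γ l ∈ pointField (RatFunc κ) γ := by
      intro ξ
      rw [Finset.sum_div]
      refine sum_mem fun j _ => ?_
      rw [mul_div_assoc]
      refine mul_mem ?_ (IntermediateField.subset_adjoin _ _ ⟨j, l, rfl⟩)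
      have h5 : φ (ξ j) = algebraMap (RatFunc κ) M (algebraMap κ[X] (RatFunc κ) (C (ξ j))) := by
        rw [← IsScalarTower.algebraMap_apply κ[X] (RatFunc κ) M, hφ,
          IsScalarTower.algebraMap_apply κ κ[X] M]
        rfl
      rw [h5]
      exact (pointField (RatFunc κ) γ).algebraMap_mem _
    have h6 : Y = ((∑ j, φ (ξ₂ j) * γ j) / γ l) / ((∑ j, φ (ξ₀ j) * γ j) / γ l) := by
      rw [r0, r2]
      field_simp
    rw [h6]
    exact div_mem (hmem ξ₂) (hmem ξ₀)
  have hram := ram_le hγ hgen'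
  have hpos : 0 < height κ γ := height_pos hγ (ξ₀ := ξ₀) (ξ₁ := ξ₁) (by rw [← hφ, r0]; exact hω0)
    (by rw [← hφ, r0, r1])
  -- the function field
  have hFF : IsFF κ M := by
    have t : IsScalarTower κ (RatFunc κ) M := by
      refine IsScalarTower.of_algebraMap_eq fun u => ?_
      rw [IsScalarTower.algebraMap_apply κ κ[X] M,
        IsScalarTower.algebraMap_apply κ κ[X] (RatFunc κ),
        ← IsScalarTower.algebraMap_apply κ[X] (RatFunc κ) M]
    exact (sp5b_isFF κ).of_finite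
  have hX'0 : ∀ s : κ, X' - algebraMap κ M s ≠ 0 := by
    intro s h3
    apply ht
    rw [sub_eq_zero.mp h3]
    exact isAlgebraic_algebraMap s
  have hhX : height κ ![1, X'] ≤ height κ γ := height_lin_le hFF ξ₀ ξ₁
    (by rw [← hφ, r0]; exact hω0) (by rw [← hφ, r0, r1])
  have hhY : height κ ![1, Y] ≤ height κ γ := height_lin_le hFF ξ₀ ξ₂
    (by rw [← hφ, r0]; exact hω0) (by rw [← hφ, r0, r2])
  have hhX' : height κ ![1, X'] = (A.natDegree : ℤ) := by
    rw [hX', c33_height_X, hfin]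
  have hhδ : height κ ![1, δA] ≤ b * height κ ![1, X'] + b * height κ ![1, Y] := by
    rw [hδA]
    exact height_ev_le hFF (c33_box hboxA) X' Y
  have hhω : height κ ![1, ω] ≤ b * height κ ![1, X'] + b * height κ ![1, Y] := by
    rw [hω]
    exact height_ev_le hFF hboxW X' Y
  obtain ⟨p1, p1'⟩ := card_poles_le hFF X'
  obtain ⟨p2, p2'⟩ := card_poles_le hFF Y
  obtain ⟨p3, p3'⟩ := card_zeros_le hFF hδ
  obtain ⟨p4, p4'⟩ := card_zeros_le hFF hω0
  have hve : ∀ (w : Place κ M) {s t : κ}, w.1 (X' - algebraMap κ M s) < 1 →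
      w.1 (Y - algebraMap κ M t) < 1 → ∀ G : κ[X][X], w.1 (ev φ X' Y G) ≤ 1 ∧
        (w.1 (ev φ X' Y G) = 1 ↔ G.evalEval s t ≠ 0) := fun w s t hs htt G => val_ev hs htt G
  -- the good places
  set Z : Set (Place κ M) := {w | w.1 f' < vmax w.1 γ ^ (∑ l, El l)} with hZ
  have hZfin : Z.Finite := zeros_finiteV hγ hf0
  set Gd : Set (Place κ M) := {w | w.1 f' < vmax w.1 γ ^ (∑ l, El l) ∧ w.1 X' ≤ 1 ∧ w.1 Y ≤ 1 ∧
    w.1 δA = 1 ∧ w.1 ω = 1} with hGd
  have hGfin : Gd.Finite := hZfin.subset fun w hw => hw.1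
  have hpt : ∀ w : Place κ M, ∃ p : κ × κ, w ∈ Gd →
      w.1 (X' - algebraMap κ M p.1) < 1 ∧ w.1 (Y - algebraMap κ M p.2) < 1 := by
    intro w
    by_cases hw : w ∈ Gd
    · obtain ⟨s, hs⟩ := place_residue w hw.2.1
      obtain ⟨t, htt⟩ := place_residue w hw.2.2.1
      exact ⟨(s, t), fun _ => ⟨hs, htt⟩⟩
    · exact ⟨(0, 0), fun h => absurd h hw⟩
  choose pt hpt using hpt
  have hgood : (Gd.ncard : ℤ) ≤ 2 * A.natDegree + ((A.natDegree * (A.natDegree - 1) / 2 : ℕ) : ℤ) := by
    have hinj : Set.InjOn pt (hGfin.toFinset : Set (Place κ M)) := by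
      intro w hw w' hw' hww
      rw [Set.Finite.coe_toFinset] at hw hw'
      obtain ⟨hs, htt⟩ := hpt w hw
      obtain ⟨hs', htt'⟩ := hpt w' hw'
      rw [← hww] at hs' htt'
      refine place_unique hs htt hs' htt' hAP ?_ (hX'0 _) (c33_gen hgen)
      rw [← (hve w hs htt (derivative A)).2, ← hδA]
      exact hw.2.2.2.1
    have h5 := hcount (hGfin.toFinset.image pt) (by
      intro p hp
      rw [Finset.mem_image] at hp
      obtain ⟨w, hw, rfl⟩ := hp
      rw [Set.Finite.mem_toFinset] at hw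
      obtain ⟨hs, htt⟩ := hpt w hw
      have hw1 := hw.1
      obtain ⟨-, -, -, hwδ, hwω⟩ := hw
      refine ⟨?_, ?_, ?_, ?_⟩
      · by_contra h6
        have h7 := (hve w hs htt A).2.2 h6
        rw [hAP, map_zero] at h7
        exact zero_ne_one h7
      · rw [← (hve w hs htt (derivative A)).2, ← hδA]
        exact hwδ
      · rw [← (hve w hs htt Wd).2, ← hω]
        exact hwω
      · by_contra h6
        have h7 := (hve w hs htt (FB (∑ l, El l) aP Bv)).2.2 h6
        rw [← hf'] at h7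
        have h8 : vmax w.1 γ ≤ 1 := vmax_le _ fun j => (hve w hs htt (Bv j)).1
        rw [h7] at hw1
        exact absurd hw1 (not_lt.mpr (pow_le_one' h8 _)))
    rw [Finset.card_image_of_injOn hinj] at h5
    rw [Set.ncard_eq_toFinset_card Gd hGfin]
    exact_mod_cast h5
  have hcover : Z ⊆ Gd ∪ ({w : Place κ M | 1 < w.1 X'} ∪ ({w : Place κ M | 1 < w.1 Y} ∪
      ({w : Place κ M | w.1 δA < 1} ∪ {w : Place κ M | w.1 ω < 1}))) := by
    intro w hw
    by_cases c1 : 1 < w.1 X'
    · exact Or.inr (Or.inl c1)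
    by_cases c2 : 1 < w.1 Y
    · exact Or.inr (Or.inr (Or.inl c2))
    rw [not_lt] at c1 c2
    obtain ⟨s, hs⟩ := place_residue w c1
    obtain ⟨t, htt⟩ := place_residue w c2
    by_cases c3 : w.1 δA < 1
    · exact Or.inr (Or.inr (Or.inr (Or.inl c3)))
    by_cases c4 : w.1 ω < 1
    · exact Or.inr (Or.inr (Or.inr (Or.inr c4)))
    rw [not_lt] at c3 c4
    refine Or.inl ⟨hw, c1, c2, le_antisymm ?_ c3, le_antisymm ?_ c4⟩
    · rw [hδA]
      exact (hve w hs htt (derivative A)).1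
    · rw [hω]
      exact (hve w hs htt Wd).1
  have hZle : (Z.ncard : ℤ) ≤ Gd.ncard + ({w : Place κ M | 1 < w.1 X'}.ncard +
      ({w : Place κ M | 1 < w.1 Y}.ncard + ({w : Place κ M | w.1 δA < 1}.ncard +
        {w : Place κ M | w.1 ω < 1}.ncard))) := by
    have h5 := Set.ncard_le_ncard hcover (hGfin.union (p1.union (p2.union (p3.union p4))))
    have h6 := Set.ncard_union_le Gd ({w : Place κ M | 1 < w.1 X'} ∪
      ({w : Place κ M | 1 < w.1 Y} ∪ ({w : Place κ M | w.1 δA < 1} ∪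
        {w : Place κ M | w.1 ω < 1})))
    have h7 := Set.ncard_union_le {w : Place κ M | 1 < w.1 X'}
      ({w : Place κ M | 1 < w.1 Y} ∪ ({w : Place κ M | w.1 δA < 1} ∪
        {w : Place κ M | w.1 ω < 1}))
    have h8 := Set.ncard_union_le {w : Place κ M | 1 < w.1 Y}
      ({w : Place κ M | w.1 δA < 1} ∪ {w : Place κ M | w.1 ω < 1})
    have h9 := Set.ncard_union_le {w : Place κ M | w.1 δA < 1} {w : Place κ M | w.1 ω < 1}
    exact_mod_cast (by omega : Z.ncard ≤ Gd.ncard + ({w : Place κ M | 1 < w.1 X'}.ncard +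
      ({w : Place κ M | 1 < w.1 Y}.ncard + ({w : Place κ M | w.1 δA < 1}.ncard +
        {w : Place κ M | w.1 ω < 1}.ncard))))
  rw [hfin] at hram
  -- the zeros of the forms
  have hvle : ∀ (w : Place κ M) (l : Fin q), w.1 (hv l) ≤ vmax w.1 γ ^ El l := by
    intro w l
    rw [← hhv l, hη, ← Fval_aWP hg a γ l]
    unfold Fval mon
    refine w.1.map_sum_le fun I hI => ?_
    rw [map_mul, map_prod]
    have h5 : ∏ j, w.1 (γ j ^ I j) ≤ ∏ j, vmax w.1 γ ^ I j :=
      Finset.prod_le_prod' fun j _ => by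
        rw [map_pow]
        exact pow_le_pow_left' (le_vmax w.1 γ j) _
    refine (mul_le_mul' (place_const_le w _) h5).trans (le_of_eq ?_)
    rw [one_mul, Finset.prod_pow_eq_pow_sum, ← Finsupp.degree_eq_sum, mem_expo.1 hI]
  have hvm : ∀ w : Place κ M, vmax w.1 γ ≠ 0 := fun w h => hγ ((vmax_eq_zero_iff w.1).mp h)
  have hZZ : {w : Place κ M | ∃ t, w.1 (hv t) ≠ vmax w.1 γ ^ El t}.ncard ≤ Z.ncard := by
    refine Set.ncard_le_ncard ?_ hZfin
    rintro w ⟨t, ht'⟩
    show w.1 f' < vmax w.1 γ ^ (∑ l, El l)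
    rw [hf'prod, map_prod, ← Finset.prod_pow_eq_pow_sum,
      ← Finset.mul_prod_erase _ _ (Finset.mem_univ t),
      ← Finset.mul_prod_erase Finset.univ (fun l => vmax w.1 γ ^ El l) (Finset.mem_univ t)]
    have h5 : w.1 (hv t) < vmax w.1 γ ^ El t := lt_of_le_of_ne (hvle w t) ht'
    have h6 : ∏ l ∈ Finset.univ.erase t, w.1 (hv l) ≤
        ∏ l ∈ Finset.univ.erase t, vmax w.1 γ ^ El l :=
      Finset.prod_le_prod' fun l _ => hvle w l
    have h7 : 0 < ∏ l ∈ Finset.univ.erase t, vmax w.1 γ ^ El l :=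
      zero_lt_iff.2 (Finset.prod_ne_zero_iff.2 fun l _ => pow_ne_zero _ (hvm w))
    exact lt_of_le_of_lt (mul_le_mul' le_rfl h6) (mul_lt_mul_of_pos_right h5 h7)
  have hB1 : (Finset.univ.image jj).card = ρ + q := by
    rw [Finset.card_image_of_injective _ hjj, Finset.card_univ, Fintype.card_fin]
  have hB2 : ∑ j ∈ Finset.univ.image jj, d j = ∑ b, d (jj b) :=
    Finset.sum_image fun x _ y _ h => hjj h
  have hd' := hd _ hB1
  rw [hB2] at hd'
  have hcz : ({w : Place κ M | ∃ t, w.1 (hv t) ≠ vmax w.1 γ ^ El t}.ncard : ℤ) ≤ Z.ncard := by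
    exact_mod_cast hZZ
  have h9 : (Fintype.card ↥P' : ℤ) * height κ γ ≤ (s : ℤ) * height κ γ :=
    mul_le_mul_of_nonneg_right (by exact_mod_cast hP'c) hpos.le
  have hglob' : (((∑ b, d (jj b) : ℕ) : ℤ) + m + 2 + ρ) * height κ γ ≤
      (2 * (r + 1) + s) * height κ γ + ramDeg κ M (RatFunc κ) + (Z.ncard : ℤ) := by
    rw [Fintype.card_fin] at hglob
    push_cast at hglob ⊢
    linarith
  exact c33_num hd' hm' hdegA hboxA.1 hpos hglob' hram hZle hgood p1' p2' p3' p4' hhX hhY hhX'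
    hhδ hhω

end Pool.Agent.Lib.MP_44a246_ntC
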