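import Mathlib
import Pool.Agent.Lib.MP_44a246_ntY.Y56
import Pool.Agent.Lib.MP_44a246_ntY.Y74
import Pool.Agent.Lib.MP_44a246_ntC.C19
import Pool.Agent.Lib.MP_44a246_ntC.C34

/-!
Compactness for pairs: the coordinates of the points on curves of small degree in the variety which
meet the boundary in few points satisfy an equation.
-/

namespace Pool.Agent.Lib.MP_44a246_ntC

open Pool.Agent.Lib.MP_44a246_ntK
open Pool.Agent.Lib.MP_44a246_ntR
open Pool.Agent.Lib.MP_44a246_ntY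
open Pool.Agent.Lib.MP_44a246_ntD
open Pool.Agent.Lib.MP_44a246_ntQ
open Pool.Agent.Lib.MP_e52354_nt
open Pool.Agent.Lib.MP_44a246_nt
open Pool.Agent.Lib.MP_44a246_ntL
open Pool.Agent.Lib.MP_44a246_ntS
open Pool.Agent.Lib.MP_44a246_ntG
open Pool.Agent.Lib.MP_44a246_ntU

/-- functoriality of the coefficients of the equations, for the ultrapower -/
theorem aWP_psi {k k₂ L Ω : Type*} [Field k] [Field k₂] [Field L] [Field Ω] [Algebra k k₂]
    [Algebra k₂ L] [Algebra k L] [IsScalarTower k k₂ L] [Algebra k₂ Ω] [Algebra k Ω]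
    [IsScalarTower k k₂ Ω] (ψ : UP L →+* Ω)
    (hψ : ∀ u : k₂, ψ (constHom (algebraMap k₂ L u)) = algebraMap k₂ Ω u) {n p : ℕ}
    (d : Fin p → ℕ) (a : Fin p → (Fin n →₀ ℕ) → k₂) {ι : Type*}
    (F : ι → MvPolynomial (Fin p ⊕ Fin n) k) (i : ι) (I : Fin n →₀ ℕ) :
    ψ (constHom (aWP d (fun j I => algebraMap k₂ L (a j I)) F i I)) =
      aWP d (fun j I => algebraMap k₂ Ω (a j I)) F i I := by
  have hψk : ∀ u : k, (ψ.comp constHom) (algebraMap k L u) = algebraMap k Ω u := by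
    intro u
    show ψ (constHom (algebraMap k L u)) = _
    rw [IsScalarTower.algebraMap_apply k k₂ L, hψ, ← IsScalarTower.algebraMap_apply k k₂ Ω]
  have h1 := map_aWP d (fun j I => algebraMap k₂ L (a j I)) (ψ.comp constHom) hψk F i I
  have h2 : aWP d (fun j I => (ψ.comp constHom) (algebraMap k₂ L (a j I))) F =
      aWP d (fun j I => algebraMap k₂ Ω (a j I)) F := aWP_congr (fun j I _ => hψ _) F
  rw [h2] at h1
  exact h1

/-- the germs of the values of a form -/
theorem germ_FvalL {L Ω : Type*} [Field L] [Field Ω] (ψ : UP L →+* Ω) {n : ℕ}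
    (d : ℕ) (a : (Fin n →₀ ℕ) → L) (x : ℕ → Fin n → L) :
    ψ (germHom (fun N => Fval d a (x N))) =
      Fval d (fun I => ψ (constHom (a I))) (fun l => ψ (germHom (fun N => x N l))) := by
  have h2 : (fun N => Fval d a (x N)) =
      ∑ I ∈ expo (Fin n) d, (fun _ : ℕ => a I) * ∏ j, (fun N => x N j) ^ I j := by
    funext N
    unfold Fval mon
    simp only [Finset.sum_apply, Pi.mul_apply, Finset.prod_apply, Pi.pow_apply]
  rw [h2, map_sum, map_sum]
  unfold Fval mon
  refine Finset.sum_congr rfl fun I _ => ?_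
  rw [map_mul, map_mul, map_prod, map_prod]
  simp only [map_pow]
  rfl

/-- The contradiction in the ultrapower. -/
private theorem excLP_aux {k k₂ L : Type*} [Field k] [CharZero k] [Field k₂] [CharZero k₂]
    [Field L] [CharZero L] [Algebra k k₂] [Algebra k₂ L] [Algebra k L] [IsScalarTower k k₂ L]
    {Ω : Type*} [Field Ω] [IsAlgClosed Ω] [CharZero Ω] [Algebra k₂ Ω] [Algebra k Ω]
    [IsScalarTower k k₂ Ω]
    (ψ : UP L →+* Ω) (hψ : ∀ u : k₂, ψ (constHom (algebraMap k₂ L u)) = algebraMap k₂ Ω u)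
    {n m p r b s ρ q : ℕ} {d : Fin p → ℕ}
    (hd : ∀ B : Finset (Fin p), B.card = ρ + q →
      4 * r + 13 * b + 6 + 2 * s ≤ 2 * ((∑ j ∈ B, d j) + m + ρ))
    {ι : Type*} [Finite ι] {e : ι → ℕ}
    {f : ι → MvPolynomial (Fin p ⊕ Fin (n + 1)) k}
    (hf : ∀ i, (f i).IsWeightedHomogeneous (wtP (n + 1) d) (e i))
    (hI : ringKrullDim (MvPolynomial (Fin (n + 1)) k ⧸ imI f) ≤ ((r + 1 : ℕ) : ℕ))
    {g : Fin q → MvPolynomial (Fin p ⊕ Fin (n + 1)) k} {El : Fin q → ℕ}
    (hg : ∀ l, (g l).IsWeightedHomogeneous (wtP (n + 1) d) (El l))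
    {a : Fin p → (Fin (n + 1) →₀ ℕ) → k₂}
    {P : Finset (Fin p × (Fin (n + 1) →₀ ℕ))} (hP : P.card ≤ s)
    (ha : AlgebraicIndependent k (fun s : {s // s ∈ jexpo n d ∧ s ∉ P} => a s.1.1 s.1.2))
    {l : Fin (n + 1)} {j : Fin m → Fin (n + 1)}
    {z : ℕ → Fin m → L} {x : ℕ → Fin (n + 1) → L}
    (hz : ∀ H : MvPolynomial (Fin m) k₂, H ≠ 0 →
      ∃ N₀, ∀ N ≥ N₀, MvPolynomial.aeval (z N) H ≠ 0)
    (hcert : CertLV e
      (fun i I => ψ (constHom (aWP d (fun j I => algebraMap k₂ L (a j I)) f i I)))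
      (∑ l, El l) (fun I => ψ (constHom (aWP d (fun j I => algebraMap k₂ L (a j I))
        (fun _ : Unit => ∏ l, g l) () I))) b (fun j => ψ (germHom (fun N => x N j))))
    (hxg : ∀ N l, Fval (El l) (aWP d (fun j I => algebraMap k₂ L (a j I)) g l) (x N) ≠ 0)
    (hxn : ∀ N, JRank (ρ + q) (Sum.elim f g)
      (Sum.elim (fun i => Fval (d i) (fun I => algebraMap k₂ L (a i I)) (x N))
      (x N) : Fin p ⊕ Fin (n + 1) → L)) (hx2 : ∀ N, x N l = 1)
    (hx3 : ∀ N i, z N i = x N (j i)) : False := by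
  have hψk : ∀ u : k, ψ (constHom (algebraMap k L u)) = algebraMap k Ω u := by
    intro u
    rw [IsScalarTower.algebraMap_apply k k₂ L, hψ, ← IsScalarTower.algebraMap_apply k k₂ Ω]
  have hx0 : germHom (fun N => x N l) = 1 := by
    have : (fun N => x N l) = 1 := funext fun N => hx2 N
    rw [this, map_one]
  have hA1 : (fun i I => ψ (constHom (aWP d (fun j I => algebraMap k₂ L (a j I)) f i I))) =
      aWP d (fun j I => algebraMap k₂ Ω (a j I)) f :=
    funext fun i => funext fun I => aWP_psi ψ hψ d a f i I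
  have hA2 : (fun I => ψ (constHom (aWP d (fun j I => algebraMap k₂ L (a j I))
        (fun _ : Unit => ∏ l, g l) () I))) =
      aWP d (fun j I => algebraMap k₂ Ω (a j I)) (fun _ : Unit => ∏ l, g l) () :=
    funext fun I => aWP_psi ψ hψ d a (fun _ : Unit => ∏ l, g l) () I
  rw [hA1, hA2] at hcert
  have hJ : JRank (ρ + q) (Sum.elim f g) (Sum.elim (fun i => Fval (d i)
      (fun I => algebraMap k₂ Ω (a i I))
      (fun l => ψ (germHom (fun N => x N l)))) (fun l => ψ (germHom (fun N => x N l))) :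
        Fin p ⊕ Fin (n + 1) → Ω) := by
    have h1 := JRank.germ ψ hψk hxn
    have h2 : (fun s => ψ (germHom (fun N => (Sum.elim (fun i => Fval (d i)
        (fun I => algebraMap k₂ L (a i I)) (x N)) (x N) : Fin p ⊕ Fin (n + 1) → L) s))) =
        (Sum.elim (fun i => Fval (d i) (fun I => algebraMap k₂ Ω (a i I))
        (fun l => ψ (germHom (fun N => x N l)))) (fun l => ψ (germHom (fun N => x N l))) :
          Fin p ⊕ Fin (n + 1) → Ω) := by
      funext s
      rcases s with s | s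
      · exact germ_Fval ψ hψ (d s) (a s) x
      · rfl
    rw [h2] at h1
    exact h1
  have hG : ∀ l, Fval (El l) (aWP d (fun j I => algebraMap k₂ Ω (a j I)) g l)
      (fun l => ψ (germHom (fun N => x N l))) ≠ 0 := by
    intro l'
    have h1 := germ_FvalL ψ (El l') (aWP d (fun j I => algebraMap k₂ L (a j I)) g l') x
    have h2 : (fun I => ψ (constHom (aWP d (fun j I => algebraMap k₂ L (a j I)) g l' I))) =
        aWP d (fun j I => algebraMap k₂ Ω (a j I)) g l' :=
      funext fun I => aWP_psi ψ hψ d a g l' I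
    rw [h2] at h1
    rw [← h1, map_ne_zero]
    exact germ_ne_zero fun N => hxg N l'
  refine no_certLP_closed hd hf hI hg (l := l) (j := j) hP ?_ (k₂ := k₂) (a₂ := a)
    (fun j I _ => rfl) ?_ ?_ hG hJ hcert
  · have h1 := ha.map' (f := IsScalarTower.toAlgHom k k₂ Ω) (algebraMap k₂ Ω).injective
    exact h1
  · show ψ (germHom (fun N => x N l)) ≠ 0
    rw [hx0, map_one]
    exact one_ne_zero
  · have h1 := algIndep_germV ψ hψ (z := z) hz
    convert h1 using 1
    funext i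
    show ψ (germHom (fun N => x N (j i))) / ψ (germHom (fun N => x N l)) =
      ψ (germHom (fun N => z N i))
    rw [hx0, map_one, div_one]
    congr 2
    funext N
    exact (hx3 N i).symm

private theorem excLP_aux2 {k k₂ L : Type*} [Field k] [CharZero k] [Field k₂] [CharZero k₂]
    [Field L] [CharZero L] [Algebra k k₂] [Algebra k₂ L] [Algebra k L] [IsScalarTower k k₂ L]
    {Ω : Type*} [Field Ω] [IsAlgClosed Ω] [CharZero Ω]
    (ψ : UP L →+* Ω)
    {n m p r b s ρ q : ℕ} {d : Fin p → ℕ}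
    (hd : ∀ B : Finset (Fin p), B.card = ρ + q →
      4 * r + 13 * b + 6 + 2 * s ≤ 2 * ((∑ j ∈ B, d j) + m + ρ))
    {ι : Type*} [Finite ι] {e : ι → ℕ}
    {f : ι → MvPolynomial (Fin p ⊕ Fin (n + 1)) k}
    (hf : ∀ i, (f i).IsWeightedHomogeneous (wtP (n + 1) d) (e i))
    (hI : ringKrullDim (MvPolynomial (Fin (n + 1)) k ⧸ imI f) ≤ ((r + 1 : ℕ) : ℕ))
    {g : Fin q → MvPolynomial (Fin p ⊕ Fin (n + 1)) k} {El : Fin q → ℕ}
    (hg : ∀ l, (g l).IsWeightedHomogeneous (wtP (n + 1) d) (El l))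
    {a : Fin p → (Fin (n + 1) →₀ ℕ) → k₂}
    {P : Finset (Fin p × (Fin (n + 1) →₀ ℕ))} (hP : P.card ≤ s)
    (ha : AlgebraicIndependent k (fun s : {s // s ∈ jexpo n d ∧ s ∉ P} => a s.1.1 s.1.2))
    {l : Fin (n + 1)} {j : Fin m → Fin (n + 1)}
    {z : ℕ → Fin m → L} {x : ℕ → Fin (n + 1) → L}
    (hz : ∀ H : MvPolynomial (Fin m) k₂, H ≠ 0 →
      ∃ N₀, ∀ N ≥ N₀, MvPolynomial.aeval (z N) H ≠ 0)
    (hcert : CertLV e
      (fun i I => ψ (constHom (aWP d (fun j I => algebraMap k₂ L (a j I)) f i I)))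
      (∑ l, El l) (fun I => ψ (constHom (aWP d (fun j I => algebraMap k₂ L (a j I))
        (fun _ : Unit => ∏ l, g l) () I))) b (fun j => ψ (germHom (fun N => x N j))))
    (hxg : ∀ N l, Fval (El l) (aWP d (fun j I => algebraMap k₂ L (a j I)) g l) (x N) ≠ 0)
    (hxn : ∀ N, JRank (ρ + q) (Sum.elim f g)
      (Sum.elim (fun i => Fval (d i) (fun I => algebraMap k₂ L (a i I)) (x N))
      (x N) : Fin p ⊕ Fin (n + 1) → L)) (hx2 : ∀ N, x N l = 1)
    (hx3 : ∀ N i, z N i = x N (j i)) : False := by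
  let _ : Algebra k₂ Ω := (ψ.comp (constHom.comp (algebraMap k₂ L))).toAlgebra
  let _ : Algebra k Ω := ((algebraMap k₂ Ω).comp (algebraMap k k₂)).toAlgebra
  have t : IsScalarTower k k₂ Ω := IsScalarTower.of_algebraMap_eq fun u => rfl
  exact excLP_aux ψ (fun u => rfl) hd hf hI hg hP ha hz hcert hxg hxn hx2 hx3

/-- **Compactness.** -/
theorem exists_excLP {k K L : Type*} [Field k] [CharZero k] [Countable k] [Field K] [CharZero K]
    [Field L] [CharZero L] [IsAlgClosed L] [Algebra k K] [Algebra K L] [Algebra k L]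
    [IsScalarTower k K L]
    {n m p r b s ρ q : ℕ} {d : Fin p → ℕ}
    (hd : ∀ B : Finset (Fin p), B.card = ρ + q →
      4 * r + 13 * b + 6 + 2 * s ≤ 2 * ((∑ j ∈ B, d j) + m + ρ))
    {ι : Type*} [Finite ι] {e : ι → ℕ}
    {f : ι → MvPolynomial (Fin p ⊕ Fin (n + 1)) k}
    (hf : ∀ i, (f i).IsWeightedHomogeneous (wtP (n + 1) d) (e i))
    (hI : ringKrullDim (MvPolynomial (Fin (n + 1)) k ⧸ imI f) ≤ ((r + 1 : ℕ) : ℕ))
    {g : Fin q → MvPolynomial (Fin p ⊕ Fin (n + 1)) k} {El : Fin q → ℕ}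
    (hg : ∀ l, (g l).IsWeightedHomogeneous (wtP (n + 1) d) (El l))
    {a : Fin p → (Fin (n + 1) →₀ ℕ) → K}
    {P : Finset (Fin p × (Fin (n + 1) →₀ ℕ))} (hP : P.card ≤ s)
    (ha : AlgebraicIndependent k (fun s : {s // s ∈ jexpo n d ∧ s ∉ P} => a s.1.1 s.1.2))
    (l : Fin (n + 1)) (j : Fin m → Fin (n + 1)) :
    ∃ h : MvPolynomial (Fin m) K, h ≠ 0 ∧ ∀ x : Fin (n + 1) → L,
      CertLV e (aWP d (fun j I => algebraMap K L (a j I)) f) (∑ l, El l)
        (aWP d (fun j I => algebraMap K L (a j I)) (fun _ : Unit => ∏ l, g l) ()) b x →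
      (∀ l, Fval (El l) (aWP d (fun j I => algebraMap K L (a j I)) g l) x ≠ 0) →
      JRank (ρ + q) (Sum.elim f g)
        (Sum.elim (fun i => Fval (d i) (fun I => algebraMap K L (a i I)) x) x :
        Fin p ⊕ Fin (n + 1) → L) → x l ≠ 0 →
        MvPolynomial.aeval (fun i => x (j i) / x l) h = 0 := by
  classical
  -- the field of the coefficients
  set k₂ : IntermediateField k K := IntermediateField.adjoin k
    (Set.range fun I : ↥(jexpo n d) => a I.1.1 I.1.2) with hk₂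
  have hc2 : Countable k₂ := countable_adjoin _
  obtain ⟨a₂, ha₂⟩ : ∃ a₂ : Fin p → (Fin (n + 1) →₀ ℕ) → k₂,
      ∀ j, ∀ I ∈ expo (Fin (n + 1)) (d j), (a₂ j I : K) = a j I :=
    ⟨fun j I => if hI : I ∈ expo (Fin (n + 1)) (d j) then ⟨a j I,
      IntermediateField.subset_adjoin k _ ⟨⟨(j, I), mem_jexpo.2 hI⟩, rfl⟩⟩ else 0,
      fun j I hI => by simp only [dif_pos hI]⟩
  have ha' : AlgebraicIndependent k
      (fun s : {s // s ∈ jexpo n d ∧ s ∉ P} => a₂ s.1.1 s.1.2) := by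
    refine AlgebraicIndependent.of_comp k₂.val ?_
    have h1 : (k₂.val ∘ fun s : {s // s ∈ jexpo n d ∧ s ∉ P} => a₂ s.1.1 s.1.2) =
        fun s : {s // s ∈ jexpo n d ∧ s ∉ P} => a s.1.1 s.1.2 := by
      funext I
      exact ha₂ I.1.1 I.1.2 (mem_jexpo.1 I.2.1)
    rw [h1]
    exact ha
  have hAf : aWP d (fun j I => algebraMap K L (a j I)) f =
      aWP d (fun j I => algebraMap k₂ L (a₂ j I)) f := by
    refine aWP_congr (fun j I hI => ?_) f
    rw [← ha₂ j I hI]
    rfl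
  have hAg : aWP d (fun j I => algebraMap K L (a j I)) g =
      aWP d (fun j I => algebraMap k₂ L (a₂ j I)) g := by
    refine aWP_congr (fun j I hI => ?_) g
    rw [← ha₂ j I hI]
    rfl
  have hAP : aWP d (fun j I => algebraMap K L (a j I)) (fun _ : Unit => ∏ l, g l) =
      aWP d (fun j I => algebraMap k₂ L (a₂ j I)) (fun _ : Unit => ∏ l, g l) := by
    refine aWP_congr (fun j I hI => ?_) _
    rw [← ha₂ j I hI]
    rfl
  set S : Set (Fin m → L) := {z | ∃ x : Fin (n + 1) → L,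
    CertLV e (aWP d (fun j I => algebraMap K L (a j I)) f) (∑ l, El l)
        (aWP d (fun j I => algebraMap K L (a j I)) (fun _ : Unit => ∏ l, g l) ()) b x ∧
      (∀ l, Fval (El l) (aWP d (fun j I => algebraMap K L (a j I)) g l) x ≠ 0) ∧
      JRank (ρ + q) (Sum.elim f g)
        (Sum.elim (fun i => Fval (d i) (fun I => algebraMap K L (a i I)) x) x :
        Fin p ⊕ Fin (n + 1) → L) ∧ x l = 1 ∧
      ∀ i : Fin m, z i = x (j i)} with hS
  have key : ∃ h : MvPolynomial (Fin m) K, h ≠ 0 ∧ ∀ z ∈ S, MvPolynomial.aeval z h = 0 := by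
    by_contra hcon
    push Not at hcon
    obtain ⟨z, hzS, hz⟩ := exists_generic_seqC (k := k₂) (L := L) (S := S) fun g hg => by
      obtain ⟨z, hz1, hz2⟩ := hcon g hg
      exact ⟨z, hz1, hz2⟩
    choose x hx1 hxg hxn hx2 hx3 using hzS
    have hcU : CharZero (UP L) := charZero_of_injective_ringHom (constHom (L := L)).injective
    have hac : IsAlgClosed (UP L) := isAlgClosed_UP L
    have hxn' : ∀ N, JRank (ρ + q) (Sum.elim f g) (Sum.elim (fun i => Fval (d i)
        (fun I => algebraMap k₂ L (a₂ i I)) (x N)) (x N) : Fin p ⊕ Fin (n + 1) → L) := by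
      intro N
      have h1 := hxn N
      have h2 : (fun i => Fval (d i) (fun I => algebraMap K L (a i I)) (x N)) =
          fun i => Fval (d i) (fun I => algebraMap k₂ L (a₂ i I)) (x N) := by
        funext i
        unfold Fval
        refine Finset.sum_congr rfl fun I hI => ?_
        beta_reduce
        rw [← ha₂ i I hI]
        rfl
      rw [h2] at h1
      exact h1
    rw [hAf, hAP] at hx1
    rw [hAg] at hxg
    have hcert := certLV_germ hx1
    exact excLP_aux2 (a := a₂) (l := l) (j := j) (z := z) (x := x)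
      (RingHom.id (UP L)) hd hf hI hg hP ha' hz hcert hxg hxn' hx2 hx3
  obtain ⟨h, hh0, hh⟩ := key
  refine ⟨h, hh0, fun x hx hxg hxn hx0 => ?_⟩
  refine hh _ ⟨fun k => (x l)⁻¹ * x k, hx.smul_of (inv_ne_zero hx0), ?_,
    ?_, inv_mul_cancel₀ hx0, fun i => div_eq_inv_mul _ _⟩
  · intro l'
    rw [Fval_smul]
    exact mul_ne_zero (pow_ne_zero _ (inv_ne_zero hx0)) (hxg l')
  · have h1 := JRank.smul (e := Sum.elim e El) (f := Sum.elim f g) (by
      rintro (i | i)
      · exact hf i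
      · exact hg i) hxn (inv_ne_zero hx0)
    have h2 : (Sum.elim (fun i => Fval (d i) (fun I => algebraMap K L (a i I))
        (fun k => (x l)⁻¹ * x k)) (fun k => (x l)⁻¹ * x k) : Fin p ⊕ Fin (n + 1) → L) =
        Sum.elim (fun j => (x l)⁻¹ ^ d j * (Sum.elim (fun i => Fval (d i)
          (fun I => algebraMap K L (a i I)) x) x : Fin p ⊕ Fin (n + 1) → L) (Sum.inl j))
          (fun k => (x l)⁻¹ * (Sum.elim (fun i => Fval (d i)
          (fun I => algebraMap K L (a i I)) x) x : Fin p ⊕ Fin (n + 1) → L) (Sum.inr k)) := by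
      funext s
      rcases s with s | s
      · simp only [Sum.elim_inl]
        rw [Fval_smul]
      · rfl
    rw [h2]
    exact h1

end Pool.Agent.Lib.MP_44a246_ntC
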