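import Mathlib
import Pool.Agent.Lib.MP_44a246_ntK.K19
import Pool.Agent.Lib.MP_44a246_ntC.C29
import Pool.Agent.Lib.MP_44a246_ntC.C36

/-!
Algebraic points over function fields: pairs which are given by generic forms; a point of large
height has a large truncated counting function or lies in a closed set of small dimension, which is
covered by curves of small degree which meet the boundary in few points.
-/

namespace Pool.Agent.Lib.MP_44a246_ntC

open Pool.Agent.Lib.MP_44a246_ntR
open Pool.Agent.Lib.MP_44a246_ntF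
open Pool.Agent.Lib.MP_44a246_ntD
open Pool.Agent.Lib.MP_44a246_ntQ
open Pool.Agent.Lib.MP_44a246_nt
open Pool.Agent.Lib.MP_e52354_ntK
open Pool.Agent.Lib.MP_44a246_ntL
open Pool.Agent.Lib.MP_44a246_ntS
open Pool.Agent.Lib.MP_44a246_ntX
open Pool.Agent.Lib.MP_44a246_ntG
open Pool.Agent.Lib.MP_44a246_ntU
open Pool.Agent.Lib.MP_44a246_ntY
open Pool.Agent.Lib.MP_44a246_ntK
open Pool.Agent.Lib.MP_e52354_nt
open MvPolynomial Module

universe u v w y

/-- **Points of large height and small truncated counting function are on curves of small degree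
which meet the boundary in few points**, and these are contained in a closed set of small
dimension. -/
theorem pair_mainC {κ : Type u} {K : Type v} [Field κ] [IsAlgClosed κ] [CharZero κ] [Field K]
    [CharZero K] [Algebra κ K] (htr : Cardinal.aleph0 ≤ Algebra.trdeg ℚ κ)
    {t : K} (ht : Transcendental κ t) [FiniteDimensional (IntermediateField.adjoin κ {t}) K]
    {k : Type*} [Field k] [CharZero k] [Algebra k K] (hk : Algebra.trdeg ℚ k < Cardinal.aleph0)
    {n p r ρ q c b l s m P Q m' : ℕ} {d : Fin p → ℕ} {ι : Type y} [Finite ι] {e : ι → ℕ}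
    {f : ι → MvPolynomial (Fin p ⊕ Fin (n + 1)) k}
    (hf : ∀ i, (f i).IsWeightedHomogeneous (Sum.elim d fun _ => 1) (e i))
    {g : Fin q → MvPolynomial (Fin p ⊕ Fin (n + 1)) k} {E : Fin q → ℕ}
    (hg : ∀ l, (g l).IsWeightedHomogeneous (Sum.elim d fun _ => 1) (E l))
    (hI : ringKrullDim (MvPolynomial (Fin (n + 1)) k ⧸
      (Ideal.span (Set.range f)).comap (rename (Sum.inr : Fin (n + 1) → Fin p ⊕ Fin (n + 1)))) ≤
        ((r + 1 : ℕ) : WithBot ℕ∞))
    (hb : 1 ≤ b) (hl : 1 ≤ l) (hp : 1 ≤ p)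
    (hms : ∀ A : Finset (Fin p), A.card = ρ + q → m + s ≤ ∑ j ∈ A, d j)
    (hd : ∀ j, 10 * b ^ 2 ≤ d j ∧ r + c + q ≤ l * d j ∧ 150 * (b * l) ≤ d j ∧
      100 * (b * (s + 3)) + 10 * q ≤ d j ∧ Q ≤ d j ^ 2)
    (hN : 21 * (r + c + q) + 20 * b * (r + 2 + 12 * b * l * (ρ + q) + 2 * b * (ρ + q)) ≤
      20 * b * (m + ρ + q))
    (he : ∀ i, 100 * (b * (s + 3) * e i) ≤ Q ∨ 9 * b * e i ≤ P)
    (hm' : ∀ A : Finset (Fin p), A.card = ρ + q →
      4 * r + 13 * b + 6 + 2 * c ≤ 2 * ((∑ j ∈ A, d j) + m' + ρ))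
    {S : Set (Place κ K)} (hS : S.Finite)
    (H : Fin p → MvPolynomial (Fin (n + 1)) K) (hH : ∀ j, (H j).IsHomogeneous (d j))
    (hgen : (Nat.card {I : Fin p × (Fin (n + 1) →₀ ℕ) // I.2.degree = d I.1} : Cardinal) ≤
      Algebra.trdeg k (IntermediateField.adjoin k
        (Set.range fun I : {I : Fin p × (Fin (n + 1) →₀ ℕ) // I.2.degree = d I.1} =>
          (H I.1.1).coeff I.1.2)) + c) :
    ∃ (a : ℕ) (G : Fin a → MvPolynomial (Fin (n + 1)) K), (∀ i, ∃ E, (G i).IsHomogeneous E) ∧
      ringKrullDim (MvPolynomial (Fin (n + 1)) K ⧸ Ideal.span (Set.range G)) ≤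
        (m' : WithBot ℕ∞) ∧
      ∃ C : ℕ, ∀ (L : Type w) [Field L] [Algebra K L] [FiniteDimensional K L] [Algebra κ L]
        [IsScalarTower κ K L] [Algebra k L] [IsScalarTower k K L] (x : Fin (n + 1) → L), x ≠ 0 →
        (∀ i, aeval (Sum.elim (fun j => aeval x (H j)) x : Fin p ⊕ Fin (n + 1) → L) (f i) = 0) →
        (∀ i, aeval (Sum.elim (fun j => aeval x (H j)) x : Fin p ⊕ Fin (n + 1) → L) (g i) ≠ 0) →
        JRank (ρ + q) (Sum.elim f g)
            (Sum.elim (fun j => aeval x (H j)) x : Fin p ⊕ Fin (n + 1) → L) →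
        (s * height κ x < Set.ncard {w : Place κ L |
              (∀ v ∈ S, ¬ (w.1.comap (algebraMap K L)).IsEquiv v.1) ∧
              ∃ l, w.1 (aeval (Sum.elim (fun j => aeval x (H j)) x : Fin p ⊕ Fin (n + 1) → L)
                (g l)) < vmax w.1 x ^ E l} + ramDeg κ L K ∨
          (Q : ℤ) * height κ x ≤ C * finrank K L + P * ramDeg κ L K ∨
          (∑ l, E l ≠ 0 ∧ height κ x ≤ C * finrank K L +
            cE b ((∑ l, E l) * b) (∑ l, E l) * (Set.ncard {w : Place κ L |
              (∀ v ∈ S, ¬ (w.1.comap (algebraMap K L)).IsEquiv v.1) ∧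
              ∃ l, w.1 (aeval (Sum.elim (fun j => aeval x (H j)) x : Fin p ⊕ Fin (n + 1) → L)
                (g l)) < vmax w.1 x ^ E l} + (2 * ∑ l, E l + 2) * ramDeg κ L K))) ∨
          (∀ i, aeval x (G i) = 0) ∧
            CertV e (aWP d (fun j I => algebraMap K L ((H j).coeff I)) f) b x ∧
            ∀ φ : L →ₐ[K] AlgebraicClosure K,
              CertLV e (aWP d (fun j I => algebraMap K (AlgebraicClosure K) ((H j).coeff I)) f)
                (∑ l, E l) (aWP d (fun j I => algebraMap K (AlgebraicClosure K) ((H j).coeff I))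
                  (fun _ : Unit => ∏ l, g l) ()) b (fun j => φ (x j)) := by
  classical
  obtain ⟨G₀, hG₀, ha⟩ := exists_fewK (fun j I => (H j).coeff I) hgen
  have hf' : ∀ i, (f i).IsWeightedHomogeneous (wtP (n + 1) d) (e i) := hf
  have hg' : ∀ i, (g i).IsWeightedHomogeneous (wtP (n + 1) d) (E i) := hg
  have hI' : ringKrullDim (MvPolynomial (Fin (n + 1)) k ⧸ imI f) ≤ ((r + 1 : ℕ) : ℕ) := hI
  have hK : IsFF κ K := ⟨t, ht, inferInstance⟩
  have hkc : Countable k := countable_of_trdeg hk
  obtain ⟨a, G, hG1, hG2, hG3⟩ := exists_excFormsLP.{v, w} (ρ := ρ) (m := m') (b := b)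
    (a := fun j I => (H j).coeff I) hm' hf' hI' hg' hG₀ ha
  obtain ⟨C, hCC⟩ := heightP_baseCl.{u, v, w, v, y} (κ := κ) (K := K) (ρ := ρ) (s := s) (Q := Q)
    (P := P) hK htr hk hb hl hp hms hd hN he hf' hI' hg' hS
    (a := fun j I => (H j).coeff I) hG₀ ha
  refine ⟨a, G, hG1, hG2, C, ?_⟩
  intro L _ _ _ _ _ _ _ x hx hfx hgx hne
  have hev : (fun j => aeval x (H j)) =
      fun j => Fval (d j) (fun I => algebraMap K L ((H j).coeff I)) x :=
    funext fun j => Pool.Agent.Lib.MP_44a246_ntU.aeval_eq_Fval (hH j) x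
  have hvf : ∀ (i : ι),
      Fval (e i) (aWP d (fun j I => algebraMap K L ((H j).coeff I)) f i) x =
        aeval (Sum.elim (fun j => aeval x (H j)) x : Fin p ⊕ Fin (n + 1) → L) (f i) := by
    intro i
    rw [hev, Fval_aWP' hf']
  have hvg : ∀ (i : Fin q),
      Fval (E i) (aWP d (fun j I => algebraMap K L ((H j).coeff I)) g i) x =
        aeval (Sum.elim (fun j => aeval x (H j)) x : Fin p ⊕ Fin (n + 1) → L) (g i) := by
    intro i
    rw [hev, Fval_aWP' hg']
  have hfx' : ∀ i, Fval (e i) (aWP d (fun j I => algebraMap K L ((H j).coeff I)) f i) x = 0 :=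
    fun i => by rw [hvf, hfx]
  have hgx' : ∀ i, Fval (E i) (aWP d (fun j I => algebraMap K L ((H j).coeff I)) g i) x ≠ 0 :=
    fun i => by
      rw [hvg]
      exact hgx i
  have hne' : JRank (ρ + q) (Sum.elim f g) (Sum.elim
      (fun j => Fval (d j) (fun I => algebraMap K L ((H j).coeff I)) x) x :
        Fin p ⊕ Fin (n + 1) → L) := by
    rw [← hev]
    exact hne
  have key := hCC L x hx hfx' hgx' (Or.inl hne')
  simp only [hvg] at key
  rcases key with h | h | h | ⟨h, h'⟩
  · exact Or.inl (Or.inl h)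
  · exact Or.inl (Or.inr (Or.inl h))
  · exact Or.inl (Or.inr (Or.inr h))
  right
  have hcert : ∀ φ : L →ₐ[K] AlgebraicClosure K,
      CertLV e (aWP d (fun j I => algebraMap K (AlgebraicClosure K) ((H j).coeff I)) f)
        (∑ l, E l) (aWP d (fun j I => algebraMap K (AlgebraicClosure K) ((H j).coeff I))
          (fun _ : Unit => ∏ l, g l) ()) b (fun j => φ (x j)) := by
    intro φ
    let _ : Algebra L (AlgebraicClosure K) := φ.toRingHom.toAlgebra
    have t1 : IsScalarTower K L (AlgebraicClosure K) :=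
      IsScalarTower.of_algebraMap_eq fun u => (φ.commutes u).symm
    have t2 : IsScalarTower κ L (AlgebraicClosure K) := by
      refine IsScalarTower.of_algebraMap_eq fun u => ?_
      rw [IsScalarTower.algebraMap_apply κ K L, ← IsScalarTower.algebraMap_apply K L,
        ← IsScalarTower.algebraMap_apply κ K]
    have t3 : Algebra.IsAlgebraic L (AlgebraicClosure K) :=
      Algebra.IsAlgebraic.tower_top (K := K) L
    have h1 := h' (AlgebraicClosure K)
    have hφk : ∀ u : k, (algebraMap L (AlgebraicClosure K)) (algebraMap k L u) =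
        algebraMap k (AlgebraicClosure K) u := by
      intro u
      rw [IsScalarTower.algebraMap_apply k K L, ← IsScalarTower.algebraMap_apply K L,
        ← IsScalarTower.algebraMap_apply k K]
    have h2 : (fun i I => algebraMap L (AlgebraicClosure K)
        (aWP d (fun j I => algebraMap K L ((H j).coeff I)) f i I)) =
        aWP d (fun j I => algebraMap K (AlgebraicClosure K) ((H j).coeff I)) f := by
      funext o I
      rw [map_aWP d _ (algebraMap L (AlgebraicClosure K)) hφk f o I]
      exact congrFun (congrFun (aWP_congr (fun j I _ =>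
        (IsScalarTower.algebraMap_apply K L (AlgebraicClosure K) _).symm) f) o) I
    have h3 : (fun I => algebraMap L (AlgebraicClosure K)
        (aWP d (fun j I => algebraMap K L ((H j).coeff I)) (fun _ : Unit => ∏ l, g l) () I)) =
        aWP d (fun j I => algebraMap K (AlgebraicClosure K) ((H j).coeff I))
          (fun _ : Unit => ∏ l, g l) () := by
      funext I
      rw [map_aWP d _ (algebraMap L (AlgebraicClosure K)) hφk (fun _ : Unit => ∏ l, g l) () I]
      exact congrFun (congrFun (aWP_congr (fun j I _ =>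
        (IsScalarTower.algebraMap_apply K L (AlgebraicClosure K) _).symm)
          (fun _ : Unit => ∏ l, g l)) ()) I
    rw [h2, h3] at h1
    exact h1
  let φ₀ : L →ₐ[K] AlgebraicClosure K := IsAlgClosed.lift
  exact ⟨hG3 L φ₀ x (hcert φ₀) hgx' hne', h, hcert⟩

end Pool.Agent.Lib.MP_44a246_ntC
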